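import Pool.Agent.RAC963.BoxT

set_option autoImplicit false

namespace Pool.Agent.RAC963

/-- The facts about a horizontal arm from the cell `(cx, cy)` to the hub `h`, ending at the
abscissa `a`. -/
def box1_Hor {H : Type} (L : Boxes H) (U : H → Prop) (cx cy : ℤ) (h : H) (a : ℤ) : Prop :=
  L.InRow h cy ∧ ((a ≤ cx ∧ L.x2 h = a) ∨ (cx < a ∧ L.x1 h = a)) ∧
    ∀ g, U g → L.InRow g cy → g = h ∨ (a ≤ cx ∧ (L.x2 g < a ∨ cx < L.x1 g)) ∨
      (cx < a ∧ (a < L.x1 g ∨ L.x2 g ≤ cx))

/-- The facts about a vertical arm from the cell `(cx, cy)` to the hub `h`, ending at the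
ordinate `a`. -/
def box1_Ver {H : Type} (L : Boxes H) (U : H → Prop) (cx cy : ℤ) (h : H) (a : ℤ) : Prop :=
  L.InCol h cx ∧ ((a ≤ cy ∧ L.y2 h = a) ∨ (cy < a ∧ L.y1 h = a)) ∧
    ∀ g, U g → L.InCol g cx → g = h ∨ (a ≤ cy ∧ (L.y2 g < a ∨ cy < L.y1 g)) ∨
      (cy < a ∧ (a < L.y1 g ∨ L.y2 g ≤ cy))

theorem box1_segH {x y a : ℝ} {z : Pt} (hz : z ∈ segment ℝ ((x, y) : Pt) (a, y)) :
    z.2 = y ∧ ((x ≤ z.1 ∧ z.1 ≤ a) ∨ (a ≤ z.1 ∧ z.1 ≤ x)) := by
  obtain ⟨p, q, hp, hq, hpq, rfl⟩ := hz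
  simp only [Prod.smul_mk, Prod.mk_add_mk, smul_eq_mul]
  refine ⟨by rw [← add_mul, hpq, one_mul], ?_⟩
  obtain rfl : p = 1 - q := by linarith
  rcases le_total x a with h | h
  · left; constructor <;> nlinarith
  · right; constructor <;> nlinarith

theorem box1_segV {x y a : ℝ} {z : Pt} (hz : z ∈ segment ℝ ((x, y) : Pt) (x, a)) :
    z.1 = x ∧ ((y ≤ z.2 ∧ z.2 ≤ a) ∨ (a ≤ z.2 ∧ z.2 ≤ y)) := by
  obtain ⟨p, q, hp, hq, hpq, rfl⟩ := hz
  simp only [Prod.smul_mk, Prod.mk_add_mk, smul_eq_mul]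
  refine ⟨by rw [← add_mul, hpq, one_mul], ?_⟩
  obtain rfl : p = 1 - q := by linarith
  rcases le_total y a with h | h
  · left; constructor <;> nlinarith
  · right; constructor <;> nlinarith

theorem box1_open {x a u : ℝ} (h : (x ≤ u ∧ u ≤ a) ∨ (a ≤ u ∧ u ≤ x)) (h1 : u ≠ x) (h2 : u ≠ a) :
    ∃ p q : ℝ, 0 < p ∧ 0 < q ∧ p + q = 1 ∧ p * x + q * a = u := by
  rcases h with ⟨h3, h4⟩ | ⟨h3, h4⟩
  · have h5 : x < u := lt_of_le_of_ne h3 (Ne.symm h1)
    have h6 : u < a := lt_of_le_of_ne h4 h2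
    have h7 : 0 < a - x := by linarith
    refine ⟨(a - u) / (a - x), (u - x) / (a - x), div_pos (by linarith) h7,
      div_pos (by linarith) h7, ?_, ?_⟩
    · rw [← add_div, div_eq_one_iff_eq h7.ne']; ring
    · field_simp; ring
  · have h5 : u < x := lt_of_le_of_ne h4 h1
    have h6 : a < u := lt_of_le_of_ne h3 (Ne.symm h2)
    have h7 : 0 < x - a := by linarith
    refine ⟨(u - a) / (x - a), (x - u) / (x - a), div_pos (by linarith) h7,
      div_pos (by linarith) h7, ?_, ?_⟩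
    · rw [← add_div, div_eq_one_iff_eq h7.ne']; ring
    · field_simp; ring

theorem box1_openH {x y a : ℝ} {z : Pt} (hz : z.2 = y)
    (h : (x ≤ z.1 ∧ z.1 ≤ a) ∨ (a ≤ z.1 ∧ z.1 ≤ x)) (h1 : z.1 ≠ x) (h2 : z.1 ≠ a) :
    z ∈ openSegment ℝ ((x, y) : Pt) (a, y) := by
  obtain ⟨p, q, hp, hq, hpq, he⟩ := box1_open h h1 h2
  refine ⟨p, q, hp, hq, hpq, ?_⟩
  simp only [Prod.smul_mk, Prod.mk_add_mk, smul_eq_mul]
  apply Prod.ext
  · exact he
  · show p * y + q * y = z.2
    rw [← add_mul, hpq, one_mul, hz]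

theorem box1_openV {x y a : ℝ} {z : Pt} (hz : z.1 = x)
    (h : (y ≤ z.2 ∧ z.2 ≤ a) ∨ (a ≤ z.2 ∧ z.2 ≤ y)) (h1 : z.2 ≠ y) (h2 : z.2 ≠ a) :
    z ∈ openSegment ℝ ((x, y) : Pt) (x, a) := by
  obtain ⟨p, q, hp, hq, hpq, he⟩ := box1_open h h1 h2
  refine ⟨p, q, hp, hq, hpq, ?_⟩
  simp only [Prod.smul_mk, Prod.mk_add_mk, smul_eq_mul]
  apply Prod.ext
  · show p * x + q * x = z.1
    rw [← add_mul, hpq, one_mul, hz]
  · exact he

/-- The arms from a seat. -/
theorem box1_seat {H : Type} {𝓔 : List (List H)} (L : Boxes H)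
    (hnd : ∀ h, L.x1 h < L.x2 h ∧ L.y1 h < L.y2 h)
    (hs : ∀ E ∈ 𝓔, Seat1 L (Used 𝓔) E) (j : ℕ) :
    ∃ (cx cy : ℤ) (R : H → Fin 4 → Prop), (∀ h h' δ, R h δ → R h' δ → h = h') ∧
      (∀ h, In 𝓔 j h → ∃ δ, R h δ) ∧
      (∀ h, R h 0 → L.x2 h ≤ cx ∧ box1_Hor L (Used 𝓔) cx cy h (L.x2 h)) ∧
      (∀ h, R h 1 → cx < L.x1 h ∧ box1_Hor L (Used 𝓔) cx cy h (L.x1 h)) ∧
      (∀ h, R h 2 → L.y2 h ≤ cy ∧ box1_Ver L (Used 𝓔) cx cy h (L.y2 h)) ∧
      (∀ h, R h 3 → cy < L.y1 h ∧ box1_Ver L (Used 𝓔) cx cy h (L.y1 h)) ∧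
      (j < 𝓔.length → ∀ g, Used 𝓔 g → L.InRow g cy → L.InCol g cx → False) := by
  by_cases hj : j < 𝓔.length
  · obtain ⟨cx, cy, l, r, u, d, S, hE⟩ := hs 𝓔[j] (List.getElem_mem hj)
    obtain ⟨bl1, bl2⟩ := hnd l
    obtain ⟨br1, br2⟩ := hnd r
    obtain ⟨bu1, bu2⟩ := hnd u
    obtain ⟨bd1, bd2⟩ := hnd d
    have xl := S.xl
    have xr := S.xr
    have yu := S.yu
    have yd := S.yd
    refine ⟨cx, cy, fun h δ => h = ![l, r, u, d] δ, ?_, ?_, ?_, ?_, ?_, ?_, ?_⟩
    · intro h h' δ h1 h2; rw [h1, h2]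
    · intro h hh
      have h1 : h ∈ 𝓔[j] := by
        unfold In at hh
        rwa [List.getD_eq_getElem _ _ hj] at hh
      rcases hE h h1 with h2 | h2 | h2 | h2
      · exact ⟨0, h2⟩
      · exact ⟨1, h2⟩
      · exact ⟨2, h2⟩
      · exact ⟨3, h2⟩
    · rintro h rfl
      refine ⟨S.xl, S.rl, Or.inl ⟨S.xl, rfl⟩, ?_⟩
      intro g hg hgr
      rcases S.row g hg hgr with h1 | h1 | h1 | h1
      · left; exact h1
      · right; left; subst h1; exact ⟨xl, Or.inr xr⟩
      · right; left; exact ⟨xl, Or.inl (h1.trans bl1)⟩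
      · right; left; exact ⟨xl, Or.inr (by omega)⟩
    · rintro h rfl
      refine ⟨S.xr, S.rr, Or.inr ⟨S.xr, rfl⟩, ?_⟩
      intro g hg hgr
      rcases S.row g hg hgr with h1 | h1 | h1 | h1
      · right; right; subst h1; exact ⟨xr, Or.inr xl⟩
      · left; exact h1
      · right; right; exact ⟨xr, Or.inr (by omega)⟩
      · right; right; exact ⟨xr, Or.inl (br1.trans h1)⟩
    · rintro h rfl
      refine ⟨S.yu, S.cu, Or.inl ⟨S.yu, rfl⟩, ?_⟩
      intro g hg hgr
      rcases S.col g hg hgr with h1 | h1 | h1 | h1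
      · left; exact h1
      · right; left; subst h1; exact ⟨yu, Or.inr yd⟩
      · right; left; exact ⟨yu, Or.inl (h1.trans bu2)⟩
      · right; left; exact ⟨yu, Or.inr (by omega)⟩
    · rintro h rfl
      refine ⟨S.yd, S.cd, Or.inr ⟨S.yd, rfl⟩, ?_⟩
      intro g hg hgr
      rcases S.col g hg hgr with h1 | h1 | h1 | h1
      · right; right; subst h1; exact ⟨yd, Or.inr yu⟩
      · left; exact h1
      · right; right; exact ⟨yd, Or.inr (by omega)⟩
      · right; right; exact ⟨yd, Or.inl (bd2.trans h1)⟩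
    · intro _ g hg h1 h2
      unfold Boxes.InCol at h2
      rcases S.row g hg h1 with h3 | h3 | h3 | h3
      · subst h3; omega
      · subst h3; omega
      · omega
      · omega
  · refine ⟨0, 0, fun _ _ => False, fun _ _ _ h => h.elim, ?_, fun _ h => h.elim, fun _ h => h.elim,
      fun _ h => h.elim, fun _ h => h.elim, fun h => absurd h hj⟩
    intro h hh
    exact absurd hh.lt hj

/-- Box layouts give one-bend drawings. -/
theorem box1 {H : Type} {𝓔 : List (List H)} (L : Boxes H) (hL : L.Ok (Used 𝓔))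
    (hnd : ∀ h, L.x1 h < L.x2 h ∧ L.y1 h < L.y2 h)
    (hs : ∀ E ∈ 𝓔, Seat1 L (Used 𝓔) E) (T : ℕ) :
    ∃ (hp : H → Pt) (wp : ℕ → ℕ → Pt) (ch : ℕ → ℕ → H → List Pt), IsHD 1 𝓔 T hp wp ch := by
  classical
  choose cx cy R hRu hRe hR0 hR1 hR2 hR3 hcell using box1_seat L hnd hs
  -- direction of an arm
  set D : ℕ → H → Fin 4 := fun j h => if hh : In 𝓔 j h then (hRe j h hh).choose else 0 with hD
  have hDR : ∀ j h, In 𝓔 j h → R j h (D j h) := by
    intro j h hh
    simp only [hD, dif_pos hh]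
    exact (hRe j h hh).choose_spec
  -- end coordinate
  set a : ℕ → H → ℤ := fun j h => ![L.x2 h, L.x1 h, L.y2 h, L.y1 h] (D j h) with ha
  -- the classification of arms
  have harm : ∀ j h, In 𝓔 j h →
      ((D j h = 0 ∨ D j h = 1) ∧ ((D j h = 0 ∧ a j h ≤ cx j) ∨ (D j h = 1 ∧ cx j < a j h)) ∧
        box1_Hor L (Used 𝓔) (cx j) (cy j) h (a j h)) ∨
      (¬ (D j h = 0 ∨ D j h = 1) ∧ ((D j h = 2 ∧ a j h ≤ cy j) ∨ (D j h = 3 ∧ cy j < a j h)) ∧
        box1_Ver L (Used 𝓔) (cx j) (cy j) h (a j h)) := by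
    intro j h hh
    have h1 := hDR j h hh
    have h2 : D j h = 0 ∨ D j h = 1 ∨ D j h = 2 ∨ D j h = 3 := by
      generalize D j h = e
      fin_cases e <;> simp
    rcases h2 with h2 | h2 | h2 | h2
    · rw [h2] at h1
      have h3 : a j h = L.x2 h := by simp only [ha, h2]; rfl
      obtain ⟨h4, h5⟩ := hR0 j h h1
      left
      rw [h3]
      exact ⟨Or.inl h2, Or.inl ⟨h2, h4⟩, h5⟩
    · rw [h2] at h1
      have h3 : a j h = L.x1 h := by simp only [ha, h2]; rfl
      obtain ⟨h4, h5⟩ := hR1 j h h1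
      left
      rw [h3]
      exact ⟨Or.inr h2, Or.inr ⟨h2, h4⟩, h5⟩
    · rw [h2] at h1
      have h3 : a j h = L.y2 h := by simp only [ha, h2]; rfl
      obtain ⟨h4, h5⟩ := hR2 j h h1
      right
      rw [h3]
      exact ⟨by rw [h2]; decide, Or.inl ⟨h2, h4⟩, h5⟩
    · rw [h2] at h1
      have h3 : a j h = L.y1 h := by simp only [ha, h2]; rfl
      obtain ⟨h4, h5⟩ := hR3 j h h1
      right
      rw [h3]
      exact ⟨by rw [h2]; decide, Or.inr ⟨h2, h4⟩, h5⟩
  -- offsets
  set e : ℕ := 𝓔.length with he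
  set o : ℕ → ℕ → ℝ := fun j t => ((T * j + t + 1 : ℕ) : ℝ) / ((T * e + 1 : ℕ) : ℝ) with ho
  have hden : (0 : ℝ) < ((T * e + 1 : ℕ) : ℝ) := by positivity
  have ho0 : ∀ j t, 0 < o j t := fun j t => div_pos (by positivity) hden
  have ho1 : ∀ j t, Tw 𝓔 T j t → o j t < 1 := by
    rintro j t ⟨hj, ht⟩
    simp only [ho]
    rw [div_lt_one hden]
    have h1 : T * j + T ≤ T * e := by
      have : T * (j + 1) ≤ T * e := Nat.mul_le_mul_left _ hj
      linarith [this, mul_add T j 1]
    exact_mod_cast (by omega : T * j + t + 1 < T * e + 1)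
  have hoi : ∀ j t j' t', Tw 𝓔 T j t → Tw 𝓔 T j' t' → o j t = o j' t' → j = j' ∧ t = t' := by
    rintro j t j' t' ⟨_, ht⟩ ⟨_, ht'⟩ h
    simp only [ho] at h
    rw [div_left_inj' hden.ne'] at h
    have h1 : T * j + t = T * j' + t' := by
      have : T * j + t + 1 = T * j' + t' + 1 := by exact_mod_cast h
      omega
    have hT : 0 < T := by omega
    have h2 : j = j' := by
      have h3 : (T * j + t) / T = (T * j' + t') / T := by rw [h1]
      rwa [Nat.mul_add_div hT, Nat.mul_add_div hT, Nat.div_eq_of_lt ht, Nat.div_eq_of_lt ht',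
        add_zero, add_zero] at h3
    subst h2
    exact ⟨rfl, by omega⟩
  -- integer plus offset
  have hfr : ∀ (m m' : ℤ) j t j' t', Tw 𝓔 T j t → Tw 𝓔 T j' t' →
      (m : ℝ) + o j t = (m' : ℝ) + o j' t' → j = j' ∧ t = t' := by
    intro m m' j t j' t' h1 h2 h3
    have a1 := ho0 j t
    have a2 := ho1 j t h1
    have a3 := ho0 j' t'
    have a4 := ho1 j' t' h2
    have h4 : m = m' := by
      have h5 : (m : ℝ) < m' + 1 := by linarith
      have h6 : (m' : ℝ) < m + 1 := by linarith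
      have h5' : m < m' + 1 := by exact_mod_cast h5
      have h6' : m' < m + 1 := by exact_mod_cast h6
      omega
    subst h4
    exact hoi j t j' t' h1 h2 (by linarith)
  have hni : ∀ (m m' : ℤ) j t, Tw 𝓔 T j t → (m : ℝ) ≠ (m' : ℝ) + o j t := by
    intro m m' j t h1 h2
    have a1 := ho0 j t
    have a2 := ho1 j t h1
    have h5 : (m : ℝ) < m' + 1 := by linarith
    have h6 : (m' : ℝ) < m := by linarith
    have h5' : m < m' + 1 := by exact_mod_cast h5
    have h6' : m' < m := by exact_mod_cast h6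
    omega
  -- rows and columns from membership
  have hrow : ∀ g j t (x : ℝ), Tw 𝓔 T j t → L.Mem g (x, (cy j : ℝ) + o j t) → L.InRow g (cy j) := by
    rintro g j t x h1 ⟨_, _, h3, h4⟩
    have a1 := ho0 j t
    have a2 := ho1 j t h1
    simp only at h3 h4
    have h5 : (L.y1 g : ℝ) < cy j + 1 := by linarith
    have h6 : (cy j : ℝ) < L.y2 g := by linarith
    have h5' : L.y1 g < cy j + 1 := by exact_mod_cast h5
    have h6' : cy j < L.y2 g := by exact_mod_cast h6
    exact ⟨by omega, h6'⟩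
  have hcol : ∀ g j t (y : ℝ), Tw 𝓔 T j t → L.Mem g ((cx j : ℝ) + o j t, y) → L.InCol g (cx j) := by
    rintro g j t y h1 ⟨h3, h4, _, _⟩
    have a1 := ho0 j t
    have a2 := ho1 j t h1
    simp only at h3 h4
    have h5 : (L.x1 g : ℝ) < cx j + 1 := by linarith
    have h6 : (cx j : ℝ) < L.x2 g := by linarith
    have h5' : L.x1 g < cx j + 1 := by exact_mod_cast h5
    have h6' : cx j < L.x2 g := by exact_mod_cast h6
    exact ⟨by omega, h6'⟩
  set wp : ℕ → ℕ → Pt := fun j t => ((cx j : ℝ) + o j t, (cy j : ℝ) + o j t) with hwp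
  set P : ℕ → ℕ → H → Pt := fun j t h => if D j h = 0 ∨ D j h = 1 then
    ((a j h : ℝ), (cy j : ℝ) + o j t) else ((cx j : ℝ) + o j t, (a j h : ℝ)) with hP
  have hPH : ∀ j t h, (D j h = 0 ∨ D j h = 1) → P j t h = ((a j h : ℝ), (cy j : ℝ) + o j t) := by
    intro j t h hh; simp only [hP, if_pos hh]
  have hPV : ∀ j t h, ¬ (D j h = 0 ∨ D j h = 1) → P j t h = ((cx j : ℝ) + o j t, (a j h : ℝ)) := by
    intro j t h hh; simp only [hP, if_neg hh]
  have htw : ∀ j t h, t < T → In 𝓔 j h → Tw 𝓔 T j t := fun j t h ht hh => ⟨hh.lt, ht⟩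
  have hon : ∀ j t h z, On [wp j t, P j t h] z ↔ z ∈ segment ℝ (wp j t) (P j t h) := by
    intro j t h z
    simp [On, segs]
  refine ⟨_, _, _, boxT (k := 1) L hL wp P (fun j t h => [wp j t, P j t h]) ?_ ?_ ?_ ?_ ?_ ?_ ?_ ?_ ?_⟩
  · -- winj
    intro j t j' t' h1 h2 h3
    exact hfr _ _ j t j' t' h1 h2 (congrArg Prod.fst h3)
  · -- wout
    intro j t h h1 h2 h3
    exact hcell j h1.1 h h2 (hrow h j t _ h1 h3) (hcol h j t _ h1 h3)
  · -- chain
    intro j t h ht hh
    refine ⟨rfl, rfl, le_refl _, ?_⟩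
    intro s hs'
    simp only [segs, List.tail_cons, List.zip_cons_cons, List.zip_nil_right,
      List.mem_singleton] at hs'
    rw [hs']
    intro h1
    have hT := htw j t h ht hh
    by_cases hd : D j h = 0 ∨ D j h = 1
    · simp only [hPH j t h hd] at h1
      exact hni _ _ j t hT (congrArg Prod.fst h1).symm
    · simp only [hPV j t h hd] at h1
      exact hni _ _ j t hT (congrArg Prod.snd h1).symm
  · -- bd
    intro j t h ht hh
    have hT := htw j t h ht hh
    have a1 := ho0 j t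
    have a2 := ho1 j t hT
    obtain ⟨b1, b2⟩ := hL.1 h hh.used
    have b1' : (L.x1 h : ℝ) < L.x2 h := by exact_mod_cast b1
    have b2' : (L.y1 h : ℝ) < L.y2 h := by exact_mod_cast b2
    rcases harm j h hh with ⟨hd, _, hr, he', _⟩ | ⟨hd, _, hr, he', _⟩
    · rw [hPH j t h hd]
      obtain ⟨r1, r2⟩ := hr
      have r1' : (L.y1 h : ℝ) ≤ cy j := by exact_mod_cast r1
      have r2' : (cy j : ℝ) + 1 ≤ L.y2 h := by exact_mod_cast r2
      rcases he' with ⟨_, he'⟩ | ⟨_, he'⟩
      · rw [← he']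
        exact ⟨⟨b1'.le, le_refl _, by show (L.y1 h : ℝ) ≤ _ + _; linarith,
          by show _ + _ ≤ (L.y2 h : ℝ); linarith⟩, Or.inr (Or.inl rfl)⟩
      · rw [← he']
        exact ⟨⟨le_refl _, b1'.le, by show (L.y1 h : ℝ) ≤ _ + _; linarith,
          by show _ + _ ≤ (L.y2 h : ℝ); linarith⟩, Or.inl rfl⟩
    · rw [hPV j t h hd]
      obtain ⟨r1, r2⟩ := hr
      have r1' : (L.x1 h : ℝ) ≤ cx j := by exact_mod_cast r1
      have r2' : (cx j : ℝ) + 1 ≤ L.x2 h := by exact_mod_cast r2
      rcases he' with ⟨_, he'⟩ | ⟨_, he'⟩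
      · rw [← he']
        exact ⟨⟨by show (L.x1 h : ℝ) ≤ _ + _; linarith, by show _ + _ ≤ (L.x2 h : ℝ); linarith,
          b2'.le, le_refl _⟩, Or.inr (Or.inr (Or.inr rfl))⟩
      · rw [← he']
        exact ⟨⟨by show (L.x1 h : ℝ) ≤ _ + _; linarith, by show _ + _ ≤ (L.x2 h : ℝ); linarith,
          le_refl _, b2'.le⟩, Or.inr (Or.inr (Or.inl rfl))⟩
  · -- free
    intro j t h g z ht hh hg hz hm
    have hT := htw j t h ht hh
    have a1 := ho0 j t
    have a2 := ho1 j t hT
    rw [hon] at hz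
    rcases harm j h hh with ⟨hd, _, hr, he', hf⟩ | ⟨hd, _, hr, he', hf⟩
    · rw [hPH j t h hd] at hz ⊢
      obtain ⟨h1, h2⟩ := box1_segH hz
      have hm' : L.Mem g (z.1, (cy j : ℝ) + o j t) := by rw [← h1]; exact hm
      have hgr := hrow g j t z.1 hT hm'
      obtain ⟨m1, m2, _, _⟩ := hm
      have hx : z.1 = (a j h : ℝ) := by
        rcases hf g hg hgr with hgh | ⟨h3, h4⟩ | ⟨h3, h4⟩
        · subst hgh
          rcases he' with ⟨h3, h4⟩ | ⟨h3, h4⟩
          · rw [h4] at m2
            have h3' : (a j g : ℝ) ≤ cx j := by exact_mod_cast h3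
            rcases h2 with h2 | h2
            · linarith [h2.1, h2.2]
            · linarith [h2.1, h2.2]
          · rw [h4] at m1
            have h3' : (cx j : ℝ) + 1 ≤ a j g := by exact_mod_cast h3
            rcases h2 with h2 | h2
            · linarith [h2.1, h2.2]
            · linarith [h2.1, h2.2]
        · exfalso
          have h3' : (a j h : ℝ) ≤ cx j := by exact_mod_cast h3
          rcases h4 with h4 | h4
          · have h4' : (L.x2 g : ℝ) < a j h := by exact_mod_cast h4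
            rcases h2 with h2 | h2
            · linarith [h2.1, h2.2]
            · linarith [h2.1, h2.2]
          · have h4' : (cx j : ℝ) + 1 ≤ L.x1 g := by exact_mod_cast h4
            rcases h2 with h2 | h2
            · linarith [h2.1, h2.2]
            · linarith [h2.1, h2.2]
        · exfalso
          have h3' : (cx j : ℝ) + 1 ≤ a j h := by exact_mod_cast h3
          rcases h4 with h4 | h4
          · have h4' : (a j h : ℝ) < L.x1 g := by exact_mod_cast h4
            rcases h2 with h2 | h2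
            · linarith [h2.1, h2.2]
            · linarith [h2.1, h2.2]
          · have h4' : (L.x2 g : ℝ) ≤ cx j := by exact_mod_cast h4
            rcases h2 with h2 | h2
            · linarith [h2.1, h2.2]
            · linarith [h2.1, h2.2]
      exact Prod.ext hx h1
    · rw [hPV j t h hd] at hz ⊢
      obtain ⟨h1, h2⟩ := box1_segV hz
      have hm' : L.Mem g ((cx j : ℝ) + o j t, z.2) := by rw [← h1]; exact hm
      have hgr := hcol g j t z.2 hT hm'
      obtain ⟨_, _, m1, m2⟩ := hm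
      have hx : z.2 = (a j h : ℝ) := by
        rcases hf g hg hgr with hgh | ⟨h3, h4⟩ | ⟨h3, h4⟩
        · subst hgh
          rcases he' with ⟨h3, h4⟩ | ⟨h3, h4⟩
          · rw [h4] at m2
            have h3' : (a j g : ℝ) ≤ cy j := by exact_mod_cast h3
            rcases h2 with h2 | h2
            · linarith [h2.1, h2.2]
            · linarith [h2.1, h2.2]
          · rw [h4] at m1
            have h3' : (cy j : ℝ) + 1 ≤ a j g := by exact_mod_cast h3
            rcases h2 with h2 | h2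
            · linarith [h2.1, h2.2]
            · linarith [h2.1, h2.2]
        · exfalso
          have h3' : (a j h : ℝ) ≤ cy j := by exact_mod_cast h3
          rcases h4 with h4 | h4
          · have h4' : (L.y2 g : ℝ) < a j h := by exact_mod_cast h4
            rcases h2 with h2 | h2
            · linarith [h2.1, h2.2]
            · linarith [h2.1, h2.2]
          · have h4' : (cy j : ℝ) + 1 ≤ L.y1 g := by exact_mod_cast h4
            rcases h2 with h2 | h2
            · linarith [h2.1, h2.2]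
            · linarith [h2.1, h2.2]
        · exfalso
          have h3' : (cy j : ℝ) + 1 ≤ a j h := by exact_mod_cast h3
          rcases h4 with h4 | h4
          · have h4' : (a j h : ℝ) < L.y1 g := by exact_mod_cast h4
            rcases h2 with h2 | h2
            · linarith [h2.1, h2.2]
            · linarith [h2.1, h2.2]
          · have h4' : (L.y2 g : ℝ) ≤ cy j := by exact_mod_cast h4
            rcases h2 with h2 | h2
            · linarith [h2.1, h2.2]
            · linarith [h2.1, h2.2]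
      exact Prod.ext h1 hx
  · -- pinj
    intro j t j' t' h ht ht' hh hh' hp
    have hT := htw j t h ht hh
    have hT' := htw j' t' h ht' hh'
    by_cases hd : D j h = 0 ∨ D j h = 1
    · by_cases hd' : D j' h = 0 ∨ D j' h = 1
      · rw [hPH j t h hd, hPH j' t' h hd'] at hp
        exact hfr _ _ j t j' t' hT hT' (congrArg Prod.snd hp)
      · rw [hPH j t h hd, hPV j' t' h hd'] at hp
        exact absurd (congrArg Prod.fst hp) (hni _ _ j' t' hT')
    · by_cases hd' : D j' h = 0 ∨ D j' h = 1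
      · rw [hPV j t h hd, hPH j' t' h hd'] at hp
        exact absurd (congrArg Prod.fst hp).symm (hni _ _ j t hT)
      · rw [hPV j t h hd, hPV j' t' h hd'] at hp
        exact hfr _ _ j t j' t' hT hT' (congrArg Prod.fst hp)
  · -- avw
    intro j t h j' t' ht hh hT' hz
    have hT := htw j t h ht hh
    rw [hon] at hz
    by_cases hd : D j h = 0 ∨ D j h = 1
    · rw [hPH j t h hd] at hz
      exact hfr _ _ j' t' j t hT' hT (box1_segH hz).1
    · rw [hPV j t h hd] at hz
      exact hfr _ _ j' t' j t hT' hT (box1_segV hz).1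
  · -- cross
    intro j t h j' t' h' ht ht' hh hh' hne s hs1 s' hs2 z hz hz'
    have hT := htw j t h ht hh
    have hT' := htw j' t' h' ht' hh'
    simp only [segs, List.tail_cons, List.zip_cons_cons, List.zip_nil_right,
      List.mem_singleton] at hs1 hs2
    subst hs1
    subst hs2
    simp only at hz hz'
    rcases harm j h hh with ⟨hd, hside, _⟩ | ⟨hd, hside, _⟩
    · rcases harm j' h' hh' with ⟨hd', hside', _⟩ | ⟨hd', hside', _⟩
      · -- both horizontal
        rw [hPH j t h hd] at hz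
        rw [hPH j' t' h' hd'] at hz'
        obtain ⟨z1, z2⟩ := box1_segH hz
        obtain ⟨z1', z2'⟩ := box1_segH hz'
        obtain ⟨rfl, rfl⟩ := hfr _ _ j t j' t' hT hT' (z1.symm.trans z1')
        left
        refine ⟨rfl, rfl, Prod.ext ?_ z1⟩
        have a1 := ho0 j t
        have a2 := ho1 j t hT
        have hhh : h ≠ h' := fun hc => hne ⟨rfl, rfl, hc⟩
        show z.1 = (cx j : ℝ) + o j t
        rcases hside with ⟨e1, e2⟩ | ⟨e1, e2⟩
        · rcases hside' with ⟨e1', e2'⟩ | ⟨e1', e2'⟩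
          · exact absurd (hRu j h h' 0 (e1 ▸ hDR j h hh) (e1' ▸ hDR j h' hh')) hhh
          · have f1 : (a j h : ℝ) ≤ cx j := by exact_mod_cast e2
            have f2 : (cx j : ℝ) + 1 ≤ a j h' := by exact_mod_cast e2'
            rcases z2 with z2 | z2 <;> rcases z2' with z2' | z2' <;>
              linarith [z2.1, z2.2, z2'.1, z2'.2]
        · rcases hside' with ⟨e1', e2'⟩ | ⟨e1', e2'⟩
          · have f1 : (a j h' : ℝ) ≤ cx j := by exact_mod_cast e2'
            have f2 : (cx j : ℝ) + 1 ≤ a j h := by exact_mod_cast e2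
            rcases z2 with z2 | z2 <;> rcases z2' with z2' | z2' <;>
              linarith [z2.1, z2.2, z2'.1, z2'.2]
          · exact absurd (hRu j h h' 1 (e1 ▸ hDR j h hh) (e1' ▸ hDR j h' hh')) hhh
      · -- horizontal and vertical
        rw [hPH j t h hd] at hz ⊢
        rw [hPV j' t' h' hd'] at hz' ⊢
        obtain ⟨z1, z2⟩ := box1_segH hz
        obtain ⟨z1', z2'⟩ := box1_segV hz'
        by_cases hsame : j = j' ∧ t = t'
        · obtain ⟨rfl, rfl⟩ := hsame
          left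
          exact ⟨rfl, rfl, Prod.ext z1' z1⟩
        · right
          refine ⟨box1_openH z1 z2 ?_ ?_, box1_openV z1' z2' ?_ ?_, ?_⟩
          · rw [z1']; intro hc
            exact hsame ((hfr _ _ j' t' j t hT' hT hc).imp Eq.symm Eq.symm)
          · rw [z1']; exact (hni _ _ j' t' hT').symm
          · rw [z1]; intro hc
            exact hsame (hfr _ _ j t j' t' hT hT' hc)
          · rw [z1]; exact (hni _ _ j t hT).symm
          · simp only [Perp, hwp]; ring
    · rcases harm j' h' hh' with ⟨hd', hside', _⟩ | ⟨hd', hside', _⟩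
      · -- vertical and horizontal
        rw [hPV j t h hd] at hz ⊢
        rw [hPH j' t' h' hd'] at hz' ⊢
        obtain ⟨z1, z2⟩ := box1_segV hz
        obtain ⟨z1', z2'⟩ := box1_segH hz'
        by_cases hsame : j = j' ∧ t = t'
        · obtain ⟨rfl, rfl⟩ := hsame
          left
          exact ⟨rfl, rfl, Prod.ext z1 z1'⟩
        · right
          refine ⟨box1_openV z1 z2 ?_ ?_, box1_openH z1' z2' ?_ ?_, ?_⟩
          · rw [z1']; intro hc
            exact hsame ((hfr _ _ j' t' j t hT' hT hc).imp Eq.symm Eq.symm)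
          · rw [z1']; exact (hni _ _ j' t' hT').symm
          · rw [z1]; intro hc
            exact hsame (hfr _ _ j t j' t' hT hT' hc)
          · rw [z1]; exact (hni _ _ j t hT).symm
          · simp only [Perp, hwp]; ring
      · -- both vertical
        rw [hPV j t h hd] at hz
        rw [hPV j' t' h' hd'] at hz'
        obtain ⟨z1, z2⟩ := box1_segV hz
        obtain ⟨z1', z2'⟩ := box1_segV hz'
        obtain ⟨rfl, rfl⟩ := hfr _ _ j t j' t' hT hT' (z1.symm.trans z1')
        left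
        refine ⟨rfl, rfl, Prod.ext z1 ?_⟩
        have a1 := ho0 j t
        have a2 := ho1 j t hT
        have hhh : h ≠ h' := fun hc => hne ⟨rfl, rfl, hc⟩
        show z.2 = (cy j : ℝ) + o j t
        rcases hside with ⟨e1, e2⟩ | ⟨e1, e2⟩
        · rcases hside' with ⟨e1', e2'⟩ | ⟨e1', e2'⟩
          · exact absurd (hRu j h h' 2 (e1 ▸ hDR j h hh) (e1' ▸ hDR j h' hh')) hhh
          · have f1 : (a j h : ℝ) ≤ cy j := by exact_mod_cast e2
            have f2 : (cy j : ℝ) + 1 ≤ a j h' := by exact_mod_cast e2'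
            rcases z2 with z2 | z2 <;> rcases z2' with z2' | z2' <;>
              linarith [z2.1, z2.2, z2'.1, z2'.2]
        · rcases hside' with ⟨e1', e2'⟩ | ⟨e1', e2'⟩
          · have f1 : (a j h' : ℝ) ≤ cy j := by exact_mod_cast e2'
            have f2 : (cy j : ℝ) + 1 ≤ a j h := by exact_mod_cast e2
            rcases z2 with z2 | z2 <;> rcases z2' with z2' | z2' <;>
              linarith [z2.1, z2.2, z2'.1, z2'.2]
          · exact absurd (hRu j h h' 3 (e1 ▸ hDR j h hh) (e1' ▸ hDR j h' hh')) hhh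
  · -- simple
    intro j t h _ _
    refine ⟨?_, trivial⟩
    intro s hs'
    simp [segs] at hs'

end Pool.Agent.RAC963
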