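import Pool.Agent.RAC963.BoxT

set_option autoImplicit false

namespace Pool.Agent.RAC963

/-- The eight types of routes: four direct ones and four with a turn. -/
inductive box2_Ty
  | r | l | u | d | zl | zr | zu | zd

/-- The data of a seat. -/
structure box2_S (H : Type) where
  cx : ℤ
  cy : ℤ
  tl : ℤ
  tr : ℤ
  tu : ℤ
  td : ℤ
  hub : box2_Ty → H

/-- The data form a seat. -/
structure box2_Ok {H : Type} (L : Boxes H) (U : H → Prop) (S : box2_S H) : Prop where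
  sees : L.Sees U S.cx S.cy (S.hub .l) (S.hub .r) (S.hub .u) (S.hub .d)
  turns : L.Turns U S.cx S.cy (S.hub .l) (S.hub .r) (S.hub .u) (S.hub .d) S.tl S.tr S.tu S.td
    (S.hub .zl) (S.hub .zr) (S.hub .zu) (S.hub .zd)
  nd : ∀ h, L.x1 h < L.x2 h ∧ L.y1 h < L.y2 h

/-- The point of the twin. -/
noncomputable def box2_w {H : Type} (S : box2_S H) (α : ℝ) : Pt := (S.cx + α, S.cy + α)

/-- The corner of a route. -/
noncomputable def box2_c {H : Type} (S : box2_S H) (α s : ℝ) : box2_Ty → Pt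
  | .r => (S.cx + α + s, S.cy + α + s)
  | .l => (S.cx + α - s, S.cy + α - s)
  | .u => (S.cx + α + s, S.cy + α - s)
  | .d => (S.cx + α - s, S.cy + α + s)
  | .zl => (S.tl + α - 3 * s, S.cy + α)
  | .zr => (S.tr + α + 3 * s, S.cy + α)
  | .zu => (S.cx + α, S.tu + α - 3 * s)
  | .zd => (S.cx + α, S.td + α + 3 * s)

open Classical in
/-- The end of a route. -/
noncomputable def box2_P {H : Type} (L : Boxes H) (S : box2_S H) (α s : ℝ) : box2_Ty → Pt
  | .r => ((L.x1 (S.hub .r) : ℝ), S.cy + α + s)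
  | .l => ((L.x2 (S.hub .l) : ℝ), S.cy + α - s)
  | .u => (S.cx + α + s, (L.y2 (S.hub .u) : ℝ))
  | .d => (S.cx + α - s, (L.y1 (S.hub .d) : ℝ))
  | .zl => (S.tl + α - 3 * s,
      if L.y2 (S.hub .zl) ≤ S.cy then (L.y2 (S.hub .zl) : ℝ) else (L.y1 (S.hub .zl) : ℝ))
  | .zr => (S.tr + α + 3 * s,
      if L.y2 (S.hub .zr) ≤ S.cy then (L.y2 (S.hub .zr) : ℝ) else (L.y1 (S.hub .zr) : ℝ))
  | .zu => (if L.x2 (S.hub .zu) ≤ S.cx then (L.x2 (S.hub .zu) : ℝ) else (L.x1 (S.hub .zu) : ℝ),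
      S.tu + α - 3 * s)
  | .zd => (if L.x2 (S.hub .zd) ≤ S.cx then (L.x2 (S.hub .zd) : ℝ) else (L.x1 (S.hub .zd) : ℝ),
      S.td + α + 3 * s)

/-- The points of the first segment. -/
def box2_F {H : Type} (S : box2_S H) (α s : ℝ) (z : Pt) : box2_Ty → Prop
  | .r => z.1 - (S.cx + α) = z.2 - (S.cy + α) ∧ S.cx + α ≤ z.1 ∧ z.1 ≤ S.cx + α + s
  | .l => z.1 - (S.cx + α) = z.2 - (S.cy + α) ∧ S.cx + α - s ≤ z.1 ∧ z.1 ≤ S.cx + α
  | .u => z.1 - (S.cx + α) = S.cy + α - z.2 ∧ S.cx + α ≤ z.1 ∧ z.1 ≤ S.cx + α + s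
  | .d => z.1 - (S.cx + α) = S.cy + α - z.2 ∧ S.cx + α - s ≤ z.1 ∧ z.1 ≤ S.cx + α
  | .zl => z.2 = S.cy + α ∧ S.tl + α - 3 * s ≤ z.1 ∧ z.1 ≤ S.cx + α
  | .zr => z.2 = S.cy + α ∧ S.cx + α ≤ z.1 ∧ z.1 ≤ S.tr + α + 3 * s
  | .zu => z.1 = S.cx + α ∧ S.tu + α - 3 * s ≤ z.2 ∧ z.2 ≤ S.cy + α
  | .zd => z.1 = S.cx + α ∧ S.cy + α ≤ z.2 ∧ z.2 ≤ S.td + α + 3 * s

/-- The points of the second segment. -/
def box2_G {H : Type} (L : Boxes H) (S : box2_S H) (α s : ℝ) (z : Pt) : box2_Ty → Prop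
  | .r => z.2 = S.cy + α + s ∧ S.cx + α + s ≤ z.1 ∧ z.1 ≤ L.x1 (S.hub .r)
  | .l => z.2 = S.cy + α - s ∧ L.x2 (S.hub .l) ≤ z.1 ∧ z.1 ≤ S.cx + α - s
  | .u => z.1 = S.cx + α + s ∧ L.y2 (S.hub .u) ≤ z.2 ∧ z.2 ≤ S.cy + α - s
  | .d => z.1 = S.cx + α - s ∧ S.cy + α + s ≤ z.2 ∧ z.2 ≤ L.y1 (S.hub .d)
  | .zl => z.1 = S.tl + α - 3 * s ∧
      ((L.y2 (S.hub .zl) ≤ S.cy ∧ L.y2 (S.hub .zl) ≤ z.2 ∧ z.2 ≤ S.cy + α) ∨
        (S.cy < L.y1 (S.hub .zl) ∧ ¬ L.y2 (S.hub .zl) ≤ S.cy ∧ S.cy + α ≤ z.2 ∧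
          z.2 ≤ L.y1 (S.hub .zl)))
  | .zr => z.1 = S.tr + α + 3 * s ∧
      ((L.y2 (S.hub .zr) ≤ S.cy ∧ L.y2 (S.hub .zr) ≤ z.2 ∧ z.2 ≤ S.cy + α) ∨
        (S.cy < L.y1 (S.hub .zr) ∧ ¬ L.y2 (S.hub .zr) ≤ S.cy ∧ S.cy + α ≤ z.2 ∧
          z.2 ≤ L.y1 (S.hub .zr)))
  | .zu => z.2 = S.tu + α - 3 * s ∧
      ((L.x2 (S.hub .zu) ≤ S.cx ∧ L.x2 (S.hub .zu) ≤ z.1 ∧ z.1 ≤ S.cx + α) ∨
        (S.cx < L.x1 (S.hub .zu) ∧ ¬ L.x2 (S.hub .zu) ≤ S.cx ∧ S.cx + α ≤ z.1 ∧
          z.1 ≤ L.x1 (S.hub .zu)))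
  | .zd => z.2 = S.td + α + 3 * s ∧
      ((L.x2 (S.hub .zd) ≤ S.cx ∧ L.x2 (S.hub .zd) ≤ z.1 ∧ z.1 ≤ S.cx + α) ∨
        (S.cx < L.x1 (S.hub .zd) ∧ ¬ L.x2 (S.hub .zd) ≤ S.cx ∧ S.cx + α ≤ z.1 ∧
          z.1 ≤ L.x1 (S.hub .zd)))

section seg

theorem box2_seg {p q z : Pt} (h : z ∈ segment ℝ p q) :
    ∃ a : ℝ, 0 ≤ a ∧ a ≤ 1 ∧ z.1 = p.1 + a * (q.1 - p.1) ∧ z.2 = p.2 + a * (q.2 - p.2) := by
  rw [segment_eq_image'] at h
  obtain ⟨a, ha, rfl⟩ := h
  exact ⟨a, ha.1, ha.2, by simp, by simp⟩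

theorem box2_seg_hor {x₁ x₂ y : ℝ} {z : Pt} (h : z ∈ segment ℝ ((x₁, y) : Pt) (x₂, y))
    (hx : x₁ ≤ x₂) : z.2 = y ∧ x₁ ≤ z.1 ∧ z.1 ≤ x₂ := by
  obtain ⟨a, h0, h1, e1, e2⟩ := box2_seg h
  simp only [sub_self, mul_zero, add_zero] at e1 e2
  refine ⟨e2, ?_, ?_⟩
  · rw [e1]
    nlinarith
  · rw [e1]
    nlinarith

theorem box2_seg_ver {x y₁ y₂ : ℝ} {z : Pt} (h : z ∈ segment ℝ ((x, y₁) : Pt) (x, y₂))
    (hy : y₁ ≤ y₂) : z.1 = x ∧ y₁ ≤ z.2 ∧ z.2 ≤ y₂ := by
  obtain ⟨a, h0, h1, e1, e2⟩ := box2_seg h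
  simp only [sub_self, mul_zero, add_zero] at e1 e2
  refine ⟨e1, ?_, ?_⟩
  · rw [e2]
    nlinarith
  · rw [e2]
    nlinarith

end seg

section one

variable {H : Type} {L : Boxes H} {U : H → Prop} {S : box2_S H} {α s : ℝ}

/-- The inequalities between the integers of a seat, as real numbers. -/
structure box2_N (L : Boxes H) (S : box2_S H) (α s : ℝ) : Prop where
  s0 : 0 < s
  lo : 0 < α - 3 * s
  hi : α + 3 * s < 1
  l1 : (L.x2 (S.hub .l) : ℝ) ≤ S.tl
  l2 : (S.tl : ℝ) + 1 ≤ S.cx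
  r1 : (S.cx : ℝ) + 1 ≤ S.tr
  r2 : (S.tr : ℝ) + 1 ≤ L.x1 (S.hub .r)
  u1 : (L.y2 (S.hub .u) : ℝ) ≤ S.tu
  u2 : (S.tu : ℝ) + 1 ≤ S.cy
  d1 : (S.cy : ℝ) + 1 ≤ S.td
  d2 : (S.td : ℝ) + 1 ≤ L.y1 (S.hub .d)

theorem box2_Ok.n (hS : box2_Ok L U S) (s0 : 0 < s) (lo : 0 < α - 3 * s) (hi : α + 3 * s < 1) :
    box2_N L S α s where
  s0 := s0
  lo := lo
  hi := hi
  l1 := by exact_mod_cast hS.turns.hl.1
  l2 := by exact_mod_cast Int.add_one_le_of_lt hS.turns.hl.2
  r1 := by exact_mod_cast Int.add_one_le_of_lt hS.turns.hr.1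
  r2 := by exact_mod_cast Int.add_one_le_of_lt hS.turns.hr.2
  u1 := by exact_mod_cast hS.turns.hu.1
  u2 := by exact_mod_cast Int.add_one_le_of_lt hS.turns.hu.2
  d1 := by exact_mod_cast Int.add_one_le_of_lt hS.turns.hd.1
  d2 := by exact_mod_cast Int.add_one_le_of_lt hS.turns.hd.2

theorem box2_memF (hN : box2_N L S α s) (τ : box2_Ty) {z : Pt}
    (hz : z ∈ segment ℝ (box2_w S α) (box2_c S α s τ)) : box2_F S α s z τ := by
  obtain ⟨s0, lo, hi, l1, l2, r1, r2, u1, u2, d1, d2⟩ := hN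
  cases τ
  case zl =>
    rw [segment_symm] at hz
    exact box2_seg_hor hz (by linarith)
  case zr => exact box2_seg_hor hz (by linarith)
  case zu =>
    rw [segment_symm] at hz
    exact box2_seg_ver hz (by linarith)
  case zd => exact box2_seg_ver hz (by linarith)
  all_goals
    obtain ⟨a, h0, h1, e1, e2⟩ := box2_seg hz
    simp only [box2_w, box2_c] at e1 e2
    have k0 : 0 ≤ a * s := mul_nonneg h0 s0.le
    have k1 : a * s ≤ s := by nlinarith
    refine ⟨?_, ?_, ?_⟩ <;> linarith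

theorem box2_memG (hS : box2_Ok L U S) (hN : box2_N L S α s) (τ : box2_Ty) {z : Pt}
    (hz : z ∈ segment ℝ (box2_c S α s τ) (box2_P L S α s τ)) : box2_G L S α s z τ := by
  obtain ⟨s0, lo, hi, l1, l2, r1, r2, u1, u2, d1, d2⟩ := hN
  cases τ
  case r => exact box2_seg_hor hz (by linarith)
  case l =>
    rw [segment_symm] at hz
    exact box2_seg_hor hz (by linarith)
  case u =>
    rw [segment_symm] at hz
    exact box2_seg_ver hz (by linarith)
  case d => exact box2_seg_ver hz (by linarith)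
  case zl =>
    by_cases h : L.y2 (S.hub .zl) ≤ S.cy
    · have h' : (L.y2 (S.hub .zl) : ℝ) ≤ S.cy := by exact_mod_cast h
      simp only [box2_c, box2_P, if_pos h] at hz
      rw [segment_symm] at hz
      obtain ⟨k1, k2, k3⟩ := box2_seg_ver hz (by linarith)
      exact ⟨k1, Or.inl ⟨h, k2, k3⟩⟩
    · have h2 : S.cy < L.y1 (S.hub .zl) := hS.turns.rl.out.resolve_left h
      have h' : (S.cy : ℝ) + 1 ≤ L.y1 (S.hub .zl) := by exact_mod_cast Int.add_one_le_of_lt h2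
      simp only [box2_c, box2_P, if_neg h] at hz
      obtain ⟨k1, k2, k3⟩ := box2_seg_ver hz (by linarith)
      exact ⟨k1, Or.inr ⟨h2, h, k2, k3⟩⟩
  case zr =>
    by_cases h : L.y2 (S.hub .zr) ≤ S.cy
    · have h' : (L.y2 (S.hub .zr) : ℝ) ≤ S.cy := by exact_mod_cast h
      simp only [box2_c, box2_P, if_pos h] at hz
      rw [segment_symm] at hz
      obtain ⟨k1, k2, k3⟩ := box2_seg_ver hz (by linarith)
      exact ⟨k1, Or.inl ⟨h, k2, k3⟩⟩
    · have h2 : S.cy < L.y1 (S.hub .zr) := hS.turns.rr.out.resolve_left h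
      have h' : (S.cy : ℝ) + 1 ≤ L.y1 (S.hub .zr) := by exact_mod_cast Int.add_one_le_of_lt h2
      simp only [box2_c, box2_P, if_neg h] at hz
      obtain ⟨k1, k2, k3⟩ := box2_seg_ver hz (by linarith)
      exact ⟨k1, Or.inr ⟨h2, h, k2, k3⟩⟩
  case zu =>
    by_cases h : L.x2 (S.hub .zu) ≤ S.cx
    · have h' : (L.x2 (S.hub .zu) : ℝ) ≤ S.cx := by exact_mod_cast h
      simp only [box2_c, box2_P, if_pos h] at hz
      rw [segment_symm] at hz
      obtain ⟨k1, k2, k3⟩ := box2_seg_hor hz (by linarith)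
      exact ⟨k1, Or.inl ⟨h, k2, k3⟩⟩
    · have h2 : S.cx < L.x1 (S.hub .zu) := hS.turns.ru.out.resolve_left h
      have h' : (S.cx : ℝ) + 1 ≤ L.x1 (S.hub .zu) := by exact_mod_cast Int.add_one_le_of_lt h2
      simp only [box2_c, box2_P, if_neg h] at hz
      obtain ⟨k1, k2, k3⟩ := box2_seg_hor hz (by linarith)
      exact ⟨k1, Or.inr ⟨h2, h, k2, k3⟩⟩
  case zd =>
    by_cases h : L.x2 (S.hub .zd) ≤ S.cx
    · have h' : (L.x2 (S.hub .zd) : ℝ) ≤ S.cx := by exact_mod_cast h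
      simp only [box2_c, box2_P, if_pos h] at hz
      rw [segment_symm] at hz
      obtain ⟨k1, k2, k3⟩ := box2_seg_hor hz (by linarith)
      exact ⟨k1, Or.inl ⟨h, k2, k3⟩⟩
    · have h2 : S.cx < L.x1 (S.hub .zd) := hS.turns.rd.out.resolve_left h
      have h' : (S.cx : ℝ) + 1 ≤ L.x1 (S.hub .zd) := by exact_mod_cast Int.add_one_le_of_lt h2
      simp only [box2_c, box2_P, if_neg h] at hz
      obtain ⟨k1, k2, k3⟩ := box2_seg_hor hz (by linarith)
      exact ⟨k1, Or.inr ⟨h2, h, k2, k3⟩⟩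

/-- Two different first segments share only the point of the twin. -/
theorem box2_FF (hN : box2_N L S α s) {τ τ' : box2_Ty} (hne : τ ≠ τ') {z : Pt}
    (h : box2_F S α s z τ) (h' : box2_F S α s z τ') : z = box2_w S α := by
  obtain ⟨s0, lo, hi, l1, l2, r1, r2, u1, u2, d1, d2⟩ := hN
  have key : z.1 = S.cx + α ∧ z.2 = S.cy + α := by
    cases τ <;> cases τ' <;> simp only [box2_F] at h h' <;>
      first
      | exact absurd rfl hne
      | (obtain ⟨a1, a2, a3⟩ := h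
         obtain ⟨b1, b2, b3⟩ := h'
         constructor <;> linarith)
  exact Prod.ext key.1 key.2

/-- A first segment and the second segment of another route are disjoint. -/
theorem box2_FG (hN : box2_N L S α s) {τ τ' : box2_Ty} (hne : τ ≠ τ') {z : Pt}
    (h : box2_F S α s z τ) (h' : box2_G L S α s z τ') : False := by
  obtain ⟨s0, lo, hi, l1, l2, r1, r2, u1, u2, d1, d2⟩ := hN
  cases τ <;> cases τ' <;> simp only [box2_F, box2_G] at h h' <;>
    first
    | exact absurd rfl hne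
    | (obtain ⟨a1, a2, a3⟩ := h
       obtain ⟨b1, b2⟩ := h'
       linarith)

/-- The two segments of a route share only the corner. -/
theorem box2_self (hN : box2_N L S α s) {τ : box2_Ty} {z : Pt}
    (h : box2_F S α s z τ) (h' : box2_G L S α s z τ) : z = box2_c S α s τ := by
  obtain ⟨s0, lo, hi, l1, l2, r1, r2, u1, u2, d1, d2⟩ := hN
  cases τ <;> simp only [box2_F, box2_G] at h h' <;>
    obtain ⟨a1, a2, a3⟩ := h <;>
    obtain ⟨b1, b2⟩ := h' <;>
    refine Prod.ext ?_ ?_ <;> simp only [box2_c] <;> linarith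

/-- Horizontal second segments. -/
def box2_hor : box2_Ty → Prop
  | .r => True
  | .l => True
  | .zu => True
  | .zd => True
  | _ => False

theorem box2_GG (hN : box2_N L S α s) {τ τ' : box2_Ty} (hne : τ ≠ τ') {z : Pt}
    (h : box2_G L S α s z τ) (h' : box2_G L S α s z τ') (hh : box2_hor τ ↔ box2_hor τ') :
    False := by
  obtain ⟨s0, lo, hi, l1, l2, r1, r2, u1, u2, d1, d2⟩ := hN
  cases τ <;> cases τ' <;> simp only [box2_G, box2_hor] at h h' hh <;>
    first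
    | exact absurd rfl hne
    | exact hh.1 trivial
    | exact hh.2 trivial
    | (obtain ⟨a1, a2⟩ := h
       obtain ⟨b1, b2⟩ := h'
       linarith)

/-- The corner belongs to the first segment. -/
theorem box2_cF (hN : box2_N L S α s) (τ : box2_Ty) :
    box2_F S α s (box2_c S α s τ) τ :=
  box2_memF hN τ (right_mem_segment ℝ _ _)

theorem box2_ile {a n : ℤ} {z : ℝ} (h : (a : ℝ) ≤ z) (h' : z < n + 1) : a ≤ n := by
  have : (a : ℝ) < ((n + 1 : ℤ) : ℝ) := by
    push_cast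
    linarith
  have := Int.cast_lt.1 this
  omega

theorem box2_ilt {n b : ℤ} {z : ℝ} (h : (n : ℝ) < z) (h' : z ≤ b) : n < b := by
  have : (n : ℝ) < (b : ℝ) := lt_of_lt_of_le h h'
  exact Int.cast_lt.1 this

/-- The row of the cell is free between the boxes on the left and on the right. -/
theorem box2_row (hL : L.Ok U) (hS : box2_Ok L U S) {g : H} (hg : U g) {z : Pt}
    (hm : L.Mem g z) (h1 : (S.cy : ℝ) < z.2) (h2 : z.2 < S.cy + 1)
    (h3 : (L.x2 (S.hub .l) : ℝ) ≤ z.1) (h4 : z.1 ≤ L.x1 (S.hub .r)) :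
    z.1 = L.x2 (S.hub .l) ∨ z.1 = L.x1 (S.hub .r) := by
  obtain ⟨m1, m2, m3, m4⟩ := hm
  have hl : (L.x1 (S.hub .l) : ℝ) < L.x2 (S.hub .l) := by exact_mod_cast (hS.nd _).1
  have hr : (L.x1 (S.hub .r) : ℝ) < L.x2 (S.hub .r) := by exact_mod_cast (hS.nd _).1
  rcases hS.sees.row g hg ⟨box2_ile m3 h2, box2_ilt h1 m4⟩ with h | h | h | h
  · left
    rw [h] at m2
    exact le_antisymm m2 h3
  · right
    rw [h] at m1
    exact le_antisymm h4 m1
  · have h' : (L.x2 g : ℝ) < L.x1 (S.hub .l) := by exact_mod_cast h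
    linarith
  · have h' : (L.x2 (S.hub .r) : ℝ) < L.x1 g := by exact_mod_cast h
    linarith

/-- The column of the cell is free between the boxes above and below. -/
theorem box2_col (hL : L.Ok U) (hS : box2_Ok L U S) {g : H} (hg : U g) {z : Pt}
    (hm : L.Mem g z) (h1 : (S.cx : ℝ) < z.1) (h2 : z.1 < S.cx + 1)
    (h3 : (L.y2 (S.hub .u) : ℝ) ≤ z.2) (h4 : z.2 ≤ L.y1 (S.hub .d)) :
    z.2 = L.y2 (S.hub .u) ∨ z.2 = L.y1 (S.hub .d) := by
  obtain ⟨m1, m2, m3, m4⟩ := hm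
  have hl : (L.y1 (S.hub .u) : ℝ) < L.y2 (S.hub .u) := by exact_mod_cast (hS.nd _).2
  have hr : (L.y1 (S.hub .d) : ℝ) < L.y2 (S.hub .d) := by exact_mod_cast (hS.nd _).2
  rcases hS.sees.col g hg ⟨box2_ile m1 h2, box2_ilt h1 m2⟩ with h | h | h | h
  · left
    rw [h] at m4
    exact le_antisymm m4 h3
  · right
    rw [h] at m3
    exact le_antisymm h4 m3
  · have h' : (L.y2 g : ℝ) < L.y1 (S.hub .u) := by exact_mod_cast h
    linarith
  · have h' : (L.y2 (S.hub .d) : ℝ) < L.y1 g := by exact_mod_cast h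
    linarith

/-- A vertical route is free. -/
theorem box2_vr (hL : L.Ok U) {cy c : ℤ} {q : H} (hq : U q) (hV : L.VRoute U cy c q) {g : H}
    (hg : U g) {z : Pt} (hm : L.Mem g z) (h1 : (c : ℝ) < z.1) (h2 : z.1 < c + 1) :
    (L.y2 q ≤ cy → (L.y2 q : ℝ) ≤ z.2 → z.2 < cy + 1 → z.2 = L.y2 q) ∧
      (cy < L.y1 q → (cy : ℝ) < z.2 → z.2 ≤ L.y1 q → z.2 = L.y1 q) := by
  obtain ⟨m1, m2, m3, m4⟩ := hm
  have hq' : (L.y1 q : ℝ) < L.y2 q := by exact_mod_cast (hL.1 _ hq).2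
  rcases hV.cl g hg ⟨box2_ile m1 h2, box2_ilt h1 m2⟩ with h | ⟨h, h'⟩ | ⟨h, h'⟩
  · rw [h] at m3 m4
    exact ⟨fun _ h3 _ => le_antisymm m4 h3, fun _ _ h3 => le_antisymm h3 m3⟩
  · have k1 : (L.y2 g : ℝ) < L.y1 q := by exact_mod_cast h
    have k2 : (L.y2 g : ℝ) ≤ cy := by exact_mod_cast h'
    exact ⟨fun _ h3 _ => by linarith, fun _ h3 _ => by linarith⟩
  · have k1 : (L.y2 q : ℝ) < L.y1 g := by exact_mod_cast h
    have k2 : (cy : ℝ) + 1 ≤ L.y1 g := by exact_mod_cast Int.add_one_le_of_lt h'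
    exact ⟨fun _ _ h3 => by linarith, fun _ _ h3 => by linarith⟩

/-- A horizontal route is free. -/
theorem box2_hr (hL : L.Ok U) {cx c : ℤ} {q : H} (hq : U q) (hV : L.HRoute U cx c q) {g : H}
    (hg : U g) {z : Pt} (hm : L.Mem g z) (h1 : (c : ℝ) < z.2) (h2 : z.2 < c + 1) :
    (L.x2 q ≤ cx → (L.x2 q : ℝ) ≤ z.1 → z.1 < cx + 1 → z.1 = L.x2 q) ∧
      (cx < L.x1 q → (cx : ℝ) < z.1 → z.1 ≤ L.x1 q → z.1 = L.x1 q) := by
  obtain ⟨m1, m2, m3, m4⟩ := hm
  have hq' : (L.x1 q : ℝ) < L.x2 q := by exact_mod_cast (hL.1 _ hq).1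
  rcases hV.cl g hg ⟨box2_ile m3 h2, box2_ilt h1 m4⟩ with h | ⟨h, h'⟩ | ⟨h, h'⟩
  · rw [h] at m1 m2
    exact ⟨fun _ h3 _ => le_antisymm m2 h3, fun _ _ h3 => le_antisymm h3 m1⟩
  · have k1 : (L.x2 g : ℝ) < L.x1 q := by exact_mod_cast h
    have k2 : (L.x2 g : ℝ) ≤ cx := by exact_mod_cast h'
    exact ⟨fun _ h3 _ => by linarith, fun _ h3 _ => by linarith⟩
  · have k1 : (L.x2 q : ℝ) < L.x1 g := by exact_mod_cast h
    have k2 : (cx : ℝ) + 1 ≤ L.x1 g := by exact_mod_cast Int.add_one_le_of_lt h'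
    exact ⟨fun _ _ h3 => by linarith, fun _ _ h3 => by linarith⟩

/-- First segments avoid all boxes. -/
theorem box2_freeF (hL : L.Ok U) (hS : box2_Ok L U S) (hN : box2_N L S α s) {g : H} (hg : U g)
    {z : Pt} (hm : L.Mem g z) {τ : box2_Ty} (h : box2_F S α s z τ) : False := by
  obtain ⟨s0, lo, hi, l1, l2, r1, r2, u1, u2, d1, d2⟩ := hN
  cases τ
  case zu =>
    obtain ⟨a1, a2, a3⟩ := h
    rcases box2_col hL hS hg hm (by linarith) (by linarith) (by linarith) (by linarith) with h | h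
      <;> linarith
  case zd =>
    obtain ⟨a1, a2, a3⟩ := h
    rcases box2_col hL hS hg hm (by linarith) (by linarith) (by linarith) (by linarith) with h | h
      <;> linarith
  all_goals
    obtain ⟨a1, a2, a3⟩ := h
    rcases box2_row hL hS hg hm (by linarith) (by linarith) (by linarith) (by linarith) with h | h
      <;> linarith

/-- Second segments meet boxes only in their ends. -/
theorem box2_freeG (hL : L.Ok U) (hS : box2_Ok L U S) (hN : box2_N L S α s) {g : H} (hg : U g)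
    {z : Pt} (hm : L.Mem g z) {τ : box2_Ty} (hτ : U (S.hub τ)) (h : box2_G L S α s z τ) :
    z = box2_P L S α s τ := by
  obtain ⟨s0, lo, hi, l1, l2, r1, r2, u1, u2, d1, d2⟩ := hN
  cases τ
  case r =>
    obtain ⟨a1, a2, a3⟩ := h
    rcases box2_row hL hS hg hm (by linarith) (by linarith) (by linarith) (by linarith) with h | h
    · linarith
    · exact Prod.ext h a1
  case l =>
    obtain ⟨a1, a2, a3⟩ := h
    rcases box2_row hL hS hg hm (by linarith) (by linarith) (by linarith) (by linarith) with h | h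
    · exact Prod.ext h a1
    · linarith
  case u =>
    obtain ⟨a1, a2, a3⟩ := h
    rcases box2_col hL hS hg hm (by linarith) (by linarith) (by linarith) (by linarith) with h | h
    · exact Prod.ext a1 h
    · linarith
  case d =>
    obtain ⟨a1, a2, a3⟩ := h
    rcases box2_col hL hS hg hm (by linarith) (by linarith) (by linarith) (by linarith) with h | h
    · linarith
    · exact Prod.ext a1 h
  case zl =>
    obtain ⟨a1, ⟨a2, a3, a4⟩ | ⟨a2, a3, a4, a5⟩⟩ := h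
    · refine Prod.ext a1 ?_
      simp only [box2_P, if_pos a2]
      exact (box2_vr hL hτ hS.turns.rl hg hm (by linarith) (by linarith)).1 a2 a3 (by linarith)
    · refine Prod.ext a1 ?_
      simp only [box2_P, if_neg a3]
      exact (box2_vr hL hτ hS.turns.rl hg hm (by linarith) (by linarith)).2 a2 (by linarith) a5
  case zr =>
    obtain ⟨a1, ⟨a2, a3, a4⟩ | ⟨a2, a3, a4, a5⟩⟩ := h
    · refine Prod.ext a1 ?_
      simp only [box2_P, if_pos a2]
      exact (box2_vr hL hτ hS.turns.rr hg hm (by linarith) (by linarith)).1 a2 a3 (by linarith)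
    · refine Prod.ext a1 ?_
      simp only [box2_P, if_neg a3]
      exact (box2_vr hL hτ hS.turns.rr hg hm (by linarith) (by linarith)).2 a2 (by linarith) a5
  case zu =>
    obtain ⟨a1, ⟨a2, a3, a4⟩ | ⟨a2, a3, a4, a5⟩⟩ := h
    · refine Prod.ext ?_ a1
      simp only [box2_P, if_pos a2]
      exact (box2_hr hL hτ hS.turns.ru hg hm (by linarith) (by linarith)).1 a2 a3 (by linarith)
    · refine Prod.ext ?_ a1
      simp only [box2_P, if_neg a3]
      exact (box2_hr hL hτ hS.turns.ru hg hm (by linarith) (by linarith)).2 a2 (by linarith) a5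
  case zd =>
    obtain ⟨a1, ⟨a2, a3, a4⟩ | ⟨a2, a3, a4, a5⟩⟩ := h
    · refine Prod.ext ?_ a1
      simp only [box2_P, if_pos a2]
      exact (box2_hr hL hτ hS.turns.rd hg hm (by linarith) (by linarith)).1 a2 a3 (by linarith)
    · refine Prod.ext ?_ a1
      simp only [box2_P, if_neg a3]
      exact (box2_hr hL hτ hS.turns.rd hg hm (by linarith) (by linarith)).2 a2 (by linarith) a5

/-- The ends are on the boundaries of the boxes. -/
theorem box2_bd (hL : L.Ok U) (hS : box2_Ok L U S) (hN : box2_N L S α s) {τ : box2_Ty}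
    (hτ : U (S.hub τ)) : L.Bd (S.hub τ) (box2_P L S α s τ) := by
  obtain ⟨s0, lo, hi, l1, l2, r1, r2, u1, u2, d1, d2⟩ := hN
  have hx : (L.x1 (S.hub τ) : ℝ) < L.x2 (S.hub τ) := by exact_mod_cast (hL.1 _ hτ).1
  have hy : (L.y1 (S.hub τ) : ℝ) < L.y2 (S.hub τ) := by exact_mod_cast (hL.1 _ hτ).2
  cases τ
  case r =>
    have a1 : (L.y1 (S.hub .r) : ℝ) ≤ S.cy := by exact_mod_cast hS.sees.rr.1
    have a2 : (S.cy : ℝ) + 1 ≤ L.y2 (S.hub .r) := by
      exact_mod_cast Int.add_one_le_of_lt hS.sees.rr.2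
    simp only [box2_P]
    exact ⟨⟨le_refl _, hx.le, by linarith, by linarith⟩, Or.inl rfl⟩
  case l =>
    have a1 : (L.y1 (S.hub .l) : ℝ) ≤ S.cy := by exact_mod_cast hS.sees.rl.1
    have a2 : (S.cy : ℝ) + 1 ≤ L.y2 (S.hub .l) := by
      exact_mod_cast Int.add_one_le_of_lt hS.sees.rl.2
    simp only [box2_P]
    exact ⟨⟨hx.le, le_refl _, by linarith, by linarith⟩, Or.inr (Or.inl rfl)⟩
  case u =>
    have a1 : (L.x1 (S.hub .u) : ℝ) ≤ S.cx := by exact_mod_cast hS.sees.cu.1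
    have a2 : (S.cx : ℝ) + 1 ≤ L.x2 (S.hub .u) := by
      exact_mod_cast Int.add_one_le_of_lt hS.sees.cu.2
    simp only [box2_P]
    exact ⟨⟨by linarith, by linarith, hy.le, le_refl _⟩, Or.inr (Or.inr (Or.inr rfl))⟩
  case d =>
    have a1 : (L.x1 (S.hub .d) : ℝ) ≤ S.cx := by exact_mod_cast hS.sees.cd.1
    have a2 : (S.cx : ℝ) + 1 ≤ L.x2 (S.hub .d) := by
      exact_mod_cast Int.add_one_le_of_lt hS.sees.cd.2
    simp only [box2_P]
    exact ⟨⟨by linarith, by linarith, le_refl _, hy.le⟩, Or.inr (Or.inr (Or.inl rfl))⟩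
  case zl =>
    have a1 : (L.x1 (S.hub .zl) : ℝ) ≤ S.tl := by exact_mod_cast hS.turns.rl.ic.1
    have a2 : (S.tl : ℝ) + 1 ≤ L.x2 (S.hub .zl) := by
      exact_mod_cast Int.add_one_le_of_lt hS.turns.rl.ic.2
    by_cases h : L.y2 (S.hub .zl) ≤ S.cy
    · simp only [box2_P, if_pos h]
      exact ⟨⟨by linarith, by linarith, hy.le, le_refl _⟩, Or.inr (Or.inr (Or.inr rfl))⟩
    · simp only [box2_P, if_neg h]
      exact ⟨⟨by linarith, by linarith, le_refl _, hy.le⟩, Or.inr (Or.inr (Or.inl rfl))⟩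
  case zr =>
    have a1 : (L.x1 (S.hub .zr) : ℝ) ≤ S.tr := by exact_mod_cast hS.turns.rr.ic.1
    have a2 : (S.tr : ℝ) + 1 ≤ L.x2 (S.hub .zr) := by
      exact_mod_cast Int.add_one_le_of_lt hS.turns.rr.ic.2
    by_cases h : L.y2 (S.hub .zr) ≤ S.cy
    · simp only [box2_P, if_pos h]
      exact ⟨⟨by linarith, by linarith, hy.le, le_refl _⟩, Or.inr (Or.inr (Or.inr rfl))⟩
    · simp only [box2_P, if_neg h]
      exact ⟨⟨by linarith, by linarith, le_refl _, hy.le⟩, Or.inr (Or.inr (Or.inl rfl))⟩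
  case zu =>
    have a1 : (L.y1 (S.hub .zu) : ℝ) ≤ S.tu := by exact_mod_cast hS.turns.ru.ic.1
    have a2 : (S.tu : ℝ) + 1 ≤ L.y2 (S.hub .zu) := by
      exact_mod_cast Int.add_one_le_of_lt hS.turns.ru.ic.2
    by_cases h : L.x2 (S.hub .zu) ≤ S.cx
    · simp only [box2_P, if_pos h]
      exact ⟨⟨hx.le, le_refl _, by linarith, by linarith⟩, Or.inr (Or.inl rfl)⟩
    · simp only [box2_P, if_neg h]
      exact ⟨⟨le_refl _, hx.le, by linarith, by linarith⟩, Or.inl rfl⟩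
  case zd =>
    have a1 : (L.y1 (S.hub .zd) : ℝ) ≤ S.td := by exact_mod_cast hS.turns.rd.ic.1
    have a2 : (S.td : ℝ) + 1 ≤ L.y2 (S.hub .zd) := by
      exact_mod_cast Int.add_one_le_of_lt hS.turns.rd.ic.2
    by_cases h : L.x2 (S.hub .zd) ≤ S.cx
    · simp only [box2_P, if_pos h]
      exact ⟨⟨hx.le, le_refl _, by linarith, by linarith⟩, Or.inr (Or.inl rfl)⟩
    · simp only [box2_P, if_neg h]
      exact ⟨⟨le_refl _, hx.le, by linarith, by linarith⟩, Or.inl rfl⟩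

/-- The first segment is not degenerate. -/
theorem box2_wc (hN : box2_N L S α s) (τ : box2_Ty) : box2_w S α ≠ box2_c S α s τ := by
  obtain ⟨s0, lo, hi, l1, l2, r1, r2, u1, u2, d1, d2⟩ := hN
  intro h
  have h1 := congrArg Prod.fst h
  have h2 := congrArg Prod.snd h
  cases τ <;> simp only [box2_w, box2_c] at h1 h2 <;> linarith

end one

section cls

/-- The class of a coordinate. -/
noncomputable def box2_cls (D x : ℝ) : ℤ := ⌊D * Int.fract x / 8⌋

theorem box2_cls_int (D : ℝ) (n : ℤ) : box2_cls D n = 0 := by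
  simp [box2_cls]

theorem box2_cls_eq {D α s : ℝ} {v : ℤ} (hD : 0 < D) (hα : D * α = 8 * v + 4) (hs : D * s = 1)
    (lo : 0 < α - 3 * s) (hi : α + 3 * s < 1) {n : ℤ} {x : ℝ} (h1 : n + α - 3 * s ≤ x)
    (h2 : x ≤ n + α + 3 * s) : box2_cls D x = v := by
  have hf : Int.fract x = x - n := by
    rw [Int.fract_eq_iff]
    exact ⟨by linarith, by linarith, n, by ring⟩
  unfold box2_cls
  rw [hf, Int.floor_eq_iff]
  have k1 : D * (α - 3 * s) ≤ D * (x - n) := mul_le_mul_of_nonneg_left (by linarith) hD.le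
  have k2 : D * (x - n) ≤ D * (α + 3 * s) := mul_le_mul_of_nonneg_left (by linarith) hD.le
  have k3 : D * (α - 3 * s) = 8 * v + 1 := by
    have : D * (α - 3 * s) = D * α - 3 * (D * s) := by ring
    rw [this, hα, hs]
    ring
  have k4 : D * (α + 3 * s) = 8 * v + 7 := by
    have : D * (α + 3 * s) = D * α + 3 * (D * s) := by ring
    rw [this, hα, hs]
    ring
  constructor <;> linarith

/-- Admissible segments of the twin number `v`. -/
def box2_SOk (D : ℝ) (v : ℤ) (s : Pt × Pt) : Prop :=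
  (∀ z ∈ segment ℝ s.1 s.2, box2_cls D z.1 = v ∧ box2_cls D z.2 = v) ∨
  (s.1.2 = s.2.2 ∧ box2_cls D s.1.2 = v ∧ (box2_cls D s.1.1 = v ∨ box2_cls D s.1.1 = 0) ∧
    (box2_cls D s.2.1 = v ∨ box2_cls D s.2.1 = 0)) ∨
  (s.1.1 = s.2.1 ∧ box2_cls D s.1.1 = v ∧ (box2_cls D s.1.2 = v ∨ box2_cls D s.1.2 = 0) ∧
    (box2_cls D s.2.2 = v ∨ box2_cls D s.2.2 = 0))

theorem box2_hor_z {s : Pt × Pt} (h : s.1.2 = s.2.2) {z : Pt} (hz : z ∈ segment ℝ s.1 s.2) :
    z.2 = s.1.2 := by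
  obtain ⟨a, _, _, _, e2⟩ := box2_seg hz
  rw [e2, ← h]
  ring

theorem box2_ver_z {s : Pt × Pt} (h : s.1.1 = s.2.1) {z : Pt} (hz : z ∈ segment ℝ s.1 s.2) :
    z.1 = s.1.1 := by
  obtain ⟨a, _, _, e1, _⟩ := box2_seg hz
  rw [e1, ← h]
  ring

theorem box2_open {s : Pt × Pt} {z : Pt} (hz : z ∈ segment ℝ s.1 s.2) (h1 : z ≠ s.1)
    (h2 : z ≠ s.2) : z ∈ openSegment ℝ s.1 s.2 :=
  mem_openSegment_of_ne_left_right h1.symm h2.symm hz

theorem box2_perp {s t : Pt × Pt} (h : s.1.2 = s.2.2) (h' : t.1.1 = t.2.1) : Perp s t := by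
  unfold Perp
  rw [h, h']
  ring

theorem box2_perp' {s t : Pt × Pt} (h : s.1.1 = s.2.1) (h' : t.1.2 = t.2.2) : Perp s t := by
  unfold Perp
  rw [h, h']
  ring

/-- An admissible horizontal and an admissible vertical segment of different twins. -/
theorem box2_hv {D : ℝ} {v v' : ℤ} (hv : v ≠ v') (h0 : v ≠ 0) (h0' : v' ≠ 0) {s t : Pt × Pt}
    (h : s.1.2 = s.2.2 ∧ box2_cls D s.1.2 = v ∧ (box2_cls D s.1.1 = v ∨ box2_cls D s.1.1 = 0) ∧
    (box2_cls D s.2.1 = v ∨ box2_cls D s.2.1 = 0))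
    (h' : t.1.1 = t.2.1 ∧ box2_cls D t.1.1 = v' ∧
      (box2_cls D t.1.2 = v' ∨ box2_cls D t.1.2 = 0) ∧
      (box2_cls D t.2.2 = v' ∨ box2_cls D t.2.2 = 0)) {z : Pt} (hz : z ∈ segment ℝ s.1 s.2)
    (hz' : z ∈ segment ℝ t.1 t.2) :
    z ∈ openSegment ℝ s.1 s.2 ∧ z ∈ openSegment ℝ t.1 t.2 := by
  obtain ⟨a1, a2, a3, a4⟩ := h
  obtain ⟨b1, b2, b3, b4⟩ := h'
  have z2 : box2_cls D z.2 = v := by rw [box2_hor_z a1 hz, a2]
  have z1 : box2_cls D z.1 = v' := by rw [box2_ver_z b1 hz', b2]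
  refine ⟨box2_open hz ?_ ?_, box2_open hz' ?_ ?_⟩
  · rintro rfl
    rcases a3 with h | h
    · exact hv (h.symm.trans z1)
    · exact h0' (z1.symm.trans h)
  · rintro rfl
    rcases a4 with h | h
    · exact hv (h.symm.trans z1)
    · exact h0' (z1.symm.trans h)
  · rintro rfl
    rcases b3 with h | h
    · exact hv (z2.symm.trans h)
    · exact h0 (z2.symm.trans h)
  · rintro rfl
    rcases b4 with h | h
    · exact hv (z2.symm.trans h)
    · exact h0 (z2.symm.trans h)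

theorem box2_cross {D : ℝ} {v v' : ℤ} (hv : v ≠ v') (h0 : v ≠ 0) (h0' : v' ≠ 0) {s t : Pt × Pt}
    (h : box2_SOk D v s) (h' : box2_SOk D v' t) {z : Pt} (hz : z ∈ segment ℝ s.1 s.2)
    (hz' : z ∈ segment ℝ t.1 t.2) :
    z ∈ openSegment ℝ s.1 s.2 ∧ z ∈ openSegment ℝ t.1 t.2 ∧ Perp s t := by
  rcases h with h | h | h
  · exfalso
    obtain ⟨k1, k2⟩ := h z hz
    rcases h' with h' | h' | h'
    · exact hv (k1.symm.trans (h' z hz').1)
    · refine hv (k2.symm.trans ?_)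
      rw [box2_hor_z h'.1 hz', h'.2.1]
    · refine hv (k1.symm.trans ?_)
      rw [box2_ver_z h'.1 hz', h'.2.1]
  · rcases h' with h' | h' | h'
    · exfalso
      refine hv (Eq.trans ?_ (h' z hz').2)
      rw [box2_hor_z h.1 hz, h.2.1]
    · exfalso
      apply hv
      rw [← h.2.1, ← h'.2.1, ← box2_hor_z h.1 hz, ← box2_hor_z h'.1 hz']
    · obtain ⟨k1, k2⟩ := box2_hv hv h0 h0' h h' hz hz'
      exact ⟨k1, k2, box2_perp h.1 h'.1⟩
  · rcases h' with h' | h' | h'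
    · exfalso
      refine hv (Eq.trans ?_ (h' z hz').1)
      rw [box2_ver_z h.1 hz, h.2.1]
    · obtain ⟨k1, k2⟩ := box2_hv hv.symm h0' h0 h' h hz' hz
      exact ⟨k2, k1, box2_perp' h.1 h'.1⟩
    · exfalso
      apply hv
      rw [← h.2.1, ← h'.2.1, ← box2_ver_z h.1 hz, ← box2_ver_z h'.1 hz']

theorem box2_av {D : ℝ} {v v' : ℤ} {s : Pt × Pt} (h : box2_SOk D v s) {z : Pt}
    (hz : z ∈ segment ℝ s.1 s.2) (h1 : box2_cls D z.1 = v') (h2 : box2_cls D z.2 = v') :
    v' = v := by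
  rcases h with h | h | h
  · exact h1.symm.trans (h z hz).1
  · rw [← h2, box2_hor_z h.1 hz, h.2.1]
  · rw [← h1, box2_ver_z h.1 hz, h.2.1]

end cls

section clsr

variable {H : Type} {L : Boxes H} {U : H → Prop} {S : box2_S H} {α s D : ℝ} {v : ℤ}

/-- The offsets belong to the twin number `v`. -/
structure box2_V (α s D : ℝ) (v : ℤ) : Prop where
  hD : 0 < D
  hα : D * α = 8 * v + 4
  hs : D * s = 1

theorem box2_clsw (hV : box2_V α s D v) (hN : box2_N L S α s) :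
    box2_cls D (box2_w S α).1 = v ∧ box2_cls D (box2_w S α).2 = v := by
  have s0 := hN.s0
  constructor
  · exact box2_cls_eq hV.hD hV.hα hV.hs hN.lo hN.hi (n := S.cx) (by simp only [box2_w]; linarith)
      (by simp only [box2_w]; linarith)
  · exact box2_cls_eq hV.hD hV.hα hV.hs hN.lo hN.hi (n := S.cy) (by simp only [box2_w]; linarith)
      (by simp only [box2_w]; linarith)

theorem box2_SF (hV : box2_V α s D v) (hN : box2_N L S α s) (τ : box2_Ty) :
    box2_SOk D v (box2_w S α, box2_c S α s τ) := by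
  have s0 := hN.s0
  have cw := box2_clsw hV hN
  have key : ∀ (n : ℤ) (x : ℝ), n + α - 3 * s ≤ x → x ≤ n + α + 3 * s → box2_cls D x = v :=
    fun n x => box2_cls_eq hV.hD hV.hα hV.hs hN.lo hN.hi
  cases τ
  case zl =>
    right; left
    exact ⟨rfl, cw.2, Or.inl cw.1, Or.inl (key S.tl _ (by simp only [box2_c]; linarith)
      (by simp only [box2_c]; linarith))⟩
  case zr =>
    right; left
    exact ⟨rfl, cw.2, Or.inl cw.1, Or.inl (key S.tr _ (by simp only [box2_c]; linarith)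
      (by simp only [box2_c]; linarith))⟩
  case zu =>
    right; right
    exact ⟨rfl, cw.1, Or.inl cw.2, Or.inl (key S.tu _ (by simp only [box2_c]; linarith)
      (by simp only [box2_c]; linarith))⟩
  case zd =>
    right; right
    exact ⟨rfl, cw.1, Or.inl cw.2, Or.inl (key S.td _ (by simp only [box2_c]; linarith)
      (by simp only [box2_c]; linarith))⟩
  all_goals
    left
    intro z hz
    obtain ⟨a1, a2, a3⟩ := box2_memF hN _ hz
    exact ⟨key S.cx _ (by linarith) (by linarith), key S.cy _ (by linarith) (by linarith)⟩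

theorem box2_GP (hV : box2_V α s D v) (hN : box2_N L S α s) (τ : box2_Ty) :
    (box2_hor τ ∧ (box2_c S α s τ).2 = (box2_P L S α s τ).2 ∧
      box2_cls D (box2_P L S α s τ).1 = 0 ∧ box2_cls D (box2_c S α s τ).1 = v ∧
      box2_cls D (box2_c S α s τ).2 = v) ∨
    (¬ box2_hor τ ∧ (box2_c S α s τ).1 = (box2_P L S α s τ).1 ∧
      box2_cls D (box2_P L S α s τ).2 = 0 ∧ box2_cls D (box2_c S α s τ).1 = v ∧
      box2_cls D (box2_c S α s τ).2 = v) := by
  have s0 := hN.s0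
  have key : ∀ (n : ℤ) (x : ℝ), n + α - 3 * s ≤ x → x ≤ n + α + 3 * s → box2_cls D x = v :=
    fun n x => box2_cls_eq hV.hD hV.hα hV.hs hN.lo hN.hi
  cases τ
  case r =>
    left
    exact ⟨trivial, rfl, box2_cls_int D _, key S.cx _ (by simp only [box2_c]; linarith)
      (by simp only [box2_c]; linarith), key S.cy _ (by simp only [box2_c]; linarith)
      (by simp only [box2_c]; linarith)⟩
  case l =>
    left
    exact ⟨trivial, rfl, box2_cls_int D _, key S.cx _ (by simp only [box2_c]; linarith)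
      (by simp only [box2_c]; linarith), key S.cy _ (by simp only [box2_c]; linarith)
      (by simp only [box2_c]; linarith)⟩
  case u =>
    right
    exact ⟨fun h => h, rfl, box2_cls_int D _, key S.cx _ (by simp only [box2_c]; linarith)
      (by simp only [box2_c]; linarith), key S.cy _ (by simp only [box2_c]; linarith)
      (by simp only [box2_c]; linarith)⟩
  case d =>
    right
    exact ⟨fun h => h, rfl, box2_cls_int D _, key S.cx _ (by simp only [box2_c]; linarith)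
      (by simp only [box2_c]; linarith), key S.cy _ (by simp only [box2_c]; linarith)
      (by simp only [box2_c]; linarith)⟩
  case zl =>
    right
    refine ⟨fun h => h, rfl, ?_, key S.tl _ (by simp only [box2_c]; linarith)
      (by simp only [box2_c]; linarith), key S.cy _ (by simp only [box2_c]; linarith)
      (by simp only [box2_c]; linarith)⟩
    simp only [box2_P]
    split_ifs
    · exact box2_cls_int D _
    · exact box2_cls_int D _
  case zr =>
    right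
    refine ⟨fun h => h, rfl, ?_, key S.tr _ (by simp only [box2_c]; linarith)
      (by simp only [box2_c]; linarith), key S.cy _ (by simp only [box2_c]; linarith)
      (by simp only [box2_c]; linarith)⟩
    simp only [box2_P]
    split_ifs
    · exact box2_cls_int D _
    · exact box2_cls_int D _
  case zu =>
    left
    refine ⟨trivial, rfl, ?_, key S.cx _ (by simp only [box2_c]; linarith)
      (by simp only [box2_c]; linarith), key S.tu _ (by simp only [box2_c]; linarith)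
      (by simp only [box2_c]; linarith)⟩
    simp only [box2_P]
    split_ifs
    · exact box2_cls_int D _
    · exact box2_cls_int D _
  case zd =>
    left
    refine ⟨trivial, rfl, ?_, key S.cx _ (by simp only [box2_c]; linarith)
      (by simp only [box2_c]; linarith), key S.td _ (by simp only [box2_c]; linarith)
      (by simp only [box2_c]; linarith)⟩
    simp only [box2_P]
    split_ifs
    · exact box2_cls_int D _
    · exact box2_cls_int D _

theorem box2_SG (hV : box2_V α s D v) (hN : box2_N L S α s) (τ : box2_Ty) :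
    box2_SOk D v (box2_c S α s τ, box2_P L S α s τ) := by
  rcases box2_GP hV hN τ with ⟨_, h1, h2, h3, h4⟩ | ⟨_, h1, h2, h3, h4⟩
  · exact Or.inr (Or.inl ⟨h1, h4, Or.inl h3, Or.inr h2⟩)
  · exact Or.inr (Or.inr ⟨h1, h3, Or.inl h4, Or.inr h2⟩)

/-- The second segment is not degenerate. -/
theorem box2_cP (hV : box2_V α s D v) (hN : box2_N L S α s) (h0 : v ≠ 0) (τ : box2_Ty) :
    box2_c S α s τ ≠ box2_P L S α s τ := by
  intro h
  rcases box2_GP hV hN τ with ⟨_, h1, h2, h3, h4⟩ | ⟨_, h1, h2, h3, h4⟩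
  · rw [← h] at h2
    exact h0 (h3.symm.trans h2)
  · rw [← h] at h2
    exact h0 (h4.symm.trans h2)

/-- Crossings of two second segments of the same twin. -/
theorem box2_crossG (hS : box2_Ok L U S) (hV : box2_V α s D v) (hN : box2_N L S α s)
    (h0 : v ≠ 0) {τ τ' : box2_Ty} (hne : τ ≠ τ') {z : Pt}
    (hz : z ∈ segment ℝ (box2_c S α s τ) (box2_P L S α s τ))
    (hz' : z ∈ segment ℝ (box2_c S α s τ') (box2_P L S α s τ')) :
    z ∈ openSegment ℝ (box2_c S α s τ) (box2_P L S α s τ) ∧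
      z ∈ openSegment ℝ (box2_c S α s τ') (box2_P L S α s τ') ∧
      Perp (box2_c S α s τ, box2_P L S α s τ) (box2_c S α s τ', box2_P L S α s τ') := by
  have g := box2_memG hS hN τ hz
  have g' := box2_memG hS hN τ' hz'
  have n1 : z ≠ box2_c S α s τ := by
    intro h
    exact box2_FG hN hne (h ▸ box2_cF hN τ) g'
  have n2 : z ≠ box2_c S α s τ' := by
    intro h
    exact box2_FG hN hne.symm (h ▸ box2_cF hN τ') g
  rcases box2_GP hV hN τ with ⟨e, h1, h2, h3, h4⟩ | ⟨e, h1, h2, h3, h4⟩ <;>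
    rcases box2_GP hV hN τ' with ⟨e', k1, k2, k3, k4⟩ | ⟨e', k1, k2, k3, k4⟩
  · exact (box2_GG hN hne g g' ⟨fun _ => e', fun _ => e⟩).elim
  · have z1 : box2_cls D z.1 = v := by
      rw [box2_ver_z (s := (box2_c S α s τ', box2_P L S α s τ')) k1 hz']
      exact k3
    have z2 : box2_cls D z.2 = v := by
      rw [box2_hor_z (s := (box2_c S α s τ, box2_P L S α s τ)) h1 hz]
      exact h4
    refine ⟨box2_open (s := (box2_c S α s τ, box2_P L S α s τ)) hz n1 ?_,
      box2_open (s := (box2_c S α s τ', box2_P L S α s τ')) hz' n2 ?_, box2_perp h1 k1⟩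
    · intro h
      change z = box2_P L S α s τ at h
      rw [← h] at h2
      exact h0 (z1.symm.trans h2)
    · intro h
      change z = box2_P L S α s τ' at h
      rw [← h] at k2
      exact h0 (z2.symm.trans k2)
  · have z1 : box2_cls D z.1 = v := by
      rw [box2_ver_z (s := (box2_c S α s τ, box2_P L S α s τ)) h1 hz]
      exact h3
    have z2 : box2_cls D z.2 = v := by
      rw [box2_hor_z (s := (box2_c S α s τ', box2_P L S α s τ')) k1 hz']
      exact k4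
    refine ⟨box2_open (s := (box2_c S α s τ, box2_P L S α s τ)) hz n1 ?_,
      box2_open (s := (box2_c S α s τ', box2_P L S α s τ')) hz' n2 ?_, box2_perp' h1 k1⟩
    · intro h
      change z = box2_P L S α s τ at h
      rw [← h] at h2
      exact h0 (z2.symm.trans h2)
    · intro h
      change z = box2_P L S α s τ' at h
      rw [← h] at k2
      exact h0 (z1.symm.trans k2)
  · exact (box2_GG hN hne g g' ⟨fun h => absurd h e, fun h => absurd h e'⟩).elim

end clsr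

theorem box2_segs {a b c : Pt} {s : Pt × Pt} (h : s ∈ segs [a, b, c]) :
    s = (a, b) ∨ s = (b, c) := by
  simpa [segs] using h

theorem box2_seat {H : Type} {L : Boxes H} {U : H → Prop} {E : List H} (h : Seat2 L U E)
    (hnd : ∀ h, L.x1 h < L.x2 h ∧ L.y1 h < L.y2 h) :
    ∃ S : box2_S H, box2_Ok L U S ∧ ∀ h ∈ E, ∃ τ, h = S.hub τ := by
  obtain ⟨cx, cy, l, r, u, d, tl, tr, tu, td, zl, zr, zu, zd, h1, h2, h3⟩ := h
  refine ⟨⟨cx, cy, tl, tr, tu, td, fun τ => match τ with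
    | .r => r | .l => l | .u => u | .d => d | .zl => zl | .zr => zr | .zu => zu | .zd => zd⟩,
    ⟨h1, h2, hnd⟩, fun h hh => ?_⟩
  rcases h3 h hh with e | e | e | e | e | e | e | e
  · exact ⟨.l, e⟩
  · exact ⟨.r, e⟩
  · exact ⟨.u, e⟩
  · exact ⟨.d, e⟩
  · exact ⟨.zl, e⟩
  · exact ⟨.zr, e⟩
  · exact ⟨.zu, e⟩
  · exact ⟨.zd, e⟩

/-- Box layouts give two-bend drawings. -/
theorem box2 {H : Type} {𝓔 : List (List H)} (L : Boxes H) (hL : L.Ok (Used 𝓔))
    (hnd : ∀ h, L.x1 h < L.x2 h ∧ L.y1 h < L.y2 h)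
    (hs : ∀ E ∈ 𝓔, Seat2 L (Used 𝓔) E) (T : ℕ) :
    ∃ (hp : H → Pt) (wp : ℕ → ℕ → Pt) (ch : ℕ → ℕ → H → List Pt), IsHD 2 𝓔 T hp wp ch := by
  by_cases hE : 𝓔 = []
  · subst hE
    have hIn : ∀ j (h : H), ¬ In [] j h := fun j h hh => absurd hh.lt (by simp)
    have hTw : ∀ j t, ¬ Tw ([] : List (List H)) T j t := fun j t hh => absurd hh.1 (by simp)
    have hU : ∀ h : H, ¬ Used [] h := fun h ⟨E, hE, _⟩ => absurd hE (by simp)
    exact ⟨fun _ => 0, fun _ _ => 0, fun _ _ _ => [],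
      { hinj := fun h _ hh => absurd hh (hU h)
        winj := fun j t _ _ hh => absurd hh (hTw j t)
        wh := fun j t _ hh => absurd hh (hTw j t)
        chain := fun j t h _ hh => absurd hh (hIn j h)
        avh := fun j t h _ _ hh => absurd hh (hIn j h)
        avw := fun j t h _ _ _ hh => absurd hh (hIn j h)
        cross := fun j t h _ _ _ _ _ hh => absurd hh (hIn j h)
        simple := fun j t h _ hh => absurd hh (hIn j h) }⟩
  obtain ⟨E₀, hE₀⟩ := List.exists_mem_of_ne_nil _ hE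
  obtain ⟨S₀, hS₀, _⟩ := box2_seat (hs E₀ hE₀) hnd
  have hex : ∀ j, ∃ S : box2_S H, box2_Ok L (Used 𝓔) S ∧ ∀ h, In 𝓔 j h → ∃ τ, h = S.hub τ := by
    intro j
    by_cases hj : j < 𝓔.length
    · obtain ⟨S, h1, h2⟩ := box2_seat (hs _ (List.getElem_mem hj)) hnd
      refine ⟨S, h1, fun h hh => h2 h ?_⟩
      unfold In at hh
      rwa [List.getD_eq_getElem _ _ hj] at hh
    · exact ⟨S₀, hS₀, fun h hh => absurd hh.lt hj⟩
  choose S hS hin using hex
  have hty : ∀ j h, ∃ τ : box2_Ty, In 𝓔 j h → h = (S j).hub τ := by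
    intro j h
    by_cases hh : In 𝓔 j h
    · obtain ⟨τ, hτ⟩ := hin j h hh
      exact ⟨τ, fun _ => hτ⟩
    · exact ⟨.r, fun h' => absurd h' hh⟩
  choose ty hty using hty
  -- the numbers of the twins
  obtain ⟨D, hDe⟩ : ∃ D : ℝ, D = 8 * ((T * 𝓔.length : ℕ) + 2) := ⟨_, rfl⟩
  have hD : 0 < D := by
    rw [hDe]
    positivity
  obtain ⟨s, hse⟩ : ∃ s : ℝ, s = 1 / D := ⟨_, rfl⟩
  have hsD : D * s = 1 := by
    rw [hse]
    field_simp
  have hs0 : 0 < s := by
    rw [hse]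
    positivity
  let vn : ℕ → ℕ → ℤ := fun j t => ((T * j + t + 1 : ℕ) : ℤ)
  let α : ℕ → ℕ → ℝ := fun j t => (8 * ((T * j + t + 1 : ℕ) : ℝ) + 4) / D
  have hα : ∀ j t, D * α j t = 8 * ((vn j t : ℤ) : ℝ) + 4 := by
    intro j t
    simp only [α, vn]
    rw [mul_div_cancel₀ _ hD.ne']
    push_cast
    ring
  have hv0 : ∀ j t, vn j t ≠ 0 := by
    intro j t
    simp only [vn]
    omega
  have hvle : ∀ j t, Tw 𝓔 T j t → T * j + t + 1 ≤ T * 𝓔.length := by
    rintro j t ⟨h1, h2⟩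
    have := Nat.mul_le_mul_left T (Nat.succ_le_of_lt h1)
    rw [Nat.mul_succ] at this
    omega
  have hlo : ∀ j t, 0 < α j t - 3 * s := by
    intro j t
    have h1 : 0 < D * (α j t - 3 * s) := by
      have : D * (α j t - 3 * s) = D * α j t - 3 * (D * s) := by ring
      rw [this, hα, hsD]
      simp only [vn]
      push_cast
      have h3 : (0 : ℝ) ≤ (T : ℝ) * j + t := by positivity
      linarith
    exact (mul_pos_iff_of_pos_left hD).1 h1
  have hhi : ∀ j t, Tw 𝓔 T j t → α j t + 3 * s < 1 := by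
    intro j t hjt
    have h1 : D * (α j t + 3 * s) < D * 1 := by
      have : D * (α j t + 3 * s) = D * α j t + 3 * (D * s) := by ring
      rw [this, hα, hsD, hDe]
      simp only [vn]
      have h3 : ((T * j + t + 1 : ℕ) : ℝ) ≤ ((T * 𝓔.length : ℕ) : ℝ) := by
        exact_mod_cast hvle j t hjt
      have h4 : (((T * j + t + 1 : ℕ) : ℤ) : ℝ) = ((T * j + t + 1 : ℕ) : ℝ) := by push_cast; rfl
      rw [h4]
      linarith
    exact lt_of_mul_lt_mul_left h1 hD.le
  have hV : ∀ j t, box2_V (α j t) s D (vn j t) := fun j t => ⟨hD, hα j t, hsD⟩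
  have hN : ∀ j t, Tw 𝓔 T j t → box2_N L (S j) (α j t) s :=
    fun j t hjt => (hS j).n hs0 (hlo j t) (hhi j t hjt)
  have vinj : ∀ j t j' t', Tw 𝓔 T j t → Tw 𝓔 T j' t' → vn j t = vn j' t' → j = j' ∧ t = t' := by
    rintro j t j' t' ⟨_, h2⟩ ⟨_, h2'⟩ h
    simp only [vn] at h
    have h3 : T * j + t = T * j' + t' := by omega
    have h4 : j = j' := by
      have e1 : (T * j + t) / T = j := by
        rw [Nat.mul_add_div (by omega), Nat.div_eq_of_lt h2, add_zero]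
      have e2 : (T * j' + t') / T = j' := by
        rw [Nat.mul_add_div (by omega), Nat.div_eq_of_lt h2', add_zero]
      rw [← e1, ← e2, h3]
    subst h4
    exact ⟨rfl, by omega⟩
  have htw : ∀ {j t h}, t < T → In 𝓔 j h → Tw 𝓔 T j t := fun ht hh => ⟨hh.lt, ht⟩
  have hcw : ∀ j t, Tw 𝓔 T j t → box2_cls D (box2_w (S j) (α j t)).1 = vn j t ∧
      box2_cls D (box2_w (S j) (α j t)).2 = vn j t :=
    fun j t hjt => box2_clsw (hV j t) (hN j t hjt)
  have husd : ∀ {j h}, In 𝓔 j h → Used 𝓔 ((S j).hub (ty j h)) := by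
    intro j h hh
    rw [← hty j h hh]
    exact hh.used
  have hSOk : ∀ {j t h}, t < T → In 𝓔 j h → ∀ s' ∈ segs [box2_w (S j) (α j t),
      box2_c (S j) (α j t) s (ty j h), box2_P L (S j) (α j t) s (ty j h)],
      box2_SOk D (vn j t) s' := by
    intro j t h ht hh s' hs'
    rcases box2_segs hs' with rfl | rfl
    · exact box2_SF (hV j t) (hN j t (htw ht hh)) _
    · exact box2_SG (hV j t) (hN j t (htw ht hh)) _
  refine ⟨L.ctr, fun j t => box2_w (S j) (α j t), fun j t h => [box2_w (S j) (α j t),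
      box2_c (S j) (α j t) s (ty j h), box2_P L (S j) (α j t) s (ty j h)] ++ [L.ctr h], ?_⟩
  refine boxT (k := 2) L hL (fun j t => box2_w (S j) (α j t))
    (fun j t h => box2_P L (S j) (α j t) s (ty j h))
    (fun j t h => [box2_w (S j) (α j t), box2_c (S j) (α j t) s (ty j h),
      box2_P L (S j) (α j t) s (ty j h)]) ?_ ?_ ?_ ?_ ?_ ?_ ?_ ?_ ?_
  · intro j t j' t' h h' he
    apply vinj j t j' t' h h'
    have h1 := (hcw j t h).1
    have h2 := (hcw j' t' h').1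
    have he' : box2_w (S j) (α j t) = box2_w (S j') (α j' t') := he
    rw [he'] at h1
    exact h1.symm.trans h2
  · intro j t h hjt hh hm
    refine box2_freeF hL (hS j) (hN j t hjt) hh hm (τ := .r) ?_
    exact box2_memF (hN j t hjt) .r (left_mem_segment ℝ _ _)
  · intro j t h ht hh
    refine ⟨rfl, rfl, by simp, fun s' hs' => ?_⟩
    rcases box2_segs hs' with rfl | rfl
    · exact box2_wc (hN j t (htw ht hh)) _
    · exact box2_cP (hV j t) (hN j t (htw ht hh)) (hv0 j t) _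
  · intro j t h ht hh
    have := box2_bd hL (hS j) (hN j t (htw ht hh)) (husd hh)
    rwa [← hty j h hh] at this
  · rintro j t h g z ht hh hg ⟨s', hs', hz⟩ hm
    rcases box2_segs hs' with rfl | rfl
    · exact (box2_freeF hL (hS j) (hN j t (htw ht hh)) hg hm
        (box2_memF (hN j t (htw ht hh)) _ hz)).elim
    · exact box2_freeG hL (hS j) (hN j t (htw ht hh)) hg hm (husd hh)
        (box2_memG (hS j) (hN j t (htw ht hh)) _ hz)
  · intro j t j' t' h ht ht' hh hh' he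
    apply vinj j t j' t' (htw ht hh) (htw ht' hh')
    have he' : box2_P L (S j) (α j t) s (ty j h) = box2_P L (S j') (α j' t') s (ty j' h) := he
    have a0 := hv0 j t
    have b0 := hv0 j' t'
    rcases box2_GP (hV j t) (hN j t (htw ht hh)) (ty j h) with ⟨_, h1, h2, h3, h4⟩ |
      ⟨_, h1, h2, h3, h4⟩ <;>
    rcases box2_GP (hV j' t') (hN j' t' (htw ht' hh')) (ty j' h) with ⟨_, k1, k2, k3, k4⟩ |
      ⟨_, k1, k2, k3, k4⟩
    · rw [h1, he'] at h4
      rw [k1] at k4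
      exact h4.symm.trans k4
    · rw [k1, ← he', h2] at k3
      exact absurd k3.symm b0
    · rw [h1, he', k2] at h3
      exact absurd h3.symm a0
    · rw [h1, he'] at h3
      rw [k1] at k3
      exact h3.symm.trans k3
  · rintro j t h j' t' ht hh hjt' ⟨s', hs', hz⟩
    apply vinj j' t' j t hjt' (htw ht hh)
    exact box2_av (hSOk ht hh s' hs') hz (hcw j' t' hjt').1 (hcw j' t' hjt').2
  · intro j t h j' t' h' ht ht' hh hh' hne s₁ hs₁ s₂ hs₂ z hz₁ hz₂
    by_cases hsame : j = j' ∧ t = t'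
    · obtain ⟨rfl, rfl⟩ := hsame
      have hhne : h ≠ h' := fun e => hne ⟨rfl, rfl, e⟩
      have hτ : ty j h ≠ ty j h' := by
        intro e
        apply hhne
        rw [hty j h hh, hty j h' hh', e]
      have hn := hN j t (htw ht hh)
      rcases box2_segs hs₁ with rfl | rfl <;> rcases box2_segs hs₂ with rfl | rfl
      · exact Or.inl ⟨rfl, rfl, box2_FF hn hτ (box2_memF hn _ hz₁) (box2_memF hn _ hz₂)⟩
      · exact (box2_FG hn hτ (box2_memF hn _ hz₁) (box2_memG (hS j) hn _ hz₂)).elim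
      · exact (box2_FG hn hτ.symm (box2_memF hn _ hz₂) (box2_memG (hS j) hn _ hz₁)).elim
      · exact Or.inr (box2_crossG (hS j) (hV j t) hn (hv0 j t) hτ hz₁ hz₂)
    · right
      have hvne : vn j t ≠ vn j' t' :=
        fun e => hsame (vinj j t j' t' (htw ht hh) (htw ht' hh') e)
      exact box2_cross hvne (hv0 j t) (hv0 j' t') (hSOk ht hh s₁ hs₁) (hSOk ht' hh' s₂ hs₂)
        hz₁ hz₂
  · intro j t h ht hh
    have hn := hN j t (htw ht hh)
    refine ⟨fun s' hs' z hz hz' => ?_, ?_, trivial⟩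
    · have : s' = (box2_c (S j) (α j t) s (ty j h), box2_P L (S j) (α j t) s (ty j h)) := by
        simpa [segs] using hs'
      subst this
      exact box2_self hn (box2_memF hn _ hz) (box2_memG (hS j) hn _ hz')
    · intro s' hs'
      exact absurd hs' (by simp [segs])

end Pool.Agent.RAC963
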