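import Pool.Agent.RAC963.LayInj

set_option autoImplicit false

namespace Pool.Agent.RAC963

theorem layD_lc (τ : ℕ → Bool) (c : SCl) (k : ℕ) : lc τ c k ≤ 1 := by
  unfold lc
  split
  · omega
  · split_ifs <;> omega
  · split_ifs <;> omega

theorem layD_litX (τ : ℕ → Bool) (φ : N3) (Q j k : ℕ) :
    4 * Q + 4 * j + 1 ≤ litX τ φ Q j k ∧ litX τ φ Q j k ≤ 8 * Q + 4 * j + 3 := by
  have := layD_lc τ (clj φ j) k
  unfold litX
  split_ifs <;> omega

theorem layD_litY (τ : ℕ → Bool) (φ : N3) (Q j k : ℕ) :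
    Q + 4 * j + 1 ≤ litY τ φ Q j k ∧ litY τ φ Q j k ≤ 6 * Q + 4 * j + 3 := by
  have := layD_lc τ (clj φ j) k
  unfold litY
  split_ifs <;> omega

/-- Local coordinates of the local hubs. -/
theorem layD_loc3 {N M F : ℕ} {φ : N3} {τ : ℕ → Bool} {g : Hub} (hg : Vh N M F φ g)
    (hg3 : 3 ≤ g.1) : g.2.1 < N ∧
    Qs M F φ ≤ locX τ φ (Qs M F φ) g.1 g.2.2 ∧
    locX τ φ (Qs M F φ) g.1 g.2.2 + 3 ≤ 12 * Qs M F φ ∧
    Qs M F φ ≤ locY τ φ (Qs M F φ) g.1 g.2.2 ∧
    locY τ φ (Qs M F φ) g.1 g.2.2 + 3 ≤ 12 * Qs M F φ := by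
  obtain ⟨k, a, i⟩ := g
  have hQ : Qs M F φ = 4 * (nv φ + (cl φ).length + 2 * M + F + 5) + 8 := rfl
  generalize Qs M F φ = Q at hQ
  simp only [Vh] at hg hg3 ⊢
  rcases hg with h | h | h | h | h | h | h
  · omega
  · omega
  · omega
  · obtain ⟨h1, h2, h3, h4⟩ := h
    interval_cases k <;> simp only [locX, locY] <;> (try split_ifs) <;> omega
  · obtain ⟨h1, h3, h4⟩ := h
    subst h1
    simp only [locX, locY]
    omega
  · obtain ⟨h1, h2, h3, h4⟩ := h
    have l0 := layD_litX τ φ Q i 0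
    have l1 := layD_litX τ φ Q i 1
    have l2 := layD_litX τ φ Q i 2
    have m0 := layD_litY τ φ Q i 0
    have m1 := layD_litY τ φ Q i 1
    have m2 := layD_litY τ φ Q i 2
    interval_cases k <;> simp only [locX, locY] <;> omega
  · obtain ⟨h1, h2, h3, h4⟩ := h
    interval_cases k <;> simp only [locX, locY] <;> omega

/-- Local coordinates of the inert hubs. -/
theorem layD_loc2 {N M F : ℕ} {φ : N3} {τ : ℕ → Bool} {g : Hub} (hg : Vh N M F φ g)
    (hg2 : g.1 = 2) : g.2.1 ≤ N ∧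
    locX τ φ (Qs M F φ) g.1 g.2.2 + 3 ≤ Qs M F φ ∧
    locY τ φ (Qs M F φ) g.1 g.2.2 + 3 ≤ Qs M F φ := by
  obtain ⟨k, a, i⟩ := g
  have hQ : Qs M F φ = 4 * (nv φ + (cl φ).length + 2 * M + F + 5) + 8 := rfl
  generalize Qs M F φ = Q at hQ
  simp only [Vh] at hg hg2 ⊢
  subst hg2
  simp only [locX, locY]
  omega

/-- Local coordinates of the small hubs. -/
theorem layD_bd {N M F : ℕ} {φ : N3} {τ : ℕ → Bool} {g : Hub} (hg : Vh N M F φ g)
    (hg2 : 2 ≤ g.1) : 
    2 * pX τ φ (Qs M F φ) g + 6 ≤ Wd N (Qs M F φ) ∧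
    2 * pY τ φ (Qs M F φ) g + 6 ≤ Wd N (Qs M F φ) := by
  have h : g.2.1 ≤ N ∧ locX τ φ (Qs M F φ) g.1 g.2.2 + 3 ≤ 12 * Qs M F φ ∧
      locY τ φ (Qs M F φ) g.1 g.2.2 + 3 ≤ 12 * Qs M F φ := by
    by_cases h3 : 3 ≤ g.1
    · have := layD_loc3 (τ := τ) hg h3
      omega
    · have := layD_loc2 (τ := τ) hg (by omega)
      omega
  obtain ⟨h1, h2, h3⟩ := h
  have hm : Qs M F φ * g.2.1 ≤ Qs M F φ * N := Nat.mul_le_mul_left _ h1
  have he : Qs M F φ * (N + 1) = Qs M F φ * N + Qs M F φ := by ring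
  unfold pX pY Wd
  rw [he]
  omega

theorem layD_x1 {N : ℕ} {τ : ℕ → Bool} {φ : N3} {Q : ℕ} {g : Hub} (h : 2 ≤ g.1) :
    (lay N τ φ Q).x1 g = 2 * (pX τ φ Q g : ℕ) := by
  obtain ⟨k, a, i⟩ := g
  obtain ⟨k, rfl⟩ : ∃ k', k = k' + 2 := ⟨k - 2, by simp only at h; omega⟩
  rfl

theorem layD_x2 {N : ℕ} {τ : ℕ → Bool} {φ : N3} {Q : ℕ} {g : Hub} (h : 2 ≤ g.1) :
    (lay N τ φ Q).x2 g = 2 * (pX τ φ Q g : ℕ) + 3 := by
  obtain ⟨k, a, i⟩ := g
  obtain ⟨k, rfl⟩ : ∃ k', k = k' + 2 := ⟨k - 2, by simp only at h; omega⟩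
  rfl

theorem layD_y1 {N : ℕ} {τ : ℕ → Bool} {φ : N3} {Q : ℕ} {g : Hub} (h : 2 ≤ g.1) :
    (lay N τ φ Q).y1 g = 2 * (pY τ φ Q g : ℕ) := by
  obtain ⟨k, a, i⟩ := g
  obtain ⟨k, rfl⟩ : ∃ k', k = k' + 2 := ⟨k - 2, by simp only at h; omega⟩
  rfl

theorem layD_y2 {N : ℕ} {τ : ℕ → Bool} {φ : N3} {Q : ℕ} {g : Hub} (h : 2 ≤ g.1) :
    (lay N τ φ Q).y2 g = 2 * (pY τ φ Q g : ℕ) + 3 := by
  obtain ⟨k, a, i⟩ := g
  obtain ⟨k, rfl⟩ : ∃ k', k = k' + 2 := ⟨k - 2, by simp only at h; omega⟩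
  rfl

/-- The hubs whose box meets the middle column of a small hub. -/
theorem layD_incol {N M F : ℕ} {φ : N3} {τ : ℕ → Bool} (hn : Nae τ φ) {g z : Hub}
    (hg : Vh N M F φ g) (hz : Vh N M F φ z) (hz2 : 2 ≤ z.1)
    (hc : (lay N τ φ (Qs M F φ)).InCol g (2 * (pX τ φ (Qs M F φ) z : ℕ) + 1)) :
    g = z ∨ g = (0, 0, 1) ∨ g = (0, 0, 3) ∨
    (∃ γ, g = (1, γ, 1) ∧ 24 * (Qs M F φ * γ) ≤ 2 * pX τ φ (Qs M F φ) z + 1 ∧
      2 * pX τ φ (Qs M F φ) z + 1 < 24 * (Qs M F φ * γ) + 2 * Qs M F φ) ∨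
    (∃ γ, g = (1, γ, 3) ∧ 24 * (Qs M F φ * γ) ≤ 2 * pX τ φ (Qs M F φ) z + 1 ∧
      2 * pX τ φ (Qs M F φ) z + 1 < 24 * (Qs M F φ * γ) + 2 * Qs M F φ) := by
  have hbd := (layD_bd (τ := τ) hz hz2).1
  by_cases h2 : 2 ≤ g.1
  · left
    apply pX_inj hn hg hz h2 hz2
    unfold Boxes.InCol at hc
    rw [layD_x1 h2, layD_x2 h2] at hc
    omega
  · right
    obtain ⟨k, a, i⟩ := g
    simp only [Vh] at hg h2
    unfold Boxes.InCol at hc
    simp only [lay] at hc
    have hk : k = 0 ∨ k = 1 := by omega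
    rcases hk with rfl | rfl
    · have ha : a = 0 := by omega
      have hi : i < 4 := by omega
      subst ha
      interval_cases i
      · simp only [bx1, bx2] at hc
        omega
      · left
        rfl
      · simp only [bx1, bx2] at hc
        omega
      · right
        left
        rfl
    · have hi : i < 4 := by omega
      interval_cases i
      · simp only [bx1, bx2] at hc
        omega
      · right
        right
        left
        refine ⟨a, rfl, ?_⟩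
        simp only [bx1, bx2] at hc
        omega
      · simp only [bx1, bx2] at hc
        omega
      · right
        right
        right
        refine ⟨a, rfl, ?_⟩
        simp only [bx1, bx2] at hc
        omega

/-- The hubs whose box meets the middle row of a small hub. -/
theorem layD_inrow {N M F : ℕ} {φ : N3} {τ : ℕ → Bool} (hn : Nae τ φ) {g z : Hub}
    (hg : Vh N M F φ g) (hz : Vh N M F φ z) (hz2 : 2 ≤ z.1)
    (hc : (lay N τ φ (Qs M F φ)).InRow g (2 * (pY τ φ (Qs M F φ) z : ℕ) + 1)) :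
    g = z ∨ g = (0, 0, 0) ∨ g = (0, 0, 2) ∨
    (∃ γ, g = (1, γ, 0) ∧ 24 * (Qs M F φ * γ) ≤ 2 * pY τ φ (Qs M F φ) z + 1 ∧
      2 * pY τ φ (Qs M F φ) z + 1 < 24 * (Qs M F φ * γ) + 2 * Qs M F φ) ∨
    (∃ γ, g = (1, γ, 2) ∧ 24 * (Qs M F φ * γ) ≤ 2 * pY τ φ (Qs M F φ) z + 1 ∧
      2 * pY τ φ (Qs M F φ) z + 1 < 24 * (Qs M F φ * γ) + 2 * Qs M F φ) := by
  have hbd := (layD_bd (τ := τ) hz hz2).2
  by_cases h2 : 2 ≤ g.1
  · left
    apply pY_inj hn hg hz h2 hz2
    unfold Boxes.InRow at hc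
    rw [layD_y1 h2, layD_y2 h2] at hc
    omega
  · right
    obtain ⟨k, a, i⟩ := g
    simp only [Vh] at hg h2
    unfold Boxes.InRow at hc
    simp only [lay] at hc
    have hk : k = 0 ∨ k = 1 := by omega
    rcases hk with rfl | rfl
    · have ha : a = 0 := by omega
      have hi : i < 4 := by omega
      subst ha
      interval_cases i
      · left
        rfl
      · simp only [by1, by2] at hc
        omega
      · right
        left
        rfl
      · simp only [by1, by2] at hc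
        omega
    · have hi : i < 4 := by omega
      interval_cases i
      · right
        right
        left
        refine ⟨a, rfl, ?_⟩
        simp only [by1, by2] at hc
        omega
      · simp only [by1, by2] at hc
        omega
      · right
        right
        right
        refine ⟨a, rfl, ?_⟩
        simp only [by1, by2] at hc
        omega
      · simp only [by1, by2] at hc
        omega

/-- Routes along the middle column of a small hub. -/
theorem layD_vr {N M F : ℕ} {φ : N3} {τ : ℕ → Bool} (hn : Nae τ φ) {z : Hub}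
    (hz : Vh N M F φ z) (hz2 : 2 ≤ z.1) {cy : ℤ} (h0 : 0 ≤ cy) (h1 : cy ≤ Wd N (Qs M F φ))
    (ho : 2 * (pY τ φ (Qs M F φ) z : ℤ) + 3 ≤ cy ∨ cy < 2 * (pY τ φ (Qs M F φ) z : ℤ)) :
    (lay N τ φ (Qs M F φ)).VRoute (Vh N M F φ) cy (2 * (pX τ φ (Qs M F φ) z : ℕ) + 1) z := by
  have hbd := (layD_bd (τ := τ) hz hz2).2
  refine ⟨?_, ?_, ?_⟩
  · unfold Boxes.InCol
    rw [layD_x1 hz2, layD_x2 hz2]
    omega
  · rw [layD_y1 hz2, layD_y2 hz2]
    exact ho
  · intro g hg hc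
    rw [layD_y1 hz2, layD_y2 hz2]
    rcases layD_incol hn hg hz hz2 hc with h | rfl | rfl | ⟨γ, rfl, -⟩ | ⟨γ, rfl, -⟩
    · left
      exact h
    · right
      right
      simp only [lay, by1]
      omega
    · right
      left
      simp only [lay, by2]
      omega
    · right
      right
      simp only [lay, by1]
      omega
    · right
      left
      simp only [lay, by2]
      omega

/-- Routes along the middle row of a small hub. -/
theorem layD_hr {N M F : ℕ} {φ : N3} {τ : ℕ → Bool} (hn : Nae τ φ) {z : Hub}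
    (hz : Vh N M F φ z) (hz2 : 2 ≤ z.1) {cx : ℤ} (h0 : 0 ≤ cx) (h1 : cx ≤ Wd N (Qs M F φ))
    (ho : 2 * (pX τ φ (Qs M F φ) z : ℤ) + 3 ≤ cx ∨ cx < 2 * (pX τ φ (Qs M F φ) z : ℤ)) :
    (lay N τ φ (Qs M F φ)).HRoute (Vh N M F φ) cx (2 * (pY τ φ (Qs M F φ) z : ℕ) + 1) z := by
  have hbd := (layD_bd (τ := τ) hz hz2).1
  refine ⟨?_, ?_, ?_⟩
  · unfold Boxes.InRow
    rw [layD_y1 hz2, layD_y2 hz2]
    omega
  · rw [layD_x1 hz2, layD_x2 hz2]
    exact ho
  · intro g hg hc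
    rw [layD_x1 hz2, layD_x2 hz2]
    rcases layD_inrow hn hg hz hz2 hc with h | rfl | rfl | ⟨γ, rfl, -⟩ | ⟨γ, rfl, -⟩
    · left
      exact h
    · right
      left
      simp only [lay, bx2]
      omega
    · right
      right
      simp only [lay, bx1]
      omega
    · right
      left
      simp only [lay, bx2]
      omega
    · right
      right
      simp only [lay, bx1]
      omega

/-- The middle row of a local hub meets no box of kind 1. -/
theorem layD_gap {Q α γ t : ℕ} (h1 : Q ≤ t) (h2 : t + 3 ≤ 12 * Q)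
    (h3 : 24 * (Q * γ) ≤ 2 * (12 * (Q * α) + t) + 1)
    (h4 : 2 * (12 * (Q * α) + t) + 1 < 24 * (Q * γ) + 2 * Q) : False := by
  rcases Nat.lt_or_ge α γ with h | h
  · have : Q * (α + 1) ≤ Q * γ := Nat.mul_le_mul_left _ h
    have e : Q * (α + 1) = Q * α + Q := by ring
    omega
  · have : Q * γ ≤ Q * α := Nat.mul_le_mul_left _ h
    omega

/-- Members of `locs`. -/
theorem layD_locs {N M F : ℕ} {φ : N3} {α : ℕ} (hα : α < N) {p : Hub} (hp : p ∈ locs F φ α) :
    Vh N M F φ p ∧ 3 ≤ p.1 ∧ p.2.1 = α := by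
  simp only [locs, List.mem_append, List.mem_flatMap, List.mem_map, List.mem_range,
    List.mem_cons, List.not_mem_nil, or_false] at hp
  rcases hp with ((⟨i, hi, h⟩ | ⟨i, hi, h⟩) | ⟨i, hi, h⟩) | ⟨i, hi, h⟩
  · rcases h with rfl | rfl | rfl | rfl | rfl <;> refine ⟨?_, by norm_num, rfl⟩ <;>
      simp [Vh, hα, hi]
  · subst h
    refine ⟨?_, by norm_num, rfl⟩
    simp [Vh, hα, hi]
  · rcases h with rfl | rfl | rfl | rfl <;> refine ⟨?_, by norm_num, rfl⟩ <;>
      simp [Vh, hα, hi]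
  · rcases h with rfl | rfl | rfl | rfl | rfl <;> refine ⟨?_, by norm_num, rfl⟩ <;>
      simp [Vh, hα, hi]

theorem layD_grA {N M F : ℕ} {φ : N3} {γ : ℕ} (hγ : γ ≤ N) {z : Hub} (hz : z ∈ grA M γ) :
    Vh N M F φ z ∧ z.1 = 2 ∧ z.2.1 = γ := by
  simp only [grA, List.mem_map, List.mem_range] at hz
  obtain ⟨i, hi, rfl⟩ := hz
  refine ⟨?_, rfl, rfl⟩
  have : i < 2 * M := by omega
  simp [Vh, hγ, this]

theorem layD_grB {N M F : ℕ} {φ : N3} {γ : ℕ} (hγ : γ ≤ N) {z : Hub} (hz : z ∈ grB M γ) :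
    Vh N M F φ z ∧ z.1 = 2 ∧ z.2.1 = γ := by
  simp only [grB, List.mem_map, List.mem_range] at hz
  obtain ⟨i, hi, rfl⟩ := hz
  refine ⟨?_, rfl, rfl⟩
  have : M + i < 2 * M := by omega
  simp [Vh, hγ, this]

/-- The view from the cell of the first kind. -/
theorem layD_see1 {N M F : ℕ} {φ : N3} {τ : ℕ → Bool} (hn : Nae τ φ) {p q : Hub}
    (hp : Vh N M F φ p) (hq : Vh N M F φ q) (hp3 : 3 ≤ p.1) (hq3 : 3 ≤ q.1)
    (hlt : p.2.1 < q.2.1) :
    (lay N τ φ (Qs M F φ)).Sees (Vh N M F φ) (2 * (pX τ φ (Qs M F φ) q : ℕ) + 1)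
      (2 * (pY τ φ (Qs M F φ) p : ℕ) + 1) p (0, 0, 2) (0, 0, 3) q := by
  have lp := layD_loc3 (τ := τ) hp hp3
  have lq := layD_loc3 (τ := τ) hq hq3
  have bp := layD_bd (τ := τ) hp (by omega)
  have bq := layD_bd (τ := τ) hq (by omega)
  have hm : Qs M F φ * (p.2.1 + 1) ≤ Qs M F φ * q.2.1 := Nat.mul_le_mul_left _ hlt
  have he : Qs M F φ * (p.2.1 + 1) = Qs M F φ * p.2.1 + Qs M F φ := by ring
  have hxx : pX τ φ (Qs M F φ) p + 3 ≤ pX τ φ (Qs M F φ) q := by
    unfold pX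
    omega
  have hyy : pY τ φ (Qs M F φ) p + 3 ≤ pY τ φ (Qs M F φ) q := by
    unfold pY
    omega
  refine ⟨?_, ?_, ?_, ?_, ?_, ?_, ?_, ?_, ?_, ?_⟩
  · unfold Boxes.InRow
    rw [layD_y1 (by omega), layD_y2 (by omega)]
    omega
  · unfold Boxes.InRow
    simp only [lay, by1, by2]
    omega
  · unfold Boxes.InCol
    simp only [lay, bx1, bx2]
    omega
  · unfold Boxes.InCol
    rw [layD_x1 (by omega), layD_x2 (by omega)]
    omega
  · rw [layD_x2 (by omega)]
    omega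
  · simp only [lay, bx1]
    omega
  · simp only [lay, by2]
    omega
  · rw [layD_y1 (by omega)]
    omega
  · intro g hg hc
    rw [layD_x1 (g := p) (by omega)]
    rcases layD_inrow hn hg hp (by omega) hc with h | rfl | rfl | ⟨γ, rfl, -⟩ | ⟨γ, rfl, h1, h2⟩
    · left
      exact h
    · right
      right
      left
      simp only [lay, bx2]
      omega
    · right
      left
      rfl
    · right
      right
      left
      simp only [lay, bx2]
      omega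
    · exfalso
      exact layD_gap lp.2.2.2.1 lp.2.2.2.2 h1 h2
  · intro g hg hc
    rw [layD_y2 (g := q) (by omega)]
    rcases layD_incol hn hg hq (by omega) hc with h | rfl | rfl | ⟨γ, rfl, -⟩ | ⟨γ, rfl, h1, h2⟩
    · right
      left
      exact h
    · right
      right
      right
      simp only [lay, by1]
      omega
    · left
      rfl
    · right
      right
      right
      simp only [lay, by1]
      omega
    · exfalso
      exact layD_gap lq.2.1 lq.2.2.1 h1 h2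

/-- The view from the cell of the second kind. -/
theorem layD_see2 {N M F : ℕ} {φ : N3} {τ : ℕ → Bool} (hn : Nae τ φ) {p q : Hub}
    (hp : Vh N M F φ p) (hq : Vh N M F φ q) (hp3 : 3 ≤ p.1) (hq3 : 3 ≤ q.1)
    (hlt : p.2.1 < q.2.1) :
    (lay N τ φ (Qs M F φ)).Sees (Vh N M F φ) (2 * (pX τ φ (Qs M F φ) p : ℕ) + 1)
      (2 * (pY τ φ (Qs M F φ) q : ℕ) + 1) (0, 0, 0) q p (0, 0, 1) := by
  have lp := layD_loc3 (τ := τ) hp hp3
  have lq := layD_loc3 (τ := τ) hq hq3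
  have bp := layD_bd (τ := τ) hp (by omega)
  have bq := layD_bd (τ := τ) hq (by omega)
  have hm : Qs M F φ * (p.2.1 + 1) ≤ Qs M F φ * q.2.1 := Nat.mul_le_mul_left _ hlt
  have he : Qs M F φ * (p.2.1 + 1) = Qs M F φ * p.2.1 + Qs M F φ := by ring
  have hxx : pX τ φ (Qs M F φ) p + 3 ≤ pX τ φ (Qs M F φ) q := by
    unfold pX
    omega
  have hyy : pY τ φ (Qs M F φ) p + 3 ≤ pY τ φ (Qs M F φ) q := by
    unfold pY
    omega
  refine ⟨?_, ?_, ?_, ?_, ?_, ?_, ?_, ?_, ?_, ?_⟩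
  · unfold Boxes.InRow
    simp only [lay, by1, by2]
    omega
  · unfold Boxes.InRow
    rw [layD_y1 (by omega), layD_y2 (by omega)]
    omega
  · unfold Boxes.InCol
    rw [layD_x1 (by omega), layD_x2 (by omega)]
    omega
  · unfold Boxes.InCol
    simp only [lay, bx1, bx2]
    omega
  · simp only [lay, bx2]
    omega
  · rw [layD_x1 (by omega)]
    omega
  · rw [layD_y2 (by omega)]
    omega
  · simp only [lay, by1]
    omega
  · intro g hg hc
    rw [layD_x2 (g := q) (by omega)]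
    rcases layD_inrow hn hg hq (by omega) hc with h | rfl | rfl | ⟨γ, rfl, h1, h2⟩ | ⟨γ, rfl, -⟩
    · right
      left
      exact h
    · left
      rfl
    · right
      right
      right
      simp only [lay, bx1]
      omega
    · exfalso
      exact layD_gap lq.2.2.2.1 lq.2.2.2.2 h1 h2
    · right
      right
      right
      simp only [lay, bx1]
      omega
  · intro g hg hc
    rw [layD_y1 (g := p) (by omega)]
    rcases layD_incol hn hg hp (by omega) hc with h | rfl | rfl | ⟨γ, rfl, h1, h2⟩ | ⟨γ, rfl, -⟩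
    · left
      exact h
    · right
      left
      rfl
    · right
      right
      left
      simp only [lay, by2]
      omega
    · exfalso
      exact layD_gap lp.2.1 lp.2.2.1 h1 h2
    · right
      right
      left
      simp only [lay, by2]
      omega

/-- The numerical relations of the hubs of an item. -/
theorem layD_num {N M F : ℕ} {φ : N3} {τ : ℕ → Bool} {p q z1 z2 z3 z4 : Hub}
    (hp : Vh N M F φ p) (hq : Vh N M F φ q) (hp3 : 3 ≤ p.1) (hq3 : 3 ≤ q.1)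
    (hlt : p.2.1 < q.2.1)
    (h1 : Vh N M F φ z1 ∧ z1.1 = 2 ∧ z1.2.1 = p.2.1 + 1)
    (h2 : Vh N M F φ z2 ∧ z2.1 = 2 ∧ z2.2.1 = p.2.1 + 1)
    (h3 : Vh N M F φ z3 ∧ z3.1 = 2 ∧ z3.2.1 = 0)
    (h4 : Vh N M F φ z4 ∧ z4.1 = 2 ∧ z4.2.1 = N) :
    (pX τ φ (Qs M F φ) z3 + 3 ≤ pX τ φ (Qs M F φ) p ∧
      pX τ φ (Qs M F φ) p + 3 ≤ pX τ φ (Qs M F φ) z1 ∧
      pX τ φ (Qs M F φ) p + 3 ≤ pX τ φ (Qs M F φ) z2 ∧
      pX τ φ (Qs M F φ) z1 + 3 ≤ pX τ φ (Qs M F φ) q ∧
      pX τ φ (Qs M F φ) z2 + 3 ≤ pX τ φ (Qs M F φ) q ∧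
      pX τ φ (Qs M F φ) q + 3 ≤ pX τ φ (Qs M F φ) z4) ∧
    (pY τ φ (Qs M F φ) z3 + 3 ≤ pY τ φ (Qs M F φ) p ∧
      pY τ φ (Qs M F φ) p + 3 ≤ pY τ φ (Qs M F φ) z1 ∧
      pY τ φ (Qs M F φ) p + 3 ≤ pY τ φ (Qs M F φ) z2 ∧
      pY τ φ (Qs M F φ) z1 + 3 ≤ pY τ φ (Qs M F φ) q ∧
      pY τ φ (Qs M F φ) z2 + 3 ≤ pY τ φ (Qs M F φ) q ∧
      pY τ φ (Qs M F φ) q + 3 ≤ pY τ φ (Qs M F φ) z4) := by
  have lp := layD_loc3 (τ := τ) hp hp3
  have lq := layD_loc3 (τ := τ) hq hq3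
  have l1 := layD_loc2 (τ := τ) h1.1 h1.2.1
  have l2 := layD_loc2 (τ := τ) h2.1 h2.2.1
  have l3 := layD_loc2 (τ := τ) h3.1 h3.2.1
  have l4 := layD_loc2 (τ := τ) h4.1 h4.2.1
  have hm : Qs M F φ * (p.2.1 + 1) ≤ Qs M F φ * q.2.1 := Nat.mul_le_mul_left _ hlt
  have hm2 : Qs M F φ * (q.2.1 + 1) ≤ Qs M F φ * N := Nat.mul_le_mul_left _ lq.1
  have he : Qs M F φ * (p.2.1 + 1) = Qs M F φ * p.2.1 + Qs M F φ := by ring
  have he2 : Qs M F φ * (q.2.1 + 1) = Qs M F φ * q.2.1 + Qs M F φ := by ring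
  unfold pX pY
  rw [h1.2.2, h2.2.2, h3.2.2, h4.2.2, he, Nat.mul_zero]
  omega

/-- Seats for the items of the pairs of hubs in two copies. -/
theorem seat_itD {N M F : ℕ} {φ : N3} {τ : ℕ → Bool} (hb : BN φ) (hn : Nae τ φ) :
    ∀ it ∈ itD N M F φ, Seat1 (lay N τ φ (Qs M F φ)) (Vh N M F φ) it.1 ∧
      ∀ E ∈ ext it, Seat2 (lay N τ φ (Qs M F φ)) (Vh N M F φ) E := by
  have _ := hb
  intro it hit
  simp only [itD, List.mem_flatMap, List.mem_range] at hit
  obtain ⟨β, hβ, α, hα, p, hp, q, hq, hit⟩ := hit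
  obtain ⟨hp1, hp2, hp3⟩ := layD_locs (M := M) (show α < N by omega) hp
  obtain ⟨hq1, hq2, hq3⟩ := layD_locs (M := M) hβ hq
  have hlt : p.2.1 < q.2.1 := by omega
  have see1 := layD_see1 hn hp1 hq1 hp2 hq2 hlt
  have see2 := layD_see2 hn hp1 hq1 hp2 hq2 hlt
  have bp := layD_bd (τ := τ) hp1 (by omega)
  have bq := layD_bd (τ := τ) hq1 (by omega)
  simp only [List.mem_cons, List.not_mem_nil, or_false] at hit
  rcases hit with rfl | rfl
  · refine ⟨⟨_, _, _, _, _, _, see1, ?_⟩, ?_⟩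
    · intro h hh
      simp only [List.mem_cons, List.not_mem_nil, or_false] at hh
      tauto
    · intro E hE
      simp only [ext, List.mem_flatMap, List.mem_map] at hE
      obtain ⟨z1, hz1, z2, hz2, z3, hz3, z4, hz4, rfl⟩ := hE
      have g1 := layD_grA (F := F) (φ := φ) (show α + 1 ≤ N by omega) hz1
      have g2 := layD_grB (F := F) (φ := φ) (show α + 1 ≤ N by omega) hz2
      have g3 := layD_grA (F := F) (φ := φ) (show 0 ≤ N by omega) hz3
      have g4 := layD_grA (F := F) (φ := φ) (show N ≤ N by omega) hz4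
      have num := layD_num (τ := τ) hp1 hq1 hp2 hq2 hlt (z1 := z1) (z2 := z2)
        ⟨g1.1, g1.2.1, by rw [hp3]; exact g1.2.2⟩ ⟨g2.1, g2.2.1, by rw [hp3]; exact g2.2.2⟩ g3 g4
      obtain ⟨⟨a1, a2, a3, a4, a5, a6⟩, b1, b2, b3, b4, b5, b6⟩ := num
      have w4 := layD_bd (τ := τ) g4.1 (by omega)
      refine ⟨_, _, _, _, _, _, 2 * (pX τ φ (Qs M F φ) z1 : ℕ) + 1,
        2 * (pX τ φ (Qs M F φ) z4 : ℕ) + 1, 2 * (pY τ φ (Qs M F φ) z3 : ℕ) + 1,
        2 * (pY τ φ (Qs M F φ) z2 : ℕ) + 1, z1, z4, z3, z2, see1, ?_, ?_⟩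
      · refine ⟨?_, ?_, ?_, ?_, ?_, ?_, ?_, ?_⟩
        · rw [layD_x2 (by omega)]
          omega
        · simp only [lay, bx1]
          omega
        · simp only [lay, by2]
          omega
        · rw [layD_y1 (by omega)]
          omega
        · exact layD_vr hn g1.1 (by omega) (by omega) (by omega) (by omega)
        · exact layD_vr hn g4.1 (by omega) (by omega) (by omega) (by omega)
        · exact layD_hr hn g3.1 (by omega) (by omega) (by omega) (by omega)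
        · exact layD_hr hn g2.1 (by omega) (by omega) (by omega) (by omega)
      · intro h hh
        simp only [List.mem_append, List.mem_cons, List.not_mem_nil, or_false] at hh
        tauto
  · refine ⟨⟨_, _, _, _, _, _, see2, ?_⟩, ?_⟩
    · intro h hh
      simp only [List.mem_cons, List.not_mem_nil, or_false] at hh
      tauto
    · intro E hE
      simp only [ext, List.mem_flatMap, List.mem_map] at hE
      obtain ⟨z1, hz1, z2, hz2, z3, hz3, z4, hz4, rfl⟩ := hE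
      have g1 := layD_grA (F := F) (φ := φ) (show α + 1 ≤ N by omega) hz1
      have g2 := layD_grB (F := F) (φ := φ) (show α + 1 ≤ N by omega) hz2
      have g3 := layD_grA (F := F) (φ := φ) (show 0 ≤ N by omega) hz3
      have g4 := layD_grA (F := F) (φ := φ) (show N ≤ N by omega) hz4
      have num := layD_num (τ := τ) hp1 hq1 hp2 hq2 hlt (z1 := z1) (z2 := z2)
        ⟨g1.1, g1.2.1, by rw [hp3]; exact g1.2.2⟩ ⟨g2.1, g2.2.1, by rw [hp3]; exact g2.2.2⟩ g3 g4
      obtain ⟨⟨a1, a2, a3, a4, a5, a6⟩, b1, b2, b3, b4, b5, b6⟩ := num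
      have w4 := layD_bd (τ := τ) g4.1 (by omega)
      refine ⟨_, _, _, _, _, _, 2 * (pX τ φ (Qs M F φ) z3 : ℕ) + 1,
        2 * (pX τ φ (Qs M F φ) z1 : ℕ) + 1, 2 * (pY τ φ (Qs M F φ) z2 : ℕ) + 1,
        2 * (pY τ φ (Qs M F φ) z4 : ℕ) + 1, z3, z1, z2, z4, see2, ?_, ?_⟩
      · refine ⟨?_, ?_, ?_, ?_, ?_, ?_, ?_, ?_⟩
        · simp only [lay, bx2]
          omega
        · rw [layD_x1 (by omega)]
          omega
        · rw [layD_y2 (by omega)]
          omega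
        · simp only [lay, by1]
          omega
        · exact layD_vr hn g3.1 (by omega) (by omega) (by omega) (by omega)
        · exact layD_vr hn g1.1 (by omega) (by omega) (by omega) (by omega)
        · exact layD_hr hn g2.1 (by omega) (by omega) (by omega) (by omega)
        · exact layD_hr hn g4.1 (by omega) (by omega) (by omega) (by omega)
      · intro h hh
        simp only [List.mem_append, List.mem_cons, List.not_mem_nil, or_false] at hh
        tauto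

end Pool.Agent.RAC963
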