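import Pool.Agent.RAC963.LayInj

set_option autoImplicit false
set_option linter.unusedSimpArgs false

namespace Pool.Agent.RAC963

theorem layI_two_le_Qs (M F : ℕ) (φ : N3) : 8 * M + 28 ≤ Qs M F φ := by
  unfold Qs; omega

/-- If two strides agree roughly, the numbers agree. -/
theorem layI_stride {Q γ γ' y : ℕ} (h1 : 24 * (Q * γ) ≤ y) (h2 : y < 24 * (Q * γ) + 2 * Q)
    (h3 : 24 * (Q * γ') ≤ y) (h4 : y < 24 * (Q * γ') + 2 * Q) : γ' = γ := by
  rcases lt_trichotomy γ' γ with h | h | h
  · exfalso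
    have : Q * (γ' + 1) ≤ Q * γ := Nat.mul_le_mul le_rfl h
    rw [Nat.mul_succ] at this
    omega
  · exact h
  · exfalso
    have : Q * (γ + 1) ≤ Q * γ' := Nat.mul_le_mul le_rfl h
    rw [Nat.mul_succ] at this
    omega

theorem layI_wd {N Q γ : ℕ} (hγ : γ ≤ N) : 24 * (Q * γ) + 24 * Q + 3 ≤ Wd N Q := by
  unfold Wd
  have : Q * (γ + 1) ≤ Q * (N + 1) := Nat.mul_le_mul le_rfl (by omega)
  rw [Nat.mul_succ] at this
  omega

/-- The hubs in the middle column of a small hub of the inert group `γ`. -/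
theorem layI_col {N M F : ℕ} {φ : N3} {τ : ℕ → Bool} (hn : Nae τ φ) {γ i : ℕ} (hγ : γ ≤ N)
    (hi : i < 2 * M) {g : Hub} (hg : Vh N M F φ g)
    (hc : (lay N τ φ (Qs M F φ)).InCol g
      (24 * ((Qs M F φ * γ : ℕ) : ℤ) + 8 * (i : ℤ) + 3)) :
    g = (2, γ, i) ∨ g = (1, γ, 1) ∨ g = (1, γ, 3) ∨ g = (0, 0, 1) ∨ g = (0, 0, 3) := by
  obtain ⟨κ, α, k⟩ := g
  obtain ⟨h1, h2⟩ := hc
  have hQ := layI_two_le_Qs M F φ
  have hW := layI_wd (Q := Qs M F φ) hγ
  have hz : Vh N M F φ (2, γ, i) := Or.inr (Or.inr (Or.inl ⟨rfl, hγ, hi⟩))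
  match κ, k, α with
  | 0, k, α =>
    rcases hg with hg | hg | hg | hg | hg | hg | hg
    · obtain ⟨-, ha, hk⟩ := hg
      simp only at ha hk
      subst ha
      obtain rfl | rfl | rfl | rfl : k = 0 ∨ k = 1 ∨ k = 2 ∨ k = 3 := by omega
      · simp only [lay, bx1, bx2] at h1 h2; omega
      · simp
      · simp only [lay, bx1, bx2] at h1 h2; omega
      · simp
    all_goals (simp only at hg; omega)
  | 1, k, α =>
    rcases hg with hg | hg | hg | hg | hg | hg | hg
    · simp only at hg; omega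
    · obtain ⟨-, ha, hk⟩ := hg
      simp only at ha hk
      obtain rfl | rfl | rfl | rfl : k = 0 ∨ k = 1 ∨ k = 2 ∨ k = 3 := by omega
      · simp only [lay, bx1, bx2] at h1 h2; omega
      · simp only [lay, bx1, bx2] at h1 h2
        have := layI_stride (Q := Qs M F φ) (γ := γ) (γ' := α)
          (y := 24 * (Qs M F φ * γ) + 8 * i + 3) (by omega) (by omega) (by omega) (by omega)
        subst this
        simp
      · simp only [lay, bx1, bx2] at h1 h2; omega
      · simp only [lay, bx1, bx2] at h1 h2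
        have := layI_stride (Q := Qs M F φ) (γ := γ) (γ' := α)
          (y := 24 * (Qs M F φ * γ) + 8 * i + 3) (by omega) (by omega) (by omega) (by omega)
        subst this
        simp
    all_goals (simp only at hg; omega)
  | κ + 2, k, α =>
    left
    simp only [lay, bx1, bx2] at h1 h2
    have hX : pX τ φ (Qs M F φ) (2, γ, i) = 12 * (Qs M F φ * γ) + (4 * i + 1) := rfl
    exact pX_inj hn hg hz (by simp) (by simp) (by rw [hX]; omega)

/-- The hubs in the middle row of a small hub of the inert group `γ`. -/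
theorem layI_row {N M F : ℕ} {φ : N3} {τ : ℕ → Bool} (hn : Nae τ φ) {γ i : ℕ} (hγ : γ ≤ N)
    (hi : i < 2 * M) {g : Hub} (hg : Vh N M F φ g)
    (hc : (lay N τ φ (Qs M F φ)).InRow g
      (24 * ((Qs M F φ * γ : ℕ) : ℤ) + 8 * (i : ℤ) + 3)) :
    g = (2, γ, i) ∨ g = (1, γ, 0) ∨ g = (1, γ, 2) ∨ g = (0, 0, 0) ∨ g = (0, 0, 2) := by
  obtain ⟨κ, α, k⟩ := g
  obtain ⟨h1, h2⟩ := hc
  have hQ := layI_two_le_Qs M F φ
  have hW := layI_wd (Q := Qs M F φ) hγ
  have hz : Vh N M F φ (2, γ, i) := Or.inr (Or.inr (Or.inl ⟨rfl, hγ, hi⟩))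
  match κ, k, α with
  | 0, k, α =>
    rcases hg with hg | hg | hg | hg | hg | hg | hg
    · obtain ⟨-, ha, hk⟩ := hg
      simp only at ha hk
      subst ha
      obtain rfl | rfl | rfl | rfl : k = 0 ∨ k = 1 ∨ k = 2 ∨ k = 3 := by omega
      · simp
      · simp only [lay, by1, by2] at h1 h2; omega
      · simp
      · simp only [lay, by1, by2] at h1 h2; omega
    all_goals (simp only at hg; omega)
  | 1, k, α =>
    rcases hg with hg | hg | hg | hg | hg | hg | hg
    · simp only at hg; omega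
    · obtain ⟨-, ha, hk⟩ := hg
      simp only at ha hk
      obtain rfl | rfl | rfl | rfl : k = 0 ∨ k = 1 ∨ k = 2 ∨ k = 3 := by omega
      · simp only [lay, by1, by2] at h1 h2
        have := layI_stride (Q := Qs M F φ) (γ := γ) (γ' := α)
          (y := 24 * (Qs M F φ * γ) + 8 * i + 3) (by omega) (by omega) (by omega) (by omega)
        subst this
        simp
      · simp only [lay, by1, by2] at h1 h2; omega
      · simp only [lay, by1, by2] at h1 h2
        have := layI_stride (Q := Qs M F φ) (γ := γ) (γ' := α)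
          (y := 24 * (Qs M F φ * γ) + 8 * i + 3) (by omega) (by omega) (by omega) (by omega)
        subst this
        simp
      · simp only [lay, by1, by2] at h1 h2; omega
    all_goals (simp only at hg; omega)
  | κ + 2, k, α =>
    left
    simp only [lay, by1, by2] at h1 h2
    have hY : pY τ φ (Qs M F φ) (2, γ, i) = 12 * (Qs M F φ * γ) + (4 * i + 1) := rfl
    exact pY_inj hn hg hz (by simp) (by simp) (by rw [hY]; omega)

theorem layI_x1 (N : ℕ) (τ : ℕ → Bool) (φ : N3) (Q γ i : ℕ) :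
    (lay N τ φ Q).x1 (2, γ, i) = 24 * ((Q * γ : ℕ) : ℤ) + 8 * (i : ℤ) + 2 := by
  show 2 * ((12 * (Q * γ) + (4 * i + 1) : ℕ) : ℤ) = _
  push_cast; ring

theorem layI_x2 (N : ℕ) (τ : ℕ → Bool) (φ : N3) (Q γ i : ℕ) :
    (lay N τ φ Q).x2 (2, γ, i) = 24 * ((Q * γ : ℕ) : ℤ) + 8 * (i : ℤ) + 5 := by
  show 2 * ((12 * (Q * γ) + (4 * i + 1) : ℕ) : ℤ) + 3 = _
  push_cast; ring

theorem layI_y1 (N : ℕ) (τ : ℕ → Bool) (φ : N3) (Q γ i : ℕ) :
    (lay N τ φ Q).y1 (2, γ, i) = 24 * ((Q * γ : ℕ) : ℤ) + 8 * (i : ℤ) + 2 := by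
  show 2 * ((12 * (Q * γ) + (4 * i + 1) : ℕ) : ℤ) = _
  push_cast; ring

theorem layI_y2 (N : ℕ) (τ : ℕ → Bool) (φ : N3) (Q γ i : ℕ) :
    (lay N τ φ Q).y2 (2, γ, i) = 24 * ((Q * γ : ℕ) : ℤ) + 8 * (i : ℤ) + 5 := by
  show 2 * ((12 * (Q * γ) + (4 * i + 1) : ℕ) : ℤ) + 3 = _
  push_cast; ring

theorem layI_first {N M F : ℕ} {φ : N3} {τ : ℕ → Bool} (hn : Nae τ φ) {γ : ℕ} (hγ : γ ≤ N)
    {a b c d e f : ℕ} (hab : a < b) (hbc : b < c) (hcd : c < d) (hde : d < e) (hef : e < f)
    (hf : f < 2 * M) :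
    Seat2 (lay N τ φ (Qs M F φ)) (Vh N M F φ)
      [(2, γ, a), (2, γ, b), (2, γ, c), (2, γ, d), (2, γ, e), (2, γ, f), (1, γ, 2), (1, γ, 3)] := by
  have hQ := layI_two_le_Qs M F φ
  have hW := layI_wd (Q := Qs M F φ) hγ
  refine ⟨24 * ((Qs M F φ * γ : ℕ) : ℤ) + 8 * (e : ℤ) + 3,
    24 * ((Qs M F φ * γ : ℕ) : ℤ) + 8 * (b : ℤ) + 3,
    (2, γ, b), (1, γ, 2), (1, γ, 3), (2, γ, e),
    24 * ((Qs M F φ * γ : ℕ) : ℤ) + 8 * (c : ℤ) + 3,
    24 * ((Qs M F φ * γ : ℕ) : ℤ) + 8 * (f : ℤ) + 3,
    24 * ((Qs M F φ * γ : ℕ) : ℤ) + 8 * (a : ℤ) + 3,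
    24 * ((Qs M F φ * γ : ℕ) : ℤ) + 8 * (d : ℤ) + 3,
    (2, γ, c), (2, γ, f), (2, γ, a), (2, γ, d), ?_, ?_, ?_⟩
  · refine ⟨⟨?_, ?_⟩, ⟨?_, ?_⟩, ⟨?_, ?_⟩, ⟨?_, ?_⟩, ?_, ?_, ?_, ?_, ?_, ?_⟩
    any_goals
      (try simp only [layI_x1, layI_x2, layI_y1, layI_y2]) <;>
        (try simp only [lay, bx1, bx2, by1, by2]) <;> omega
    · intro g hg hc
      rcases layI_row hn hγ (i := b) (by omega) hg hc with rfl | rfl | rfl | rfl | rfl
      all_goals first
        | (left; rfl)
        | (right; left; rfl)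
        | (right; right; left
           (try simp only [layI_x1, layI_x2, layI_y1, layI_y2]) <;>
          (try simp only [lay, bx1, bx2, by1, by2]) <;> omega)
        | (right; right; right
           (try simp only [layI_x1, layI_x2, layI_y1, layI_y2]) <;>
          (try simp only [lay, bx1, bx2, by1, by2]) <;> omega)
    · intro g hg hc
      rcases layI_col hn hγ (i := e) (by omega) hg hc with rfl | rfl | rfl | rfl | rfl
      all_goals first
        | (left; rfl)
        | (right; left; rfl)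
        | (right; right; left
           (try simp only [layI_x1, layI_x2, layI_y1, layI_y2]) <;>
          (try simp only [lay, bx1, bx2, by1, by2]) <;> omega)
        | (right; right; right
           (try simp only [layI_x1, layI_x2, layI_y1, layI_y2]) <;>
          (try simp only [lay, bx1, bx2, by1, by2]) <;> omega)
  · refine ⟨⟨?_, ?_⟩, ⟨?_, ?_⟩, ⟨?_, ?_⟩, ⟨?_, ?_⟩, ⟨⟨?_, ?_⟩, Or.inr ?_, ?_⟩,
      ⟨⟨?_, ?_⟩, Or.inr ?_, ?_⟩, ⟨⟨?_, ?_⟩, Or.inl ?_, ?_⟩, ⟨⟨?_, ?_⟩, Or.inl ?_, ?_⟩⟩
    any_goals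
      (try simp only [layI_x1, layI_x2, layI_y1, layI_y2]) <;>
        (try simp only [lay, bx1, bx2, by1, by2]) <;> omega
    · intro g hg hc
      rcases layI_col hn hγ (i := c) (by omega) hg hc with rfl | rfl | rfl | rfl | rfl
      all_goals first
        | (left; rfl)
        | (right; left
           (try simp only [layI_x1, layI_x2, layI_y1, layI_y2]) <;>
          (try simp only [lay, bx1, bx2, by1, by2]) <;> omega)
        | (right; right
           (try simp only [layI_x1, layI_x2, layI_y1, layI_y2]) <;>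
          (try simp only [lay, bx1, bx2, by1, by2]) <;> omega)
    · intro g hg hc
      rcases layI_col hn hγ (i := f) (by omega) hg hc with rfl | rfl | rfl | rfl | rfl
      all_goals first
        | (left; rfl)
        | (right; left
           (try simp only [layI_x1, layI_x2, layI_y1, layI_y2]) <;>
          (try simp only [lay, bx1, bx2, by1, by2]) <;> omega)
        | (right; right
           (try simp only [layI_x1, layI_x2, layI_y1, layI_y2]) <;>
          (try simp only [lay, bx1, bx2, by1, by2]) <;> omega)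
    · intro g hg hc
      rcases layI_row hn hγ (i := a) (by omega) hg hc with rfl | rfl | rfl | rfl | rfl
      all_goals first
        | (left; rfl)
        | (right; left
           (try simp only [layI_x1, layI_x2, layI_y1, layI_y2]) <;>
          (try simp only [lay, bx1, bx2, by1, by2]) <;> omega)
        | (right; right
           (try simp only [layI_x1, layI_x2, layI_y1, layI_y2]) <;>
          (try simp only [lay, bx1, bx2, by1, by2]) <;> omega)
    · intro g hg hc
      rcases layI_row hn hγ (i := d) (by omega) hg hc with rfl | rfl | rfl | rfl | rfl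
      all_goals first
        | (left; rfl)
        | (right; left
           (try simp only [layI_x1, layI_x2, layI_y1, layI_y2]) <;>
          (try simp only [lay, bx1, bx2, by1, by2]) <;> omega)
        | (right; right
           (try simp only [layI_x1, layI_x2, layI_y1, layI_y2]) <;>
          (try simp only [lay, bx1, bx2, by1, by2]) <;> omega)
  · intro h hh
    simp only [List.mem_cons, List.not_mem_nil, or_false] at hh
    rcases hh with hh | hh | hh | hh | hh | hh | hh | hh <;> simp [hh]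

theorem layI_second {N M F : ℕ} {φ : N3} {τ : ℕ → Bool} (hn : Nae τ φ) {γ : ℕ} (hγ : γ ≤ N)
    {a b c d e f : ℕ} (hab : a < b) (hbc : b < c) (hcd : c < d) (hde : d < e) (hef : e < f)
    (hf : f < 2 * M) :
    Seat2 (lay N τ φ (Qs M F φ)) (Vh N M F φ)
      [(2, γ, a), (2, γ, b), (2, γ, c), (2, γ, d), (2, γ, e), (2, γ, f), (1, γ, 0), (1, γ, 1)] := by
  have hQ := layI_two_le_Qs M F φ
  have hW := layI_wd (Q := Qs M F φ) hγ
  refine ⟨24 * ((Qs M F φ * γ : ℕ) : ℤ) + 8 * (b : ℤ) + 3,
    24 * ((Qs M F φ * γ : ℕ) : ℤ) + 8 * (e : ℤ) + 3,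
    (1, γ, 0), (2, γ, e), (2, γ, b), (1, γ, 1),
    24 * ((Qs M F φ * γ : ℕ) : ℤ) + 8 * (a : ℤ) + 3,
    24 * ((Qs M F φ * γ : ℕ) : ℤ) + 8 * (c : ℤ) + 3,
    24 * ((Qs M F φ * γ : ℕ) : ℤ) + 8 * (d : ℤ) + 3,
    24 * ((Qs M F φ * γ : ℕ) : ℤ) + 8 * (f : ℤ) + 3,
    (2, γ, a), (2, γ, c), (2, γ, d), (2, γ, f), ?_, ?_, ?_⟩
  · refine ⟨⟨?_, ?_⟩, ⟨?_, ?_⟩, ⟨?_, ?_⟩, ⟨?_, ?_⟩, ?_, ?_, ?_, ?_, ?_, ?_⟩
    any_goals
      (try simp only [layI_x1, layI_x2, layI_y1, layI_y2]) <;>
        (try simp only [lay, bx1, bx2, by1, by2]) <;> omega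
    · intro g hg hc
      rcases layI_row hn hγ (i := e) (by omega) hg hc with rfl | rfl | rfl | rfl | rfl
      all_goals first
        | (left; rfl)
        | (right; left; rfl)
        | (right; right; left
           (try simp only [layI_x1, layI_x2, layI_y1, layI_y2]) <;>
          (try simp only [lay, bx1, bx2, by1, by2]) <;> omega)
        | (right; right; right
           (try simp only [layI_x1, layI_x2, layI_y1, layI_y2]) <;>
          (try simp only [lay, bx1, bx2, by1, by2]) <;> omega)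
    · intro g hg hc
      rcases layI_col hn hγ (i := b) (by omega) hg hc with rfl | rfl | rfl | rfl | rfl
      all_goals first
        | (left; rfl)
        | (right; left; rfl)
        | (right; right; left
           (try simp only [layI_x1, layI_x2, layI_y1, layI_y2]) <;>
          (try simp only [lay, bx1, bx2, by1, by2]) <;> omega)
        | (right; right; right
           (try simp only [layI_x1, layI_x2, layI_y1, layI_y2]) <;>
          (try simp only [lay, bx1, bx2, by1, by2]) <;> omega)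
  · refine ⟨⟨?_, ?_⟩, ⟨?_, ?_⟩, ⟨?_, ?_⟩, ⟨?_, ?_⟩, ⟨⟨?_, ?_⟩, Or.inl ?_, ?_⟩,
      ⟨⟨?_, ?_⟩, Or.inl ?_, ?_⟩, ⟨⟨?_, ?_⟩, Or.inr ?_, ?_⟩, ⟨⟨?_, ?_⟩, Or.inr ?_, ?_⟩⟩
    any_goals
      (try simp only [layI_x1, layI_x2, layI_y1, layI_y2]) <;>
        (try simp only [lay, bx1, bx2, by1, by2]) <;> omega
    · intro g hg hc
      rcases layI_col hn hγ (i := a) (by omega) hg hc with rfl | rfl | rfl | rfl | rfl
      all_goals first
        | (left; rfl)
        | (right; left
           (try simp only [layI_x1, layI_x2, layI_y1, layI_y2]) <;>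
          (try simp only [lay, bx1, bx2, by1, by2]) <;> omega)
        | (right; right
           (try simp only [layI_x1, layI_x2, layI_y1, layI_y2]) <;>
          (try simp only [lay, bx1, bx2, by1, by2]) <;> omega)
    · intro g hg hc
      rcases layI_col hn hγ (i := c) (by omega) hg hc with rfl | rfl | rfl | rfl | rfl
      all_goals first
        | (left; rfl)
        | (right; left
           (try simp only [layI_x1, layI_x2, layI_y1, layI_y2]) <;>
          (try simp only [lay, bx1, bx2, by1, by2]) <;> omega)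
        | (right; right
           (try simp only [layI_x1, layI_x2, layI_y1, layI_y2]) <;>
          (try simp only [lay, bx1, bx2, by1, by2]) <;> omega)
    · intro g hg hc
      rcases layI_row hn hγ (i := d) (by omega) hg hc with rfl | rfl | rfl | rfl | rfl
      all_goals first
        | (left; rfl)
        | (right; left
           (try simp only [layI_x1, layI_x2, layI_y1, layI_y2]) <;>
          (try simp only [lay, bx1, bx2, by1, by2]) <;> omega)
        | (right; right
           (try simp only [layI_x1, layI_x2, layI_y1, layI_y2]) <;>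
          (try simp only [lay, bx1, bx2, by1, by2]) <;> omega)
    · intro g hg hc
      rcases layI_row hn hγ (i := f) (by omega) hg hc with rfl | rfl | rfl | rfl | rfl
      all_goals first
        | (left; rfl)
        | (right; left
           (try simp only [layI_x1, layI_x2, layI_y1, layI_y2]) <;>
          (try simp only [lay, bx1, bx2, by1, by2]) <;> omega)
        | (right; right
           (try simp only [layI_x1, layI_x2, layI_y1, layI_y2]) <;>
          (try simp only [lay, bx1, bx2, by1, by2]) <;> omega)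
  · intro h hh
    simp only [List.mem_cons, List.not_mem_nil, or_false] at hh
    rcases hh with hh | hh | hh | hh | hh | hh | hh | hh <;> simp [hh]

/-- Seats for the hyperedges of the inert groups. -/
theorem seat_inert {N M F : ℕ} {φ : N3} {τ : ℕ → Bool} (hn : Nae τ φ) {γ : ℕ} (hγ : γ ≤ N) :
    ∀ E ∈ inert M γ, Seat2 (lay N τ φ (Qs M F φ)) (Vh N M F φ) E := by
  intro E hE
  unfold inert at hE
  rw [List.mem_flatMap] at hE
  obtain ⟨s, hs, hE⟩ := hE
  rw [List.mem_sublistsLen] at hs
  obtain ⟨hs, hl⟩ := hs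
  have hp : s.Pairwise (· < ·) := List.Pairwise.sublist hs List.pairwise_lt_range
  have hm : ∀ x ∈ s, x < 2 * M := fun x hx => List.mem_range.mp (hs.subset hx)
  rcases s with _ | ⟨a, _ | ⟨b, _ | ⟨c, _ | ⟨d, _ | ⟨e, _ | ⟨f, _ | ⟨x, s⟩⟩⟩⟩⟩⟩⟩
  all_goals try (simp at hl; done)
  · simp only [List.pairwise_cons, List.mem_cons, List.not_mem_nil, or_false] at hp
    have hab : a < b := hp.1 b (by simp)
    have hbc : b < c := hp.2.1 c (by simp)
    have hcd : c < d := hp.2.2.1 d (by simp)
    have hde : d < e := hp.2.2.2.1 e (by simp)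
    have hef : e < f := hp.2.2.2.2.1 f (by simp)
    have hf : f < 2 * M := hm f (by simp)
    simp only [List.mem_cons, List.not_mem_nil, or_false, List.map_cons, List.map_nil,
      List.cons_append, List.nil_append] at hE
    rcases hE with rfl | rfl
    · exact layI_first hn hγ hab hbc hcd hde hef hf
    · exact layI_second hn hγ hab hbc hcd hde hef hf

end Pool.Agent.RAC963
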