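import Pool.Agent.RAC963.LayInj

set_option autoImplicit false

namespace Pool.Agent.RAC963

theorem layL_lc (τ : ℕ → Bool) (c : SCl) (k : ℕ) : lc τ c k ≤ 1 := by
  rcases k with _ | _ | k
  · simp [lc]
  · simp only [lc]; split_ifs <;> omega
  · simp only [lc]; split_ifs <;> omega

theorem layL_litX (τ : ℕ → Bool) (φ : N3) (Q j k : ℕ) :
    4 * Q + 4 * j + 1 ≤ litX τ φ Q j k ∧ litX τ φ Q j k ≤ 8 * Q + 4 * j + 3 := by
  have h := layL_lc τ (clj φ j) k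
  unfold litX
  split_ifs <;> omega

theorem layL_litY (τ : ℕ → Bool) (φ : N3) (Q j k : ℕ) :
    Q + 4 * j + 1 ≤ litY τ φ Q j k ∧ litY τ φ Q j k ≤ 6 * Q + 4 * j + 3 := by
  have h := layL_lc τ (clj φ j) k
  unfold litY
  split_ifs <;> omega

theorem layL_loc {N M F : ℕ} {φ : N3} (τ : ℕ → Bool) {h : Hub} (hh : Vh N M F φ h)
    (h3 : 3 ≤ h.1) :
    h.2.1 < N ∧ Qs M F φ ≤ locX τ φ (Qs M F φ) h.1 h.2.2 ∧
      locX τ φ (Qs M F φ) h.1 h.2.2 + 2 ≤ 12 * Qs M F φ ∧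
      Qs M F φ ≤ locY τ φ (Qs M F φ) h.1 h.2.2 ∧
      locY τ φ (Qs M F φ) h.1 h.2.2 + 2 ≤ 12 * Qs M F φ := by
  obtain ⟨κ, α, i⟩ := h
  have hQ : Qs M F φ = 4 * (nv φ + (cl φ).length + 2 * M + F + 5) + 8 := rfl
  generalize Qs M F φ = Q at hQ ⊢
  simp only [Vh] at hh h3 ⊢
  have hx0 := layL_litX τ φ Q i 0
  have hx1 := layL_litX τ φ Q i 1
  have hx2 := layL_litX τ φ Q i 2
  have hy0 := layL_litY τ φ Q i 0
  have hy1 := layL_litY τ φ Q i 1
  have hy2 := layL_litY τ φ Q i 2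
  rcases hh with h | h | h | h | h | h | h
  · omega
  · omega
  · omega
  · obtain ⟨h4, h5, h6, h7⟩ := h
    refine ⟨h6, ?_⟩
    interval_cases κ <;> simp only [locX, locY] <;> (try split_ifs) <;> omega
  · obtain ⟨rfl, h6, h7⟩ := h
    refine ⟨h6, ?_⟩
    simp only [locX, locY]
    omega
  · obtain ⟨h4, h5, h6, h7⟩ := h
    refine ⟨h6, ?_⟩
    interval_cases κ <;> simp only [locX, locY] <;> omega
  · obtain ⟨h4, h5, h6, h7⟩ := h
    refine ⟨h6, ?_⟩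
    interval_cases κ <;> simp only [locX, locY] <;> omega

theorem layL_box {N : ℕ} {τ : ℕ → Bool} {φ : N3} {Q : ℕ} {h : Hub} (h2 : 2 ≤ h.1) :
    (lay N τ φ Q).x1 h = 2 * (pX τ φ Q h : ℤ) ∧ (lay N τ φ Q).x2 h = 2 * (pX τ φ Q h : ℤ) + 3 ∧
    (lay N τ φ Q).y1 h = 2 * (pY τ φ Q h : ℤ) ∧ (lay N τ φ Q).y2 h = 2 * (pY τ φ Q h : ℤ) + 3 := by
  obtain ⟨κ, α, i⟩ := h
  obtain ⟨κ', rfl⟩ : ∃ κ', κ = κ' + 2 := ⟨κ - 2, by simp only at h2; omega⟩
  exact ⟨rfl, rfl, rfl, rfl⟩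

/-- The position of a local hub inside its stage. -/
theorem layL_pos {N M F : ℕ} {φ : N3} (τ : ℕ → Bool) {h : Hub} (hh : Vh N M F φ h)
    (h3 : 3 ≤ h.1) :
    h.2.1 < N ∧ 12 * (Qs M F φ * h.2.1) + Qs M F φ ≤ pX τ φ (Qs M F φ) h ∧
      pX τ φ (Qs M F φ) h + 2 ≤ 12 * (Qs M F φ * h.2.1) + 12 * Qs M F φ ∧
      12 * (Qs M F φ * h.2.1) + Qs M F φ ≤ pY τ φ (Qs M F φ) h ∧
      pY τ φ (Qs M F φ) h + 2 ≤ 12 * (Qs M F φ * h.2.1) + 12 * Qs M F φ := by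
  have := layL_loc τ hh h3
  unfold pX pY
  omega

theorem layL_Q (a b Q : ℕ) : (a ≤ b → Q * a ≤ Q * b) ∧ (a < b → Q * a + Q ≤ Q * b) := by
  constructor
  · intro h; exact Nat.mul_le_mul_left _ h
  · intro h
    have : Q * (a + 1) ≤ Q * b := Nat.mul_le_mul_left _ h
    rwa [Nat.mul_succ] at this

theorem layL_col {N M F : ℕ} {φ : N3} {τ : ℕ → Bool} {p g : Hub}
    (hp : Vh N M F φ p) (hp3 : 3 ≤ p.1) (hg : Vh N M F φ g) {c : ℤ}
    (h1 : 2 * (pX τ φ (Qs M F φ) p : ℤ) ≤ c) (h2 : c ≤ 2 * (pX τ φ (Qs M F φ) p : ℤ) + 2)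
    (hc : (lay N τ φ (Qs M F φ)).InCol g c) :
    (2 ≤ g.1 ∧ 2 * (pX τ φ (Qs M F φ) g : ℤ) ≤ c ∧ c < 2 * (pX τ φ (Qs M F φ) g : ℤ) + 3) ∨
      (lay N τ φ (Qs M F φ)).y2 g < 0 ∨
      (Wd N (Qs M F φ) : ℤ) < (lay N τ φ (Qs M F φ)).y1 g := by
  by_cases g2 : 2 ≤ g.1
  · left
    have := layL_box (N := N) (τ := τ) (φ := φ) (Q := Qs M F φ) g2
    unfold Boxes.InCol at hc
    omega
  · right
    obtain ⟨hpN, hpX1, hpX2, -, -⟩ := layL_pos τ hp hp3
    obtain ⟨κ, γ, i⟩ := g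
    simp only [Vh] at hg g2
    have hW : Wd N (Qs M F φ) = 24 * (Qs M F φ * (N + 1)) + 3 := rfl
    rcases hg with h | h | h | h | h | h | h
    · obtain ⟨rfl, rfl, hi⟩ := h
      have e1 := (layL_Q p.2.1 (N + 1) (Qs M F φ)).2 (by omega)
      interval_cases i
      · simp only [Boxes.InCol, lay, bx1, bx2] at hc
        omega
      · right
        simp only [lay, by1]
        omega
      · simp only [Boxes.InCol, lay, bx1, bx2] at hc
        omega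
      · left
        simp only [lay, by2]
        omega
    · obtain ⟨rfl, hγ, hi⟩ := h
      exfalso
      have e0 := (layL_Q p.2.1 (N + 1) (Qs M F φ)).2 (by omega)
      have e1 := layL_Q p.2.1 γ (Qs M F φ)
      have e2 := layL_Q γ p.2.1 (Qs M F φ)
      rcases Nat.lt_or_ge p.2.1 γ with hlt | hge
      · have e3 := e1.2 hlt
        interval_cases i <;> simp only [Boxes.InCol, lay, bx1, bx2] at hc <;> omega
      · have e3 := e2.1 hge
        interval_cases i <;> simp only [Boxes.InCol, lay, bx1, bx2] at hc <;> omega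
    all_goals omega

theorem layL_row {N M F : ℕ} {φ : N3} {τ : ℕ → Bool} {p g : Hub}
    (hp : Vh N M F φ p) (hp3 : 3 ≤ p.1) (hg : Vh N M F φ g) {c : ℤ}
    (h1 : 2 * (pY τ φ (Qs M F φ) p : ℤ) ≤ c) (h2 : c ≤ 2 * (pY τ φ (Qs M F φ) p : ℤ) + 2)
    (hc : (lay N τ φ (Qs M F φ)).InRow g c) :
    (2 ≤ g.1 ∧ 2 * (pY τ φ (Qs M F φ) g : ℤ) ≤ c ∧ c < 2 * (pY τ φ (Qs M F φ) g : ℤ) + 3) ∨
      (lay N τ φ (Qs M F φ)).x2 g < 0 ∨
      (Wd N (Qs M F φ) : ℤ) < (lay N τ φ (Qs M F φ)).x1 g := by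
  by_cases g2 : 2 ≤ g.1
  · left
    have := layL_box (N := N) (τ := τ) (φ := φ) (Q := Qs M F φ) g2
    unfold Boxes.InRow at hc
    omega
  · right
    obtain ⟨hpN, -, -, hpX1, hpX2⟩ := layL_pos τ hp hp3
    obtain ⟨κ, γ, i⟩ := g
    simp only [Vh] at hg g2
    have hW : Wd N (Qs M F φ) = 24 * (Qs M F φ * (N + 1)) + 3 := rfl
    rcases hg with h | h | h | h | h | h | h
    · obtain ⟨rfl, rfl, hi⟩ := h
      have e1 := (layL_Q p.2.1 (N + 1) (Qs M F φ)).2 (by omega)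
      interval_cases i
      · left
        simp only [lay, bx2]
        omega
      · simp only [Boxes.InRow, lay, by1, by2] at hc
        omega
      · right
        simp only [lay, bx1]
        omega
      · simp only [Boxes.InRow, lay, by1, by2] at hc
        omega
    · obtain ⟨rfl, hγ, hi⟩ := h
      exfalso
      have e0 := (layL_Q p.2.1 (N + 1) (Qs M F φ)).2 (by omega)
      have e1 := layL_Q p.2.1 γ (Qs M F φ)
      have e2 := layL_Q γ p.2.1 (Qs M F φ)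
      rcases Nat.lt_or_ge p.2.1 γ with hlt | hge
      · have e3 := e1.2 hlt
        interval_cases i <;> simp only [Boxes.InRow, lay, by1, by2] at hc <;> omega
      · have e3 := e2.1 hge
        interval_cases i <;> simp only [Boxes.InRow, lay, by1, by2] at hc <;> omega
    all_goals omega

theorem layL_sees {N M F : ℕ} {φ : N3} {τ : ℕ → Bool} (hn : Nae τ φ) {a b u d : Hub}
    (ha : Vh N M F φ a) (ha3 : 3 ≤ a.1) (hb : Vh N M F φ b) (hb3 : 3 ≤ b.1)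
    (hu : Vh N M F φ u) (hu3 : 3 ≤ u.1) (hd : Vh N M F φ d) (hd3 : 3 ≤ d.1) {cx cy : ℤ}
    (hcx : (cx = 2 * (pX τ φ (Qs M F φ) u : ℤ) + 2 ∧
        pX τ φ (Qs M F φ) d = pX τ φ (Qs M F φ) u + 1) ∨
      (cx = 2 * (pX τ φ (Qs M F φ) d : ℤ) + 2 ∧
        pX τ φ (Qs M F φ) u = pX τ φ (Qs M F φ) d + 1))
    (hcy : (cy = 2 * (pY τ φ (Qs M F φ) a : ℤ) + 2 ∧
        pY τ φ (Qs M F φ) b = pY τ φ (Qs M F φ) a + 1) ∨
      (cy = 2 * (pY τ φ (Qs M F φ) b : ℤ) + 2 ∧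
        pY τ φ (Qs M F φ) a = pY τ φ (Qs M F φ) b + 1))
    (h1 : 2 * (pX τ φ (Qs M F φ) a : ℤ) + 3 ≤ cx) (h2 : cx < 2 * (pX τ φ (Qs M F φ) b : ℤ))
    (h3 : 2 * (pY τ φ (Qs M F φ) u : ℤ) + 3 ≤ cy) (h4 : cy < 2 * (pY τ φ (Qs M F φ) d : ℤ)) :
    (lay N τ φ (Qs M F φ)).Sees (Vh N M F φ) cx cy a b u d := by
  have ea := layL_box (N := N) (τ := τ) (φ := φ) (Q := Qs M F φ) (h := a) (by omega)
  have eb := layL_box (N := N) (τ := τ) (φ := φ) (Q := Qs M F φ) (h := b) (by omega)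
  have eu := layL_box (N := N) (τ := τ) (φ := φ) (Q := Qs M F φ) (h := u) (by omega)
  have ed := layL_box (N := N) (τ := τ) (φ := φ) (Q := Qs M F φ) (h := d) (by omega)
  have pa := layL_pos τ ha ha3
  have pb := layL_pos τ hb hb3
  have pu := layL_pos τ hu hu3
  have pd := layL_pos τ hd hd3
  have hW : Wd N (Qs M F φ) = 24 * (Qs M F φ * (N + 1)) + 3 := rfl
  have wb := (layL_Q b.2.1 (N + 1) (Qs M F φ)).2 (by omega)
  have wd := (layL_Q d.2.1 (N + 1) (Qs M F φ)).2 (by omega)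
  refine ⟨?_, ?_, ?_, ?_, ?_, ?_, ?_, ?_, ?_, ?_⟩
  · unfold Boxes.InRow; omega
  · unfold Boxes.InRow; omega
  · unfold Boxes.InCol; omega
  · unfold Boxes.InCol; omega
  · omega
  · omega
  · omega
  · omega
  · intro g hg hgc
    have key : (2 ≤ g.1 ∧ 2 * (pY τ φ (Qs M F φ) g : ℤ) ≤ cy ∧
        cy < 2 * (pY τ φ (Qs M F φ) g : ℤ) + 3) ∨ (lay N τ φ (Qs M F φ)).x2 g < 0 ∨
        (Wd N (Qs M F φ) : ℤ) < (lay N τ φ (Qs M F φ)).x1 g :=
      layL_row ha ha3 hg (by omega) (by omega) hgc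
    rcases key with ⟨g2, k1, k2⟩ | k | k
    · have : pY τ φ (Qs M F φ) g = pY τ φ (Qs M F φ) a ∨
        pY τ φ (Qs M F φ) g = pY τ φ (Qs M F φ) b := by omega
      rcases this with h | h
      · exact Or.inl (pY_inj hn hg ha g2 (by omega) h)
      · exact Or.inr (Or.inl (pY_inj hn hg hb g2 (by omega) h))
    · right; right; left; omega
    · right; right; right; omega
  · intro g hg hgc
    have key : (2 ≤ g.1 ∧ 2 * (pX τ φ (Qs M F φ) g : ℤ) ≤ cx ∧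
        cx < 2 * (pX τ φ (Qs M F φ) g : ℤ) + 3) ∨ (lay N τ φ (Qs M F φ)).y2 g < 0 ∨
        (Wd N (Qs M F φ) : ℤ) < (lay N τ φ (Qs M F φ)).y1 g :=
      layL_col hu hu3 hg (by omega) (by omega) hgc
    rcases key with ⟨g2, k1, k2⟩ | k | k
    · have : pX τ φ (Qs M F φ) g = pX τ φ (Qs M F φ) u ∨
        pX τ φ (Qs M F φ) g = pX τ φ (Qs M F φ) d := by omega
      rcases this with h | h
      · exact Or.inl (pX_inj hn hg hu g2 (by omega) h)
      · exact Or.inr (Or.inl (pX_inj hn hg hd g2 (by omega) h))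
    · right; right; left; omega
    · right; right; right; omega

theorem layL_vr {N M F : ℕ} {φ : N3} {τ : ℕ → Bool} (hn : Nae τ φ) {z : Hub}
    (hz : Vh N M F φ z) (hz3 : 3 ≤ z.1) {cy : ℤ} (hc0 : 0 ≤ cy)
    (hcW : cy ≤ (Wd N (Qs M F φ) : ℤ))
    (ho : 2 * (pY τ φ (Qs M F φ) z : ℤ) + 3 ≤ cy ∨ cy < 2 * (pY τ φ (Qs M F φ) z : ℤ)) :
    (lay N τ φ (Qs M F φ)).VRoute (Vh N M F φ) cy (2 * (pX τ φ (Qs M F φ) z : ℤ) + 1) z := by
  have ez := layL_box (N := N) (τ := τ) (φ := φ) (Q := Qs M F φ) (h := z) (by omega)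
  have pz := layL_pos τ hz hz3
  have hW : Wd N (Qs M F φ) = 24 * (Qs M F φ * (N + 1)) + 3 := rfl
  have wz := (layL_Q z.2.1 (N + 1) (Qs M F φ)).2 (by omega)
  refine ⟨?_, ?_, ?_⟩
  · unfold Boxes.InCol; omega
  · omega
  · intro g hg hgc
    rcases layL_col hz hz3 hg (by omega) (by omega) hgc with ⟨g2, k1, k2⟩ | k | k
    · exact Or.inl (pX_inj hn hg hz g2 (by omega) (by omega))
    · right; left; omega
    · right; right; omega

theorem layL_hr {N M F : ℕ} {φ : N3} {τ : ℕ → Bool} (hn : Nae τ φ) {z : Hub}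
    (hz : Vh N M F φ z) (hz3 : 3 ≤ z.1) {cx : ℤ} (hc0 : 0 ≤ cx)
    (hcW : cx ≤ (Wd N (Qs M F φ) : ℤ))
    (ho : 2 * (pX τ φ (Qs M F φ) z : ℤ) + 3 ≤ cx ∨ cx < 2 * (pX τ φ (Qs M F φ) z : ℤ)) :
    (lay N τ φ (Qs M F φ)).HRoute (Vh N M F φ) cx (2 * (pY τ φ (Qs M F φ) z : ℤ) + 1) z := by
  have ez := layL_box (N := N) (τ := τ) (φ := φ) (Q := Qs M F φ) (h := z) (by omega)
  have pz := layL_pos τ hz hz3
  have hW : Wd N (Qs M F φ) = 24 * (Qs M F φ * (N + 1)) + 3 := rfl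
  have wz := (layL_Q z.2.1 (N + 1) (Qs M F φ)).2 (by omega)
  refine ⟨?_, ?_, ?_⟩
  · unfold Boxes.InRow; omega
  · omega
  · intro g hg hgc
    rcases layL_row hz hz3 hg (by omega) (by omega) hgc with ⟨g2, k1, k2⟩ | k | k
    · exact Or.inl (pY_inj hn hg hz g2 (by omega) (by omega))
    · right; left; omega
    · right; right; omega

theorem layL_turns {N M F : ℕ} {φ : N3} {τ : ℕ → Bool} (hn : Nae τ φ)
    {a b u d zl zr zu zd : Hub} (ha3 : 3 ≤ a.1) (hb3 : 3 ≤ b.1) (hu3 : 3 ≤ u.1) (hd3 : 3 ≤ d.1)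
    (hzl : Vh N M F φ zl) (hzl3 : 3 ≤ zl.1) (hzr : Vh N M F φ zr) (hzr3 : 3 ≤ zr.1)
    (hzu : Vh N M F φ zu) (hzu3 : 3 ≤ zu.1) (hzd : Vh N M F φ zd) (hzd3 : 3 ≤ zd.1) {cx cy : ℤ}
    (hx0 : 0 ≤ cx) (hxW : cx ≤ (Wd N (Qs M F φ) : ℤ)) (hy0 : 0 ≤ cy)
    (hyW : cy ≤ (Wd N (Qs M F φ) : ℤ))
    (hl : 2 * (pX τ φ (Qs M F φ) a : ℤ) + 3 ≤ 2 * (pX τ φ (Qs M F φ) zl : ℤ) + 1 ∧
      2 * (pX τ φ (Qs M F φ) zl : ℤ) + 1 < cx)
    (hr : cx < 2 * (pX τ φ (Qs M F φ) zr : ℤ) + 1 ∧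
      2 * (pX τ φ (Qs M F φ) zr : ℤ) + 1 < 2 * (pX τ φ (Qs M F φ) b : ℤ))
    (hu : 2 * (pY τ φ (Qs M F φ) u : ℤ) + 3 ≤ 2 * (pY τ φ (Qs M F φ) zu : ℤ) + 1 ∧
      2 * (pY τ φ (Qs M F φ) zu : ℤ) + 1 < cy)
    (hd : cy < 2 * (pY τ φ (Qs M F φ) zd : ℤ) + 1 ∧
      2 * (pY τ φ (Qs M F φ) zd : ℤ) + 1 < 2 * (pY τ φ (Qs M F φ) d : ℤ))
    (ol : 2 * (pY τ φ (Qs M F φ) zl : ℤ) + 3 ≤ cy ∨ cy < 2 * (pY τ φ (Qs M F φ) zl : ℤ))
    (ori : 2 * (pY τ φ (Qs M F φ) zr : ℤ) + 3 ≤ cy ∨ cy < 2 * (pY τ φ (Qs M F φ) zr : ℤ))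
    (ou : 2 * (pX τ φ (Qs M F φ) zu : ℤ) + 3 ≤ cx ∨ cx < 2 * (pX τ φ (Qs M F φ) zu : ℤ))
    (od : 2 * (pX τ φ (Qs M F φ) zd : ℤ) + 3 ≤ cx ∨ cx < 2 * (pX τ φ (Qs M F φ) zd : ℤ)) :
    (lay N τ φ (Qs M F φ)).Turns (Vh N M F φ) cx cy a b u d
      (2 * (pX τ φ (Qs M F φ) zl : ℤ) + 1) (2 * (pX τ φ (Qs M F φ) zr : ℤ) + 1)
      (2 * (pY τ φ (Qs M F φ) zu : ℤ) + 1) (2 * (pY τ φ (Qs M F φ) zd : ℤ) + 1)
      zl zr zu zd := by
  have ea := layL_box (N := N) (τ := τ) (φ := φ) (Q := Qs M F φ) (h := a) (by omega)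
  have eb := layL_box (N := N) (τ := τ) (φ := φ) (Q := Qs M F φ) (h := b) (by omega)
  have eu := layL_box (N := N) (τ := τ) (φ := φ) (Q := Qs M F φ) (h := u) (by omega)
  have ed := layL_box (N := N) (τ := τ) (φ := φ) (Q := Qs M F φ) (h := d) (by omega)
  refine ⟨⟨?_, ?_⟩, ⟨?_, ?_⟩, ⟨?_, ?_⟩, ⟨?_, ?_⟩, ?_, ?_, ?_, ?_⟩
  · omega
  · omega
  · omega
  · omega
  · omega
  · omega
  · omega
  · omega
  · exact layL_vr hn hzl hzl3 hy0 hyW ol
  · exact layL_vr hn hzr hzr3 hy0 hyW ori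
  · exact layL_hr hn hzu hzu3 hx0 hxW ou
  · exact layL_hr hn hzd hzd3 hx0 hxW od

theorem layL_lit (τ : ℕ → Bool) (φ : N3) (Q α j k : ℕ) (hk : k < 3) :
    pX τ φ Q (10 + k, α, j) = 12 * (Q * α) + litX τ φ Q j k ∧
      pY τ φ Q (10 + k, α, j) = 12 * (Q * α) + litY τ φ Q j k := by
  interval_cases k <;> exact ⟨rfl, rfl⟩

theorem layL_item {N M F : ℕ} {φ : N3} {τ : ℕ → Bool} (hn : Nae τ φ) {α j k i : ℕ} {b : Bool}
    (hα : α < N) (hj : j < (cl φ).length) (hk : k < 3) (hl : lt3 (clj φ j) k = (b, i))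
    (hi : i < nv φ) :
    ∃ (cx cy : ℤ) (l r u d : Hub), (lay N τ φ (Qs M F φ)).Sees (Vh N M F φ) cx cy l r u d ∧
      (∀ h ∈ [(3, α, i), part α (b, i), (9, α, j), (10 + k, α, j)],
        h = l ∨ h = r ∨ h = u ∨ h = d) ∧
      ∀ f1 f2 f3 f4 : ℕ, f1 < F → f2 < F → f3 < F → f4 < F →
        ∃ (tl tr tu td : ℤ) (zl zr zu zd : Hub),
          (lay N τ φ (Qs M F φ)).Turns (Vh N M F φ) cx cy l r u d tl tr tu td zl zr zu zd ∧
          ∀ h ∈ [((13, α, f1) : Hub), (14, α, f2), (15, α, f3), (16, α, f4)],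
            h = zl ∨ h = zr ∨ h = zu ∨ h = zd := by
  have hQ : Qs M F φ = 4 * (nv φ + (cl φ).length + 2 * M + F + 5) + 8 := rfl
  have hW : Wd N (Qs M F φ) = 24 * (Qs M F φ * (N + 1)) + 3 := rfl
  have wα := (layL_Q α (N + 1) (Qs M F φ)).2 (by omega)
  have vm : Vh N M F φ (3, α, i) := by simp only [Vh]; omega
  have ve : Vh N M F φ (9, α, j) := by simp only [Vh]; omega
  have vl : Vh N M F φ (10 + k, α, j) := by simp only [Vh]; omega
  have vs : Vh N M F φ (part α (b, i)) := by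
    cases b <;> simp only [part, Vh] <;> simp <;> omega
  have s3 : 3 ≤ (part α (b, i)).1 := by cases b <;> simp [part]
  have l3 : 3 ≤ ((10 + k, α, j) : Hub).1 := by simp only; omega
  have m3 : 3 ≤ ((3, α, i) : Hub).1 := le_rfl
  have e3 : 3 ≤ ((9, α, j) : Hub).1 := by simp only; omega
  obtain ⟨plX, plY⟩ := layL_lit τ φ (Qs M F φ) α j k hk
  have pmX : pX τ φ (Qs M F φ) (3, α, i) = 12 * (Qs M F φ * α) + (6 * Qs M F φ + 4 * i + 2) := rfl
  have pmY : pY τ φ (Qs M F φ) (3, α, i) = 12 * (Qs M F φ * α) + (4 * Qs M F φ + 4 * i + 2) := rfl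
  have peX : pX τ φ (Qs M F φ) (9, α, j) = 12 * (Qs M F φ * α) + (8 * Qs M F φ + 4 * j + 2) := rfl
  have peY : pY τ φ (Qs M F φ) (9, α, j) = 12 * (Qs M F φ * α) + (6 * Qs M F φ + 4 * j + 2) := rfl
  have hlc := layL_lc τ (clj φ j) k
  have hz : ∀ f1 f2 f3 f4 : ℕ, f1 < F → f2 < F → f3 < F → f4 < F →
      Vh N M F φ (13, α, f1) ∧ Vh N M F φ (14, α, f2) ∧ Vh N M F φ (15, α, f3) ∧
      Vh N M F φ (16, α, f4) := by
    intro f1 f2 f3 f4 h1 h2 h3 h4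
    simp only [Vh]
    omega
  have q1X : ∀ f, pX τ φ (Qs M F φ) (13, α, f) =
    12 * (Qs M F φ * α) + (7 * Qs M F φ + 4 * f + 2) := fun f => rfl
  have q1Y : ∀ f, pY τ φ (Qs M F φ) (13, α, f) =
    12 * (Qs M F φ * α) + (3 * Qs M F φ + 4 * f + 2) := fun f => rfl
  have q2X : ∀ f, pX τ φ (Qs M F φ) (14, α, f) =
    12 * (Qs M F φ * α) + (11 * Qs M F φ + 4 * f + 2) := fun f => rfl
  have q2Y : ∀ f, pY τ φ (Qs M F φ) (14, α, f) =
    12 * (Qs M F φ * α) + (5 * Qs M F φ + 4 * f + 2) := fun f => rfl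
  have q3X : ∀ f, pX τ φ (Qs M F φ) (15, α, f) =
    12 * (Qs M F φ * α) + (9 * Qs M F φ + 4 * f + 2) := fun f => rfl
  have q3Y : ∀ f, pY τ φ (Qs M F φ) (15, α, f) =
    12 * (Qs M F φ * α) + (8 * Qs M F φ + 4 * f + 2) := fun f => rfl
  have q4X : ∀ f, pX τ φ (Qs M F φ) (16, α, f) =
    12 * (Qs M F φ * α) + (5 * Qs M F φ + 4 * f + 2) := fun f => rfl
  have q4Y : ∀ f, pY τ φ (Qs M F φ) (16, α, f) =
    12 * (Qs M F φ * α) + (2 * Qs M F φ + 4 * f + 2) := fun f => rfl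
  have z13 : ∀ f, 3 ≤ ((13, α, f) : Hub).1 := fun f => by simp only; omega
  have z14 : ∀ f, 3 ≤ ((14, α, f) : Hub).1 := fun f => by simp only; omega
  have z15 : ∀ f, 3 ≤ ((15, α, f) : Hub).1 := fun f => by simp only; omega
  have z16 : ∀ f, 3 ≤ ((16, α, f) : Hub).1 := fun f => by simp only; omega
  by_cases hv : lv τ (b, i) = true
  · -- the literal is true: `s` is at `A_i`
    have psX : pX τ φ (Qs M F φ) (part α (b, i)) =
        12 * (Qs M F φ * α) + (10 * Qs M F φ + 4 * i + 2) := by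
      cases b
      · have : τ i = false := by simpa [lv] using hv
        simp [part, pX, locX, this]
      · have : τ i = true := by simpa [lv] using hv
        simp [part, pX, locX, this]
    have psY : pY τ φ (Qs M F φ) (part α (b, i)) =
        12 * (Qs M F φ * α) + (4 * Qs M F φ + 4 * i + 3) := by
      cases b
      · have : τ i = false := by simpa [lv] using hv
        simp [part, pY, locY, this]
      · have : τ i = true := by simpa [lv] using hv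
        simp [part, pY, locY, this]
    have plX' : litX τ φ (Qs M F φ) j k = 8 * Qs M F φ + 4 * j + 1 + 2 * lc τ (clj φ j) k := by
      unfold litX
      rw [hl, if_pos hv]
    have plY' : litY τ φ (Qs M F φ) j k = Qs M F φ + 4 * j + 1 + 2 * lc τ (clj φ j) k := by
      unfold litY
      rw [hl, if_pos hv]
    rw [plX'] at plX
    rw [plY'] at plY
    generalize lc τ (clj φ j) k = c at hlc plX plY
    obtain ⟨cx, hcx⟩ : ∃ cx : ℤ, (cx = 2 * (pX τ φ (Qs M F φ) (10 + k, α, j) : ℤ) + 2 ∧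
        pX τ φ (Qs M F φ) (9, α, j) = pX τ φ (Qs M F φ) (10 + k, α, j) + 1) ∨
      (cx = 2 * (pX τ φ (Qs M F φ) (9, α, j) : ℤ) + 2 ∧
        pX τ φ (Qs M F φ) (10 + k, α, j) = pX τ φ (Qs M F φ) (9, α, j) + 1) := by
      interval_cases c
      · exact ⟨_, Or.inl ⟨rfl, by omega⟩⟩
      · exact ⟨_, Or.inr ⟨rfl, by omega⟩⟩
    refine ⟨cx, 2 * (pY τ φ (Qs M F φ) (3, α, i) : ℤ) + 2, (3, α, i), part α (b, i),
      (10 + k, α, j), (9, α, j), ?_, ?_, ?_⟩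
    · exact layL_sees hn vm m3 vs s3 vl l3 ve e3 hcx (Or.inl ⟨rfl, by omega⟩) (by omega)
        (by omega) (by omega) (by omega)
    · intro h hh
      simp only [List.mem_cons, List.not_mem_nil, or_false] at hh
      tauto
    · intro f1 f2 f3 f4 h1 h2 h3 h4
      obtain ⟨v1, v2, v3, v4⟩ := hz f1 f2 f3 f4 h1 h2 h3 h4
      have a1 := q1X f1
      have b1 := q1Y f1
      have a2 := q2X f2
      have b2 := q2Y f2
      have a3 := q3X f3
      have b3 := q3Y f3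
      have a4 := q4X f4
      have b4 := q4Y f4
      refine ⟨_, _, _, _, (13, α, f1), (15, α, f3), (16, α, f4), (14, α, f2),
        layL_turns hn m3 s3 l3 e3 v1 (z13 _) v3 (z15 _) v4 (z16 _) v2 (z14 _) (by omega)
          (by omega) (by omega) (by omega) (by omega) (by omega) (by omega) (by omega)
          (by omega) (by omega) (by omega) (by omega), ?_⟩
      intro h hh
      simp only [List.mem_cons, List.not_mem_nil, or_false] at hh
      tauto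
  · -- the literal is false: `s` is at `B_i`
    have psX : pX τ φ (Qs M F φ) (part α (b, i)) =
        12 * (Qs M F φ * α) + (6 * Qs M F φ + 4 * i + 3) := by
      cases b
      · have : τ i = true := by simpa [lv] using hv
        simp [part, pX, locX, this]
      · have : τ i = false := by simpa [lv] using hv
        simp [part, pX, locX, this]
    have psY : pY τ φ (Qs M F φ) (part α (b, i)) =
        12 * (Qs M F φ * α) + (9 * Qs M F φ + 4 * i + 2) := by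
      cases b
      · have : τ i = true := by simpa [lv] using hv
        simp [part, pY, locY, this]
      · have : τ i = false := by simpa [lv] using hv
        simp [part, pY, locY, this]
    have plX' : litX τ φ (Qs M F φ) j k = 4 * Qs M F φ + 4 * j + 1 + 2 * lc τ (clj φ j) k := by
      unfold litX
      rw [hl, if_neg hv]
    have plY' : litY τ φ (Qs M F φ) j k = 6 * Qs M F φ + 4 * j + 1 + 2 * lc τ (clj φ j) k := by
      unfold litY
      rw [hl, if_neg hv]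
    rw [plX'] at plX
    rw [plY'] at plY
    generalize lc τ (clj φ j) k = c at hlc plX plY
    obtain ⟨cy, hcy⟩ : ∃ cy : ℤ, (cy = 2 * (pY τ φ (Qs M F φ) (10 + k, α, j) : ℤ) + 2 ∧
        pY τ φ (Qs M F φ) (9, α, j) = pY τ φ (Qs M F φ) (10 + k, α, j) + 1) ∨
      (cy = 2 * (pY τ φ (Qs M F φ) (9, α, j) : ℤ) + 2 ∧
        pY τ φ (Qs M F φ) (10 + k, α, j) = pY τ φ (Qs M F φ) (9, α, j) + 1) := by
      interval_cases c
      · exact ⟨_, Or.inl ⟨rfl, by omega⟩⟩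
      · exact ⟨_, Or.inr ⟨rfl, by omega⟩⟩
    refine ⟨2 * (pX τ φ (Qs M F φ) (3, α, i) : ℤ) + 2, cy, (10 + k, α, j), (9, α, j),
      (3, α, i), part α (b, i), ?_, ?_, ?_⟩
    · exact layL_sees hn vl l3 ve e3 vm m3 vs s3 (Or.inl ⟨rfl, by omega⟩) hcy (by omega)
        (by omega) (by omega) (by omega)
    · intro h hh
      simp only [List.mem_cons, List.not_mem_nil, or_false] at hh
      tauto
    · intro f1 f2 f3 f4 h1 h2 h3 h4
      obtain ⟨v1, v2, v3, v4⟩ := hz f1 f2 f3 f4 h1 h2 h3 h4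
      have a1 := q1X f1
      have b1 := q1Y f1
      have a2 := q2X f2
      have b2 := q2Y f2
      have a3 := q3X f3
      have b3 := q3Y f3
      have a4 := q4X f4
      have b4 := q4Y f4
      refine ⟨_, _, _, _, (16, α, f4), (13, α, f1), (14, α, f2), (15, α, f3),
        layL_turns hn l3 e3 m3 s3 v4 (z16 _) v1 (z13 _) v2 (z14 _) v3 (z15 _) (by omega)
          (by omega) (by omega) (by omega) (by omega) (by omega) (by omega) (by omega)
          (by omega) (by omega) (by omega) (by omega), ?_⟩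
      intro h hh
      simp only [List.mem_cons, List.not_mem_nil, or_false] at hh
      tauto

theorem layL_seats {N M F : ℕ} {φ : N3} {τ : ℕ → Bool} (hn : Nae τ φ) {α j k i : ℕ} {b : Bool}
    (hα : α < N) (hj : j < (cl φ).length) (hk : k < 3) (hl : lt3 (clj φ j) k = (b, i))
    (hi : i < nv φ) :
    Seat1 (lay N τ φ (Qs M F φ)) (Vh N M F φ)
        [(3, α, i), part α (b, i), (9, α, j), (10 + k, α, j)] ∧
      ∀ E ∈ ext ([(3, α, i), part α (b, i), (9, α, j), (10 + k, α, j)],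
        pool F α 1, pool F α 2, pool F α 3, pool F α 4),
        Seat2 (lay N τ φ (Qs M F φ)) (Vh N M F φ) E := by
  obtain ⟨cx, cy, l, r, u, d, h1, h2, h3⟩ := layL_item (M := M) (F := F) hn hα hj hk hl hi
  refine ⟨⟨cx, cy, l, r, u, d, h1, h2⟩, ?_⟩
  intro E hE
  simp only [ext, pool, List.mem_flatMap, List.mem_map, List.mem_range] at hE
  obtain ⟨z1, ⟨f1, hf1, rfl⟩, z2, ⟨f2, hf2, rfl⟩, z3, ⟨f3, hf3, rfl⟩, z4, ⟨f4, hf4, rfl⟩, rfl⟩ := hE
  obtain ⟨tl, tr, tu, td, zl, zr, zu, zd, h4, h5⟩ := h3 f1 f2 f3 f4 hf1 hf2 hf3 hf4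
  refine ⟨cx, cy, l, r, u, d, tl, tr, tu, td, zl, zr, zu, zd, h1, h4, ?_⟩
  intro h hh
  rw [List.mem_append] at hh
  rcases hh with hh | hh
  · have := h2 h hh
    tauto
  · have := h5 h hh
    tauto

theorem layL_var {φ : N3} (hb : BN φ) {c : SCl} (hc : c ∈ cl φ) :
    c.1.2 < nv φ ∧ c.2.1.2 < nv φ ∧ c.2.2.2 < nv φ := by
  unfold cl at hc
  rw [List.mem_append, List.mem_map, List.mem_map] at hc
  rcases hc with ⟨t, ht, rfl⟩ | ⟨i, hi, rfl⟩
  · exact hb t ht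
  · have : i < nv φ := by
      simpa using hi
    exact ⟨this, this, this⟩

/-- Seats for the items of the links. -/
theorem seat_itL {N M F : ℕ} {φ : N3} {τ : ℕ → Bool} (hb : BN φ) (hn : Nae τ φ) :
    ∀ it ∈ itL N F φ, Seat1 (lay N τ φ (Qs M F φ)) (Vh N M F φ) it.1 ∧
      ∀ E ∈ ext it, Seat2 (lay N τ φ (Qs M F φ)) (Vh N M F φ) E := by
  intro it hit
  simp only [itL, List.mem_flatMap, List.mem_range] at hit
  obtain ⟨α, hα, ⟨c, j⟩, hc, hit⟩ := hit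
  have hj := List.mem_zipIdx_iff_getElem?.1 hc
  have hj' : j < (cl φ).length := by
    by_contra h
    rw [List.getElem?_eq_none (by omega)] at hj
    exact absurd hj (by simp)
  have hcj : clj φ j = c := by
    unfold clj
    rw [List.getD_eq_getElem?_getD]
    simp only at hj
    rw [hj]
    rfl
  have hmem : c ∈ cl φ := List.mem_of_getElem? hj
  obtain ⟨v1, v2, v3⟩ := layL_var hb hmem
  simp only [List.mem_cons, List.not_mem_nil, or_false] at hit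
  rcases hit with rfl | rfl | rfl
  · exact layL_seats (k := 0) (i := c.1.2) (b := c.1.1) hn hα hj' (by omega) (by rw [hcj]; rfl) v1
  · exact layL_seats (k := 1) (i := c.2.1.2) (b := c.2.1.1) hn hα hj' (by omega)
      (by rw [hcj]; rfl) v2
  · exact layL_seats (k := 2) (i := c.2.2.2) (b := c.2.2.1) hn hα hj' (by omega)
      (by rw [hcj]; rfl) v3

end Pool.Agent.RAC963
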