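import Pool.Agent.RAC963.LayInj

set_option autoImplicit false

namespace Pool.Agent.RAC963

section aux

variable {N M F : ℕ} {φ : N3} {τ : ℕ → Bool}

theorem layO_bx1 {Q : ℕ} {h : Hub} (h2 : 2 ≤ h.1) :
    (lay N τ φ Q).x1 h = 2 * (pX τ φ Q h : ℕ) := by
  obtain ⟨k, α, i⟩ := h
  obtain ⟨κ, rfl⟩ : ∃ κ, k = κ + 2 := ⟨k - 2, by simp only at h2; omega⟩
  rfl

theorem layO_bx2 {Q : ℕ} {h : Hub} (h2 : 2 ≤ h.1) :
    (lay N τ φ Q).x2 h = 2 * (pX τ φ Q h : ℕ) + 3 := by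
  obtain ⟨k, α, i⟩ := h
  obtain ⟨κ, rfl⟩ : ∃ κ, k = κ + 2 := ⟨k - 2, by simp only at h2; omega⟩
  rfl

theorem layO_by1 {Q : ℕ} {h : Hub} (h2 : 2 ≤ h.1) :
    (lay N τ φ Q).y1 h = 2 * (pY τ φ Q h : ℕ) := by
  obtain ⟨k, α, i⟩ := h
  obtain ⟨κ, rfl⟩ : ∃ κ, k = κ + 2 := ⟨k - 2, by simp only at h2; omega⟩
  rfl

theorem layO_by2 {Q : ℕ} {h : Hub} (h2 : 2 ≤ h.1) :
    (lay N τ φ Q).y2 h = 2 * (pY τ φ Q h : ℕ) + 3 := by
  obtain ⟨k, α, i⟩ := h
  obtain ⟨κ, rfl⟩ : ∃ κ, k = κ + 2 := ⟨k - 2, by simp only at h2; omega⟩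
  rfl

theorem layO_cases {g : Hub} (hg : Vh N M F φ g) :
    g = (0, 0, 0) ∨ g = (0, 0, 1) ∨ g = (0, 0, 2) ∨ g = (0, 0, 3) ∨
      (∃ γ, γ ≤ N ∧ (g = (1, γ, 0) ∨ g = (1, γ, 1) ∨ g = (1, γ, 2) ∨ g = (1, γ, 3))) ∨
      2 ≤ g.1 := by
  obtain ⟨k, α, i⟩ := g
  simp only [Vh] at hg
  rcases hg with ⟨rfl, rfl, h⟩ | ⟨rfl, h1, h⟩ | ⟨h1, _, _⟩ | ⟨h1, _, _⟩ | ⟨h1, _, _⟩ |
    ⟨h1, _, _⟩ | ⟨h1, _, _⟩
  · have : i = 0 ∨ i = 1 ∨ i = 2 ∨ i = 3 := by omega
    rcases this with rfl | rfl | rfl | rfl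
    · exact Or.inl rfl
    · exact Or.inr (Or.inl rfl)
    · exact Or.inr (Or.inr (Or.inl rfl))
    · exact Or.inr (Or.inr (Or.inr (Or.inl rfl)))
  · have : i = 0 ∨ i = 1 ∨ i = 2 ∨ i = 3 := by omega
    refine Or.inr (Or.inr (Or.inr (Or.inr (Or.inl ⟨α, h1, ?_⟩))))
    rcases this with rfl | rfl | rfl | rfl
    · exact Or.inl rfl
    · exact Or.inr (Or.inl rfl)
    · exact Or.inr (Or.inr (Or.inl rfl))
    · exact Or.inr (Or.inr (Or.inr rfl))
  all_goals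
    refine Or.inr (Or.inr (Or.inr (Or.inr (Or.inr ?_))))
    simp only
    omega

/-- A small hub in the middle column of `z` is `z`. -/
theorem layO_midX (hn : Nae τ φ) {z g : Hub} (hz : Vh N M F φ z) (hz2 : 2 ≤ z.1)
    (hg : Vh N M F φ g) (hg2 : 2 ≤ g.1)
    (hc : (lay N τ φ (Qs M F φ)).InCol g (2 * (pX τ φ (Qs M F φ) z : ℕ) + 1)) : g = z := by
  unfold Boxes.InCol at hc
  rw [layO_bx1 hg2, layO_bx2 hg2] at hc
  exact pX_inj hn hg hz hg2 hz2 (by omega)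

/-- A small hub in the middle row of `z` is `z`. -/
theorem layO_midY (hn : Nae τ φ) {z g : Hub} (hz : Vh N M F φ z) (hz2 : 2 ≤ z.1)
    (hg : Vh N M F φ g) (hg2 : 2 ≤ g.1)
    (hc : (lay N τ φ (Qs M F φ)).InRow g (2 * (pY τ φ (Qs M F φ) z : ℕ) + 1)) : g = z := by
  unfold Boxes.InRow at hc
  rw [layO_by1 hg2, layO_by2 hg2] at hc
  exact pY_inj hn hg hz hg2 hz2 (by omega)

/-- The vertical routes in the middle column of a small hub. -/
theorem layO_vr (hn : Nae τ φ) {z : Hub} (hz : Vh N M F φ z) (hz2 : 2 ≤ z.1) {cy : ℤ}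
    (h0 : 0 ≤ cy) (h1 : cy ≤ Wd N (Qs M F φ))
    (hwx : 2 * pX τ φ (Qs M F φ) z + 3 ≤ Wd N (Qs M F φ))
    (hwy : 2 * pY τ φ (Qs M F φ) z + 3 ≤ Wd N (Qs M F φ))
    (ho : 2 * (pY τ φ (Qs M F φ) z : ℤ) + 3 ≤ cy ∨ cy < 2 * (pY τ φ (Qs M F φ) z : ℤ)) :
    (lay N τ φ (Qs M F φ)).VRoute (Vh N M F φ) cy (2 * (pX τ φ (Qs M F φ) z : ℕ) + 1) z := by
  refine ⟨?_, ?_, ?_⟩
  · unfold Boxes.InCol
    rw [layO_bx1 hz2, layO_bx2 hz2]
    omega
  · rw [layO_by1 hz2, layO_by2 hz2]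
    exact ho
  · intro g hg hc
    rcases layO_cases hg with rfl | rfl | rfl | rfl | ⟨γ, hγ, rfl | rfl | rfl | rfl⟩ | hg2
    · simp only [Boxes.InCol, lay, bx1, bx2] at hc
      omega
    · rw [layO_by1 hz2, layO_by2 hz2]
      simp only [lay, by1, by2]
      omega
    · simp only [Boxes.InCol, lay, bx1, bx2] at hc
      omega
    · rw [layO_by1 hz2, layO_by2 hz2]
      simp only [lay, by1, by2]
      omega
    · simp only [Boxes.InCol, lay, bx1, bx2] at hc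
      omega
    · rw [layO_by1 hz2, layO_by2 hz2]
      simp only [lay, by1, by2]
      omega
    · simp only [Boxes.InCol, lay, bx1, bx2] at hc
      omega
    · rw [layO_by1 hz2, layO_by2 hz2]
      simp only [lay, by1, by2]
      omega
    · exact Or.inl (layO_midX hn hz hz2 hg hg2 hc)

/-- The horizontal routes in the middle row of a small hub. -/
theorem layO_hr (hn : Nae τ φ) {z : Hub} (hz : Vh N M F φ z) (hz2 : 2 ≤ z.1) {cx : ℤ}
    (h0 : 0 ≤ cx) (h1 : cx ≤ Wd N (Qs M F φ))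
    (hwx : 2 * pX τ φ (Qs M F φ) z + 3 ≤ Wd N (Qs M F φ))
    (hwy : 2 * pY τ φ (Qs M F φ) z + 3 ≤ Wd N (Qs M F φ))
    (ho : 2 * (pX τ φ (Qs M F φ) z : ℤ) + 3 ≤ cx ∨ cx < 2 * (pX τ φ (Qs M F φ) z : ℤ)) :
    (lay N τ φ (Qs M F φ)).HRoute (Vh N M F φ) cx (2 * (pY τ φ (Qs M F φ) z : ℕ) + 1) z := by
  refine ⟨?_, ?_, ?_⟩
  · unfold Boxes.InRow
    rw [layO_by1 hz2, layO_by2 hz2]
    omega
  · rw [layO_bx1 hz2, layO_bx2 hz2]
    exact ho
  · intro g hg hc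
    rcases layO_cases hg with rfl | rfl | rfl | rfl | ⟨γ, hγ, rfl | rfl | rfl | rfl⟩ | hg2
    · rw [layO_bx1 hz2, layO_bx2 hz2]
      simp only [lay, bx1, bx2]
      omega
    · simp only [Boxes.InRow, lay, by1, by2] at hc
      omega
    · rw [layO_bx1 hz2, layO_bx2 hz2]
      simp only [lay, bx1, bx2]
      omega
    · simp only [Boxes.InRow, lay, by1, by2] at hc
      omega
    · rw [layO_bx1 hz2, layO_bx2 hz2]
      simp only [lay, bx1, bx2]
      omega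
    · simp only [Boxes.InRow, lay, by1, by2] at hc
      omega
    · rw [layO_bx1 hz2, layO_bx2 hz2]
      simp only [lay, bx1, bx2]
      omega
    · simp only [Boxes.InRow, lay, by1, by2] at hc
      omega
    · exact Or.inl (layO_midY hn hz hz2 hg hg2 hc)

/-- The only small hubs in a shared row. -/
theorem layO_shY (hn : Nae τ φ) {u m g : Hub} (hu : Vh N M F φ u) (hu2 : 2 ≤ u.1)
    (hm : Vh N M F φ m) (hm2 : 2 ≤ m.1)
    (hum : pY τ φ (Qs M F φ) m = pY τ φ (Qs M F φ) u + 1)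
    (hg : Vh N M F φ g) (hg2 : 2 ≤ g.1)
    (hc : (lay N τ φ (Qs M F φ)).InRow g (2 * (pY τ φ (Qs M F φ) m : ℕ))) : g = u ∨ g = m := by
  unfold Boxes.InRow at hc
  rw [layO_by1 hg2, layO_by2 hg2] at hc
  have : pY τ φ (Qs M F φ) g = pY τ φ (Qs M F φ) u ∨ pY τ φ (Qs M F φ) g = pY τ φ (Qs M F φ) m := by
    omega
  rcases this with h | h
  · exact Or.inl (pY_inj hn hg hu hg2 hu2 h)
  · exact Or.inr (pY_inj hn hg hm hg2 hm2 h)

/-- The only small hubs in a shared column. -/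
theorem layO_shX (hn : Nae τ φ) {u m g : Hub} (hu : Vh N M F φ u) (hu2 : 2 ≤ u.1)
    (hm : Vh N M F φ m) (hm2 : 2 ≤ m.1)
    (hum : pX τ φ (Qs M F φ) m = pX τ φ (Qs M F φ) u + 1)
    (hg : Vh N M F φ g) (hg2 : 2 ≤ g.1)
    (hc : (lay N τ φ (Qs M F φ)).InCol g (2 * (pX τ φ (Qs M F φ) m : ℕ))) : g = u ∨ g = m := by
  unfold Boxes.InCol at hc
  rw [layO_bx1 hg2, layO_bx2 hg2] at hc
  have : pX τ φ (Qs M F φ) g = pX τ φ (Qs M F φ) u ∨ pX τ φ (Qs M F φ) g = pX τ φ (Qs M F φ) m := by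
    omega
  rcases this with h | h
  · exact Or.inl (pX_inj hn hg hu hg2 hu2 h)
  · exact Or.inr (pX_inj hn hg hm hg2 hm2 h)

theorem layO_Qn : 4 * nv φ + 28 ≤ Qs M F φ := by
  unfold Qs
  omega

theorem layO_QF : 4 * F + 28 ≤ Qs M F φ := by
  unfold Qs
  omega

theorem layO_W {α Q : ℕ} (h : α < N) : 24 * (Q * α) + 24 * Q + 24 * Q + 3 ≤ Wd N Q := by
  unfold Wd
  have h1 : Q * (α + 1) ≤ Q * N := Nat.mul_le_mul_left Q h
  have h2 : Q * (α + 1) = Q * α + Q := by ring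
  have h3 : Q * (N + 1) = Q * N + Q := by ring
  omega

theorem layO_tri (Q γ α : ℕ) : Q * γ + Q ≤ Q * α ∨ Q * γ = Q * α ∨ Q * α + Q ≤ Q * γ := by
  rcases lt_trichotomy γ α with h | h | h
  · left
    have h1 : Q * (γ + 1) ≤ Q * α := Nat.mul_le_mul_left Q h
    have h2 : Q * (γ + 1) = Q * γ + Q := by ring
    omega
  · right; left
    rw [h]
  · right; right
    have h1 : Q * (α + 1) ≤ Q * γ := Nat.mul_le_mul_left Q h
    have h2 : Q * (α + 1) = Q * α + Q := by ring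
    omega

theorem layO_V37 {κ α i : ℕ} (h1 : 3 ≤ κ) (h2 : κ ≤ 7) (hα : α < N) (hi : i < nv φ) :
    Vh N M F φ (κ, α, i) :=
  Or.inr (Or.inr (Or.inr (Or.inl ⟨h1, h2, hα, hi⟩)))

theorem layO_V8 {α i : ℕ} (hα : α < N) (hi : i < 5) : Vh N M F φ (8, α, i) :=
  Or.inr (Or.inr (Or.inr (Or.inr (Or.inl ⟨rfl, hα, hi⟩))))

theorem layO_VF {κ α i : ℕ} (h1 : 13 ≤ κ) (h2 : κ ≤ 17) (hα : α < N) (hi : i < F) :
    Vh N M F φ (κ, α, i) :=
  Or.inr (Or.inr (Or.inr (Or.inr (Or.inr (Or.inr ⟨h1, h2, hα, hi⟩)))))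

/-- The seat of the first kind: visibility. -/
theorem layO_s1 (hn : Nae τ φ) {α i h : ℕ} (hα : α < N) (hi : i < nv φ) (hh : h < 5) :
    (lay N τ φ (Qs M F φ)).Sees (Vh N M F φ) (2 * (pX τ φ (Qs M F φ) (8, α, h) : ℕ) + 1)
      (2 * (pY τ φ (Qs M F φ) (3, α, i) : ℕ)) (6, α, i) (3, α, i) (0, 0, 3) (8, α, h) := by
  have hQ : 4 * nv φ + 28 ≤ Qs M F φ := layO_Qn
  have hW := layO_W (Q := Qs M F φ) hα
  have hVu : Vh N M F φ (6, α, i) := layO_V37 (by omega) (by omega) hα hi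
  have hVm : Vh N M F φ (3, α, i) := layO_V37 (by omega) (by omega) hα hi
  have hVp : Vh N M F φ (8, α, h) := layO_V8 hα hh
  have e1 : pX τ φ (Qs M F φ) (8, α, h) = 12 * (Qs M F φ * α) + (3 * Qs M F φ + 4 * h + 2) := rfl
  have e2 : pY τ φ (Qs M F φ) (8, α, h) = 12 * (Qs M F φ * α) + (7 * Qs M F φ + 4 * h + 2) := rfl
  have e3 : pX τ φ (Qs M F φ) (6, α, i) = 12 * (Qs M F φ * α) + (Qs M F φ + 4 * i + 2) := rfl
  have e4 : pY τ φ (Qs M F φ) (6, α, i) = 12 * (Qs M F φ * α) + (4 * Qs M F φ + 4 * i + 1) := rfl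
  have e5 : pX τ φ (Qs M F φ) (3, α, i) = 12 * (Qs M F φ * α) + (6 * Qs M F φ + 4 * i + 2) := rfl
  have e6 : pY τ φ (Qs M F φ) (3, α, i) = 12 * (Qs M F φ * α) + (4 * Qs M F φ + 4 * i + 2) := rfl
  refine ⟨?_, ?_, ?_, ?_, ?_, ?_, ?_, ?_, ?_, ?_⟩
  · unfold Boxes.InRow
    rw [layO_by1 (by simp), layO_by2 (by simp)]
    omega
  · unfold Boxes.InRow
    rw [layO_by1 (by simp), layO_by2 (by simp)]
    omega
  · simp only [Boxes.InCol, lay, bx1, bx2]
    omega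
  · unfold Boxes.InCol
    rw [layO_bx1 (by simp), layO_bx2 (by simp)]
    omega
  · rw [layO_bx2 (by simp)]
    omega
  · rw [layO_bx1 (by simp)]
    omega
  · simp only [lay, by2]
    omega
  · rw [layO_by1 (by simp)]
    omega
  · intro g hg hc
    rcases layO_cases hg with rfl | rfl | rfl | rfl | ⟨γ, hγ, rfl | rfl | rfl | rfl⟩ | hg2
    · rw [layO_bx1 (h := (6, α, i)) (by simp), layO_bx2 (h := (3, α, i)) (by simp)]
      simp only [lay, bx1, bx2]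
      omega
    · simp only [Boxes.InRow, lay, by1, by2] at hc
      omega
    · rw [layO_bx1 (h := (6, α, i)) (by simp), layO_bx2 (h := (3, α, i)) (by simp)]
      simp only [lay, bx1, bx2]
      omega
    · simp only [Boxes.InRow, lay, by1, by2] at hc
      omega
    · rw [layO_bx1 (h := (6, α, i)) (by simp), layO_bx2 (h := (3, α, i)) (by simp)]
      simp only [lay, bx1, bx2]
      omega
    · simp only [Boxes.InRow, lay, by1, by2] at hc
      omega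
    · rw [layO_bx1 (h := (6, α, i)) (by simp), layO_bx2 (h := (3, α, i)) (by simp)]
      simp only [lay, bx1, bx2]
      omega
    · simp only [Boxes.InRow, lay, by1, by2] at hc
      omega
    · rcases layO_shY hn hVu (by simp) hVm (by simp) (by omega) hg hg2 hc with h | h
      · exact Or.inl h
      · exact Or.inr (Or.inl h)
  · intro g hg hc
    rcases layO_cases hg with rfl | rfl | rfl | rfl | ⟨γ, hγ, rfl | rfl | rfl | rfl⟩ | hg2
    · simp only [Boxes.InCol, lay, bx1, bx2] at hc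
      omega
    · rw [layO_by2 (h := (8, α, h)) (by simp)]
      simp only [lay, by1, by2]
      omega
    · simp only [Boxes.InCol, lay, bx1, bx2] at hc
      omega
    · exact Or.inl rfl
    · simp only [Boxes.InCol, lay, bx1, bx2] at hc
      omega
    · rw [layO_by2 (h := (8, α, h)) (by simp)]
      simp only [lay, by1, by2]
      omega
    · simp only [Boxes.InCol, lay, bx1, bx2] at hc
      omega
    · exfalso
      simp only [Boxes.InCol, lay, bx1, bx2] at hc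
      have := layO_tri (Qs M F φ) γ α
      omega
    · exact Or.inr (Or.inl (layO_midX hn hVp (by simp) hg hg2 hc))

/-- The seat of the second kind: visibility. -/
theorem layO_s2 (hn : Nae τ φ) {α i h : ℕ} (hα : α < N) (hi : i < nv φ) (hh : h < 5) :
    (lay N τ φ (Qs M F φ)).Sees (Vh N M F φ) (2 * (pX τ φ (Qs M F φ) (3, α, i) : ℕ))
      (2 * (pY τ φ (Qs M F φ) (8, α, h) : ℕ) + 1) (8, α, h) (0, 0, 2) (3, α, i) (7, α, i) := by
  have hQ : 4 * nv φ + 28 ≤ Qs M F φ := layO_Qn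
  have hW := layO_W (Q := Qs M F φ) hα
  have hVv : Vh N M F φ (7, α, i) := layO_V37 (by omega) (by omega) hα hi
  have hVm : Vh N M F φ (3, α, i) := layO_V37 (by omega) (by omega) hα hi
  have hVp : Vh N M F φ (8, α, h) := layO_V8 hα hh
  have e1 : pX τ φ (Qs M F φ) (8, α, h) = 12 * (Qs M F φ * α) + (3 * Qs M F φ + 4 * h + 2) := rfl
  have e2 : pY τ φ (Qs M F φ) (8, α, h) = 12 * (Qs M F φ * α) + (7 * Qs M F φ + 4 * h + 2) := rfl
  have e3 : pX τ φ (Qs M F φ) (7, α, i) = 12 * (Qs M F φ * α) + (6 * Qs M F φ + 4 * i + 1) := rfl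
  have e4 : pY τ φ (Qs M F φ) (7, α, i) = 12 * (Qs M F φ * α) + (10 * Qs M F φ + 4 * i + 2) := rfl
  have e5 : pX τ φ (Qs M F φ) (3, α, i) = 12 * (Qs M F φ * α) + (6 * Qs M F φ + 4 * i + 2) := rfl
  have e6 : pY τ φ (Qs M F φ) (3, α, i) = 12 * (Qs M F φ * α) + (4 * Qs M F φ + 4 * i + 2) := rfl
  refine ⟨?_, ?_, ?_, ?_, ?_, ?_, ?_, ?_, ?_, ?_⟩
  · unfold Boxes.InRow
    rw [layO_by1 (by simp), layO_by2 (by simp)]
    omega
  · simp only [Boxes.InRow, lay, by1, by2]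
    omega
  · unfold Boxes.InCol
    rw [layO_bx1 (by simp), layO_bx2 (by simp)]
    omega
  · unfold Boxes.InCol
    rw [layO_bx1 (by simp), layO_bx2 (by simp)]
    omega
  · rw [layO_bx2 (by simp)]
    omega
  · simp only [lay, bx1]
    omega
  · rw [layO_by2 (by simp)]
    omega
  · rw [layO_by1 (by simp)]
    omega
  · intro g hg hc
    rcases layO_cases hg with rfl | rfl | rfl | rfl | ⟨γ, hγ, rfl | rfl | rfl | rfl⟩ | hg2
    · rw [layO_bx1 (h := (8, α, h)) (by simp)]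
      simp only [lay, bx1, bx2]
      omega
    · simp only [Boxes.InRow, lay, by1, by2] at hc
      omega
    · exact Or.inr (Or.inl rfl)
    · simp only [Boxes.InRow, lay, by1, by2] at hc
      omega
    · rw [layO_bx1 (h := (8, α, h)) (by simp)]
      simp only [lay, bx1, bx2]
      omega
    · simp only [Boxes.InRow, lay, by1, by2] at hc
      omega
    · exfalso
      simp only [Boxes.InRow, lay, by1, by2] at hc
      have := layO_tri (Qs M F φ) γ α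
      omega
    · simp only [Boxes.InRow, lay, by1, by2] at hc
      omega
    · exact Or.inl (layO_midY hn hVp (by simp) hg hg2 hc)
  · intro g hg hc
    rcases layO_cases hg with rfl | rfl | rfl | rfl | ⟨γ, hγ, rfl | rfl | rfl | rfl⟩ | hg2
    · simp only [Boxes.InCol, lay, bx1, bx2] at hc
      omega
    · rw [layO_by1 (h := (3, α, i)) (by simp), layO_by2 (h := (7, α, i)) (by simp)]
      simp only [lay, by1, by2]
      omega
    · simp only [Boxes.InCol, lay, bx1, bx2] at hc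
      omega
    · rw [layO_by1 (h := (3, α, i)) (by simp), layO_by2 (h := (7, α, i)) (by simp)]
      simp only [lay, by1, by2]
      omega
    · simp only [Boxes.InCol, lay, bx1, bx2] at hc
      omega
    · rw [layO_by1 (h := (3, α, i)) (by simp), layO_by2 (h := (7, α, i)) (by simp)]
      simp only [lay, by1, by2]
      omega
    · simp only [Boxes.InCol, lay, bx1, bx2] at hc
      omega
    · rw [layO_by1 (h := (3, α, i)) (by simp), layO_by2 (h := (7, α, i)) (by simp)]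
      simp only [lay, by1, by2]
      omega
    · rcases layO_shX hn hVv (by simp) hVm (by simp) (by omega) hg hg2 hc with h | h
      · exact Or.inr (Or.inl h)
      · exact Or.inl h

/-- The seat of the first kind: the routes with one turn. -/
theorem layO_t1 (hn : Nae τ φ) {α i h a b c d : ℕ} (hα : α < N) (hi : i < nv φ) (hh : h < 5)
    (ha : a < F) (hb : b < F) (hc : c < F) (hd : d < F) :
    (lay N τ φ (Qs M F φ)).Turns (Vh N M F φ) (2 * (pX τ φ (Qs M F φ) (8, α, h) : ℕ) + 1)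
      (2 * (pY τ φ (Qs M F φ) (3, α, i) : ℕ)) (6, α, i) (3, α, i) (0, 0, 3) (8, α, h)
      (2 * (pX τ φ (Qs M F φ) (17, α, a) : ℕ) + 1) (2 * (pX τ φ (Qs M F φ) (16, α, b) : ℕ) + 1)
      (2 * (pY τ φ (Qs M F φ) (13, α, c) : ℕ) + 1) (2 * (pY τ φ (Qs M F φ) (14, α, d) : ℕ) + 1)
      (17, α, a) (16, α, b) (13, α, c) (14, α, d) := by
  have hQ : 4 * nv φ + 28 ≤ Qs M F φ := layO_Qn
  have hQF : 4 * F + 28 ≤ Qs M F φ := layO_QF
  have hW := layO_W (Q := Qs M F φ) hα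
  have e1 : pX τ φ (Qs M F φ) (8, α, h) = 12 * (Qs M F φ * α) + (3 * Qs M F φ + 4 * h + 2) := rfl
  have e2 : pY τ φ (Qs M F φ) (8, α, h) = 12 * (Qs M F φ * α) + (7 * Qs M F φ + 4 * h + 2) := rfl
  have e3 : pX τ φ (Qs M F φ) (6, α, i) = 12 * (Qs M F φ * α) + (Qs M F φ + 4 * i + 2) := rfl
  have e4 : pY τ φ (Qs M F φ) (6, α, i) = 12 * (Qs M F φ * α) + (4 * Qs M F φ + 4 * i + 1) := rfl
  have e5 : pX τ φ (Qs M F φ) (3, α, i) = 12 * (Qs M F φ * α) + (6 * Qs M F φ + 4 * i + 2) := rfl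
  have e6 : pY τ φ (Qs M F φ) (3, α, i) = 12 * (Qs M F φ * α) + (4 * Qs M F φ + 4 * i + 2) := rfl
  have a1 : pX τ φ (Qs M F φ) (17, α, a) = 12 * (Qs M F φ * α) + (2 * Qs M F φ + 4 * a + 2) := rfl
  have a2 : pY τ φ (Qs M F φ) (17, α, a) = 12 * (Qs M F φ * α) + (11 * Qs M F φ + 4 * a + 2) := rfl
  have b1 : pX τ φ (Qs M F φ) (16, α, b) = 12 * (Qs M F φ * α) + (5 * Qs M F φ + 4 * b + 2) := rfl
  have b2 : pY τ φ (Qs M F φ) (16, α, b) = 12 * (Qs M F φ * α) + (2 * Qs M F φ + 4 * b + 2) := rfl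
  have c1 : pX τ φ (Qs M F φ) (13, α, c) = 12 * (Qs M F φ * α) + (7 * Qs M F φ + 4 * c + 2) := rfl
  have c2 : pY τ φ (Qs M F φ) (13, α, c) = 12 * (Qs M F φ * α) + (3 * Qs M F φ + 4 * c + 2) := rfl
  have d1 : pX τ φ (Qs M F φ) (14, α, d) = 12 * (Qs M F φ * α) + (11 * Qs M F φ + 4 * d + 2) := rfl
  have d2 : pY τ φ (Qs M F φ) (14, α, d) = 12 * (Qs M F φ * α) + (5 * Qs M F φ + 4 * d + 2) := rfl
  refine ⟨?_, ?_, ?_, ?_, ?_, ?_, ?_, ?_⟩
  · rw [layO_bx2 (by simp)]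
    omega
  · rw [layO_bx1 (by simp)]
    omega
  · simp only [lay, by2]
    omega
  · rw [layO_by1 (by simp)]
    omega
  · exact layO_vr hn (layO_VF (by omega) (by omega) hα ha) (by simp) (by omega) (by omega)
      (by omega) (by omega) (by omega)
  · exact layO_vr hn (layO_VF (by omega) (by omega) hα hb) (by simp) (by omega) (by omega)
      (by omega) (by omega) (by omega)
  · exact layO_hr hn (layO_VF (by omega) (by omega) hα hc) (by simp) (by omega) (by omega)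
      (by omega) (by omega) (by omega)
  · exact layO_hr hn (layO_VF (by omega) (by omega) hα hd) (by simp) (by omega) (by omega)
      (by omega) (by omega) (by omega)

/-- The seat of the second kind: the routes with one turn. -/
theorem layO_t2 (hn : Nae τ φ) {α i h a b c d : ℕ} (hα : α < N) (hi : i < nv φ) (hh : h < 5)
    (ha : a < F) (hb : b < F) (hc : c < F) (hd : d < F) :
    (lay N τ φ (Qs M F φ)).Turns (Vh N M F φ) (2 * (pX τ φ (Qs M F φ) (3, α, i) : ℕ))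
      (2 * (pY τ φ (Qs M F φ) (8, α, h) : ℕ) + 1) (8, α, h) (0, 0, 2) (3, α, i) (7, α, i)
      (2 * (pX τ φ (Qs M F φ) (16, α, a) : ℕ) + 1) (2 * (pX τ φ (Qs M F φ) (13, α, b) : ℕ) + 1)
      (2 * (pY τ φ (Qs M F φ) (14, α, c) : ℕ) + 1) (2 * (pY τ φ (Qs M F φ) (15, α, d) : ℕ) + 1)
      (16, α, a) (13, α, b) (14, α, c) (15, α, d) := by
  have hQ : 4 * nv φ + 28 ≤ Qs M F φ := layO_Qn
  have hQF : 4 * F + 28 ≤ Qs M F φ := layO_QF
  have hW := layO_W (Q := Qs M F φ) hα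
  have e1 : pX τ φ (Qs M F φ) (8, α, h) = 12 * (Qs M F φ * α) + (3 * Qs M F φ + 4 * h + 2) := rfl
  have e2 : pY τ φ (Qs M F φ) (8, α, h) = 12 * (Qs M F φ * α) + (7 * Qs M F φ + 4 * h + 2) := rfl
  have e3 : pX τ φ (Qs M F φ) (7, α, i) = 12 * (Qs M F φ * α) + (6 * Qs M F φ + 4 * i + 1) := rfl
  have e4 : pY τ φ (Qs M F φ) (7, α, i) = 12 * (Qs M F φ * α) + (10 * Qs M F φ + 4 * i + 2) := rfl
  have e5 : pX τ φ (Qs M F φ) (3, α, i) = 12 * (Qs M F φ * α) + (6 * Qs M F φ + 4 * i + 2) := rfl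
  have e6 : pY τ φ (Qs M F φ) (3, α, i) = 12 * (Qs M F φ * α) + (4 * Qs M F φ + 4 * i + 2) := rfl
  have a1 : pX τ φ (Qs M F φ) (16, α, a) = 12 * (Qs M F φ * α) + (5 * Qs M F φ + 4 * a + 2) := rfl
  have a2 : pY τ φ (Qs M F φ) (16, α, a) = 12 * (Qs M F φ * α) + (2 * Qs M F φ + 4 * a + 2) := rfl
  have b1 : pX τ φ (Qs M F φ) (13, α, b) = 12 * (Qs M F φ * α) + (7 * Qs M F φ + 4 * b + 2) := rfl
  have b2 : pY τ φ (Qs M F φ) (13, α, b) = 12 * (Qs M F φ * α) + (3 * Qs M F φ + 4 * b + 2) := rfl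
  have c1 : pX τ φ (Qs M F φ) (14, α, c) = 12 * (Qs M F φ * α) + (11 * Qs M F φ + 4 * c + 2) := rfl
  have c2 : pY τ φ (Qs M F φ) (14, α, c) = 12 * (Qs M F φ * α) + (5 * Qs M F φ + 4 * c + 2) := rfl
  have d1 : pX τ φ (Qs M F φ) (15, α, d) = 12 * (Qs M F φ * α) + (9 * Qs M F φ + 4 * d + 2) := rfl
  have d2 : pY τ φ (Qs M F φ) (15, α, d) = 12 * (Qs M F φ * α) + (8 * Qs M F φ + 4 * d + 2) := rfl
  refine ⟨?_, ?_, ?_, ?_, ?_, ?_, ?_, ?_⟩
  · rw [layO_bx2 (by simp)]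
    omega
  · simp only [lay, bx1]
    omega
  · rw [layO_by2 (by simp)]
    omega
  · rw [layO_by1 (by simp)]
    omega
  · exact layO_vr hn (layO_VF (by omega) (by omega) hα ha) (by simp) (by omega) (by omega)
      (by omega) (by omega) (by omega)
  · exact layO_vr hn (layO_VF (by omega) (by omega) hα hb) (by simp) (by omega) (by omega)
      (by omega) (by omega) (by omega)
  · exact layO_hr hn (layO_VF (by omega) (by omega) hα hc) (by simp) (by omega) (by omega)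
      (by omega) (by omega) (by omega)
  · exact layO_hr hn (layO_VF (by omega) (by omega) hα hd) (by simp) (by omega) (by omega)
      (by omega) (by omega) (by omega)

theorem layO_ext {it : Item} {E : List Hub} (hE : E ∈ ext it) :
    ∃ z1 ∈ it.2.1, ∃ z2 ∈ it.2.2.1, ∃ z3 ∈ it.2.2.2.1, ∃ z4 ∈ it.2.2.2.2,
      E = it.1 ++ [z1, z2, z3, z4] := by
  unfold ext at hE
  obtain ⟨z1, h1, hE⟩ := List.mem_flatMap.1 hE
  obtain ⟨z2, h2, hE⟩ := List.mem_flatMap.1 hE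
  obtain ⟨z3, h3, hE⟩ := List.mem_flatMap.1 hE
  obtain ⟨z4, h4, rfl⟩ := List.mem_map.1 hE
  exact ⟨z1, h1, z2, h2, z3, h3, z4, h4, rfl⟩

theorem layO_pool {α κ : ℕ} {z : Hub} (hz : z ∈ pool F α κ) : ∃ i < F, z = (12 + κ, α, i) := by
  unfold pool at hz
  obtain ⟨i, hi, rfl⟩ := List.mem_map.1 hz
  exact ⟨i, List.mem_range.1 hi, rfl⟩

end aux

/-- Seats for the items of the forced pairs. -/
theorem seat_itO {N M F : ℕ} {φ : N3} {τ : ℕ → Bool} (hb : BN φ) (hn : Nae τ φ) :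
    ∀ it ∈ itO N F φ, Seat1 (lay N τ φ (Qs M F φ)) (Vh N M F φ) it.1 ∧
      ∀ E ∈ ext it, Seat2 (lay N τ φ (Qs M F φ)) (Vh N M F φ) E := by
  intro it hit
  unfold itO at hit
  obtain ⟨α, hα, hit⟩ := List.mem_flatMap.1 hit
  obtain ⟨i, hi, hit⟩ := List.mem_flatMap.1 hit
  obtain ⟨h, hh, hit⟩ := List.mem_flatMap.1 hit
  rw [List.mem_range] at hα hi hh
  rw [List.mem_cons, List.mem_cons] at hit
  rcases hit with rfl | rfl | hit
  · refine ⟨⟨_, _, _, _, _, _, layO_s1 hn hα hi hh, ?_⟩, ?_⟩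
    · intro g hg
      simp only [List.mem_cons, List.not_mem_nil, or_false] at hg
      tauto
    · intro E hE
      obtain ⟨z1, h1, z2, h2, z3, h3, z4, h4, rfl⟩ := layO_ext hE
      obtain ⟨a, ha, rfl⟩ := layO_pool h1
      obtain ⟨b, hb', rfl⟩ := layO_pool h2
      obtain ⟨c, hc, rfl⟩ := layO_pool h3
      obtain ⟨d, hd, rfl⟩ := layO_pool h4
      refine ⟨_, _, _, _, _, _, _, _, _, _, _, _, _, _, layO_s1 hn hα hi hh,
        layO_t1 hn hα hi hh ha hb' hc hd, ?_⟩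
      intro g hg
      simp only [List.cons_append, List.nil_append, List.mem_cons, List.not_mem_nil,
        or_false] at hg
      tauto
  · refine ⟨⟨_, _, _, _, _, _, layO_s2 hn hα hi hh, ?_⟩, ?_⟩
    · intro g hg
      simp only [List.mem_cons, List.not_mem_nil, or_false] at hg
      tauto
    · intro E hE
      obtain ⟨z1, h1, z2, h2, z3, h3, z4, h4, rfl⟩ := layO_ext hE
      obtain ⟨a, ha, rfl⟩ := layO_pool h1
      obtain ⟨b, hb', rfl⟩ := layO_pool h2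
      obtain ⟨c, hc, rfl⟩ := layO_pool h3
      obtain ⟨d, hd, rfl⟩ := layO_pool h4
      refine ⟨_, _, _, _, _, _, _, _, _, _, _, _, _, _, layO_s2 hn hα hi hh,
        layO_t2 hn hα hi hh ha hb' hc hd, ?_⟩
      intro g hg
      simp only [List.cons_append, List.nil_append, List.mem_cons, List.not_mem_nil,
        or_false] at hg
      tauto
  · exact absurd hit (List.not_mem_nil)

end Pool.Agent.RAC963
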