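import Pool.Agent.RAC963.LayOk
import Pool.Agent.RAC963.LayD
import Pool.Agent.RAC963.LayO
import Pool.Agent.RAC963.LayL
import Pool.Agent.RAC963.LayI
import Pool.Agent.RAC963.Box1
import Pool.Agent.RAC963.Box2

/-!
# Completeness: drawings for satisfiable formulas
-/

set_option autoImplicit false

namespace Pool.Agent.RAC963

theorem Boxes.Ok.mono {H : Type} {L : Boxes H} {U U' : H → Prop} (h : L.Ok U)
    (hU : ∀ g, U' g → U g) : L.Ok U' :=
  ⟨fun g hg => h.1 g (hU g hg), fun g g' hg hg' hne => h.2 g g' (hU g hg) (hU g' hg') hne⟩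

theorem Boxes.Sees.mono {H : Type} {L : Boxes H} {U U' : H → Prop} {cx cy : ℤ} {l r u d : H}
    (h : L.Sees U cx cy l r u d) (hU : ∀ g, U' g → U g) : L.Sees U' cx cy l r u d :=
  ⟨h.rl, h.rr, h.cu, h.cd, h.xl, h.xr, h.yu, h.yd, fun g hg => h.row g (hU g hg),
    fun g hg => h.col g (hU g hg)⟩

theorem Boxes.VRoute.mono {H : Type} {L : Boxes H} {U U' : H → Prop} {cy c : ℤ} {z : H}
    (h : L.VRoute U cy c z) (hU : ∀ g, U' g → U g) : L.VRoute U' cy c z :=
  ⟨h.ic, h.out, fun g hg => h.cl g (hU g hg)⟩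

theorem Boxes.HRoute.mono {H : Type} {L : Boxes H} {U U' : H → Prop} {cx c : ℤ} {z : H}
    (h : L.HRoute U cx c z) (hU : ∀ g, U' g → U g) : L.HRoute U' cx c z :=
  ⟨h.ic, h.out, fun g hg => h.cl g (hU g hg)⟩

theorem Seat1.mono {H : Type} {L : Boxes H} {U U' : H → Prop} {E : List H} (h : Seat1 L U E)
    (hU : ∀ g, U' g → U g) : Seat1 L U' E := by
  obtain ⟨cx, cy, l, r, u, d, h1, h2⟩ := h
  exact ⟨cx, cy, l, r, u, d, h1.mono hU, h2⟩

theorem Seat2.mono {H : Type} {L : Boxes H} {U U' : H → Prop} {E : List H} (h : Seat2 L U E)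
    (hU : ∀ g, U' g → U g) : Seat2 L U' E := by
  obtain ⟨cx, cy, l, r, u, d, tl, tr, tu, td, zl, zr, zu, zd, h1, h2, h3⟩ := h
  exact ⟨cx, cy, l, r, u, d, tl, tr, tu, td, zl, zr, zu, zd, h1.mono hU,
    ⟨h2.hl, h2.hr, h2.hu, h2.hd, h2.rl.mono hU, h2.rr.mono hU, h2.ru.mono hU, h2.rd.mono hU⟩, h3⟩

theorem nae_of {φ : N3} (h : NAE3 φ) : ∃ τ : ℕ → Bool, Nae τ φ := by
  obtain ⟨τ, hτ⟩ := h
  refine ⟨τ, ?_⟩
  intro c hc
  unfold cl at hc
  rw [List.mem_append, List.mem_map, List.mem_map] at hc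
  rcases hc with ⟨t, ht, rfl⟩ | ⟨i, _, rfl⟩
  · have := hτ t ht
    simp only [lv]
    intro h
    apply this
    revert h
    cases τ t.1 <;> cases τ t.2.1 <;> cases τ t.2.2 <;> simp
  · simp only [lv]
    intro h
    revert h
    cases τ i <;> simp

theorem cl_lt {φ : N3} (hb : BN φ) {c : SCl} (hc : c ∈ cl φ) :
    c.1.2 < nv φ ∧ c.2.1.2 < nv φ ∧ c.2.2.2 < nv φ := by
  unfold cl at hc
  rw [List.mem_append, List.mem_map, List.mem_map] at hc
  rcases hc with ⟨t, ht, rfl⟩ | ⟨i, hi, rfl⟩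
  · exact hb t ht
  · simp only [List.mem_append, List.mem_range] at hi
    dsimp only
    omega

theorem vh_locs {N M F : ℕ} {φ : N3} {α : ℕ} (hα : α < N) {h : Hub} (hh : h ∈ locs F φ α) :
    Vh N M F φ h := by
  unfold locs at hh
  simp only [List.mem_append, List.mem_flatMap, List.mem_map, List.mem_range, List.mem_cons,
    List.not_mem_nil, or_false] at hh
  unfold Vh
  rcases hh with ((⟨i, hi, h1⟩ | ⟨i, hi, h1⟩) | ⟨i, hi, h1⟩) | ⟨i, hi, h1⟩
  · rcases h1 with rfl | rfl | rfl | rfl | rfl <;> dsimp only <;> omega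
  · subst h1; dsimp only; omega
  · rcases h1 with rfl | rfl | rfl | rfl <;> dsimp only <;> omega
  · rcases h1 with rfl | rfl | rfl | rfl | rfl <;> dsimp only <;> omega

/-- All hubs of the core and of the pools of the item are hubs. -/
def ItV (N M F : ℕ) (φ : N3) (it : Item) : Prop :=
  (∀ h ∈ it.1, Vh N M F φ h) ∧ (∀ h ∈ it.2.1, Vh N M F φ h) ∧ (∀ h ∈ it.2.2.1, Vh N M F φ h) ∧
  (∀ h ∈ it.2.2.2.1, Vh N M F φ h) ∧ (∀ h ∈ it.2.2.2.2, Vh N M F φ h)

theorem vh_grA {N M F : ℕ} {φ : N3} {γ : ℕ} (hγ : γ ≤ N) {h : Hub} (hh : h ∈ grA M γ) :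
    Vh N M F φ h := by
  unfold grA at hh
  rw [List.mem_map] at hh
  obtain ⟨i, hi, rfl⟩ := hh
  rw [List.mem_range] at hi
  unfold Vh
  dsimp only
  omega

theorem vh_grB {N M F : ℕ} {φ : N3} {γ : ℕ} (hγ : γ ≤ N) {h : Hub} (hh : h ∈ grB M γ) :
    Vh N M F φ h := by
  unfold grB at hh
  rw [List.mem_map] at hh
  obtain ⟨i, hi, rfl⟩ := hh
  rw [List.mem_range] at hi
  unfold Vh
  dsimp only
  omega

theorem vh_pool {N M F : ℕ} {φ : N3} {α κ : ℕ} (hα : α < N) (h1 : 1 ≤ κ) (h5 : κ ≤ 5) {h : Hub}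
    (hh : h ∈ pool F α κ) : Vh N M F φ h := by
  unfold pool at hh
  rw [List.mem_map] at hh
  obtain ⟨i, hi, rfl⟩ := hh
  rw [List.mem_range] at hi
  unfold Vh
  dsimp only
  omega

theorem itV_D {N M F : ℕ} {φ : N3} {it : Item} (h : it ∈ itD N M F φ) : ItV N M F φ it := by
  unfold itD at h
  simp only [List.mem_flatMap, List.mem_range, List.mem_cons, List.not_mem_nil, or_false] at h
  obtain ⟨β, hβ, α, hα, p, hp, q, hq, h1⟩ := h
  have vp : Vh N M F φ p := vh_locs (by omega) hp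
  have vq : Vh N M F φ q := vh_locs hβ hq
  have vo : ∀ k < 4, Vh N M F φ (0, 0, k) := by
    intro k hk
    unfold Vh
    dsimp only
    omega
  rcases h1 with rfl | rfl
  · refine ⟨?_, fun h hh => vh_grA (by omega) hh, fun h hh => vh_grB (by omega) hh,
      fun h hh => vh_grA (by omega) hh, fun h hh => vh_grA (le_refl _) hh⟩
    intro h hh
    simp only [List.mem_cons, List.not_mem_nil, or_false] at hh
    rcases hh with rfl | rfl | rfl | rfl
    exacts [vp, vq, vo 2 (by omega), vo 3 (by omega)]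
  · refine ⟨?_, fun h hh => vh_grA (by omega) hh, fun h hh => vh_grB (by omega) hh,
      fun h hh => vh_grA (by omega) hh, fun h hh => vh_grA (le_refl _) hh⟩
    intro h hh
    simp only [List.mem_cons, List.not_mem_nil, or_false] at hh
    rcases hh with rfl | rfl | rfl | rfl
    exacts [vp, vq, vo 0 (by omega), vo 1 (by omega)]

theorem itV_O {N M F : ℕ} {φ : N3} {it : Item} (h : it ∈ itO N F φ) : ItV N M F φ it := by
  unfold itO at h
  simp only [List.mem_flatMap, List.mem_range, List.mem_cons, List.not_mem_nil, or_false] at h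
  obtain ⟨α, hα, i, hi, k, hk, h1⟩ := h
  have pl : ∀ κ, 1 ≤ κ → κ ≤ 5 → ∀ h ∈ pool F α κ, Vh N M F φ h := fun κ h1 h2 h hh =>
    vh_pool hα h1 h2 hh
  rcases h1 with rfl | rfl
  · refine ⟨?_, pl 5 (by omega) (by omega), pl 4 (by omega) (by omega), pl 1 (by omega)
      (by omega), pl 2 (by omega) (by omega)⟩
    intro h hh
    simp only [List.mem_cons, List.not_mem_nil, or_false] at hh
    unfold Vh
    rcases hh with rfl | rfl | rfl | rfl <;> dsimp only <;> omega
  · refine ⟨?_, pl 4 (by omega) (by omega), pl 1 (by omega) (by omega), pl 2 (by omega)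
      (by omega), pl 3 (by omega) (by omega)⟩
    intro h hh
    simp only [List.mem_cons, List.not_mem_nil, or_false] at hh
    unfold Vh
    rcases hh with rfl | rfl | rfl | rfl <;> dsimp only <;> omega

theorem itV_L {N M F : ℕ} {φ : N3} (hb : BN φ) {it : Item} (h : it ∈ itL N F φ) :
    ItV N M F φ it := by
  unfold itL at h
  simp only [List.mem_flatMap, List.mem_range, List.mem_cons, List.not_mem_nil, or_false] at h
  obtain ⟨α, hα, ⟨c, j⟩, hc, h1⟩ := h
  rw [List.mem_zipIdx_iff_getElem?] at hc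
  dsimp only at hc h1
  have hcm : c ∈ cl φ := List.mem_of_getElem? hc
  have hj : j < (cl φ).length := (List.getElem?_eq_some_iff.1 hc).1
  obtain ⟨l1, l2, l3⟩ := cl_lt hb hcm
  have pl : ∀ κ, 1 ≤ κ → κ ≤ 5 → ∀ h ∈ pool F α κ, Vh N M F φ h := fun κ h1 h2 h hh =>
    vh_pool hα h1 h2 hh
  have vm : ∀ i < nv φ, Vh N M F φ (3, α, i) := by
    intro i hi
    unfold Vh
    dsimp only
    omega
  have vp : ∀ l : Bool × ℕ, l.2 < nv φ → Vh N M F φ (part α l) := by
    intro l hl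
    unfold part Vh
    split_ifs <;> dsimp only <;> omega
  have vc : ∀ κ, 9 ≤ κ → κ ≤ 12 → Vh N M F φ (κ, α, j) := by
    intro κ h1 h2
    unfold Vh
    dsimp only
    omega
  rcases h1 with rfl | rfl | rfl
  all_goals
    refine ⟨?_, pl 1 (by omega) (by omega), pl 2 (by omega) (by omega), pl 3 (by omega)
      (by omega), pl 4 (by omega) (by omega)⟩
    intro h hh
    simp only [List.mem_cons, List.not_mem_nil, or_false] at hh
    rcases hh with rfl | rfl | rfl | rfl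
  exacts [vm _ l1, vp _ l1, vc 9 (by omega) (by omega), vc 10 (by omega) (by omega),
    vm _ l2, vp _ l2, vc 9 (by omega) (by omega), vc 11 (by omega) (by omega),
    vm _ l3, vp _ l3, vc 9 (by omega) (by omega), vc 12 (by omega) (by omega)]

theorem itV {N M F : ℕ} {φ : N3} (hb : BN φ) {it : Item} (h : it ∈ items N M F φ) :
    ItV N M F φ it := by
  unfold items at h
  simp only [List.mem_append] at h
  rcases h with (h | h) | h
  exacts [itV_D h, itV_O h, itV_L hb h]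

theorem used_fam1 {N : ℕ} {φ : N3} (hb : BN φ) (h : Hub) (hh : Used (fam1 N φ) h) :
    Vh N 0 0 φ h := by
  obtain ⟨E, hE, hh⟩ := hh
  unfold fam1 at hE
  rw [List.mem_map] at hE
  obtain ⟨it, hit, rfl⟩ := hE
  exact (itV hb hit).1 h hh

theorem mem_ext {it : Item} {E : List Hub} (h : E ∈ ext it) : ∃ z1 ∈ it.2.1, ∃ z2 ∈ it.2.2.1,
    ∃ z3 ∈ it.2.2.2.1, ∃ z4 ∈ it.2.2.2.2, E = it.1 ++ [z1, z2, z3, z4] := by
  unfold ext at h
  simp only [List.mem_flatMap, List.mem_map] at h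
  obtain ⟨z1, h1, z2, h2, z3, h3, z4, h4, rfl⟩ := h
  exact ⟨z1, h1, z2, h2, z3, h3, z4, h4, rfl⟩

theorem used_fam2 {N M F : ℕ} {φ : N3} (hb : BN φ) (h : Hub) (hh : Used (fam2 N M F φ) h) :
    Vh N M F φ h := by
  obtain ⟨E, hE, hh⟩ := hh
  unfold fam2 at hE
  rw [List.mem_append, List.mem_flatMap, List.mem_flatMap] at hE
  rcases hE with ⟨it, hit, hE⟩ | ⟨γ, hγ, hE⟩
  · obtain ⟨z1, h1, z2, h2, z3, h3, z4, h4, rfl⟩ := mem_ext hE
    obtain ⟨v0, v1, v2, v3, v4⟩ := itV (M := M) hb hit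
    rw [List.mem_append] at hh
    rcases hh with hh | hh
    · exact v0 h hh
    · simp only [List.mem_cons, List.not_mem_nil, or_false] at hh
      rcases hh with rfl | rfl | rfl | rfl
      exacts [v1 _ h1, v2 _ h2, v3 _ h3, v4 _ h4]
  · rw [List.mem_range] at hγ
    unfold inert at hE
    simp only [List.mem_flatMap, List.mem_cons, List.not_mem_nil, or_false,
      List.mem_sublistsLen] at hE
    obtain ⟨s, ⟨hs, _⟩, hE⟩ := hE
    have hs' : ∀ i ∈ s, i < 2 * M := fun i hi => List.mem_range.1 (hs.subset hi)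
    rcases hE with rfl | rfl
    all_goals
      simp only [List.mem_append, List.mem_map, List.mem_cons, List.not_mem_nil, or_false] at hh
      unfold Vh
      rcases hh with ⟨i, hi, rfl⟩ | rfl | rfl
      · have := hs' i hi
        dsimp only
        omega
      · dsimp only
        omega
      · dsimp only
        omega

theorem lay_nd (N M F : ℕ) (τ : ℕ → Bool) (φ : N3) (h : Hub) :
    (lay N τ φ (Qs M F φ)).x1 h < (lay N τ φ (Qs M F φ)).x2 h ∧
      (lay N τ φ (Qs M F φ)).y1 h < (lay N τ φ (Qs M F φ)).y2 h := by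
  have hQ : 0 < Qs M F φ := by unfold Qs; omega
  generalize Qs M F φ = Q at *
  have hW : 0 < Wd N Q := by unfold Wd; omega
  obtain ⟨κ, α, i⟩ := h
  unfold lay
  match κ, i with
  | 0, 0 => simp only [bx1, bx2, by1, by2]; omega
  | 0, 1 => simp only [bx1, bx2, by1, by2]; omega
  | 0, 2 => simp only [bx1, bx2, by1, by2]; omega
  | 0, (i + 3) => simp only [bx1, bx2, by1, by2]; omega
  | 1, 0 => simp only [bx1, bx2, by1, by2]; omega
  | 1, 1 => simp only [bx1, bx2, by1, by2]; omega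
  | 1, 2 => simp only [bx1, bx2, by1, by2]; omega
  | 1, (i + 3) => simp only [bx1, bx2, by1, by2]; omega
  | (κ + 2), i => simp only [bx1, bx2, by1, by2]; omega

/-- Satisfiable formulas have one-bend drawings. -/
theorem complete1 (N : ℕ) {φ : N3} (hb : BN φ) (h : NAE3 φ) (T : ℕ) :
    ∃ (hp : Hub → Pt) (wp : ℕ → ℕ → Pt) (ch : ℕ → ℕ → Hub → List Pt),
      IsHD 1 (fam1 N φ) T hp wp ch := by
  obtain ⟨τ, hτ⟩ := nae_of h
  refine box1 (lay N τ φ (Qs 0 0 φ)) ((lay_ok (M := 0) (F := 0) hτ).mono (used_fam1 hb))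
    (lay_nd N 0 0 τ φ) ?_ T
  intro E hE
  refine Seat1.mono ?_ (used_fam1 hb)
  unfold fam1 at hE
  rw [List.mem_map] at hE
  obtain ⟨it, hit, rfl⟩ := hE
  unfold items at hit
  simp only [List.mem_append] at hit
  rcases hit with (hit | hit) | hit
  exacts [(seat_itD hb hτ it hit).1, (seat_itO hb hτ it hit).1, (seat_itL hb hτ it hit).1]

/-- Satisfiable formulas have two-bend drawings. -/
theorem complete2 (N M F : ℕ) {φ : N3} (hb : BN φ) (h : NAE3 φ) (T : ℕ) :
    ∃ (hp : Hub → Pt) (wp : ℕ → ℕ → Pt) (ch : ℕ → ℕ → Hub → List Pt),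
      IsHD 2 (fam2 N M F φ) T hp wp ch := by
  obtain ⟨τ, hτ⟩ := nae_of h
  refine box2 (lay N τ φ (Qs M F φ)) ((lay_ok (M := M) (F := F) hτ).mono (used_fam2 hb))
    (lay_nd N M F τ φ) ?_ T
  intro E hE
  refine Seat2.mono ?_ (used_fam2 hb)
  unfold fam2 at hE
  rw [List.mem_append, List.mem_flatMap, List.mem_flatMap] at hE
  rcases hE with ⟨it, hit, hE⟩ | ⟨γ, hγ, hE⟩
  · unfold items at hit
    simp only [List.mem_append] at hit
    rcases hit with (hit | hit) | hit
    exacts [(seat_itD hb hτ it hit).2 E hE, (seat_itO hb hτ it hit).2 E hE,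
      (seat_itL hb hτ it hit).2 E hE]
  · rw [List.mem_range] at hγ
    exact seat_inert hτ (by omega) E hE

end Pool.Agent.RAC963
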