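import Pool.Agent.RAC963.Parts

set_option autoImplicit false

namespace Pool.Agent.RAC963

theorem attack_segs_cons (a b : Pt) (l : List Pt) :
    segs (a :: b :: l) = (a, b) :: segs (b :: l) := rfl

theorem attack_tail_snd (c : List Pt) (q : Pt) (s : Pt × Pt) (hc : c.getLast? = some q)
    (hs : (segs c).getLast? = some s) : s.2 = q := by
  induction c with
  | nil => simp at hc
  | cons a l ih =>
    cases l with
    | nil => simp [segs] at hs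
    | cons b l =>
      rw [List.getLast?_cons_cons] at hc
      cases l with
      | nil =>
        simp [segs] at hs
        simp at hc
        rw [← hs, ← hc]
      | cons e l =>
        apply ih hc
        rw [attack_segs_cons, attack_segs_cons, List.getLast?_cons_cons] at hs
        rw [attack_segs_cons]
        exact hs

theorem attack_mem {c : List Pt} {s : Pt × Pt} (h : IsTail c s) : s ∈ segs c :=
  List.mem_of_getLast? h

/-- Two points of a segment on lines through a common point perpendicular to it are equal. -/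
theorem attack_eq {s₁ s₂ s' : Pt × Pt} (he : s₁.2 = s₂.2) (hs' : s'.1 ≠ s'.2) (p₁ : Perp s' s₁)
    (p₂ : Perp s' s₂) {z₁ z₂ : Pt} (hz₁ : z₁ ∈ segment ℝ s₁.1 s₁.2)
    (hz₁' : z₁ ∈ segment ℝ s'.1 s'.2) (hz₂ : z₂ ∈ segment ℝ s₂.1 s₂.2)
    (hz₂' : z₂ ∈ segment ℝ s'.1 s'.2) : z₁ = z₂ := by
  obtain ⟨⟨x1, y1⟩, ⟨u1, v1⟩⟩ := s₁
  obtain ⟨⟨x2, y2⟩, ⟨u2, v2⟩⟩ := s₂
  obtain ⟨⟨x, y⟩, ⟨u, v⟩⟩ := s'
  obtain ⟨a1, b1, -, -, k1, rfl⟩ := hz₁
  obtain ⟨a2, b2, -, -, k2, e2⟩ := hz₁'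
  obtain ⟨a3, b3, -, -, k3, rfl⟩ := hz₂
  obtain ⟨a4, b4, -, -, k4, e4⟩ := hz₂'
  simp only [Prod.mk.injEq, Prod.smul_mk, Prod.mk_add_mk, smul_eq_mul, Perp] at *
  obtain ⟨rfl, rfl⟩ := he
  obtain ⟨e2a, e2b⟩ := e2
  obtain ⟨e4a, e4b⟩ := e4
  have g1 : a1 = 1 - b1 := by linarith
  have g2 : a2 = 1 - b2 := by linarith
  have g3 : a3 = 1 - b3 := by linarith
  have g4 : a4 = 1 - b4 := by linarith
  subst g1 g2 g3 g4
  have hpos : 0 < (u - x) ^ 2 + (v - y) ^ 2 := by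
    rcases eq_or_ne x u with h | h
    · have h2 : y ≠ v := fun h2 => hs' (by rw [h, h2])
      have : 0 < (v - y) ^ 2 := by
        apply sq_pos_of_ne_zero
        intro h3
        exact h2 (by linarith)
      nlinarith [sq_nonneg (u - x)]
    · have : 0 < (u - x) ^ 2 := by
        apply sq_pos_of_ne_zero
        intro h3
        exact h (by linarith)
      nlinarith [sq_nonneg (v - y)]
  have hb : (b2 - b4) * ((u - x) ^ 2 + (v - y) ^ 2) = 0 := by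
    linear_combination (u - x) * (e2a - e4a) + (v - y) * (e2b - e4b) - (1 - b1) * p₁ +
      (1 - b3) * p₂
  have hb2 : b2 = b4 := by
    rcases mul_eq_zero.1 hb with h | h
    · linarith
    · exact absurd h hpos.ne'
  subst hb2
  exact ⟨by rw [← e2a, ← e4a], by rw [← e2b, ← e4b]⟩

theorem attack_perp {s₁ s₂ s' : Pt × Pt} (n₁ : s₁.1 ≠ s₁.2) (n₂ : s₂.1 ≠ s₂.2)
    (n' : s'.1 ≠ s'.2) (p₁ : Perp s' s₁) (p₂ : Perp s' s₂) (p : Perp s₁ s₂) : False := by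
  obtain ⟨⟨x1, y1⟩, ⟨u1, v1⟩⟩ := s₁
  obtain ⟨⟨x2, y2⟩, ⟨u2, v2⟩⟩ := s₂
  obtain ⟨⟨x, y⟩, ⟨u, v⟩⟩ := s'
  simp only [Perp, ne_eq, Prod.mk.injEq] at *
  have hpos : ∀ x y u v : ℝ, ¬ (x = u ∧ y = v) → 0 < (u - x) ^ 2 + (v - y) ^ 2 := by
    intro x y u v h
    by_contra hc
    push Not at hc
    have h1 : (u - x) ^ 2 = 0 := by nlinarith [sq_nonneg (u - x), sq_nonneg (v - y)]
    have h2 : (v - y) ^ 2 = 0 := by nlinarith [sq_nonneg (u - x), sq_nonneg (v - y)]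
    rw [sq_eq_zero_iff] at h1 h2
    exact h ⟨by linarith, by linarith⟩
  have q1 := hpos _ _ _ _ n₁
  have q2 := hpos _ _ _ _ n₂
  have q := hpos _ _ _ _ n'
  generalize u1 - x1 = a at *
  generalize v1 - y1 = b at *
  generalize u2 - x2 = c at *
  generalize v2 - y2 = d at *
  generalize u - x = e at *
  generalize v - y = f at *
  have h1 : (e ^ 2 + f ^ 2) * (a * d - b * c) = 0 := by
    linear_combination (e * d - f * c) * p₁ + (f * a - e * b) * p₂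
  have h2 : a * d - b * c = 0 := by
    rcases mul_eq_zero.1 h1 with h | h
    · exact absurd h q.ne'
    · exact h
  have h3 : (a ^ 2 + b ^ 2) * (c ^ 2 + d ^ 2) = 0 := by
    linear_combination (a * c + b * d) * p + (a * d - b * c) * h2
  rcases mul_eq_zero.1 h3 with h | h
  · exact absurd h q1.ne'
  · exact absurd h q2.ne'

/-- A segment of an edge meets at most one of the tails at another hub. -/
theorem attack_unique {H : Type} {k : ℕ} {𝓔 : List (List H)} {T : ℕ} {hp : H → Pt}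
    {wp : ℕ → ℕ → Pt} {ch : ℕ → ℕ → H → List Pt} (hd : IsHD k 𝓔 T hp wp ch)
    {j' t' : ℕ} {h' : H} (ht' : t' < T) (hh' : In 𝓔 j' h') {s' : Pt × Pt}
    (hs' : s' ∈ segs (ch j' t' h')) {j t₁ t₂ : ℕ} {h : H} (hh : In 𝓔 j h) (hne : h ≠ h')
    (h₁ : t₁ < T) (h₂ : t₂ < T) (n₁ : ¬ (j = j' ∧ t₁ = t')) (n₂ : ¬ (j = j' ∧ t₂ = t'))
    {s₁ s₂ : Pt × Pt} (hs₁ : IsTail (ch j t₁ h) s₁) (hs₂ : IsTail (ch j t₂ h) s₂)
    {z₁ z₂ : Pt} (hz₁ : z₁ ∈ segment ℝ s₁.1 s₁.2) (hz₁' : z₁ ∈ segment ℝ s'.1 s'.2)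
    (hz₂ : z₂ ∈ segment ℝ s₂.1 s₂.2) (hz₂' : z₂ ∈ segment ℝ s'.1 s'.2) : t₁ = t₂ := by
  by_contra hne'
  have c' := hd.chain j' t' h' ht' hh'
  have c1 := hd.chain j t₁ h h₁ hh
  have c2 := hd.chain j t₂ h h₂ hh
  have e1 : s₁.2 = hp h := attack_tail_snd _ _ _ c1.2.1 hs₁
  have e2 : s₂.2 = hp h := attack_tail_snd _ _ _ c2.2.1 hs₂
  have m1 := attack_mem hs₁
  have m2 := attack_mem hs₂
  have d' := c'.2.2.2 s' hs'
  have d1 := c1.2.2.2 s₁ m1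
  have d2 := c2.2.2.2 s₂ m2
  have p1 : Perp s' s₁ := by
    rcases hd.cross j' t' h' j t₁ h ht' h₁ hh' hh (fun h0 => hne h0.2.2.symm) s' hs' s₁ m1 z₁ hz₁'
      hz₁ with h0 | h0 | h0
    · exact absurd ⟨h0.1.symm, h0.2.1.symm⟩ n₁
    · exact absurd h0.1.symm hne
    · exact h0.2.2
  have p2 : Perp s' s₂ := by
    rcases hd.cross j' t' h' j t₂ h ht' h₂ hh' hh (fun h0 => hne h0.2.2.symm) s' hs' s₂ m2 z₂ hz₂'
      hz₂ with h0 | h0 | h0
    · exact absurd ⟨h0.1.symm, h0.2.1.symm⟩ n₂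
    · exact absurd h0.1.symm hne
    · exact h0.2.2
  have hz : z₁ = z₂ := attack_eq (e1.trans e2.symm) d' p1 p2 hz₁ hz₁' hz₂ hz₂'
  subst hz
  rcases hd.cross j t₁ h j t₂ h h₁ h₂ hh hh (fun h0 => hne' h0.2.1) s₁ m1 s₂ m2 z₁ hz₁ hz₂ with
    h0 | h0 | h0
  · exact hne' h0.2.1
  · apply hd.avh j' t' h' h ht' hh' hh.used hne
    exact ⟨s', hs', by rw [← h0.2]; exact hz₁'⟩
  · exact attack_perp d1 d2 d' p1 p2 h0.2.2

end Pool.Agent.RAC963
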