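import Pool.Agent.RAC963.HD

/-!
# Box layouts
-/

set_option autoImplicit false

namespace Pool.Agent.RAC963

/-- Boxes (closed rectangles with integer corners) of the hubs. -/
structure Boxes (H : Type) where
  x1 : H → ℤ
  x2 : H → ℤ
  y1 : H → ℤ
  y2 : H → ℤ

variable {H : Type}

/-- The column `[c, c + 1]` is inside the range of columns of the box of `g`. -/
def Boxes.InCol (L : Boxes H) (g : H) (c : ℤ) : Prop := L.x1 g ≤ c ∧ c < L.x2 g

/-- The row `[c, c + 1]` is inside the range of rows of the box of `g`. -/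
def Boxes.InRow (L : Boxes H) (g : H) (c : ℤ) : Prop := L.y1 g ≤ c ∧ c < L.y2 g

/-- The boxes of the used hubs are nondegenerate and pairwise disjoint. -/
def Boxes.Ok (L : Boxes H) (U : H → Prop) : Prop :=
  (∀ h, U h → L.x1 h < L.x2 h ∧ L.y1 h < L.y2 h) ∧
  ∀ g h, U g → U h → g ≠ h →
    L.x2 g < L.x1 h ∨ L.x2 h < L.x1 g ∨ L.y2 g < L.y1 h ∨ L.y2 h < L.y1 g

/-- From the cell `(cx, cy)` the hubs `l`, `r`, `u`, `d` are the first ones to the left, to the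
right, up (smaller `y`) and down. -/
structure Boxes.Sees (L : Boxes H) (U : H → Prop) (cx cy : ℤ) (l r u d : H) : Prop where
  rl : L.InRow l cy
  rr : L.InRow r cy
  cu : L.InCol u cx
  cd : L.InCol d cx
  xl : L.x2 l ≤ cx
  xr : cx < L.x1 r
  yu : L.y2 u ≤ cy
  yd : cy < L.y1 d
  row : ∀ g, U g → L.InRow g cy → g = l ∨ g = r ∨ L.x2 g < L.x1 l ∨ L.x2 r < L.x1 g
  col : ∀ g, U g → L.InCol g cx → g = u ∨ g = d ∨ L.y2 g < L.y1 u ∨ L.y2 d < L.y1 g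

/-- The vertical line in the column `c` leads from the row `cy` to the box of `z`. -/
structure Boxes.VRoute (L : Boxes H) (U : H → Prop) (cy c : ℤ) (z : H) : Prop where
  ic : L.InCol z c
  out : L.y2 z ≤ cy ∨ cy < L.y1 z
  cl : ∀ g, U g → L.InCol g c → g = z ∨ (L.y2 g < L.y1 z ∧ L.y2 g ≤ cy) ∨
    (L.y2 z < L.y1 g ∧ cy < L.y1 g)

/-- The horizontal line in the row `c` leads from the column `cx` to the box of `z`. -/
structure Boxes.HRoute (L : Boxes H) (U : H → Prop) (cx c : ℤ) (z : H) : Prop where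
  ic : L.InRow z c
  out : L.x2 z ≤ cx ∨ cx < L.x1 z
  cl : ∀ g, U g → L.InRow g c → g = z ∨ (L.x2 g < L.x1 z ∧ L.x2 g ≤ cx) ∨
    (L.x2 z < L.x1 g ∧ cx < L.x1 g)

/-- The four routes with one turn from the cell `(cx, cy)` to the hubs `zl`, `zr`, `zu`, `zd`. -/
structure Boxes.Turns (L : Boxes H) (U : H → Prop) (cx cy : ℤ) (l r u d : H)
    (tl tr tu td : ℤ) (zl zr zu zd : H) : Prop where
  hl : L.x2 l ≤ tl ∧ tl < cx
  hr : cx < tr ∧ tr < L.x1 r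
  hu : L.y2 u ≤ tu ∧ tu < cy
  hd : cy < td ∧ td < L.y1 d
  rl : L.VRoute U cy tl zl
  rr : L.VRoute U cy tr zr
  ru : L.HRoute U cx tu zu
  rd : L.HRoute U cx td zd

/-- The closed box of the hub `h`. -/
def Boxes.Mem (L : Boxes H) (h : H) (z : Pt) : Prop :=
  (L.x1 h : ℝ) ≤ z.1 ∧ z.1 ≤ (L.x2 h : ℝ) ∧ (L.y1 h : ℝ) ≤ z.2 ∧ z.2 ≤ (L.y2 h : ℝ)

/-- The boundary of the box of the hub `h`. -/
def Boxes.Bd (L : Boxes H) (h : H) (z : Pt) : Prop :=
  L.Mem h z ∧ (z.1 = (L.x1 h : ℝ) ∨ z.1 = (L.x2 h : ℝ) ∨ z.2 = (L.y1 h : ℝ) ∨ z.2 = (L.y2 h : ℝ))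

/-- The centre of the box of the hub `h`. -/
noncomputable def Boxes.ctr (L : Boxes H) (h : H) : Pt :=
  (((L.x1 h : ℝ) + (L.x2 h : ℝ)) / 2, ((L.y1 h : ℝ) + (L.y2 h : ℝ)) / 2)

/-- A seat for the hyperedge `E` (one bend). -/
def Seat1 (L : Boxes H) (U : H → Prop) (E : List H) : Prop :=
  ∃ (cx cy : ℤ) (l r u d : H), L.Sees U cx cy l r u d ∧
    ∀ h ∈ E, h = l ∨ h = r ∨ h = u ∨ h = d

/-- A seat for the hyperedge `E` (two bends). -/
def Seat2 (L : Boxes H) (U : H → Prop) (E : List H) : Prop :=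
  ∃ (cx cy : ℤ) (l r u d : H) (tl tr tu td : ℤ) (zl zr zu zd : H), L.Sees U cx cy l r u d ∧
    L.Turns U cx cy l r u d tl tr tu td zl zr zu zd ∧
    ∀ h ∈ E, h = l ∨ h = r ∨ h = u ∨ h = d ∨ h = zl ∨ h = zr ∨ h = zu ∨ h = zd

end Pool.Agent.RAC963
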