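import Pool.Agent.RAC963.Box

set_option autoImplicit false

namespace Pool.Agent.RAC963

theorem boxT_segs_append (c : Pt) : ∀ (π : List Pt) (p : Pt), π.getLast? = some p →
    segs (π ++ [c]) = segs π ++ [(p, c)]
  | [], p, h => by simp at h
  | [a], p, h => by
    simp at h
    subst h
    simp [segs]
  | a :: b :: l, p, h => by
    have h' : (b :: l).getLast? = some p := by
      rw [List.getLast?_cons_cons] at h
      exact h
    have ih := boxT_segs_append c (b :: l) p h'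
    have e1 : segs (a :: b :: l ++ [c]) = (a, b) :: segs (b :: l ++ [c]) := by
      simp [segs]
    have e2 : segs (a :: b :: l) = (a, b) :: segs (b :: l) := by
      simp [segs]
    rw [e1, ih, e2]
    rfl

theorem boxT_last_mem : ∀ (l : List Pt) (b p : Pt), l ≠ [] → (b :: l).getLast? = some p →
    ∃ s ∈ segs (b :: l), s.2 = p
  | [], b, p, h, _ => absurd rfl h
  | [a], b, p, _, h => by
    simp at h
    subst h
    exact ⟨(b, a), by simp [segs], rfl⟩
  | a :: a' :: l, b, p, _, h => by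
    have h' : (a :: a' :: l).getLast? = some p := by
      rw [List.getLast?_cons_cons] at h
      exact h
    obtain ⟨s, hs, hp⟩ := boxT_last_mem (a' :: l) a p (by simp) h'
    refine ⟨s, ?_, hp⟩
    have e2 : segs (b :: a :: a' :: l) = (b, a) :: segs (a :: a' :: l) := by
      simp [segs]
    rw [e2]
    exact List.mem_cons_of_mem _ hs

theorem boxT_simple (c : Pt) : ∀ (π : List Pt) (p : Pt), π.getLast? = some p → SimpleChain π →
    (∀ z, On π z → z ∈ segment ℝ p c → z = p) → SimpleChain (π ++ [c])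
  | [], p, h, _, _ => by simp at h
  | [a], p, h, _, _ => by
    show SimpleChain [a, c]
    refine ⟨?_, trivial⟩
    intro s hs
    simp [segs] at hs
  | a :: b :: l, p, h, hs, ho => by
    have h' : (b :: l).getLast? = some p := by
      rw [List.getLast?_cons_cons] at h
      exact h
    have e2 : segs (a :: b :: l) = (a, b) :: segs (b :: l) := by
      simp [segs]
    have ih := boxT_simple c (b :: l) p h' hs.2 (by
      rintro z ⟨s, hs', hz⟩ hz'
      exact ho z ⟨s, by rw [e2]; exact List.mem_cons_of_mem _ hs', hz⟩ hz')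
    show SimpleChain (a :: b :: (l ++ [c]))
    refine ⟨?_, ih⟩
    intro s hs' z hz hz'
    have hs'' : s ∈ segs ((b :: l) ++ [c]) := hs'
    rw [boxT_segs_append c (b :: l) p h'] at hs''
    rcases List.mem_append.1 hs'' with h1 | h1
    · exact hs.1 s h1 z hz hz'
    · rw [List.mem_singleton] at h1
      subst h1
      have h2 : z = p := ho z ⟨(a, b), by rw [e2]; exact List.mem_cons_self, hz⟩ hz'
      by_cases hl : l = []
      · subst hl
        simp at h'
        rw [h2, ← h']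
      · obtain ⟨s', hs1, hs2⟩ := boxT_last_mem l b p hl h'
        refine hs.1 s' hs1 z hz ?_
        rw [h2, ← hs2]
        exact right_mem_segment ℝ _ _

section geo

variable {H : Type} (L : Boxes H) (h : H)

/-- the gauge of the box -/
noncomputable def boxT_g (z : Pt) : ℝ :=
  max (|z.1 - (L.ctr h).1| / (((L.x2 h : ℝ) - L.x1 h) / 2))
    (|z.2 - (L.ctr h).2| / (((L.y2 h : ℝ) - L.y1 h) / 2))

theorem boxT_g_bd (hx : L.x1 h < L.x2 h) (hy : L.y1 h < L.y2 h) (z : Pt) (hz : L.Bd h z) :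
    boxT_g L h z = 1 := by
  have hx' : (L.x1 h : ℝ) < L.x2 h := by exact_mod_cast hx
  have hy' : (L.y1 h : ℝ) < L.y2 h := by exact_mod_cast hy
  obtain ⟨⟨h1, h2, h3, h4⟩, h5⟩ := hz
  have hrx : (0 : ℝ) < ((L.x2 h : ℝ) - L.x1 h) / 2 := by linarith
  have hry : (0 : ℝ) < ((L.y2 h : ℝ) - L.y1 h) / 2 := by linarith
  have ha : |z.1 - (L.ctr h).1| ≤ ((L.x2 h : ℝ) - L.x1 h) / 2 := by
    rw [abs_le]; simp only [Boxes.ctr]; constructor <;> linarith
  have hb : |z.2 - (L.ctr h).2| ≤ ((L.y2 h : ℝ) - L.y1 h) / 2 := by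
    rw [abs_le]; simp only [Boxes.ctr]; constructor <;> linarith
  have ha1 := (div_le_one hrx).2 ha
  have hb1 := (div_le_one hry).2 hb
  have hax : z.1 = (L.x1 h : ℝ) ∨ z.1 = (L.x2 h : ℝ) →
      |z.1 - (L.ctr h).1| / (((L.x2 h : ℝ) - L.x1 h) / 2) = 1 := by
    intro hh
    rw [div_eq_one_iff_eq hrx.ne']
    simp only [Boxes.ctr]
    rcases hh with hh | hh
    · rw [hh, abs_of_nonpos (by linarith)]; ring
    · rw [hh, abs_of_nonneg (by linarith)]; ring
  have hay : z.2 = (L.y1 h : ℝ) ∨ z.2 = (L.y2 h : ℝ) →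
      |z.2 - (L.ctr h).2| / (((L.y2 h : ℝ) - L.y1 h) / 2) = 1 := by
    intro hh
    rw [div_eq_one_iff_eq hry.ne']
    simp only [Boxes.ctr]
    rcases hh with hh | hh
    · rw [hh, abs_of_nonpos (by linarith)]; ring
    · rw [hh, abs_of_nonneg (by linarith)]; ring
  unfold boxT_g
  rcases h5 with h5 | h5 | h5 | h5
  · rw [hax (Or.inl h5)]; exact max_eq_left hb1
  · rw [hax (Or.inr h5)]; exact max_eq_left hb1
  · rw [hay (Or.inl h5)]; exact max_eq_right ha1
  · rw [hay (Or.inr h5)]; exact max_eq_right ha1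

theorem boxT_g_seg (p z : Pt) (t : ℝ) (ht : 0 ≤ t) (h1 : z.1 - (L.ctr h).1 = t * (p.1 - (L.ctr h).1))
    (h2 : z.2 - (L.ctr h).2 = t * (p.2 - (L.ctr h).2)) : boxT_g L h z = t * boxT_g L h p := by
  unfold boxT_g
  rw [h1, h2, abs_mul, abs_mul, abs_of_nonneg ht, mul_max_of_nonneg _ _ ht, mul_div_assoc,
    mul_div_assoc]

theorem boxT_seg_param (p c z : Pt) (hz : z ∈ segment ℝ p c) : ∃ t : ℝ, 0 ≤ t ∧ t ≤ 1 ∧
    z.1 - c.1 = t * (p.1 - c.1) ∧ z.2 - c.2 = t * (p.2 - c.2) := by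
  obtain ⟨a, b, ha, hb, hab, rfl⟩ := hz
  have hb' : b = 1 - a := by linarith
  subst hb'
  refine ⟨a, ha, by linarith, ?_, ?_⟩
  · simp only [Prod.fst_add, Prod.smul_fst, smul_eq_mul]; ring
  · simp only [Prod.snd_add, Prod.smul_snd, smul_eq_mul]; ring

theorem boxT_ctr_mem (hx : L.x1 h < L.x2 h) (hy : L.y1 h < L.y2 h) : L.Mem h (L.ctr h) := by
  have hx' : (L.x1 h : ℝ) < L.x2 h := by exact_mod_cast hx
  have hy' : (L.y1 h : ℝ) < L.y2 h := by exact_mod_cast hy
  simp only [Boxes.Mem, Boxes.ctr]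
  refine ⟨?_, ?_, ?_, ?_⟩ <;> linarith

theorem boxT_bd_ne (hx : L.x1 h < L.x2 h) (hy : L.y1 h < L.y2 h) (p : Pt) (hp : L.Bd h p) :
    p ≠ L.ctr h := by
  rintro rfl
  have h1 := boxT_g_bd L h hx hy _ hp
  simp [boxT_g] at h1

theorem boxT_seg_mem (hx : L.x1 h < L.x2 h) (hy : L.y1 h < L.y2 h) (p z : Pt) (hp : L.Mem h p)
    (hz : z ∈ segment ℝ p (L.ctr h)) : L.Mem h z := by
  obtain ⟨a, b, ha, hb, hab, rfl⟩ := hz
  obtain ⟨c1, c2, c3, c4⟩ := boxT_ctr_mem L h hx hy
  obtain ⟨p1, p2, p3, p4⟩ := hp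
  have hb' : b = 1 - a := by linarith
  subst hb'
  simp only [Boxes.Mem, Prod.fst_add, Prod.snd_add, Prod.smul_fst, Prod.smul_snd, smul_eq_mul]
  refine ⟨?_, ?_, ?_, ?_⟩ <;> nlinarith

theorem boxT_bd_seg (hx : L.x1 h < L.x2 h) (hy : L.y1 h < L.y2 h) (p z : Pt) (hp : L.Bd h p)
    (hz : L.Bd h z) (hs : z ∈ segment ℝ p (L.ctr h)) : z = p := by
  obtain ⟨t, ht0, ht1, e1, e2⟩ := boxT_seg_param p (L.ctr h) z hs
  have h1 := boxT_g_seg L h p z t ht0 e1 e2
  rw [boxT_g_bd L h hx hy _ hp, boxT_g_bd L h hx hy _ hz, mul_one] at h1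
  subst h1
  ext
  · linarith
  · linarith

theorem boxT_two_seg (hx : L.x1 h < L.x2 h) (hy : L.y1 h < L.y2 h) (p q z : Pt) (hp : L.Bd h p)
    (hq : L.Bd h q) (hpq : p ≠ q) (hs : z ∈ segment ℝ p (L.ctr h))
    (hs' : z ∈ segment ℝ q (L.ctr h)) : z = L.ctr h := by
  obtain ⟨t, ht0, ht1, e1, e2⟩ := boxT_seg_param p (L.ctr h) z hs
  obtain ⟨t', ht0', ht1', e1', e2'⟩ := boxT_seg_param q (L.ctr h) z hs'
  have h1 := boxT_g_seg L h p z t ht0 e1 e2
  have h2 := boxT_g_seg L h q z t' ht0' e1' e2'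
  rw [boxT_g_bd L h hx hy _ hp, mul_one] at h1
  rw [boxT_g_bd L h hx hy _ hq, mul_one] at h2
  have h3 : t = t' := by rw [← h1, ← h2]
  subst h3
  by_cases ht : t = 0
  · subst ht
    ext
    · linarith
    · linarith
  · exfalso
    apply hpq
    have e3 : p.1 - (L.ctr h).1 = q.1 - (L.ctr h).1 :=
      mul_left_cancel₀ ht (by rw [← e1, ← e1'])
    have e4 : p.2 - (L.ctr h).2 = q.2 - (L.ctr h).2 :=
      mul_left_cancel₀ ht (by rw [← e2, ← e2'])
    ext
    · linarith
    · linarith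

theorem boxT_disj {U : H → Prop} (hL : L.Ok U) (g : H) (hg : U g) (hh : U h) (z : Pt)
    (hz : L.Mem g z) (hz' : L.Mem h z) : g = h := by
  by_contra hne
  obtain ⟨a1, a2, a3, a4⟩ := hz
  obtain ⟨b1, b2, b3, b4⟩ := hz'
  rcases hL.2 g h hg hh hne with h1 | h1 | h1 | h1
  · have : (L.x2 g : ℝ) < L.x1 h := by exact_mod_cast h1
    linarith
  · have : (L.x2 h : ℝ) < L.x1 g := by exact_mod_cast h1
    linarith
  · have : (L.y2 g : ℝ) < L.y1 h := by exact_mod_cast h1
    linarith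
  · have : (L.y2 h : ℝ) < L.y1 g := by exact_mod_cast h1
    linarith

end geo

/-- Chains outside the boxes, ending on the boundaries, extended to the centres. -/
theorem boxT {H : Type} {k T : ℕ} {𝓔 : List (List H)} (L : Boxes H) (hL : L.Ok (Used 𝓔))
    (wp : ℕ → ℕ → Pt) (P : ℕ → ℕ → H → Pt) (π : ℕ → ℕ → H → List Pt)
    (winj : ∀ j t j' t', Tw 𝓔 T j t → Tw 𝓔 T j' t' → wp j t = wp j' t' → j = j' ∧ t = t')
    (wout : ∀ j t h, Tw 𝓔 T j t → Used 𝓔 h → ¬ L.Mem h (wp j t))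
    (chain : ∀ j t h, t < T → In 𝓔 j h → (π j t h).head? = some (wp j t) ∧
      (π j t h).getLast? = some (P j t h) ∧ (π j t h).length ≤ k + 1 ∧
      ∀ s ∈ segs (π j t h), s.1 ≠ s.2)
    (bd : ∀ j t h, t < T → In 𝓔 j h → L.Bd h (P j t h))
    (free : ∀ j t h g z, t < T → In 𝓔 j h → Used 𝓔 g → On (π j t h) z → L.Mem g z →
      z = P j t h)
    (pinj : ∀ j t j' t' h, t < T → t' < T → In 𝓔 j h → In 𝓔 j' h → P j t h = P j' t' h →
      j = j' ∧ t = t')
    (avw : ∀ j t h j' t', t < T → In 𝓔 j h → Tw 𝓔 T j' t' → On (π j t h) (wp j' t') →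
      j' = j ∧ t' = t)
    (cross : ∀ j t h j' t' h', t < T → t' < T → In 𝓔 j h → In 𝓔 j' h' →
      ¬ (j = j' ∧ t = t' ∧ h = h') →
      ∀ s ∈ segs (π j t h), ∀ s' ∈ segs (π j' t' h'), ∀ z,
        z ∈ segment ℝ s.1 s.2 → z ∈ segment ℝ s'.1 s'.2 →
        (j = j' ∧ t = t' ∧ z = wp j t) ∨
        (z ∈ openSegment ℝ s.1 s.2 ∧ z ∈ openSegment ℝ s'.1 s'.2 ∧ Perp s s'))
    (simple : ∀ j t h, t < T → In 𝓔 j h → SimpleChain (π j t h)) :
    IsHD k 𝓔 T L.ctr wp (fun j t h => π j t h ++ [L.ctr h]) := by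
  have hseg : ∀ j t h, t < T → In 𝓔 j h →
      segs (π j t h ++ [L.ctr h]) = segs (π j t h) ++ [(P j t h, L.ctr h)] :=
    fun j t h ht hh => boxT_segs_append _ _ _ (chain j t h ht hh).2.1
  have hnd : ∀ h, Used 𝓔 h → L.x1 h < L.x2 h ∧ L.y1 h < L.y2 h := hL.1
  have hcm : ∀ h, Used 𝓔 h → L.Mem h (L.ctr h) := fun h hu =>
    boxT_ctr_mem L h (hnd h hu).1 (hnd h hu).2
  have htm : ∀ j t h z, t < T → In 𝓔 j h → z ∈ segment ℝ (P j t h) (L.ctr h) → L.Mem h z :=
    fun j t h z ht hh hz => boxT_seg_mem L h (hnd h hh.used).1 (hnd h hh.used).2 _ z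
      (bd j t h ht hh).1 hz
  have hmix : ∀ j t h j' t' h', t < T → t' < T → In 𝓔 j h → In 𝓔 j' h' →
      ¬ (j = j' ∧ t = t' ∧ h = h') → ∀ z, On (π j t h) z →
      z ∈ segment ℝ (P j' t' h') (L.ctr h') → False := by
    intro j t h j' t' h' ht ht' hh hh' hne z hz hz'
    have hm := htm j' t' h' z ht' hh' hz'
    have hzP := free j t h h' z ht hh hh'.used hz hm
    have hb := bd j t h ht hh
    rw [hzP] at hm hz'
    have he : h' = h := boxT_disj L h hL h' hh'.used hh.used _ hm hb.1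
    subst he
    have hb' := bd j' t' h' ht' hh'
    have h1 := boxT_bd_seg L h' (hnd h' hh'.used).1 (hnd h' hh'.used).2 _ _ hb' hb hz'
    obtain ⟨e1, e2⟩ := pinj j t j' t' h' ht ht' hh hh' h1
    exact hne ⟨e1, e2, rfl⟩
  refine ⟨?_, winj, ?_, ?_, ?_, ?_, ?_, ?_⟩
  · intro h h' hu hu' he
    exact boxT_disj L h' hL h hu hu' (L.ctr h) (hcm h hu) (by rw [he]; exact hcm h' hu')
  · intro j t h htw hu he
    exact wout j t h htw hu (by rw [he]; exact hcm h hu)
  · intro j t h ht hh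
    obtain ⟨c1, c2, c3, c4⟩ := chain j t h ht hh
    refine ⟨?_, ?_, ?_, ?_⟩
    · show (π j t h ++ [L.ctr h]).head? = _
      rw [List.head?_append, c1]; rfl
    · show (π j t h ++ [L.ctr h]).getLast? = _
      rw [List.getLast?_append]; rfl
    · show (π j t h ++ [L.ctr h]).length ≤ k + 2
      rw [List.length_append]; simp; omega
    · intro s hs
      rw [hseg j t h ht hh] at hs
      rcases List.mem_append.1 hs with hs | hs
      · exact c4 s hs
      · rw [List.mem_singleton] at hs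
        subst hs
        exact boxT_bd_ne L h (hnd h hh.used).1 (hnd h hh.used).2 _ (bd j t h ht hh)
  · rintro j t h h' ht hh hu hne ⟨s, hs, hz⟩
    rw [hseg j t h ht hh] at hs
    rcases List.mem_append.1 hs with hs | hs
    · have h1 := free j t h h' _ ht hh hu ⟨s, hs, hz⟩ (hcm h' hu)
      exact hne (boxT_disj L h hL h' hu hh.used (L.ctr h') (hcm h' hu)
        (by rw [h1]; exact (bd j t h ht hh).1))
    · rw [List.mem_singleton] at hs
      subst hs
      exact hne (boxT_disj L h hL h' hu hh.used (L.ctr h') (hcm h' hu) (htm j t h _ ht hh hz))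
  · rintro j t h j' t' ht hh htw hne ⟨s, hs, hz⟩
    rw [hseg j t h ht hh] at hs
    rcases List.mem_append.1 hs with hs | hs
    · exact hne (avw j t h j' t' ht hh htw ⟨s, hs, hz⟩)
    · rw [List.mem_singleton] at hs
      subst hs
      exact wout j' t' h htw hh.used (htm j t h _ ht hh hz)
  · intro j t h j' t' h' ht ht' hh hh' hne s hs s' hs' z hz hz'
    rw [hseg j t h ht hh] at hs
    rw [hseg j' t' h' ht' hh'] at hs'
    rcases List.mem_append.1 hs with hs | hs
    · rcases List.mem_append.1 hs' with hs' | hs'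
      · rcases cross j t h j' t' h' ht ht' hh hh' hne s hs s' hs' z hz hz' with h1 | h1
        · exact Or.inl h1
        · exact Or.inr (Or.inr h1)
      · rw [List.mem_singleton] at hs'
        subst hs'
        exact (hmix j t h j' t' h' ht ht' hh hh' hne z ⟨s, hs, hz⟩ hz').elim
    · rw [List.mem_singleton] at hs
      subst hs
      rcases List.mem_append.1 hs' with hs' | hs'
      · exact (hmix j' t' h' j t h ht' ht hh' hh
          (fun hc => hne ⟨hc.1.symm, hc.2.1.symm, hc.2.2.symm⟩) z ⟨s', hs', hz'⟩ hz).elim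
      · rw [List.mem_singleton] at hs'
        subst hs'
        have hm := htm j t h z ht hh hz
        have hm' := htm j' t' h' z ht' hh' hz'
        have he : h' = h := boxT_disj L h hL h' hh'.used hh.used z hm' hm
        subst he
        refine Or.inr (Or.inl ⟨rfl, ?_⟩)
        refine boxT_two_seg L h' (hnd h' hh'.used).1 (hnd h' hh'.used).2 _ _ z
          (bd j t h' ht hh) (bd j' t' h' ht' hh') ?_ hz hz'
        intro hP
        obtain ⟨e1, e2⟩ := pinj j t j' t' h' ht ht' hh hh' hP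
        exact hne ⟨e1, e2, rfl⟩
  · intro j t h ht hh
    refine boxT_simple _ _ _ (chain j t h ht hh).2.1 (simple j t h ht hh) ?_
    intro z hz hz'
    exact free j t h h z ht hh hh.used hz (htm j t h z ht hh hz')

end Pool.Agent.RAC963
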