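import Pool.Agent.RAC963.HD
import Pool.Agent.NPC.Sat

/-!
# The code of the hub graph
-/

set_option autoImplicit false

namespace Pool.Agent.RAC963

open Pool.Agent.NPC

/-- The number of a hub. -/
noncomputable def hc {H : Type} (𝓔 : List (List H)) (h : H) : ℕ := index 𝓔.flatten h

/-- The code of the hub graph: first the twins, then the hubs. -/
noncomputable def gr {H : Type} (T : ℕ) (𝓔 : List (List H)) : GCode :=
  (T * 𝓔.length + 𝓔.flatten.length,
    𝓔.zipIdx.flatMap fun e => (List.range T).flatMap fun t => e.1.map fun h =>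
      (T * e.2 + t, T * 𝓔.length + hc 𝓔 h))

end Pool.Agent.RAC963
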