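import Pool.Agent.RAC963.Code

set_option autoImplicit false

namespace Pool.Agent.RAC963

open Pool.Agent.NPC

/-- The number of a used hub is smaller than the number of hubs. -/
theorem code1_hc_lt {H : Type} {𝓔 : List (List H)} {h : H} (hu : Used 𝓔 h) :
    hc 𝓔 h < 𝓔.flatten.length := by
  obtain ⟨E, hE, hh⟩ := hu
  have hm : h ∈ 𝓔.flatten := List.mem_flatten.2 ⟨E, hE, hh⟩
  have h1 := getElem?_index hm
  unfold hc
  by_contra hlt
  rw [List.getElem?_eq_none (by omega)] at h1
  exact absurd h1 (by simp)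

/-- Different used hubs have different numbers. -/
theorem code1_hc_inj {H : Type} {𝓔 : List (List H)} {h h' : H} (hu : Used 𝓔 h)
    (hu' : Used 𝓔 h') (e : hc 𝓔 h = hc 𝓔 h') : h = h' := by
  obtain ⟨E, hE, hh⟩ := hu
  obtain ⟨E', hE', hh'⟩ := hu'
  exact index_inj (List.mem_flatten.2 ⟨E, hE, hh⟩) (List.mem_flatten.2 ⟨E', hE', hh'⟩) e

/-- The number of a twin is smaller than the number of twins. -/
theorem code1_tw_lt {H : Type} {𝓔 : List (List H)} {T j t : ℕ} (hw : Tw 𝓔 T j t) :
    T * j + t < T * 𝓔.length := by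
  obtain ⟨hj, ht⟩ := hw
  have h1 : T * (j + 1) ≤ T * 𝓔.length := Nat.mul_le_mul_left _ hj
  rw [Nat.mul_add, Nat.mul_one] at h1
  omega

/-- The numbers of the twins are different. -/
theorem code1_tw_inj {T j t j' t' : ℕ} (ht : t < T) (ht' : t' < T)
    (e : T * j + t = T * j' + t') : j = j' ∧ t = t' := by
  have hT : 0 < T := by omega
  have h1 : (T * j + t) / T = j := by
    rw [Nat.mul_add_div hT, Nat.div_eq_of_lt ht, Nat.add_zero]
  have h2 : (T * j' + t') / T = j' := by
    rw [Nat.mul_add_div hT, Nat.div_eq_of_lt ht', Nat.add_zero]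
  have h3 : j = j' := by rw [← h1, ← h2, e]
  subst h3
  exact ⟨rfl, by omega⟩

/-- The edges of the coded hub graph. -/
theorem code1_mem {H : Type} {𝓔 : List (List H)} {T j t : ℕ} {h : H} (ht : t < T)
    (hh : In 𝓔 j h) : (T * j + t, T * 𝓔.length + hc 𝓔 h) ∈ (gr T 𝓔).2 := by
  have hj := hh.lt
  unfold In at hh
  rw [List.getD_eq_getElem _ _ hj] at hh
  show _ ∈ 𝓔.zipIdx.flatMap _
  rw [List.mem_flatMap]
  refine ⟨(𝓔[j], j), ?_, ?_⟩
  · rw [List.mem_zipIdx_iff_getElem?]
    simp only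
    rw [List.getElem?_eq_getElem hj]
  · rw [List.mem_flatMap]
    exact ⟨t, List.mem_range.2 ht, List.mem_map.2 ⟨h, hh, rfl⟩⟩

/-- A drawing of the coded hub graph gives a drawing of the hub graph. -/
theorem hd_of_rac {H : Type} {k : ℕ} {𝓔 : List (List H)} {T : ℕ} (h : RAC k True (gr T 𝓔)) :
    ∃ (hp : H → Pt) (wp : ℕ → ℕ → Pt) (ch : ℕ → ℕ → H → List Pt), IsHD k 𝓔 T hp wp ch := by
  classical
  obtain ⟨pos, c, hc0, hs0⟩ := h
  -- the numbers of the vertices
  have hn : (gr T 𝓔).1 = T * 𝓔.length + 𝓔.flatten.length := rfl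
  have hhub : ∀ x : H, Used 𝓔 x → T * 𝓔.length + hc 𝓔 x < (gr T 𝓔).1 := by
    intro x hx
    have := code1_hc_lt hx
    omega
  have htw : ∀ j t, Tw 𝓔 T j t → T * j + t < (gr T 𝓔).1 := by
    intro j t hw
    have := code1_tw_lt hw
    omega
  -- extended positions and chains
  let P : ℕ → Pt := fun i => if hi : i < (gr T 𝓔).1 then pos ⟨i, hi⟩ else 0
  let C : ℕ → ℕ → List Pt := fun i l =>
    if hi : i < (gr T 𝓔).1 then (if hl : l < (gr T 𝓔).1 then c ⟨i, hi⟩ ⟨l, hl⟩ else []) else []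
  have hP : ∀ i (hi : i < (gr T 𝓔).1), P i = pos ⟨i, hi⟩ := fun i hi => by
    simp only [P, dif_pos hi]
  have hC : ∀ i l (hi : i < (gr T 𝓔).1) (hl : l < (gr T 𝓔).1), C i l = c ⟨i, hi⟩ ⟨l, hl⟩ := fun i l hi hl => by
    simp only [C, dif_pos hi, dif_pos hl]
  -- adjacency
  have hadj : ∀ j t (x : H) (ht : t < T) (hx : In 𝓔 j x),
      (graphOf (gr T 𝓔)).Adj ⟨T * j + t, htw j t ⟨hx.lt, ht⟩⟩
        ⟨T * 𝓔.length + hc 𝓔 x, hhub x hx.used⟩ := by
    intro j t x ht hx
    refine ⟨?_, Or.inl (code1_mem ht hx)⟩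
    intro e
    have := congrArg Fin.val e
    have h2 := code1_tw_lt (𝓔 := 𝓔) ⟨hx.lt, ht⟩
    simp only at this
    omega
  have hlt : ∀ j t (x : H) (ht : t < T) (hx : In 𝓔 j x),
      (⟨T * j + t, htw j t ⟨hx.lt, ht⟩⟩ : Fin (gr T 𝓔).1) <
        ⟨T * 𝓔.length + hc 𝓔 x, hhub x hx.used⟩ := by
    intro j t x ht hx
    have h2 := code1_tw_lt (𝓔 := 𝓔) ⟨hx.lt, ht⟩
    rw [Fin.mk_lt_mk]
    omega
  refine ⟨fun x => P (T * 𝓔.length + hc 𝓔 x), fun j t => P (T * j + t),
    fun j t x => C (T * j + t) (T * 𝓔.length + hc 𝓔 x), ?_⟩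
  constructor
  · -- hinj
    intro x x' hx hx' e
    beta_reduce at e
    rw [hP _ (hhub x hx), hP _ (hhub x' hx')] at e
    have h1 := congrArg Fin.val (hc0.inj e)
    simp only at h1
    exact code1_hc_inj hx hx' (by omega)
  · -- winj
    intro j t j' t' hw hw' e
    beta_reduce at e
    rw [hP _ (htw j t hw), hP _ (htw j' t' hw')] at e
    have h1 := congrArg Fin.val (hc0.inj e)
    simp only at h1
    exact code1_tw_inj hw.2 hw'.2 h1
  · -- wh
    intro j t x hw hx e
    rw [hP _ (htw j t hw), hP _ (hhub x hx)] at e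
    have h1 := congrArg Fin.val (hc0.inj e)
    simp only at h1
    have h2 := code1_tw_lt hw
    omega
  · -- chain
    intro j t x ht hx
    rw [hP _ (htw j t ⟨hx.lt, ht⟩), hP _ (hhub x hx.used),
      hC _ _ (htw j t ⟨hx.lt, ht⟩) (hhub x hx.used)]
    exact hc0.chain _ _ (hadj j t x ht hx) (hlt j t x ht hx)
  · -- avh
    intro j t x x' ht hx hx' hne
    rw [hP _ (hhub x' hx'), hC _ _ (htw j t ⟨hx.lt, ht⟩) (hhub x hx.used)]
    refine hc0.avoid _ _ (hadj j t x ht hx) (hlt j t x ht hx) _ ?_ ?_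
    · intro e
      have h1 := congrArg Fin.val e
      simp only at h1
      have h2 := code1_tw_lt (𝓔 := 𝓔) ⟨hx.lt, ht⟩
      omega
    · intro e
      have h1 := congrArg Fin.val e
      simp only at h1
      exact hne (code1_hc_inj hx' hx.used (by omega))
  · -- avw
    intro j t x j' t' ht hx hw' hne
    rw [hP _ (htw j' t' hw'), hC _ _ (htw j t ⟨hx.lt, ht⟩) (hhub x hx.used)]
    refine hc0.avoid _ _ (hadj j t x ht hx) (hlt j t x ht hx) _ ?_ ?_
    · intro e
      have h1 := congrArg Fin.val e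
      simp only at h1
      exact hne (code1_tw_inj hw'.2 ht h1)
    · intro e
      have h1 := congrArg Fin.val e
      simp only at h1
      have h2 := code1_tw_lt hw'
      omega
  · -- cross
    intro j t x j' t' x' ht ht' hx hx' hne s hs s' hs' z hz hz'
    beta_reduce at hs hs' ⊢
    rw [hC _ _ (htw j t ⟨hx.lt, ht⟩) (hhub x hx.used)] at hs
    rw [hC _ _ (htw j' t' ⟨hx'.lt, ht'⟩) (hhub x' hx'.used)] at hs'
    have key := hc0.cross _ _ (hadj j t x ht hx) (hlt j t x ht hx) _ _ (hadj j' t' x' ht' hx')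
      (hlt j' t' x' ht' hx') ?_ s hs s' hs' z hz hz'
    · rcases key with ⟨y, hy, hy', hzy⟩ | key
      · rcases hy with hy | hy
        · rcases hy' with hy' | hy'
          · left
            have h1 := congrArg Fin.val (hy.symm.trans hy')
            simp only at h1
            obtain ⟨e1, e2⟩ := code1_tw_inj ht ht' h1
            refine ⟨e1, e2, ?_⟩
            rw [hP _ (htw j t ⟨hx.lt, ht⟩), hzy, hy]
          · exfalso
            have h1 := congrArg Fin.val (hy.symm.trans hy')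
            simp only at h1
            have h2 := code1_tw_lt (𝓔 := 𝓔) ⟨hx.lt, ht⟩
            omega
        · rcases hy' with hy' | hy'
          · exfalso
            have h1 := congrArg Fin.val (hy.symm.trans hy')
            simp only at h1
            have h2 := code1_tw_lt (𝓔 := 𝓔) ⟨hx'.lt, ht'⟩
            omega
          · right
            left
            have h1 := congrArg Fin.val (hy.symm.trans hy')
            simp only at h1
            refine ⟨code1_hc_inj hx.used hx'.used (by omega), ?_⟩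
            rw [hP _ (hhub x hx.used), hzy, hy]
      · exact Or.inr (Or.inr key)
    · intro e
      apply hne
      have h1 := congrArg Fin.val (congrArg Prod.fst e)
      have h2 := congrArg Fin.val (congrArg Prod.snd e)
      simp only at h1 h2
      obtain ⟨e1, e2⟩ := code1_tw_inj ht ht' h1
      exact ⟨e1, e2, code1_hc_inj hx.used hx'.used (by omega)⟩
  · -- simple
    intro j t x ht hx
    rw [hC _ _ (htw j t ⟨hx.lt, ht⟩) (hhub x hx.used)]
    exact hs0 trivial _ _ (hadj j t x ht hx) (hlt j t x ht hx)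

end Pool.Agent.RAC963
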