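import Pool.Agent.RAC963.Code

set_option autoImplicit false

namespace Pool.Agent.RAC963

open Pool.Agent.NPC

theorem code2_used {H : Type} {𝓔 : List (List H)} {h : H} : Used 𝓔 h ↔ h ∈ 𝓔.flatten := by
  rw [List.mem_flatten]
  rfl

theorem code2_hc_inj {H : Type} {𝓔 : List (List H)} {h h' : H} (hu : Used 𝓔 h)
    (hu' : Used 𝓔 h') (e : hc 𝓔 h = hc 𝓔 h') : h = h' :=
  index_inj (code2_used.1 hu) (code2_used.1 hu') e

theorem code2_edge {H : Type} {𝓔 : List (List H)} {T a b : ℕ} :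
    (a, b) ∈ (gr T 𝓔).2 ↔ ∃ j t h, t < T ∧ In 𝓔 j h ∧ a = T * j + t ∧
      b = T * 𝓔.length + hc 𝓔 h := by
  unfold gr
  simp only [List.mem_flatMap, List.mem_map, List.mem_range, Prod.mk.injEq, Prod.exists]
  constructor
  · rintro ⟨E, j, hE, t, ht, h, hh, ha, hb⟩
    rw [List.mem_zipIdx_iff_getElem?] at hE
    simp only at hE hh ha hb
    refine ⟨j, t, h, ht, ?_, ha.symm, hb.symm⟩
    unfold In
    rw [List.getD_eq_getElem?_getD, hE]
    exact hh
  · rintro ⟨j, t, h, ht, hh, ha, hb⟩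
    have hj := hh.lt
    refine ⟨𝓔[j], j, ?_, t, ht, h, ?_, ha.symm, hb.symm⟩
    · rw [List.mem_zipIdx_iff_getElem?]
      exact List.getElem?_eq_getElem hj
    · unfold In at hh
      rwa [List.getD_eq_getElem _ _ hj] at hh

theorem code2_lt {T e j t : ℕ} (hj : j < e) (ht : t < T) : T * j + t < T * e := by
  calc T * j + t < T * j + T := by omega
    _ = T * (j + 1) := by ring
    _ ≤ T * e := Nat.mul_le_mul_left _ hj

theorem code2_div {T j t : ℕ} (ht : t < T) : (T * j + t) / T = j := by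
  have hT : 0 < T := by omega
  rw [Nat.mul_add_div hT, Nat.div_eq_of_lt ht, add_zero]

theorem code2_mod {T j t : ℕ} (ht : t < T) : (T * j + t) % T = t := by
  rw [Nat.mul_add_mod, Nat.mod_eq_of_lt ht]

/-- Decoding of adjacency. -/
theorem code2_adj {H : Type} {𝓔 : List (List H)} {T : ℕ} {u v : Fin (gr T 𝓔).1}
    (h : (graphOf (gr T 𝓔)).Adj u v) (huv : u < v) :
    ∃ j t h, t < T ∧ In 𝓔 j h ∧ (u : ℕ) = T * j + t ∧ (v : ℕ) = T * 𝓔.length + hc 𝓔 h := by
  rcases h.2 with h1 | h1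
  · exact code2_edge.1 h1
  · exfalso
    obtain ⟨j, t, h, ht, hh, ha, hb⟩ := code2_edge.1 h1
    have h2 := code2_lt hh.lt ht
    have h3 : (u : ℕ) < v := huv
    omega

open Classical in
/-- The positions. -/
noncomputable def code2_pos {H : Type} (𝓔 : List (List H)) (T : ℕ) (hp : H → Pt)
    (wp : ℕ → ℕ → Pt) (K : ℝ) (v : ℕ) : Pt :=
  if v < T * 𝓔.length then wp (v / T) (v % T)
  else if hx : ∃ h, Used 𝓔 h ∧ hc 𝓔 h = v - T * 𝓔.length then hp hx.choose
  else (K + v, 0)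

open Classical in
/-- The chains. -/
noncomputable def code2_ch {H : Type} (𝓔 : List (List H)) (T : ℕ)
    (ch : ℕ → ℕ → H → List Pt) (u v : ℕ) : List Pt :=
  if hx : ∃ h, Used 𝓔 h ∧ hc 𝓔 h = v - T * 𝓔.length then ch (u / T) (u % T) hx.choose
  else []

section

variable {H : Type} {𝓔 : List (List H)} {T : ℕ} {hp : H → Pt}
    {wp : ℕ → ℕ → Pt} {ch : ℕ → ℕ → H → List Pt} {K : ℝ}

theorem code2_pos_tw {j t : ℕ} (hj : j < 𝓔.length) (ht : t < T) :
    code2_pos 𝓔 T hp wp K (T * j + t) = wp j t := by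
  unfold code2_pos
  rw [if_pos (code2_lt hj ht), code2_div ht, code2_mod ht]

theorem code2_pos_hub {h : H} (hu : Used 𝓔 h) :
    code2_pos 𝓔 T hp wp K (T * 𝓔.length + hc 𝓔 h) = hp h := by
  unfold code2_pos
  have hx : ∃ h', Used 𝓔 h' ∧ hc 𝓔 h' = T * 𝓔.length + hc 𝓔 h - T * 𝓔.length :=
    ⟨h, hu, by omega⟩
  rw [if_neg (by omega), dif_pos hx]
  have h1 := hx.choose_spec
  congr 1
  exact code2_hc_inj h1.1 hu (by omega)

theorem code2_ch_eq {j t : ℕ} {h : H} (ht : t < T) (hh : In 𝓔 j h) :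
    code2_ch 𝓔 T ch (T * j + t) (T * 𝓔.length + hc 𝓔 h) = ch j t h := by
  unfold code2_ch
  have hx : ∃ h', Used 𝓔 h' ∧ hc 𝓔 h' = T * 𝓔.length + hc 𝓔 h - T * 𝓔.length :=
    ⟨h, hh.used, by omega⟩
  rw [dif_pos hx, code2_div ht, code2_mod ht]
  have h1 := hx.choose_spec
  congr 1
  exact code2_hc_inj h1.1 hh.used (by omega)

/-- The three kinds of vertices. -/
theorem code2_cases (x : ℕ) :
    (∃ j t, Tw 𝓔 T j t ∧ x = T * j + t) ∨ (∃ h, Used 𝓔 h ∧ x = T * 𝓔.length + hc 𝓔 h) ∨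
      code2_pos 𝓔 T hp wp K x = (K + x, 0) := by
  by_cases h1 : x < T * 𝓔.length
  · left
    have hT : 0 < T := by
      rcases Nat.eq_zero_or_pos T with h | h
      · rw [h, Nat.zero_mul] at h1; omega
      · exact h
    refine ⟨x / T, x % T, ⟨?_, Nat.mod_lt _ hT⟩, (Nat.div_add_mod x T).symm⟩
    exact Nat.div_lt_of_lt_mul h1
  · right
    by_cases hx : ∃ h, Used 𝓔 h ∧ hc 𝓔 h = x - T * 𝓔.length
    · left
      obtain ⟨h, hu, hh⟩ := hx
      exact ⟨h, hu, by omega⟩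
    · right
      unfold code2_pos
      rw [if_neg h1, dif_neg hx]

end

theorem code2_bound (l : List Pt) : ∃ K : ℝ, ∀ p ∈ l, p.1 < K := by
  induction l with
  | nil => exact ⟨0, by simp⟩
  | cons a l ih =>
    obtain ⟨K, hK⟩ := ih
    refine ⟨max K (a.1 + 1), fun p hp => ?_⟩
    rcases List.mem_cons.1 hp with rfl | hp
    · exact lt_of_lt_of_le (by linarith) (le_max_right _ _)
    · exact lt_of_lt_of_le (hK p hp) (le_max_left _ _)

theorem code2_segs_mem {c : List Pt} {s : Pt × Pt} (hs : s ∈ segs c) : s.1 ∈ c ∧ s.2 ∈ c := by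
  unfold segs at hs
  have h1 := List.of_mem_zip (a := s.1) (b := s.2) hs
  exact ⟨h1.1, List.mem_of_mem_tail h1.2⟩

theorem code2_on_lt {c : List Pt} {z : Pt} {K : ℝ} (hK : ∀ p ∈ c, p.1 < K) (hz : On c z) :
    z.1 < K := by
  obtain ⟨s, hs, hz⟩ := hz
  obtain ⟨h1, h2⟩ := code2_segs_mem hs
  have hc : Convex ℝ {p : Pt | p.1 < K} :=
    convex_halfSpace_lt (f := fun p : Pt => p.1) ⟨fun _ _ => rfl, fun _ _ => rfl⟩ K
  exact hc.segment_subset (hK _ h1) (hK _ h2) hz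

theorem code2_perp {s s' : Pt × Pt} (hp : Perp s s') {z z' : Pt}
    (h1 : z ∈ segment ℝ s.1 s.2) (h2 : z ∈ segment ℝ s'.1 s'.2)
    (h3 : z' ∈ segment ℝ s.1 s.2) (h4 : z' ∈ segment ℝ s'.1 s'.2) : z = z' := by
  rw [segment_eq_image'] at h1 h2 h3 h4
  obtain ⟨a, _, rfl⟩ := h1
  obtain ⟨b, _, hb⟩ := h2
  obtain ⟨c, _, rfl⟩ := h3
  obtain ⟨d, _, hd⟩ := h4
  unfold Perp at hp
  have b1 := congrArg Prod.fst hb
  have b2 := congrArg Prod.snd hb
  have d1 := congrArg Prod.fst hd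
  have d2 := congrArg Prod.snd hd
  simp only [Prod.fst_add, Prod.snd_add, Prod.smul_fst, Prod.smul_snd, Prod.fst_sub,
    Prod.snd_sub, smul_eq_mul] at b1 b2 d1 d2
  have e1 : (b - d) * (s'.2.1 - s'.1.1) = (a - c) * (s.2.1 - s.1.1) := by linarith
  have e2 : (b - d) * (s'.2.2 - s'.1.2) = (a - c) * (s.2.2 - s.1.2) := by linarith
  have e3 : ((a - c) * (s.2.1 - s.1.1)) ^ 2 + ((a - c) * (s.2.2 - s.1.2)) ^ 2 = 0 := by
    calc ((a - c) * (s.2.1 - s.1.1)) ^ 2 + ((a - c) * (s.2.2 - s.1.2)) ^ 2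
        = ((a - c) * (s.2.1 - s.1.1)) * ((b - d) * (s'.2.1 - s'.1.1)) +
          ((a - c) * (s.2.2 - s.1.2)) * ((b - d) * (s'.2.2 - s'.1.2)) := by
          rw [e1, e2]; ring
      _ = (a - c) * (b - d) * ((s.2.1 - s.1.1) * (s'.2.1 - s'.1.1) +
          (s.2.2 - s.1.2) * (s'.2.2 - s'.1.2)) := by ring
      _ = 0 := by rw [hp, mul_zero]
  obtain ⟨e4', e5'⟩ := (add_eq_zero_iff_of_nonneg (sq_nonneg _) (sq_nonneg _)).1 e3
  have e4 : (a - c) * (s.2.1 - s.1.1) = 0 := pow_eq_zero_iff (two_ne_zero) |>.1 e4'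
  have e5 : (a - c) * (s.2.2 - s.1.2) = 0 := pow_eq_zero_iff (two_ne_zero) |>.1 e5'
  apply Prod.ext
  · simp only [Prod.fst_add, Prod.smul_fst, Prod.fst_sub, smul_eq_mul]
    linarith
  · simp only [Prod.snd_add, Prod.smul_snd, Prod.snd_sub, smul_eq_mul]
    linarith

theorem code2_finite {c c' : List Pt} (F : Set Pt) (hF : F.Finite)
    (h : ∀ s ∈ segs c, ∀ s' ∈ segs c', ∀ z, z ∈ segment ℝ s.1 s.2 → z ∈ segment ℝ s'.1 s'.2 →
      z ∈ F ∨ Perp s s') : {z | On c z ∧ On c' z}.Finite := by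
  have h1 : {z | On c z ∧ On c' z} ⊆ F ∪ ⋃ s ∈ {s | s ∈ segs c}, ⋃ s' ∈ {s' | s' ∈ segs c'},
      {z | z ∈ segment ℝ s.1 s.2 ∧ z ∈ segment ℝ s'.1 s'.2 ∧ Perp s s'} := by
    rintro z ⟨⟨s, hs, hz⟩, ⟨s', hs', hz'⟩⟩
    rcases h s hs s' hs' z hz hz' with h2 | h2
    · exact Or.inl h2
    · right
      simp only [Set.mem_iUnion]
      exact ⟨s, hs, s', hs', hz, hz', h2⟩
  refine (hF.union ?_).subset h1
  refine Set.Finite.biUnion (List.finite_toSet _) fun s _ =>
    Set.Finite.biUnion (List.finite_toSet _) fun s' _ => ?_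
  apply Set.Subsingleton.finite
  rintro z ⟨a1, a2, a3⟩ z' ⟨b1, b2, _⟩
  exact code2_perp a3 a1 a2 b1 b2

/-- A drawing of the hub graph gives a drawing of the coded hub graph. -/
theorem rac_of_hd {H : Type} {k : ℕ} {𝓔 : List (List H)} {T : ℕ} {hp : H → Pt}
    {wp : ℕ → ℕ → Pt} {ch : ℕ → ℕ → H → List Pt} (hd : IsHD k 𝓔 T hp wp ch) :
    RAC k True (gr T 𝓔) := by
  obtain ⟨K, hK⟩ := code2_bound
    (((List.range 𝓔.length).flatMap fun j => (List.range T).flatMap fun t =>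
      (𝓔.getD j []).flatMap fun h => ch j t h) ++
    (((List.range 𝓔.length).flatMap fun j => (List.range T).map fun t => wp j t) ++
      𝓔.flatten.map hp))
  have hKc : ∀ j t h, t < T → In 𝓔 j h → ∀ p ∈ ch j t h, p.1 < K := by
    intro j t h ht hh p hpc
    refine hK p (List.mem_append_left _ ?_)
    simp only [List.mem_flatMap, List.mem_range]
    exact ⟨j, hh.lt, t, ht, h, hh, hpc⟩
  have hKw : ∀ j t, Tw 𝓔 T j t → (wp j t).1 < K := by
    intro j t ht
    refine hK _ (List.mem_append_right _ (List.mem_append_left _ ?_))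
    simp only [List.mem_flatMap, List.mem_map, List.mem_range]
    exact ⟨j, ht.1, t, ht.2, rfl⟩
  have hKh : ∀ h, Used 𝓔 h → (hp h).1 < K := by
    intro h hh
    refine hK _ (List.mem_append_right _ (List.mem_append_right _ ?_))
    exact List.mem_map.2 ⟨h, code2_used.1 hh, rfl⟩
  refine ⟨fun v => code2_pos 𝓔 T hp wp K v, fun u v => code2_ch 𝓔 T ch u v, ⟨?_, ?_, ?_, ?_, ?_⟩,
    ?_⟩
  · intro x y hxy
    simp only at hxy
    apply Fin.ext
    have far : ∀ a : ℕ, (K + a : ℝ) ≥ K := fun a => by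
      have : (0 : ℝ) ≤ a := Nat.cast_nonneg a
      linarith
    rcases code2_cases (𝓔 := 𝓔) (T := T) (hp := hp) (wp := wp) (K := K) (x : ℕ) with
      ⟨j, t, ht, hx⟩ | ⟨h, hu, hx⟩ | hx
    · rcases code2_cases (𝓔 := 𝓔) (T := T) (hp := hp) (wp := wp) (K := K) (y : ℕ) with
        ⟨j', t', ht', hy⟩ | ⟨h', hu', hy⟩ | hy
      · rw [hx, hy, code2_pos_tw ht.1 ht.2, code2_pos_tw ht'.1 ht'.2] at hxy
        obtain ⟨e1, e2⟩ := hd.winj _ _ _ _ ht ht' hxy
        rw [hx, hy, e1, e2]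
      · rw [hx, hy, code2_pos_tw ht.1 ht.2, code2_pos_hub hu'] at hxy
        exact absurd hxy (hd.wh _ _ _ ht hu')
      · rw [hx, hy, code2_pos_tw ht.1 ht.2] at hxy
        have := hKw _ _ ht
        rw [hxy] at this
        have h2 := far y
        simp only at this
        linarith
    · rcases code2_cases (𝓔 := 𝓔) (T := T) (hp := hp) (wp := wp) (K := K) (y : ℕ) with
        ⟨j', t', ht', hy⟩ | ⟨h', hu', hy⟩ | hy
      · rw [hx, hy, code2_pos_hub hu, code2_pos_tw ht'.1 ht'.2] at hxy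
        exact absurd hxy.symm (hd.wh _ _ _ ht' hu)
      · rw [hx, hy, code2_pos_hub hu, code2_pos_hub hu'] at hxy
        rw [hx, hy, hd.hinj _ _ hu hu' hxy]
      · rw [hx, hy, code2_pos_hub hu] at hxy
        have := hKh _ hu
        rw [hxy] at this
        have h2 := far y
        simp only at this
        linarith
    · rcases code2_cases (𝓔 := 𝓔) (T := T) (hp := hp) (wp := wp) (K := K) (y : ℕ) with
        ⟨j', t', ht', hy⟩ | ⟨h', hu', hy⟩ | hy
      · rw [hx, hy, code2_pos_tw ht'.1 ht'.2] at hxy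
        have := hKw _ _ ht'
        rw [← hxy] at this
        have h2 := far x
        simp only at this
        linarith
      · rw [hx, hy, code2_pos_hub hu'] at hxy
        have := hKh _ hu'
        rw [← hxy] at this
        have h2 := far x
        simp only at this
        linarith
      · rw [hx, hy] at hxy
        have := congrArg Prod.fst hxy
        simp only [add_right_inj, Nat.cast_inj] at this
        exact this
  · intro u v huv hlt
    obtain ⟨j, t, h, ht, hh, hu, hv⟩ := code2_adj huv hlt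
    rw [hu, hv, code2_pos_tw hh.lt ht, code2_pos_hub hh.used, code2_ch_eq ht hh]
    exact hd.chain j t h ht hh
  · intro u v huv hlt x hxu hxv
    obtain ⟨j, t, h, ht, hh, hu, hv⟩ := code2_adj huv hlt
    rw [hu, hv, code2_ch_eq ht hh]
    rcases code2_cases (𝓔 := 𝓔) (T := T) (hp := hp) (wp := wp) (K := K) (x : ℕ) with
      ⟨j', t', ht', hx⟩ | ⟨h', hu', hx⟩ | hx
    · rw [hx, code2_pos_tw ht'.1 ht'.2]
      refine hd.avw _ _ _ _ _ ht hh ht' ?_
      rintro ⟨rfl, rfl⟩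
      exact hxu (Fin.ext (hx.trans hu.symm))
    · rw [hx, code2_pos_hub hu']
      refine hd.avh _ _ _ _ ht hh hu' ?_
      rintro rfl
      exact hxv (Fin.ext (hx.trans hv.symm))
    · rw [hx]
      intro hon
      have h1 := code2_on_lt (hKc j t h ht hh) hon
      have : (0 : ℝ) ≤ (x : ℕ) := Nat.cast_nonneg _
      simp only at h1
      linarith
  · intro u v huv hlt u' v' huv' hlt' hne
    obtain ⟨j, t, h, ht, hh, hu, hv⟩ := code2_adj huv hlt
    obtain ⟨j', t', h', ht', hh', hu', hv'⟩ := code2_adj huv' hlt'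
    rw [hu, hv, hu', hv', code2_ch_eq ht hh, code2_ch_eq ht' hh']
    refine code2_finite {wp j t, hp h} (Set.toFinite _) ?_
    intro s hs s' hs' z hz hz'
    have hn : ¬ (j = j' ∧ t = t' ∧ h = h') := by
      rintro ⟨rfl, rfl, rfl⟩
      apply hne
      rw [Fin.ext (hu.trans hu'.symm), Fin.ext (hv.trans hv'.symm)]
    rcases hd.cross _ _ _ _ _ _ ht ht' hh hh' hn s hs s' hs' z hz hz' with h1 | h1 | h1
    · left
      rw [h1.2.2]
      exact Set.mem_insert _ _
    · left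
      rw [h1.2]
      exact Set.mem_insert_of_mem _ rfl
    · exact Or.inr h1.2.2
  · intro u v huv hlt u' v' huv' hlt' hne s hs s' hs' z hz hz'
    obtain ⟨j, t, h, ht, hh, hu, hv⟩ := code2_adj huv hlt
    obtain ⟨j', t', h', ht', hh', hu', hv'⟩ := code2_adj huv' hlt'
    rw [hu, hv, code2_ch_eq ht hh] at hs
    rw [hu', hv', code2_ch_eq ht' hh'] at hs'
    have hn : ¬ (j = j' ∧ t = t' ∧ h = h') := by
      rintro ⟨rfl, rfl, rfl⟩
      apply hne
      rw [Fin.ext (hu.trans hu'.symm), Fin.ext (hv.trans hv'.symm)]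
    rcases hd.cross _ _ _ _ _ _ ht ht' hh hh' hn s hs s' hs' z hz hz' with h1 | h1 | h1
    · left
      refine ⟨u, Or.inl rfl, Or.inl ?_, ?_⟩
      · apply Fin.ext
        rw [hu, hu', h1.1, h1.2.1]
      · rw [hu, code2_pos_tw hh.lt ht]
        exact h1.2.2
    · left
      refine ⟨v, Or.inr rfl, Or.inr ?_, ?_⟩
      · apply Fin.ext
        rw [hv, hv', h1.1]
      · rw [hv, code2_pos_hub hh.used]
        exact h1.2
    · exact Or.inr h1
  · intro _ u v huv hlt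
    obtain ⟨j, t, h, ht, hh, hu, hv⟩ := code2_adj huv hlt
    beta_reduce
    rw [hu, hv, code2_ch_eq ht hh]
    exact hd.simple j t h ht hh

end Pool.Agent.RAC963
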