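import Pool.Agent.RAC963.CoreC

set_option autoImplicit false

namespace Pool.Agent.RAC963

/-- The two relations of a split can be exchanged. -/
theorem core1_swap {H : Type} {R B : H → H → Prop} {E : List H} (h : Split R B E) :
    Split B R E := by
  obtain ⟨x, hx, y, hy, z, hz, w, hw, hnd, h1, h2⟩ := h
  refine ⟨z, hz, w, hw, x, hx, y, hy, ?_, h2, h1⟩
  simp only [List.nodup_cons, List.mem_cons, List.not_mem_nil, or_false, not_or,
    not_false_eq_true, List.nodup_nil, and_true] at hnd ⊢
  obtain ⟨⟨a1, a2, a3⟩, ⟨a4, a5⟩, a6⟩ := hnd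
  exact ⟨⟨a6, Ne.symm a2, Ne.symm a4⟩, ⟨Ne.symm a3, Ne.symm a5⟩, a1⟩

/-- A related pair in a list of four hubs avoids the second one if this is not related to the
others. -/
theorem core1_pair {X : Hub → Hub → Prop} (hs : ∀ x y, X x y → X y x) {p o m u x y : Hub}
    (hx : x ∈ [p, o, m, u]) (hy : y ∈ [p, o, m, u]) (hxy : x ≠ y) (h : X x y)
    (ho : ∀ v ∈ [p, m, u], ¬ X o v) : PairIn X [p, m, u] := by
  have key : ∀ {a b : Hub}, a ∈ [p, o, m, u] → b ∈ [p, o, m, u] → a ≠ b → X a b →
      b ≠ o := by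
    intro a b ha hb hab hX hbo
    subst hbo
    apply ho a _ (hs _ _ hX)
    simp only [List.mem_cons, List.not_mem_nil, or_false] at ha ⊢
    rcases ha with rfl | rfl | rfl | rfl
    · exact Or.inl rfl
    · exact absurd rfl hab
    · exact Or.inr (Or.inl rfl)
    · exact Or.inr (Or.inr rfl)
  have hy' := key hx hy hxy h
  have hx' := key hy hx (Ne.symm hxy) (hs _ _ h)
  have red : ∀ {a : Hub}, a ∈ [p, o, m, u] → a ≠ o → a ∈ [p, m, u] := by
    intro a ha hao
    simp only [List.mem_cons, List.not_mem_nil, or_false] at ha ⊢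
    rcases ha with rfl | rfl | rfl | rfl
    · exact Or.inl rfl
    · exact absurd rfl hao
    · exact Or.inr (Or.inl rfl)
    · exact Or.inr (Or.inr rfl)
  exact ⟨x, red hx hx', y, red hy hy', hxy, h⟩

/-- The items that force `m u` and `m v`. -/
theorem core1_itO {N F : ℕ} {φ : N3} {α i h : ℕ} (hα : α < N) (hi : i < nv φ) (hh : h < 5) :
    (([(8, α, h), (0, 0, 3), (3, α, i), (6, α, i)],
      pool F α 5, pool F α 4, pool F α 1, pool F α 2) : Item) ∈ itO N F φ ∧
    (([(8, α, h), (0, 0, 2), (3, α, i), (7, α, i)],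
      pool F α 4, pool F α 1, pool F α 2, pool F α 3) : Item) ∈ itO N F φ := by
  unfold itO
  constructor
  · rw [List.mem_flatMap]
    refine ⟨α, List.mem_range.2 hα, ?_⟩
    rw [List.mem_flatMap]
    refine ⟨i, List.mem_range.2 hi, ?_⟩
    rw [List.mem_flatMap]
    exact ⟨h, List.mem_range.2 hh, List.mem_cons_self⟩
  · rw [List.mem_flatMap]
    refine ⟨α, List.mem_range.2 hα, ?_⟩
    rw [List.mem_flatMap]
    refine ⟨i, List.mem_range.2 hi, ?_⟩
    rw [List.mem_flatMap]
    exact ⟨h, List.mem_range.2 hh, List.mem_cons_of_mem _ List.mem_cons_self⟩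

/-- The link items. -/
theorem core1_itL {N F : ℕ} {φ : N3} {α j k : ℕ} (hα : α < N) (hj : j < (cl φ).length)
    (hk : k < 3) :
    (([(3, α, (lt3 (clj φ j) k).2), part α (lt3 (clj φ j) k), (9, α, j), (10 + k, α, j)],
      pool F α 1, pool F α 2, pool F α 3, pool F α 4) : Item) ∈ itL N F φ := by
  have hc : clj φ j = (cl φ)[j] := by
    unfold clj
    rw [List.getD_eq_getElem _ _ hj]
  unfold itL
  rw [List.mem_flatMap]
  refine ⟨α, List.mem_range.2 hα, ?_⟩
  rw [List.mem_flatMap]
  refine ⟨(clj φ j, j), ?_, ?_⟩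
  · rw [List.mk_mem_zipIdx_iff_getElem?, List.getElem?_eq_getElem hj, hc]
  · have hk' : k = 0 ∨ k = 1 ∨ k = 2 := by omega
    rcases hk' with rfl | rfl | rfl
    · exact List.mem_cons_self
    · exact List.mem_cons_of_mem _ List.mem_cons_self
    · exact List.mem_cons_of_mem _ (List.mem_cons_of_mem _ List.mem_cons_self)

/-- Soundness of the combinatorial part for one bend. -/
theorem core1 (N : ℕ) (hN : 11521 ≤ N) (φ : N3) (hb : BN φ) (R B : Hub → Hub → Prop)
    (hn : Nice R B) (h : ∀ E ∈ fam1 N φ, Split R B E) : NAE3 φ := by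
  have hit : ∀ it ∈ items N 0 0 φ, Split R B it.1 := by
    intro it hi
    exact h _ (List.mem_map.2 ⟨it, hi, rfl⟩)
  refine coreC N 0 0 hN φ hb R B hn (fun it hi => hit it ?_) ?_
  · unfold items
    exact List.mem_append_left _ (List.mem_append_left _ hi)
  intro α hα X Y hXY hG
  have hitO : ∀ it ∈ itO N 0 φ, Split X Y it.1 := by
    intro it hi
    have h1 : Split R B it.1 := by
      apply hit
      unfold items
      exact List.mem_append_left _ (List.mem_append_right _ hi)
    rcases hXY with ⟨rfl, rfl⟩ | ⟨rfl, rfl⟩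
    · exact h1
    · exact core1_swap h1
  have hitL : ∀ it ∈ itL N 0 φ, Split X Y it.1 := by
    intro it hi
    have h1 : Split R B it.1 := by
      apply hit
      unfold items
      exact List.mem_append_right _ hi
    rcases hXY with ⟨rfl, rfl⟩ | ⟨rfl, rfl⟩
    · exact h1
    · exact core1_swap h1
  have xs : ∀ x y, X x y → X y x := by
    rcases hXY with ⟨rfl, rfl⟩ | ⟨rfl, rfl⟩
    · exact hn.rs
    · exact hn.bs
  have ys : ∀ x y, Y x y → Y y x := by
    rcases hXY with ⟨rfl, rfl⟩ | ⟨rfl, rfl⟩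
    · exact hn.bs
    · exact hn.rs
  refine ⟨?_, ?_, ?_⟩
  · intro i hi k hk
    obtain ⟨x, hx, y, hy, z, hz, w, hw, hnd, h1, h2⟩ := hitO _ (core1_itO hα hi hk).1
    have hxy : x ≠ y := by
      simp only [List.nodup_cons, List.mem_cons, List.not_mem_nil, or_false, not_or] at hnd
      exact hnd.1.1
    refine core1_pair xs hx hy hxy h1 ?_
    intro v hv
    apply hG.d
    simp only [List.mem_cons, List.not_mem_nil, or_false] at hv
    rcases hv with rfl | rfl | rfl
    · exact coreC_loc8 hk
    · exact coreC_loc3 hi (by norm_num) (by norm_num)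
    · exact coreC_loc3 hi (by norm_num) (by norm_num)
  · intro i hi k hk
    obtain ⟨x, hx, y, hy, z, hz, w, hw, hnd, h1, h2⟩ := hitO _ (core1_itO hα hi hk).2
    have hzw : z ≠ w := by
      simp only [List.nodup_cons, List.mem_cons, List.not_mem_nil, or_false, not_or] at hnd
      exact hnd.2.2.1
    refine core1_pair ys hz hw hzw h2 ?_
    intro v hv
    apply hG.c
    simp only [List.mem_cons, List.not_mem_nil, or_false] at hv
    rcases hv with rfl | rfl | rfl
    · exact coreC_loc8 hk
    · exact coreC_loc3 hi (by norm_num) (by norm_num)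
    · exact coreC_loc3 hi (by norm_num) (by norm_num)
  · intro j hj k hk
    exact hitL _ (core1_itL hα hj hk)

end Pool.Agent.RAC963
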