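import Pool.Agent.RAC963.HD

/-!
# The families of hyperedges of the reduction
-/

set_option autoImplicit false

namespace Pool.Agent.RAC963

/-- Instances of monotone not-all-equal satisfiability: lists of triples of variables. -/
abbrev N3 : Type := List (ℕ × ℕ × ℕ)

/-- Not-all-equal satisfiability. -/
def NAE3 (φ : N3) : Prop :=
  ∃ τ : ℕ → Bool, ∀ t ∈ φ, ¬ (τ t.1 = τ t.2.1 ∧ τ t.2.1 = τ t.2.2)

/-- All variables are small. -/
def BN (φ : N3) : Prop :=
  ∀ t ∈ φ, t.1 < 3 * φ.length ∧ t.2.1 < 3 * φ.length ∧ t.2.2 < 3 * φ.length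

/-- Hubs: `(kind, copy, number)`.  Kinds: `0` outer, `1` group globals, `2` inert group members,
`3` `m`, `4` `m'`, `5` `t`, `6` `u`, `7` `v`, `8` `p`, `9` `e`, `10`, `11`, `12` the literals,
`13`, …, `17` the five pools of fillers. -/
abbrev Hub : Type := ℕ × ℕ × ℕ

/-- Signed clauses. -/
abbrev SCl : Type := (Bool × ℕ) × (Bool × ℕ) × (Bool × ℕ)

/-- The number of variables. -/
def nv (φ : N3) : ℕ := 3 * φ.length

/-- The clauses of `φ` and three copies of `(x, ¬ x, x)` for every variable. -/
def cl (φ : N3) : List SCl :=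
  φ.map (fun t => ((true, t.1), (true, t.2.1), (true, t.2.2))) ++
    (List.range (nv φ) ++ (List.range (nv φ) ++ List.range (nv φ))).map
      fun i => ((true, i), (false, i), (true, i))

/-- The clause number `j`. -/
def clj (φ : N3) (j : ℕ) : SCl := (cl φ).getD j ((true, 0), (true, 0), (true, 0))

/-- The literal number `k` (`0`, `1`, `2`) of a clause. -/
def lt3 (c : SCl) : ℕ → Bool × ℕ
  | 0 => c.1
  | 1 => c.2.1
  | _ => c.2.2

/-- The partner of `m` in a link hyperedge. -/
def part (α : ℕ) (l : Bool × ℕ) : Hub := if l.1 then (4, α, l.2) else (5, α, l.2)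

/-- The local hubs of the copy `α`. -/
def locs (F : ℕ) (φ : N3) (α : ℕ) : List Hub :=
  ((List.range (nv φ)).flatMap fun i => [(3, α, i), (4, α, i), (5, α, i), (6, α, i), (7, α, i)]) ++
  ((List.range 5).map fun h => (8, α, h)) ++
  ((List.range (cl φ).length).flatMap fun j => [(9, α, j), (10, α, j), (11, α, j), (12, α, j)]) ++
  ((List.range F).flatMap fun i =>
    [(13, α, i), (14, α, i), (15, α, i), (16, α, i), (17, α, i)])

/-- The pool `Kκ` of the copy `α`. -/
def pool (F α κ : ℕ) : List Hub := (List.range F).map fun i => (12 + κ, α, i)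

/-- The first half of the inert group `γ`. -/
def grA (M γ : ℕ) : List Hub := (List.range M).map fun i => (2, γ, i)

/-- The second half of the inert group `γ`. -/
def grB (M γ : ℕ) : List Hub := (List.range M).map fun i => (2, γ, M + i)

/-- A core (four hubs) with four pools of fillers. -/
abbrev Item : Type := List Hub × List Hub × List Hub × List Hub × List Hub

/-- The items of the pairs of hubs in two copies. -/
def itD (N M F : ℕ) (φ : N3) : List Item :=
  (List.range N).flatMap fun β => (List.range β).flatMap fun α =>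
    (locs F φ α).flatMap fun p => (locs F φ β).flatMap fun q =>
      [([p, q, (0, 0, 2), (0, 0, 3)], grA M (α + 1), grB M (α + 1), grA M 0, grA M N),
       ([p, q, (0, 0, 0), (0, 0, 1)], grA M (α + 1), grB M (α + 1), grA M 0, grA M N)]

/-- The items that force `m u` and `m v`. -/
def itO (N F : ℕ) (φ : N3) : List Item :=
  (List.range N).flatMap fun α => (List.range (nv φ)).flatMap fun i =>
    (List.range 5).flatMap fun h =>
      [([(8, α, h), (0, 0, 3), (3, α, i), (6, α, i)],
          pool F α 5, pool F α 4, pool F α 1, pool F α 2),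
       ([(8, α, h), (0, 0, 2), (3, α, i), (7, α, i)],
          pool F α 4, pool F α 1, pool F α 2, pool F α 3)]

/-- The link items. -/
def itL (N F : ℕ) (φ : N3) : List Item :=
  (List.range N).flatMap fun α => (cl φ).zipIdx.flatMap fun c =>
    [([(3, α, c.1.1.2), part α c.1.1, (9, α, c.2), (10, α, c.2)],
        pool F α 1, pool F α 2, pool F α 3, pool F α 4),
     ([(3, α, c.1.2.1.2), part α c.1.2.1, (9, α, c.2), (11, α, c.2)],
        pool F α 1, pool F α 2, pool F α 3, pool F α 4),
     ([(3, α, c.1.2.2.2), part α c.1.2.2, (9, α, c.2), (12, α, c.2)],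
        pool F α 1, pool F α 2, pool F α 3, pool F α 4)]

/-- All items. -/
def items (N M F : ℕ) (φ : N3) : List Item := itD N M F φ ++ itO N F φ ++ itL N F φ

/-- The hyperedges for one bend: the cores. -/
def fam1 (N : ℕ) (φ : N3) : List (List Hub) := (items N 0 0 φ).map fun it => it.1

/-- The hyperedges of an item: the core with one filler of each pool. -/
def ext (it : Item) : List (List Hub) :=
  it.2.1.flatMap fun z1 => it.2.2.1.flatMap fun z2 => it.2.2.2.1.flatMap fun z3 =>
    it.2.2.2.2.map fun z4 => it.1 ++ [z1, z2, z3, z4]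

/-- The hyperedges that make the group `γ` inert. -/
def inert (M γ : ℕ) : List (List Hub) :=
  ((List.range (2 * M)).sublistsLen 6).flatMap fun s =>
    [s.map (fun i => (2, γ, i)) ++ [(1, γ, 2), (1, γ, 3)],
     s.map (fun i => (2, γ, i)) ++ [(1, γ, 0), (1, γ, 1)]]

/-- The hyperedges for two bends. -/
def fam2 (N M F : ℕ) (φ : N3) : List (List Hub) :=
  (items N M F φ).flatMap ext ++ (List.range (N + 1)).flatMap (inert M)

end Pool.Agent.RAC963
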