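import Pool.Agent.RAC963.NoK
import Pool.Agent.RAC963.Fam

set_option autoImplicit false

namespace Pool.Agent.RAC963

/-- The hub number `i` of the inert group `γ`. -/
def inert_f (γ i : ℕ) : Hub := (2, γ, i)

theorem inert_f_inj {γ i j : ℕ} (h : inert_f γ i = inert_f γ j) : i = j := by
  unfold inert_f at h
  exact congrArg (fun x : Hub => x.2.2) h

/-- Among the members of the group that do not have the colours `R`, `B` to two globals there are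
few. -/
theorem inert_bad {R B : Hub → Hub → Prop} (hn : Nice R B) (M γ a b : ℕ)
    (h : ∀ s ∈ (List.range (2 * M)).sublistsLen 6,
      Split R B (s.map (fun i => ((2, γ, i) : Hub)) ++ [(1, γ, a), (1, γ, b)]))
    (S : Finset ℕ)
    (hS : ∀ i ∈ S, i < 2 * M ∧
      ¬ ((R (1, γ, a) (2, γ, i) ∧ B (1, γ, b) (2, γ, i)) ∨
        (R (1, γ, b) (2, γ, i) ∧ B (1, γ, a) (2, γ, i)))) : S.card ≤ 16 * 38269 := by
  classical
  by_contra hc
  push Not at hc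
  obtain ⟨y, -, hy⟩ := Finset.exists_lt_card_fiber_of_mul_lt_card_of_maps_to (s := S)
    (t := (Finset.univ : Finset ((Bool × Bool) × (Bool × Bool))))
    (f := fun i => ((decide (R (1, γ, a) (2, γ, i)), decide (B (1, γ, a) (2, γ, i))),
      (decide (R (1, γ, b) (2, γ, i)), decide (B (1, γ, b) (2, γ, i))))) (n := 38269)
    (fun _ _ => Finset.mem_univ _) (by simpa using hc)
  set P := S.filter (fun i => ((decide (R (1, γ, a) (2, γ, i)), decide (B (1, γ, a) (2, γ, i))),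
      (decide (R (1, γ, b) (2, γ, i)), decide (B (1, γ, b) (2, γ, i)))) = y) with hP
  have hPS : ∀ i ∈ P, i ∈ S := fun i hi => (Finset.mem_filter.1 hi).1
  have hPP : ∀ i ∈ P, ∀ j ∈ P, (R (1, γ, a) (2, γ, i) ↔ R (1, γ, a) (2, γ, j)) ∧
      (B (1, γ, a) (2, γ, i) ↔ B (1, γ, a) (2, γ, j)) ∧
      (R (1, γ, b) (2, γ, i) ↔ R (1, γ, b) (2, γ, j)) ∧
      (B (1, γ, b) (2, γ, i) ↔ B (1, γ, b) (2, γ, j)) := by
    intro i hi j hj
    have h1 := (Finset.mem_filter.1 hi).2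
    have h2 := (Finset.mem_filter.1 hj).2
    have h3 := h1.trans h2.symm
    simp only [Prod.mk.injEq, decide_eq_decide] at h3
    exact ⟨h3.1.1, h3.1.2, h3.2.1, h3.2.2⟩
  obtain ⟨A, hA, hA6, hAi⟩ := exists_indep6 hn (P.image (inert_f γ)) (by
    rw [Finset.card_image_of_injective _ (fun i j => inert_f_inj)]; omega)
  set I := P.filter (fun i => inert_f γ i ∈ A) with hI
  have hIA : I.image (inert_f γ) = A := by
    ext v
    constructor
    · intro hv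
      obtain ⟨i, hi, rfl⟩ := Finset.mem_image.1 hv
      exact (Finset.mem_filter.1 hi).2
    · intro hv
      obtain ⟨i, hi, rfl⟩ := Finset.mem_image.1 (hA hv)
      exact Finset.mem_image.2 ⟨i, Finset.mem_filter.2 ⟨hi, hv⟩, rfl⟩
  have hI6 : I.card = 6 := by
    rw [← hA6, ← hIA, Finset.card_image_of_injective _ (fun i j => inert_f_inj)]
  have hIP : ∀ i ∈ I, i ∈ P := fun i hi => (Finset.mem_filter.1 hi).1
  have hIi : ∀ i ∈ I, ∀ j ∈ I, ¬ R (2, γ, i) (2, γ, j) ∧ ¬ B (2, γ, i) (2, γ, j) :=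
    fun i hi j hj => hAi _ (Finset.mem_filter.1 hi).2 _ (Finset.mem_filter.1 hj).2
  set s := (List.range (2 * M)).filter (fun i => decide (i ∈ I)) with hs
  have hsI : ∀ i, i ∈ s ↔ i ∈ I := by
    intro i
    rw [hs, List.mem_filter]
    simp only [List.mem_range, decide_eq_true_eq]
    constructor
    · exact fun h => h.2
    · exact fun h => ⟨(hS i (hPS i (hIP i h))).1, h⟩
  have hsl : s ∈ (List.range (2 * M)).sublistsLen 6 := by
    rw [List.mem_sublistsLen]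
    refine ⟨List.filter_sublist, ?_⟩
    have hnd : s.Nodup := List.nodup_range.filter _
    rw [← List.toFinset_card_of_nodup hnd, ← hI6]
    congr 1
    ext i
    rw [List.mem_toFinset]
    exact hsI i
  obtain ⟨x, hx, y', hy', z, hz, w, hw, hnd, hxy, hzw⟩ := h s hsl
  have hmem : ∀ v, v ∈ s.map (fun i => ((2, γ, i) : Hub)) ++ [(1, γ, a), (1, γ, b)] →
      (∃ i ∈ I, v = (2, γ, i)) ∨ v = (1, γ, a) ∨ v = (1, γ, b) := by
    intro v hv
    rw [List.mem_append] at hv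
    rcases hv with hv | hv
    · obtain ⟨i, hi, rfl⟩ := List.mem_map.1 hv
      exact Or.inl ⟨i, (hsI i).1 hi, rfl⟩
    · simpa using Or.inr hv
  obtain ⟨i0, hi0⟩ : I.Nonempty := by
    rw [← Finset.card_pos]; omega
  have hbad := (hS i0 (hPS i0 (hIP i0 hi0))).2
  simp only [List.nodup_cons, List.mem_cons, List.not_mem_nil, not_or, or_false, not_false_eq_true,
    List.nodup_nil, and_true] at hnd
  obtain ⟨⟨hxy', hxz, hxw⟩, ⟨hyz, hyw⟩, hzw'⟩ := hnd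
  have hR : (R (1, γ, a) (2, γ, i0) ∧ (x = (1, γ, a) ∨ y' = (1, γ, a))) ∨
      (R (1, γ, b) (2, γ, i0) ∧ (x = (1, γ, b) ∨ y' = (1, γ, b))) ∨
      ((x = (1, γ, a) ∨ x = (1, γ, b)) ∧ (y' = (1, γ, a) ∨ y' = (1, γ, b))) := by
    rcases hmem x hx with ⟨i, hi, rfl⟩ | rfl | rfl
    · rcases hmem y' hy' with ⟨j, hj, rfl⟩ | rfl | rfl
      · exact absurd hxy (hIi i hi j hj).1
      · exact Or.inl ⟨((hPP i (hIP i hi) i0 (hIP i0 hi0)).1).1 (hn.rs _ _ hxy), Or.inr rfl⟩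
      · exact Or.inr (Or.inl ⟨((hPP i (hIP i hi) i0 (hIP i0 hi0)).2.2.1).1 (hn.rs _ _ hxy),
          Or.inr rfl⟩)
    · rcases hmem y' hy' with ⟨j, hj, rfl⟩ | rfl | rfl
      · exact Or.inl ⟨((hPP j (hIP j hj) i0 (hIP i0 hi0)).1).1 hxy, Or.inl rfl⟩
      · exact absurd rfl hxy'
      · exact Or.inr (Or.inr ⟨Or.inl rfl, Or.inr rfl⟩)
    · rcases hmem y' hy' with ⟨j, hj, rfl⟩ | rfl | rfl
      · exact Or.inr (Or.inl ⟨((hPP j (hIP j hj) i0 (hIP i0 hi0)).2.2.1).1 hxy, Or.inl rfl⟩)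
      · exact Or.inr (Or.inr ⟨Or.inr rfl, Or.inl rfl⟩)
      · exact absurd rfl hxy'
  have hB : (B (1, γ, a) (2, γ, i0) ∧ (z = (1, γ, a) ∨ w = (1, γ, a))) ∨
      (B (1, γ, b) (2, γ, i0) ∧ (z = (1, γ, b) ∨ w = (1, γ, b))) ∨
      ((z = (1, γ, a) ∨ z = (1, γ, b)) ∧ (w = (1, γ, a) ∨ w = (1, γ, b))) := by
    rcases hmem z hz with ⟨i, hi, rfl⟩ | rfl | rfl
    · rcases hmem w hw with ⟨j, hj, rfl⟩ | rfl | rfl
      · exact absurd hzw (hIi i hi j hj).2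
      · exact Or.inl ⟨((hPP i (hIP i hi) i0 (hIP i0 hi0)).2.1).1 (hn.bs _ _ hzw), Or.inr rfl⟩
      · exact Or.inr (Or.inl ⟨((hPP i (hIP i hi) i0 (hIP i0 hi0)).2.2.2).1 (hn.bs _ _ hzw),
          Or.inr rfl⟩)
    · rcases hmem w hw with ⟨j, hj, rfl⟩ | rfl | rfl
      · exact Or.inl ⟨((hPP j (hIP j hj) i0 (hIP i0 hi0)).2.1).1 hzw, Or.inl rfl⟩
      · exact absurd rfl hzw'
      · exact Or.inr (Or.inr ⟨Or.inl rfl, Or.inr rfl⟩)
    · rcases hmem w hw with ⟨j, hj, rfl⟩ | rfl | rfl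
      · exact Or.inr (Or.inl ⟨((hPP j (hIP j hj) i0 (hIP i0 hi0)).2.2.2).1 hzw, Or.inl rfl⟩)
      · exact Or.inr (Or.inr ⟨Or.inr rfl, Or.inl rfl⟩)
      · exact absurd rfl hzw'
  -- the pair of `R` contains one global, the pair of `B` the other one
  have hnx : ∀ v, (x = v ∨ y' = v) → (z = v ∨ w = v) → False := by
    rintro v (rfl | rfl) (h | h)
    · exact hxz h.symm
    · exact hxw h.symm
    · exact hyz h.symm
    · exact hyw h.symm
  rcases hR with ⟨h1, h2⟩ | ⟨h1, h2⟩ | ⟨h1, h2⟩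
  · rcases hB with ⟨h3, h4⟩ | ⟨h3, h4⟩ | ⟨h3, h4⟩
    · exact hnx _ h2 h4
    · exact hbad (Or.inl ⟨h1, h3⟩)
    · rcases h3 with h3 | h3
      · exact hnx _ h2 (Or.inl h3)
      · rcases h4 with h4 | h4
        · exact hnx _ h2 (Or.inr h4)
        · exact hzw' (h3.trans h4.symm)
  · rcases hB with ⟨h3, h4⟩ | ⟨h3, h4⟩ | ⟨h3, h4⟩
    · exact hbad (Or.inr ⟨h1, h3⟩)
    · exact hnx _ h2 h4
    · rcases h3 with h3 | h3
      · rcases h4 with h4 | h4
        · exact hzw' (h3.trans h4.symm)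
        · exact hnx _ h2 (Or.inr h4)
      · exact hnx _ h2 (Or.inl h3)
  · have h5 : (x = (1, γ, a) ∧ y' = (1, γ, b)) ∨ (x = (1, γ, b) ∧ y' = (1, γ, a)) := by
      rcases h1 with h1 | h1 <;> rcases h2 with h2 | h2
      · exact absurd (h1.trans h2.symm) hxy'
      · exact Or.inl ⟨h1, h2⟩
      · exact Or.inr ⟨h1, h2⟩
      · exact absurd (h1.trans h2.symm) hxy'
    have h6 : (x = (1, γ, a) ∨ y' = (1, γ, a)) ∧ (x = (1, γ, b) ∨ y' = (1, γ, b)) := by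
      rcases h5 with ⟨h5, h6⟩ | ⟨h5, h6⟩
      · exact ⟨Or.inl h5, Or.inr h6⟩
      · exact ⟨Or.inr h6, Or.inl h5⟩
    rcases hB with ⟨h3, h4⟩ | ⟨h3, h4⟩ | ⟨h3, h4⟩
    · exact hnx _ h6.1 h4
    · exact hnx _ h6.2 h4
    · rcases h3 with h3 | h3
      · exact hnx _ h6.1 (Or.inl h3)
      · exact hnx _ h6.2 (Or.inl h3)

/-- At most two members of the group are related to three given hubs. -/
theorem inert_two {R : Hub → Hub → Prop} (hk : K33Free R) (hi : ∀ x, ¬ R x x)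
    (γ a b : ℕ) (hab : a ≠ b) (g : Hub) (hga : g ≠ (1, γ, a)) (hgb : g ≠ (1, γ, b))
    (S : Finset ℕ) (hS : ∀ i ∈ S, R g (2, γ, i) ∧ R (1, γ, a) (2, γ, i) ∧ R (1, γ, b) (2, γ, i)) :
    S.card ≤ 2 := by
  by_contra hc
  push Not at hc
  obtain ⟨i, j, k, hi', hj, hk', hij, hik, hjk⟩ := Finset.two_lt_card_iff.1 hc
  apply hk
  refine ⟨![g, (1, γ, a), (1, γ, b)], ![(2, γ, i), (2, γ, j), (2, γ, k)], ?_, ?_, ?_, ?_⟩
  · intro u v huv
    fin_cases u <;> fin_cases v <;> simp at huv ⊢ <;> first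
      | exact absurd huv hga | exact absurd huv.symm hga | exact absurd huv hgb
      | exact absurd huv.symm hgb | exact absurd huv hab | exact absurd huv.symm hab
  · intro u v huv
    fin_cases u <;> fin_cases v <;> simp at huv ⊢ <;> first
      | exact absurd huv hij | exact absurd huv.symm hij | exact absurd huv hik
      | exact absurd huv.symm hik | exact absurd huv hjk | exact absurd huv.symm hjk
  · intro u v huv
    have h1 : ∀ l ∈ S, g ≠ (2, γ, l) := by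
      rintro l hl rfl
      exact hi _ (hS l hl).1
    fin_cases u <;> fin_cases v <;> simp at huv <;> first
      | exact h1 i hi' huv | exact h1 j hj huv | exact h1 k hk' huv
  · intro u v
    fin_cases u <;> fin_cases v <;> simp <;> first
      | exact (hS i hi').1 | exact (hS i hi').2.1 | exact (hS i hi').2.2
      | exact (hS j hj).1 | exact (hS j hj).2.1 | exact (hS j hj).2.2
      | exact (hS k hk').1 | exact (hS k hk').2.1 | exact (hS k hk').2.2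

/-- A hub that is not one of the four globals of the group `γ` has few neighbours in the group. -/
theorem inert_bound {R B : Hub → Hub → Prop} (hn : Nice R B) (M γ : ℕ)
    (h : ∀ E ∈ inert M γ, Split R B E) (g : Hub) (hg : ∀ k, g ≠ (1, γ, k)) (S : Finset ℕ)
    (hS : ∀ i ∈ S, i < 2 * M ∧ (R g (2, γ, i) ∨ B g (2, γ, i))) : S.card ≤ 1300000 := by
  classical
  have h23 : ∀ s ∈ (List.range (2 * M)).sublistsLen 6,
      Split R B (s.map (fun i => ((2, γ, i) : Hub)) ++ [(1, γ, 2), (1, γ, 3)]) := by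
    intro s hs
    apply h
    unfold inert
    exact List.mem_flatMap.2 ⟨s, hs, by simp⟩
  have h01 : ∀ s ∈ (List.range (2 * M)).sublistsLen 6,
      Split R B (s.map (fun i => ((2, γ, i) : Hub)) ++ [(1, γ, 0), (1, γ, 1)]) := by
    intro s hs
    apply h
    unfold inert
    exact List.mem_flatMap.2 ⟨s, hs, by simp⟩
  set S1 := S.filter (fun i => ¬ ((R (1, γ, 2) (2, γ, i) ∧ B (1, γ, 3) (2, γ, i)) ∨
        (R (1, γ, 3) (2, γ, i) ∧ B (1, γ, 2) (2, γ, i)))) with hS1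
  set S2 := S.filter (fun i => ¬ ((R (1, γ, 0) (2, γ, i) ∧ B (1, γ, 1) (2, γ, i)) ∨
        (R (1, γ, 1) (2, γ, i) ∧ B (1, γ, 0) (2, γ, i)))) with hS2
  have hc1 : S1.card ≤ 16 * 38269 := by
    refine inert_bad hn M γ 2 3 h23 S1 fun i hi => ?_
    have h1 := Finset.mem_filter.1 hi
    exact ⟨(hS i h1.1).1, h1.2⟩
  have hc2 : S2.card ≤ 16 * 38269 := by
    refine inert_bad hn M γ 0 1 h01 S2 fun i hi => ?_
    have h1 := Finset.mem_filter.1 hi
    exact ⟨(hS i h1.1).1, h1.2⟩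
  let TR : ℕ → ℕ → Finset ℕ := fun a b => S.filter (fun i => R g (2, γ, i) ∧
    R (1, γ, a) (2, γ, i) ∧ R (1, γ, b) (2, γ, i))
  let TB : ℕ → ℕ → Finset ℕ := fun a b => S.filter (fun i => B g (2, γ, i) ∧
    B (1, γ, a) (2, γ, i) ∧ B (1, γ, b) (2, γ, i))
  have hTR : ∀ a b, a ≠ b → (TR a b).card ≤ 2 := fun a b hab =>
    inert_two hn.rk hn.ri γ a b hab g (hg a) (hg b) _ fun i hi => (Finset.mem_filter.1 hi).2
  have hTB : ∀ a b, a ≠ b → (TB a b).card ≤ 2 := fun a b hab =>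
    inert_two hn.bk hn.bi γ a b hab g (hg a) (hg b) _ fun i hi => (Finset.mem_filter.1 hi).2
  have hsub : S ⊆ S1 ∪ (S2 ∪ ((TR 2 0 ∪ TR 2 1) ∪ (TR 3 0 ∪ TR 3 1) ∪
      ((TB 2 0 ∪ TB 2 1) ∪ (TB 3 0 ∪ TB 3 1)))) := by
    intro i hi
    have h1 := hS i hi
    have key : ∀ r b r0 r1 r2 r3 b0 b1 b2 b3 : Prop, (r ∨ b) →
        (¬ ((r2 ∧ b3) ∨ (r3 ∧ b2))) ∨ (¬ ((r0 ∧ b1) ∨ (r1 ∧ b0))) ∨
        (((r ∧ r2 ∧ r0) ∨ (r ∧ r2 ∧ r1)) ∨ ((r ∧ r3 ∧ r0) ∨ (r ∧ r3 ∧ r1))) ∨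
        (((b ∧ b2 ∧ b0) ∨ (b ∧ b2 ∧ b1)) ∨ ((b ∧ b3 ∧ b0) ∨ (b ∧ b3 ∧ b1))) := by
      intro r b r0 r1 r2 r3 b0 b1 b2 b3 hrb
      by_cases h2 : (r2 ∧ b3) ∨ (r3 ∧ b2)
      · by_cases h0 : (r0 ∧ b1) ∨ (r1 ∧ b0)
        · right; right
          rcases hrb with hr | hb <;> rcases h2 with h2 | h2 <;> rcases h0 with h0 | h0 <;>
            simp [*]
        · exact Or.inr (Or.inl h0)
      · exact Or.inl h2
    simp only [Finset.mem_union, hS1, hS2, TR, TB, Finset.mem_filter, hi, true_and]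
    exact key _ _ _ _ _ _ _ _ _ _ h1.2
  have hcard := Finset.card_le_card hsub
  have e1 := Finset.card_union_le S1 (S2 ∪ ((TR 2 0 ∪ TR 2 1) ∪ (TR 3 0 ∪ TR 3 1) ∪
      ((TB 2 0 ∪ TB 2 1) ∪ (TB 3 0 ∪ TB 3 1))))
  have e2 := Finset.card_union_le S2 ((TR 2 0 ∪ TR 2 1) ∪ (TR 3 0 ∪ TR 3 1) ∪
      ((TB 2 0 ∪ TB 2 1) ∪ (TB 3 0 ∪ TB 3 1)))
  have e3 := Finset.card_union_le ((TR 2 0 ∪ TR 2 1) ∪ (TR 3 0 ∪ TR 3 1))
      ((TB 2 0 ∪ TB 2 1) ∪ (TB 3 0 ∪ TB 3 1))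
  have e4 := Finset.card_union_le (TR 2 0 ∪ TR 2 1) (TR 3 0 ∪ TR 3 1)
  have e5 := Finset.card_union_le (TB 2 0 ∪ TB 2 1) (TB 3 0 ∪ TB 3 1)
  have e6 := Finset.card_union_le (TR 2 0) (TR 2 1)
  have e7 := Finset.card_union_le (TR 3 0) (TR 3 1)
  have e8 := Finset.card_union_le (TB 2 0) (TB 2 1)
  have e9 := Finset.card_union_le (TB 3 0) (TB 3 1)
  have f1 := hTR 2 0 (by norm_num)
  have f2 := hTR 2 1 (by norm_num)
  have f3 := hTR 3 0 (by norm_num)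
  have f4 := hTR 3 1 (by norm_num)
  have f5 := hTB 2 0 (by norm_num)
  have f6 := hTB 2 1 (by norm_num)
  have f7 := hTB 3 0 (by norm_num)
  have f8 := hTB 3 1 (by norm_num)
  omega

end Pool.Agent.RAC963
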