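import Pool.Agent.RAC963.CoreC
import Pool.Agent.RAC963.Inert

set_option autoImplicit false

namespace Pool.Agent.RAC963

/-- Unrelated fillers can be dropped from a split hyperedge. -/
theorem core2_split {H : Type} {R B : H → H → Prop} (rs : ∀ x y, R x y → R y x)
    (bs : ∀ x y, B x y → B y x) (core Z : List H)
    (hZ : ∀ z ∈ Z, ∀ y ∈ core ++ Z, ¬ R z y ∧ ¬ B z y) (h : Split R B (core ++ Z)) :
    Split R B core := by
  obtain ⟨x, hx, y, hy, z, hz, w, hw, hnd, hR, hB⟩ := h
  have key : ∀ x ∈ core ++ Z, (∃ y ∈ core ++ Z, R x y ∨ B x y) → x ∈ core := by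
    rintro x hx ⟨y, hy, hxy⟩
    rcases List.mem_append.1 hx with h | h
    · exact h
    · have := hZ x h y hy
      tauto
  exact ⟨x, key x hx ⟨y, hy, Or.inl hR⟩, y, key y hy ⟨x, hx, Or.inl (rs _ _ hR)⟩,
    z, key z hz ⟨w, hw, Or.inr hB⟩, w, key w hw ⟨z, hz, Or.inr (bs _ _ hB)⟩, hnd, hR, hB⟩

theorem core2_swap {H : Type} {R B : H → H → Prop} {E : List H} (h : Split R B E) :
    Split B R E := by
  obtain ⟨x, hx, y, hy, z, hz, w, hw, hnd, hR, hB⟩ := h
  refine ⟨z, hz, w, hw, x, hx, y, hy, ?_, hB, hR⟩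
  simp only [List.nodup_cons, List.mem_cons, List.not_mem_nil, or_false, not_or, List.nodup_nil,
    and_true, not_false_eq_true] at hnd ⊢
  obtain ⟨⟨h1, h2, h3⟩, ⟨h4, h5⟩, h6⟩ := hnd
  exact ⟨⟨h6, Ne.symm h2, Ne.symm h4⟩, ⟨Ne.symm h3, Ne.symm h5⟩, h1⟩

theorem core2_mem {N M F : ℕ} {φ : N3} {it : Item} (hit : it ∈ items N M F φ)
    {z1 z2 z3 z4 : Hub} (h1 : z1 ∈ it.2.1) (h2 : z2 ∈ it.2.2.1) (h3 : z3 ∈ it.2.2.2.1)
    (h4 : z4 ∈ it.2.2.2.2) : it.1 ++ [z1, z2, z3, z4] ∈ fam2 N M F φ := by
  unfold fam2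
  apply List.mem_append_left
  refine List.mem_flatMap.2 ⟨it, hit, ?_⟩
  unfold ext
  exact List.mem_flatMap.2 ⟨z1, h1, List.mem_flatMap.2 ⟨z2, h2, List.mem_flatMap.2 ⟨z3, h3,
    List.mem_map.2 ⟨z4, h4, rfl⟩⟩⟩⟩

/-- Pigeonhole for the choice of a filler. -/
theorem core2_pig (M c : ℕ) (L : List Hub) (P : Hub → ℕ → Prop) (hM : L.length * c < M)
    (hP : ∀ g ∈ L, ∀ S : Finset ℕ, (∀ i ∈ S, i < M ∧ P g i) → S.card ≤ c) :
    ∃ i < M, ∀ g ∈ L, ¬ P g i := by
  classical
  by_contra hcon
  push Not at hcon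
  have h1 : Finset.range M ⊆
      L.toFinset.biUnion fun g => (Finset.range M).filter fun i => P g i := by
    intro i hi
    obtain ⟨g, hg, hgi⟩ := hcon i (Finset.mem_range.1 hi)
    exact Finset.mem_biUnion.2 ⟨g, List.mem_toFinset.2 hg, Finset.mem_filter.2 ⟨hi, hgi⟩⟩
  have h2 := Finset.card_le_card h1
  have h3 : (L.toFinset.biUnion fun g => (Finset.range M).filter fun i => P g i).card ≤
      L.toFinset.card * c := by
    apply Finset.card_biUnion_le_card_mul
    intro g hg
    apply hP g (List.mem_toFinset.1 hg)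
    intro i hi
    rw [Finset.mem_filter, Finset.mem_range] at hi
    exact hi
  have h4 : L.toFinset.card ≤ L.length := List.toFinset_card_le L
  have h5 : L.toFinset.card * c ≤ L.length * c := Nat.mul_le_mul_right c h4
  rw [Finset.card_range] at h2
  omega

/-- Choice of an inert filler. -/
theorem core2_sel {R B : Hub → Hub → Prop} (hn : Nice R B) (M γ : ℕ)
    (h : ∀ E ∈ inert M γ, Split R B E) (hM : 10 ^ 7 ≤ M) (o : ℕ) (ho : o ≤ M) (L : List Hub)
    (hL : L.length ≤ 7) (hg : ∀ g ∈ L, ∀ k, g ≠ (1, γ, k)) :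
    ∃ i < M, ∀ g ∈ L, ¬ (R g (2, γ, o + i) ∨ B g (2, γ, o + i)) := by
  apply core2_pig M 1300000 L (fun g i => R g (2, γ, o + i) ∨ B g (2, γ, o + i))
  · have : L.length * 1300000 ≤ 7 * 1300000 := Nat.mul_le_mul_right _ hL
    omega
  · intro g hgL S hS
    have h1 := inert_bound hn M γ h g (hg g hgL) (S.image fun i => o + i) (by
      intro i hi
      obtain ⟨j, hj, rfl⟩ := Finset.mem_image.1 hi
      have := hS j hj
      exact ⟨by omega, this.2⟩)
    rwa [Finset.card_image_of_injective _ (fun a b hab => by simpa using hab)] at h1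

/-- The inert fillers do not matter. -/
theorem core2D (N M F : ℕ) (hM : 10 ^ 7 ≤ M) (φ : N3) (R B : Hub → Hub → Prop)
    (hn : Nice R B) (h : ∀ E ∈ fam2 N M F φ, Split R B E) :
    ∀ it ∈ itD N M F φ, Split R B it.1 := by
  intro it hit
  have hin : ∀ γ ≤ N, ∀ E ∈ inert M γ, Split R B E := by
    intro γ hγ E hE
    apply h
    unfold fam2
    apply List.mem_append_right
    exact List.mem_flatMap.2 ⟨γ, List.mem_range.2 (by omega), hE⟩
  have hloc : ∀ α, ∀ v ∈ locs F φ α, 3 ≤ v.1 := by
    intro α v hv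
    unfold locs at hv
    simp only [List.mem_append, List.mem_flatMap, List.mem_map, List.mem_range, List.mem_cons,
      List.not_mem_nil, or_false] at hv
    rcases hv with ((⟨i, _, hv⟩ | ⟨i, _, rfl⟩) | ⟨i, _, hv⟩) | ⟨i, _, hv⟩
    · rcases hv with rfl | rfl | rfl | rfl | rfl <;> simp
    · simp
    · rcases hv with rfl | rfl | rfl | rfl <;> simp
    · rcases hv with rfl | rfl | rfl | rfl | rfl <;> simp
  have main : ∀ (α : ℕ) (core : List Hub), α < N → core.length ≤ 4 →
      (∀ g ∈ core, g.1 ≠ 1) →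
      (core, grA M (α + 1), grB M (α + 1), grA M 0, grA M N) ∈ items N M F φ →
      Split R B core := by
    intro α core hα hlen hcore hitem
    obtain ⟨i1, h1, g1⟩ := core2_sel hn M (α + 1) (hin _ (by omega)) hM 0 (by omega) core
      (by omega) (fun g hg k hk => hcore g hg (by rw [hk]))
    obtain ⟨i2, h2, g2⟩ := core2_sel hn M (α + 1) (hin _ (by omega)) hM M le_rfl
      (core ++ [(2, α + 1, 0 + i1)]) (by simp; omega) (by
        intro g hg k hk
        rcases List.mem_append.1 hg with hg | hg
        · exact hcore g hg (by rw [hk])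
        · rw [hk] at hg; simp at hg)
    obtain ⟨i3, h3, g3⟩ := core2_sel hn M 0 (hin _ (by omega)) hM 0 (by omega)
      (core ++ [(2, α + 1, 0 + i1), (2, α + 1, M + i2)]) (by simp; omega) (by
        intro g hg k hk
        rcases List.mem_append.1 hg with hg | hg
        · exact hcore g hg (by rw [hk])
        · rw [hk] at hg; simp at hg)
    obtain ⟨i4, h4, g4⟩ := core2_sel hn M N (hin _ le_rfl) hM 0 (by omega)
      (core ++ [(2, α + 1, 0 + i1), (2, α + 1, M + i2), (2, 0, 0 + i3)]) (by simp; omega) (by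
        intro g hg k hk
        rcases List.mem_append.1 hg with hg | hg
        · exact hcore g hg (by rw [hk])
        · rw [hk] at hg; simp at hg)
    have hE := h _ (core2_mem hitem (z1 := (2, α + 1, 0 + i1)) (z2 := (2, α + 1, M + i2))
      (z3 := (2, 0, 0 + i3)) (z4 := (2, N, 0 + i4))
      (by simp only [grA, List.mem_map, List.mem_range]; exact ⟨i1, h1, by simp⟩)
      (by simp only [grB, List.mem_map, List.mem_range]; exact ⟨i2, h2, rfl⟩)
      (by simp only [grA, List.mem_map, List.mem_range]; exact ⟨i3, h3, by simp⟩)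
      (by simp only [grA, List.mem_map, List.mem_range]; exact ⟨i4, h4, by simp⟩))
    generalize (2, α + 1, 0 + i1) = z1 at *
    generalize (2, α + 1, M + i2) = z2 at *
    generalize (2, 0, 0 + i3) = z3 at *
    generalize (2, N, 0 + i4) = z4 at *
    refine core2_split hn.rs hn.bs core [z1, z2, z3, z4] ?_ hE
    have sy : ∀ a b, ¬ (R a b ∨ B a b) → ¬ (R b a ∨ B b a) := by
      intro a b hab hba
      apply hab
      rcases hba with hba | hba
      · exact Or.inl (hn.rs _ _ hba)
      · exact Or.inr (hn.bs _ _ hba)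
    have ir : ∀ a, ¬ (R a a ∨ B a a) := by
      intro a ha
      rcases ha with ha | ha
      · exact hn.ri _ ha
      · exact hn.bi _ ha
    have k12 := g2 z1 (by simp)
    have k13 := g3 z1 (by simp)
    have k14 := g4 z1 (by simp)
    have k23 := g3 z2 (by simp)
    have k24 := g4 z2 (by simp)
    have k34 := g4 z3 (by simp)
    intro z hz y hy
    suffices hs : ¬ (R z y ∨ B z y) by tauto
    simp only [List.mem_cons, List.not_mem_nil, or_false] at hz
    rcases List.mem_append.1 hy with hy' | hy'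
    · apply sy
      rcases hz with rfl | rfl | rfl | rfl
      · exact g1 y hy'
      · exact g2 y (List.mem_append_left _ hy')
      · exact g3 y (List.mem_append_left _ hy')
      · exact g4 y (List.mem_append_left _ hy')
    · simp only [List.mem_cons, List.not_mem_nil, or_false] at hy'
      clear hy
      rename' hy' => hy
      rcases hz with rfl | rfl | rfl | rfl <;> rcases hy with rfl | rfl | rfl | rfl
      · exact ir _
      · exact k12
      · exact k13
      · exact k14
      · exact sy _ _ k12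
      · exact ir _
      · exact k23
      · exact k24
      · exact sy _ _ k13
      · exact sy _ _ k23
      · exact ir _
      · exact k34
      · exact sy _ _ k14
      · exact sy _ _ k24
      · exact sy _ _ k34
      · exact ir _
  have hitem : it ∈ items N M F φ := by
    unfold items
    exact List.mem_append_left _ (List.mem_append_left _ hit)
  unfold itD at hit
  simp only [List.mem_flatMap, List.mem_range, List.mem_cons, List.not_mem_nil, or_false] at hit
  obtain ⟨β, hβ, α, hα, p, hp, q, hq, rfl | rfl⟩ := hit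
  · refine main α _ (by omega) (by simp) ?_ hitem
    intro g hg
    have hp3 := hloc _ _ hp
    have hq3 := hloc _ _ hq
    simp only [List.mem_cons, List.not_mem_nil, or_false] at hg
    rcases hg with rfl | rfl | rfl | rfl
    · omega
    · omega
    · simp
    · simp
  · refine main α _ (by omega) (by simp) ?_ hitem
    intro g hg
    have hp3 := hloc _ _ hp
    have hq3 := hloc _ _ hq
    simp only [List.mem_cons, List.not_mem_nil, or_false] at hg
    rcases hg with rfl | rfl | rfl | rfl
    · omega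
    · omega
    · simp
    · simp

/-- Choice of a local filler. -/
theorem core2_selL {F : ℕ} (hF : 40 ≤ F) {φ : N3} {α : ℕ} {X Y : Hub → Hub → Prop}
    (hg : GoodCp F φ α X Y) (κ : ℕ) (hκ : 1 ≤ κ) (hκ5 : κ ≤ 5) (L : List Hub)
    (hL : L.length ≤ 7) (hl : ∀ g ∈ L, g ∈ locs F φ α) :
    ∃ z ∈ pool F α κ, z ∈ locs F φ α ∧ ∀ g ∈ L, ¬ (X g z ∨ Y g z) := by
  classical
  have hmem : ∀ i < F, ((12 + κ, α, i) : Hub) ∈ locs F φ α := by
    intro i hi
    unfold locs
    apply List.mem_append_right
    refine List.mem_flatMap.2 ⟨i, List.mem_range.2 hi, ?_⟩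
    simp only [List.mem_cons, Prod.mk.injEq, and_true, List.not_mem_nil, or_false]
    omega
  obtain ⟨i, hi, h1⟩ := core2_pig F 4 L (fun g i => X g (12 + κ, α, i) ∨ Y g (12 + κ, α, i))
    (by omega) (by
      intro g hgL S hS
      have hinj : Function.Injective (fun i : ℕ => ((12 + κ, α, i) : Hub)) := by
        intro a b hab
        simpa using hab
      have e1 := hg.capX g (hl g hgL) ((S.filter fun i => X g (12 + κ, α, i)).image
        (fun i : ℕ => ((12 + κ, α, i) : Hub))) (by
          intro y hy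
          obtain ⟨i, hi, rfl⟩ := Finset.mem_image.1 hy
          rw [Finset.mem_filter] at hi
          exact ⟨hmem i (hS i hi.1).1, hi.2⟩)
      have e2 := hg.capY g (hl g hgL) ((S.filter fun i => Y g (12 + κ, α, i)).image
        (fun i : ℕ => ((12 + κ, α, i) : Hub))) (by
          intro y hy
          obtain ⟨i, hi, rfl⟩ := Finset.mem_image.1 hy
          rw [Finset.mem_filter] at hi
          exact ⟨hmem i (hS i hi.1).1, hi.2⟩)
      rw [Finset.card_image_of_injective _ hinj] at e1 e2
      have e3 : S ⊆ (S.filter fun i => X g (12 + κ, α, i)) ∪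
          (S.filter fun i => Y g (12 + κ, α, i)) := by
        intro i hi
        rw [Finset.mem_union, Finset.mem_filter, Finset.mem_filter]
        rcases (hS i hi).2 with h | h
        · exact Or.inl ⟨hi, h⟩
        · exact Or.inr ⟨hi, h⟩
      have e4 := Finset.card_le_card e3
      have e5 := Finset.card_union_le (S.filter fun i => X g (12 + κ, α, i))
        (S.filter fun i => Y g (12 + κ, α, i))
      omega)
  refine ⟨(12 + κ, α, i), ?_, hmem i hi, h1⟩
  unfold pool
  exact List.mem_map.2 ⟨i, List.mem_range.2 hi, rfl⟩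

/-- Choice of the four local fillers of an item. -/
theorem core2_four {N M F : ℕ} (hF : 40 ≤ F) {φ : N3} {R B : Hub → Hub → Prop}
    (hn : Nice R B) (h : ∀ E ∈ fam2 N M F φ, Split R B E) {α : ℕ} {X Y : Hub → Hub → Prop}
    (hXY : X = R ∧ Y = B ∨ X = B ∧ Y = R) (hg : GoodCp F φ α X Y) (core L : List Hub)
    (k1 k2 k3 k4 : ℕ) (hk1 : 1 ≤ k1 ∧ k1 ≤ 5) (hk2 : 1 ≤ k2 ∧ k2 ≤ 5) (hk3 : 1 ≤ k3 ∧ k3 ≤ 5)
    (hk4 : 1 ≤ k4 ∧ k4 ≤ 5)
    (hit : (core, pool F α k1, pool F α k2, pool F α k3, pool F α k4) ∈ items N M F φ)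
    (hL : L.length ≤ 4) (hl : ∀ g ∈ L, g ∈ locs F φ α) :
    ∃ Z : List Hub, (∀ z ∈ Z, z ∈ locs F φ α ∧ ∀ y ∈ L ++ Z, ¬ (X z y ∨ Y z y)) ∧
      Split X Y (core ++ Z) := by
  have xs : ∀ x y, X x y → X y x := by
    rcases hXY with ⟨rfl, rfl⟩ | ⟨rfl, rfl⟩
    · exact hn.rs
    · exact hn.bs
  have ys : ∀ x y, Y x y → Y y x := by
    rcases hXY with ⟨rfl, rfl⟩ | ⟨rfl, rfl⟩
    · exact hn.bs
    · exact hn.rs
  have xi : ∀ x, ¬ X x x := by
    rcases hXY with ⟨rfl, rfl⟩ | ⟨rfl, rfl⟩
    · exact hn.ri
    · exact hn.bi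
  have yi : ∀ x, ¬ Y x x := by
    rcases hXY with ⟨rfl, rfl⟩ | ⟨rfl, rfl⟩
    · exact hn.bi
    · exact hn.ri
  have sy : ∀ a b, ¬ (X a b ∨ Y a b) → ¬ (X b a ∨ Y b a) := by
    intro a b hab hba
    apply hab
    rcases hba with hba | hba
    · exact Or.inl (xs _ _ hba)
    · exact Or.inr (ys _ _ hba)
  have ir : ∀ a, ¬ (X a a ∨ Y a a) := by
    intro a ha
    rcases ha with ha | ha
    · exact xi _ ha
    · exact yi _ ha
  obtain ⟨z1, p1, l1, g1⟩ := core2_selL hF hg k1 hk1.1 hk1.2 L (by omega) hl
  obtain ⟨z2, p2, l2, g2⟩ := core2_selL hF hg k2 hk2.1 hk2.2 (L ++ [z1]) (by simp; omega) (by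
    intro g hg
    rcases List.mem_append.1 hg with hg | hg
    · exact hl g hg
    · simp only [List.mem_cons, List.not_mem_nil, or_false] at hg
      rw [hg]; exact l1)
  obtain ⟨z3, p3, l3, g3⟩ := core2_selL hF hg k3 hk3.1 hk3.2 (L ++ [z1, z2]) (by simp; omega) (by
    intro g hg
    rcases List.mem_append.1 hg with hg | hg
    · exact hl g hg
    · simp only [List.mem_cons, List.not_mem_nil, or_false] at hg
      rcases hg with rfl | rfl <;> assumption)
  obtain ⟨z4, p4, l4, g4⟩ := core2_selL hF hg k4 hk4.1 hk4.2 (L ++ [z1, z2, z3])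
    (by simp; omega) (by
      intro g hg
      rcases List.mem_append.1 hg with hg | hg
      · exact hl g hg
      · simp only [List.mem_cons, List.not_mem_nil, or_false] at hg
        rcases hg with rfl | rfl | rfl <;> assumption)
  have hE := h _ (core2_mem hit p1 p2 p3 p4)
  have k12 := g2 z1 (by simp)
  have k13 := g3 z1 (by simp)
  have k14 := g4 z1 (by simp)
  have k23 := g3 z2 (by simp)
  have k24 := g4 z2 (by simp)
  have k34 := g4 z3 (by simp)
  refine ⟨[z1, z2, z3, z4], ?_, ?_⟩
  · intro z hz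
    simp only [List.mem_cons, List.not_mem_nil, or_false] at hz
    refine ⟨by rcases hz with rfl | rfl | rfl | rfl <;> assumption, ?_⟩
    intro y hy
    rcases List.mem_append.1 hy with hy' | hy'
    · apply sy
      rcases hz with rfl | rfl | rfl | rfl
      · exact g1 y hy'
      · exact g2 y (List.mem_append_left _ hy')
      · exact g3 y (List.mem_append_left _ hy')
      · exact g4 y (List.mem_append_left _ hy')
    · simp only [List.mem_cons, List.not_mem_nil, or_false] at hy'
      clear hy
      rename' hy' => hy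
      rcases hz with rfl | rfl | rfl | rfl <;> rcases hy with rfl | rfl | rfl | rfl
      · exact ir _
      · exact k12
      · exact k13
      · exact k14
      · exact sy _ _ k12
      · exact ir _
      · exact k23
      · exact k24
      · exact sy _ _ k13
      · exact sy _ _ k23
      · exact ir _
      · exact k34
      · exact sy _ _ k14
      · exact sy _ _ k24
      · exact sy _ _ k34
      · exact ir _
  · rcases hXY with ⟨rfl, rfl⟩ | ⟨rfl, rfl⟩
    · exact hE
    · exact core2_swap hE

theorem core2_lt3 {φ : N3} (hb : BN φ) {j k : ℕ} (hj : j < (cl φ).length) :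
    (lt3 (clj φ j) k).2 < nv φ := by
  have hm : clj φ j ∈ cl φ := by
    unfold clj
    rw [List.getD_eq_getElem _ _ hj]
    exact List.getElem_mem hj
  have key : ∀ c ∈ cl φ, c.1.2 < nv φ ∧ c.2.1.2 < nv φ ∧ c.2.2.2 < nv φ := by
    intro c hc
    unfold cl at hc
    rw [List.mem_append, List.mem_map, List.mem_map] at hc
    rcases hc with ⟨t, ht, rfl⟩ | ⟨i, hi, rfl⟩
    · exact hb t ht
    · simp only [List.mem_append, List.mem_range, or_self] at hi
      exact ⟨hi, hi, hi⟩
  have := key _ hm
  unfold lt3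
  split
  · exact this.1
  · exact this.2.1
  · exact this.2.2

/-- The local fillers do not matter. -/
theorem core2L (N M F : ℕ) (hF : 40 ≤ F) (φ : N3) (hb : BN φ) (R B : Hub → Hub → Prop)
    (hn : Nice R B) (h : ∀ E ∈ fam2 N M F φ, Split R B E) (α : ℕ) (hα : α < N)
    (X Y : Hub → Hub → Prop) (hXY : X = R ∧ Y = B ∨ X = B ∧ Y = R)
    (hg : GoodCp F φ α X Y) : LocOK F φ α X Y := by
  have xs : ∀ x y, X x y → X y x := by
    rcases hXY with ⟨rfl, rfl⟩ | ⟨rfl, rfl⟩
    · exact hn.rs
    · exact hn.bs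
  have ys : ∀ x y, Y x y → Y y x := by
    rcases hXY with ⟨rfl, rfl⟩ | ⟨rfl, rfl⟩
    · exact hn.bs
    · exact hn.rs
  have l3 : ∀ i < nv φ, ((3, α, i) : Hub) ∈ locs F φ α ∧ ((4, α, i) : Hub) ∈ locs F φ α ∧
      ((5, α, i) : Hub) ∈ locs F φ α ∧ ((6, α, i) : Hub) ∈ locs F φ α ∧
      ((7, α, i) : Hub) ∈ locs F φ α := by
    intro i hi
    have key : ∀ v ∈ [((3, α, i) : Hub), (4, α, i), (5, α, i), (6, α, i), (7, α, i)],
        v ∈ locs F φ α := by
      intro v hv
      unfold locs
      apply List.mem_append_left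
      apply List.mem_append_left
      apply List.mem_append_left
      exact List.mem_flatMap.2 ⟨i, List.mem_range.2 hi, hv⟩
    exact ⟨key _ (by simp), key _ (by simp), key _ (by simp), key _ (by simp), key _ (by simp)⟩
  have l8 : ∀ i < 5, ((8, α, i) : Hub) ∈ locs F φ α := by
    intro i hi
    unfold locs
    apply List.mem_append_left
    apply List.mem_append_left
    apply List.mem_append_right
    exact List.mem_map.2 ⟨i, List.mem_range.2 hi, rfl⟩
  have l9 : ∀ j < (cl φ).length, ∀ v ∈ [((9, α, j) : Hub), (10, α, j), (11, α, j), (12, α, j)],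
      v ∈ locs F φ α := by
    intro j hj v hv
    unfold locs
    apply List.mem_append_left
    apply List.mem_append_right
    exact List.mem_flatMap.2 ⟨j, List.mem_range.2 hj, hv⟩
  have pr : ∀ (P : Hub → Hub → Prop), (∀ x y, P x y → P y x) → ∀ (o : Hub) (C Z : List Hub),
      (∀ v ∈ locs F φ α, ¬ P o v) → o ∉ C → (∀ v ∈ C, v ∈ locs F φ α) →
      (∀ z ∈ Z, z ∈ locs F φ α ∧ ∀ y ∈ C ++ Z, ¬ P z y) → ∀ x y, x ≠ y →
      (x = o ∨ x ∈ C ∨ x ∈ Z) → (y = o ∨ y ∈ C ∨ y ∈ Z) → P x y → x ∈ C ∧ y ∈ C := by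
    intro P ps o C Z ho hoC hC hZ x y hxy hx hy hP
    rcases hx with rfl | hx | hx
    · rcases hy with rfl | hy | hy
      · exact absurd rfl hxy
      · exact absurd hP (ho y (hC y hy))
      · exact absurd hP (ho y (hZ y hy).1)
    · rcases hy with rfl | hy | hy
      · exact absurd (ps _ _ hP) (ho x (hC x hx))
      · exact ⟨hx, hy⟩
      · exact absurd (ps _ _ hP) ((hZ y hy).2 x (List.mem_append_left _ hx))
    · rcases hy with rfl | hy | hy
      · exact absurd (ps _ _ hP) (ho x (hZ x hx).1)
      · exact absurd hP ((hZ x hx).2 y (List.mem_append_left _ hy))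
      · exact absurd hP ((hZ x hx).2 y (List.mem_append_right _ hy))
  refine ⟨?_, ?_, ?_⟩
  · intro i hi k hk
    obtain ⟨Z, hZ, x, hx, y, hy, z, hz, w, hw, hnd, hX, hY⟩ := core2_four (N := N) (M := M) hF hn h
      hXY hg [(8, α, k), (0, 0, 3), (3, α, i), (6, α, i)] [(8, α, k), (3, α, i), (6, α, i)]
      5 4 1 2 (by omega) (by omega) (by omega) (by omega) (by
        unfold items
        apply List.mem_append_left
        apply List.mem_append_right
        unfold itO
        refine List.mem_flatMap.2 ⟨α, List.mem_range.2 hα, List.mem_flatMap.2 ⟨i,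
          List.mem_range.2 hi, List.mem_flatMap.2 ⟨k, List.mem_range.2 hk, by simp⟩⟩⟩)
      (by simp) (by
        intro g hg
        simp only [List.mem_cons, List.not_mem_nil, or_false] at hg
        rcases hg with rfl | rfl | rfl
        · exact l8 k hk
        · exact (l3 i hi).1
        · exact (l3 i hi).2.2.2.1)
    have hxy : x ≠ y := by
      rintro rfl
      simp at hnd
    have := pr X xs (0, 0, 3) [(8, α, k), (3, α, i), (6, α, i)] Z hg.d (by simp) (by
        intro g hg
        simp only [List.mem_cons, List.not_mem_nil, or_false] at hg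
        rcases hg with rfl | rfl | rfl
        · exact l8 k hk
        · exact (l3 i hi).1
        · exact (l3 i hi).2.2.2.1)
      (fun z hz => ⟨(hZ z hz).1, fun y hy hc => (hZ z hz).2 y hy (Or.inl hc)⟩) x y hxy
      (by
        simp only [List.mem_append, List.mem_cons, List.not_mem_nil, or_false] at hx ⊢
        tauto)
      (by
        simp only [List.mem_append, List.mem_cons, List.not_mem_nil, or_false] at hy ⊢
        tauto) hX
    exact ⟨x, this.1, y, this.2, hxy, hX⟩
  · intro i hi k hk
    obtain ⟨Z, hZ, x, hx, y, hy, z, hz, w, hw, hnd, hX, hY⟩ := core2_four (N := N) (M := M) hF hn h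
      hXY hg [(8, α, k), (0, 0, 2), (3, α, i), (7, α, i)] [(8, α, k), (3, α, i), (7, α, i)]
      4 1 2 3 (by omega) (by omega) (by omega) (by omega) (by
        unfold items
        apply List.mem_append_left
        apply List.mem_append_right
        unfold itO
        refine List.mem_flatMap.2 ⟨α, List.mem_range.2 hα, List.mem_flatMap.2 ⟨i,
          List.mem_range.2 hi, List.mem_flatMap.2 ⟨k, List.mem_range.2 hk, by simp⟩⟩⟩)
      (by simp) (by
        intro g hg
        simp only [List.mem_cons, List.not_mem_nil, or_false] at hg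
        rcases hg with rfl | rfl | rfl
        · exact l8 k hk
        · exact (l3 i hi).1
        · exact (l3 i hi).2.2.2.2)
    have hzw : z ≠ w := by
      rintro rfl
      simp at hnd
    have := pr Y ys (0, 0, 2) [(8, α, k), (3, α, i), (7, α, i)] Z hg.c (by simp) (by
        intro g hg
        simp only [List.mem_cons, List.not_mem_nil, or_false] at hg
        rcases hg with rfl | rfl | rfl
        · exact l8 k hk
        · exact (l3 i hi).1
        · exact (l3 i hi).2.2.2.2)
      (fun z hz => ⟨(hZ z hz).1, fun y hy hc => (hZ z hz).2 y hy (Or.inr hc)⟩) z w hzw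
      (by
        simp only [List.mem_append, List.mem_cons, List.not_mem_nil, or_false] at hz ⊢
        tauto)
      (by
        simp only [List.mem_append, List.mem_cons, List.not_mem_nil, or_false] at hw ⊢
        tauto) hY
    exact ⟨z, this.1, w, this.2, hzw, hY⟩
  · intro j hj k hk
    have hi := core2_lt3 hb (k := k) hj
    have hpart : part α (lt3 (clj φ j) k) ∈ locs F φ α := by
      unfold part
      split_ifs
      · exact (l3 _ hi).2.1
      · exact (l3 _ hi).2.2.1
    have hlk : ((10 + k, α, j) : Hub) ∈ locs F φ α := by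
      apply l9 j hj
      interval_cases k <;> simp
    have hcl : ∀ g ∈ [((3, α, (lt3 (clj φ j) k).2) : Hub), part α (lt3 (clj φ j) k), (9, α, j),
        (10 + k, α, j)], g ∈ locs F φ α := by
      intro g hg
      simp only [List.mem_cons, List.not_mem_nil, or_false] at hg
      rcases hg with rfl | rfl | rfl | rfl
      · exact (l3 _ hi).1
      · exact hpart
      · exact l9 j hj _ (by simp)
      · exact hlk
    obtain ⟨Z, hZ, hS⟩ := core2_four (N := N) (M := M) hF hn h
      hXY hg [((3, α, (lt3 (clj φ j) k).2) : Hub), part α (lt3 (clj φ j) k), (9, α, j),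
        (10 + k, α, j)] [((3, α, (lt3 (clj φ j) k).2) : Hub), part α (lt3 (clj φ j) k), (9, α, j),
        (10 + k, α, j)]
      1 2 3 4 (by omega) (by omega) (by omega) (by omega) (by
        unfold items
        apply List.mem_append_right
        unfold itL
        refine List.mem_flatMap.2 ⟨α, List.mem_range.2 hα, List.mem_flatMap.2
          ⟨(clj φ j, j), ?_, ?_⟩⟩
        · rw [List.mem_zipIdx_iff_getElem?]
          unfold clj
          rw [List.getD_eq_getElem _ _ hj]
          exact List.getElem?_eq_getElem hj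
        · interval_cases k
          · simp [lt3]
          · simp [lt3]
          · simp [lt3])
      (by simp) hcl
    exact core2_split xs ys _ Z (fun z hz y hy => by
      have := (hZ z hz).2 y hy
      tauto) hS

/-- Soundness of the combinatorial part for two bends. -/
theorem core2 (N M F : ℕ) (hN : 11521 ≤ N) (hM : 10 ^ 7 ≤ M) (hF : 40 ≤ F) (φ : N3)
    (hb : BN φ) (R B : Hub → Hub → Prop) (hn : Nice R B)
    (h : ∀ E ∈ fam2 N M F φ, Split R B E) : NAE3 φ :=
  coreC N M F hN φ hb R B hn (core2D N M F hM φ R B hn h)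
    fun α hα X Y hXY hg => core2L N M F hF φ hb R B hn h α hα X Y hXY hg

end Pool.Agent.RAC963
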