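import Pool.Agent.RAC963.Fam

set_option autoImplicit false

namespace Pool.Agent.RAC963

/-- A related pair inside the list. -/
def PairIn {H : Type} (X : H → H → Prop) (E : List H) : Prop :=
  ∃ x ∈ E, ∃ y ∈ E, x ≠ y ∧ X x y

theorem logic_split {H : Type} {X Y : H → H → Prop} (xs : ∀ x y, X x y → X y x)
    (ys : ∀ x y, Y x y → Y y x) {p q r s : H} (h : Split X Y [p, q, r, s]) :
    (X p q ∧ Y r s) ∨ (Y p q ∧ X r s) ∨ (X p r ∧ Y q s) ∨ (Y p r ∧ X q s) ∨
      (X p s ∧ Y q r) ∨ (Y p s ∧ X q r) := by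
  obtain ⟨x, hx, y, hy, z, hz, w, hw, hnd, h1, h2⟩ := h
  simp only [List.mem_cons, List.not_mem_nil, or_false] at hx hy hz hw
  simp only [List.nodup_cons, List.mem_cons, List.not_mem_nil, or_false, not_or, not_false_eq_true,
    List.nodup_nil, and_true] at hnd
  obtain ⟨⟨hxy, hxz, hxw⟩, ⟨hyz, hyw⟩, hzw⟩ := hnd
  have h1' := xs _ _ h1
  have h2' := ys _ _ h2
  rcases hx with rfl | rfl | rfl | rfl <;> rcases hy with rfl | rfl | rfl | rfl <;>
    first
    | exact absurd rfl hxy
    | (rcases hz with rfl | rfl | rfl | rfl <;>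
        first
        | exact absurd rfl hxz
        | exact absurd rfl hyz
        | (rcases hw with rfl | rfl | rfl | rfl <;>
            first
            | exact absurd rfl hxw
            | exact absurd rfl hyw
            | exact absurd rfl hzw
            | tauto))

theorem logic_m {F : ℕ} {φ : N3} {α i : ℕ} (hi : i < nv φ) (κ : ℕ) (hκ : 3 ≤ κ ∧ κ ≤ 7) :
    (κ, α, i) ∈ locs F φ α := by
  unfold locs
  simp only [List.mem_append, List.mem_flatMap, List.mem_range, List.mem_cons, List.not_mem_nil,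
    or_false, Prod.mk.injEq, true_and]
  refine Or.inl (Or.inl (Or.inl ⟨i, hi, ?_⟩))
  omega

theorem logic_p {F : ℕ} {φ : N3} {α h : ℕ} (hh : h < 5) : (8, α, h) ∈ locs F φ α := by
  unfold locs
  simp only [List.mem_append, List.mem_map, List.mem_range]
  exact Or.inl (Or.inl (Or.inr ⟨h, hh, rfl⟩))

theorem logic_e {F : ℕ} {φ : N3} {α j : ℕ} (hj : j < (cl φ).length) (κ : ℕ)
    (hκ : 9 ≤ κ ∧ κ ≤ 12) : (κ, α, j) ∈ locs F φ α := by
  unfold locs
  simp only [List.mem_append, List.mem_flatMap, List.mem_range, List.mem_cons, List.not_mem_nil,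
    or_false, Prod.mk.injEq, true_and]
  refine Or.inl (Or.inr ⟨j, hj, ?_⟩)
  omega

theorem logic_cap3 {L : List Hub} {X : Hub → Hub → Prop} {v : Hub}
    (cap : ∀ A : Finset Hub, (∀ y ∈ A, y ∈ L ∧ X v y) → A.card ≤ 2) {a b c : Hub}
    (ha : a ∈ L) (hb : b ∈ L) (hc : c ∈ L) (xa : X v a) (xb : X v b) (xc : X v c)
    (hab : a ≠ b) (hac : a ≠ c) (hbc : b ≠ c) : False := by
  have h := cap {a, b, c} (by
    intro y hy
    simp only [Finset.mem_insert, Finset.mem_singleton] at hy
    rcases hy with rfl | rfl | rfl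
    · exact ⟨ha, xa⟩
    · exact ⟨hb, xb⟩
    · exact ⟨hc, xc⟩)
  rw [Finset.card_eq_three.2 ⟨a, b, c, hab, hac, hbc, rfl⟩] at h
  omega

/-- five pairs force the pair `m u` -/
theorem logic_force {F : ℕ} {φ : N3} {α : ℕ} {X : Hub → Hub → Prop} (xs : ∀ x y, X x y → X y x)
    (cap : ∀ v ∈ locs F φ α, ∀ A : Finset Hub, (∀ y ∈ A, y ∈ locs F φ α ∧ X v y) → A.card ≤ 2)
    {m u : Hub} (hm : m ∈ locs F φ α) (hu : u ∈ locs F φ α)
    (h : ∀ h < 5, PairIn X [(8, α, h), m, u]) : X m u := by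
  classical
  by_contra hn
  have key : ∀ k < 5, X m (8, α, k) ∨ X u (8, α, k) := by
    intro k hk
    obtain ⟨x, hx, y, hy, hxy, hX⟩ := h k hk
    simp only [List.mem_cons, List.not_mem_nil, or_false] at hx hy
    have hX' := xs _ _ hX
    rcases hx with rfl | rfl | rfl <;> rcases hy with rfl | rfl | rfl <;>
      first
      | exact absurd rfl hxy
      | exact Or.inl hX
      | exact Or.inl hX'
      | exact Or.inr hX
      | exact Or.inr hX'
      | exact absurd hX hn
      | exact absurd hX' hn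
  have cnt : ∀ v ∈ locs F φ α, ((Finset.range 5).filter (fun k => X v (8, α, k))).card ≤ 2 := by
    intro v hv
    have h1 := cap v hv (((Finset.range 5).filter (fun k => X v (8, α, k))).image
      (fun k => ((8, α, k) : Hub))) (by
        intro y hy
        simp only [Finset.mem_image, Finset.mem_filter, Finset.mem_range] at hy
        obtain ⟨k, ⟨hk, hX⟩, rfl⟩ := hy
        exact ⟨logic_p hk, hX⟩)
    rwa [Finset.card_image_of_injective] at h1
    intro a b hab
    simpa using hab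
  have hsub : Finset.range 5 ⊆ (Finset.range 5).filter (fun k => X m (8, α, k)) ∪
      (Finset.range 5).filter (fun k => X u (8, α, k)) := by
    intro k hk
    rw [Finset.mem_range] at hk
    rw [Finset.mem_union, Finset.mem_filter, Finset.mem_filter, Finset.mem_range]
    rcases key k hk with h1 | h1
    · exact Or.inl ⟨hk, h1⟩
    · exact Or.inr ⟨hk, h1⟩
  have h1 := Finset.card_le_card hsub
  have h2 := Finset.card_union_le ((Finset.range 5).filter (fun k => X m (8, α, k)))
    ((Finset.range 5).filter (fun k => X u (8, α, k)))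
  have h3 := cnt m hm
  have h4 := cnt u hu
  rw [Finset.card_range] at h1
  omega

theorem logic_len (φ : N3) : (cl φ).length = φ.length + (nv φ + (nv φ + nv φ)) := by
  simp [cl]

theorem logic_clj (φ : N3) (i c : ℕ) (hi : i < nv φ) (hc : c < 3) :
    clj φ (φ.length + (c * nv φ + i)) = ((true, i), (false, i), (true, i)) := by
  unfold clj cl
  rw [List.getD_append_right _ _ _ _ (by simp)]
  simp only [List.length_map, Nat.add_sub_cancel_left]
  rw [List.getD_eq_getElem?_getD, List.getElem?_map]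
  have : (List.range (nv φ) ++ (List.range (nv φ) ++ List.range (nv φ)))[c * nv φ + i]? = some i := by
    have h3 : c = 0 ∨ c = 1 ∨ c = 2 := by omega
    rcases h3 with rfl | rfl | rfl
    · rw [List.getElem?_append_left (by simpa using hi)]
      simp [hi]
    · rw [List.getElem?_append_right (by simp)]
      rw [List.getElem?_append_left (by simpa using hi)]
      simp [hi]
    · rw [List.getElem?_append_right (by simp; omega)]
      rw [List.getElem?_append_right (by simp; omega)]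
      simp only [List.length_range]
      rw [List.getElem?_range (by omega)]
      congr 1; omega
  rw [this]; rfl

theorem logic_clj' (φ : N3) (j : ℕ) (hj : j < φ.length) :
    clj φ j = ((true, φ[j].1), (true, φ[j].2.1), (true, φ[j].2.2)) := by
  unfold clj cl
  rw [List.getD_append _ _ _ _ (by simpa using hj)]
  rw [List.getD_eq_getElem _ _ (by simpa using hj)]
  simp

/-- three links force the pair `m s` -/
theorem logic_link {L : List Hub} {X Y : Hub → Hub → Prop} {m u v s : Hub}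
    (capX : ∀ A : Finset Hub, (∀ y ∈ A, y ∈ L ∧ X m y) → A.card ≤ 2)
    (capY : ∀ A : Finset Hub, (∀ y ∈ A, y ∈ L ∧ Y m y) → A.card ≤ 2)
    (hu : u ∈ L) (hv : v ∈ L) (xu : X m u) (yv : Y m v) {y : Fin 3 → Fin 2 → Hub}
    (hyL : ∀ a b, y a b ∈ L) (hyu : ∀ a b, y a b ≠ u) (hyv : ∀ a b, y a b ≠ v)
    (hyy : ∀ a b a' b', a ≠ a' → y a b ≠ y a' b')
    (h : ∀ a, (X m s ∨ Y m s) ∨ ∃ b, (X m (y a b) ∨ Y m (y a b))) : X m s ∨ Y m s := by
  by_contra hn
  have h' : ∀ a, ∃ b, (X m (y a b) ∨ Y m (y a b)) := fun a => (h a).resolve_left hn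
  obtain ⟨b0, h0⟩ := h' 0
  obtain ⟨b1, h1⟩ := h' 1
  obtain ⟨b2, h2⟩ := h' 2
  have d01 : y 0 b0 ≠ y 1 b1 := hyy _ _ _ _ (by decide)
  have d02 : y 0 b0 ≠ y 2 b2 := hyy _ _ _ _ (by decide)
  have d12 : y 1 b1 ≠ y 2 b2 := hyy _ _ _ _ (by decide)
  rcases h0 with h0 | h0 <;> rcases h1 with h1 | h1 <;> rcases h2 with h2 | h2
  · exact logic_cap3 capX hu (hyL _ _) (hyL _ _) xu h0 h1 (hyu _ _).symm (hyu _ _).symm d01
  · exact logic_cap3 capX hu (hyL _ _) (hyL _ _) xu h0 h1 (hyu _ _).symm (hyu _ _).symm d01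
  · exact logic_cap3 capX hu (hyL _ _) (hyL _ _) xu h0 h2 (hyu _ _).symm (hyu _ _).symm d02
  · exact logic_cap3 capY hv (hyL _ _) (hyL _ _) yv h1 h2 (hyv _ _).symm (hyv _ _).symm d12
  · exact logic_cap3 capX hu (hyL _ _) (hyL _ _) xu h1 h2 (hyu _ _).symm (hyu _ _).symm d12
  · exact logic_cap3 capY hv (hyL _ _) (hyL _ _) yv h0 h2 (hyv _ _).symm (hyv _ _).symm d02
  · exact logic_cap3 capY hv (hyL _ _) (hyL _ _) yv h0 h1 (hyv _ _).symm (hyv _ _).symm d01
  · exact logic_cap3 capY hv (hyL _ _) (hyL _ _) yv h0 h1 (hyv _ _).symm (hyv _ _).symm d01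

/-- The logic of a good copy. -/
theorem logic (F : ℕ) (φ : N3) (hb : BN φ) (α : ℕ) (X Y : Hub → Hub → Prop)
    (xs : ∀ x y, X x y → X y x) (ys : ∀ x y, Y x y → Y y x)
    (capX : ∀ v ∈ locs F φ α, ∀ A : Finset Hub, (∀ y ∈ A, y ∈ locs F φ α ∧ X v y) → A.card ≤ 2)
    (capY : ∀ v ∈ locs F φ α, ∀ A : Finset Hub, (∀ y ∈ A, y ∈ locs F φ α ∧ Y v y) → A.card ≤ 2)
    (hU : ∀ i < nv φ, ∀ h < 5, PairIn X [(8, α, h), (3, α, i), (6, α, i)])
    (hV : ∀ i < nv φ, ∀ h < 5, PairIn Y [(8, α, h), (3, α, i), (7, α, i)])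
    (hL : ∀ j < (cl φ).length, ∀ k < 3, Split X Y [(3, α, (lt3 (clj φ j) k).2),
      part α (lt3 (clj φ j) k), (9, α, j), (10 + k, α, j)]) : NAE3 φ := by
  classical
  have xu : ∀ i < nv φ, X (3, α, i) (6, α, i) := fun i hi =>
    logic_force xs capX (logic_m hi 3 (by omega)) (logic_m hi 6 (by omega)) (hU i hi)
  have yv : ∀ i < nv φ, Y (3, α, i) (7, α, i) := fun i hi =>
    logic_force ys capY (logic_m hi 3 (by omega)) (logic_m hi 7 (by omega)) (hV i hi)
  -- the three extra clauses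
  have hlt : ∀ i < nv φ, ∀ a : Fin 3, φ.length + ((a : ℕ) * nv φ + i) < (cl φ).length := by
    intro i hi a
    rw [logic_len]
    have : (a : ℕ) ≤ 2 := by omega
    have := Nat.mul_le_mul_right (nv φ) this
    omega
  have hne : ∀ i < nv φ, ∀ a a' : Fin 3, a ≠ a' →
      φ.length + ((a : ℕ) * nv φ + i) ≠ φ.length + ((a' : ℕ) * nv φ + i) := by
    intro i hi a a' haa h
    apply haa
    have h1 : (a : ℕ) * nv φ = (a' : ℕ) * nv φ := by omega
    have h2 := Nat.eq_of_mul_eq_mul_right (by omega) h1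
    exact Fin.ext h2
  have m4 : ∀ i < nv φ, X (3, α, i) (4, α, i) ∨ Y (3, α, i) (4, α, i) := by
    intro i hi
    refine logic_link (L := locs F φ α) (u := (6, α, i)) (v := (7, α, i))
      (y := fun a b => (9 + (b : ℕ), α, φ.length + ((a : ℕ) * nv φ + i)))
      (capX _ (logic_m hi 3 (by omega))) (capY _ (logic_m hi 3 (by omega)))
      (logic_m hi 6 (by omega)) (logic_m hi 7 (by omega)) (xu i hi) (yv i hi) ?_ ?_ ?_ ?_ ?_
    · intro a b
      exact logic_e (hlt i hi a) _ (by omega)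
    · intro a b h
      simp only [Prod.mk.injEq] at h
      omega
    · intro a b h
      simp only [Prod.mk.injEq] at h
      omega
    · intro a b a' b' haa h
      simp only [Prod.mk.injEq] at h
      exact hne i hi a a' haa h.2.2
    · intro a
      have h := logic_split xs ys (hL _ (hlt i hi a) 0 (by omega))
      rw [logic_clj φ i a hi a.2] at h
      simp only [lt3, part, if_true] at h
      rcases h with h | h | h | h | h | h
      · exact Or.inl (Or.inl h.1)
      · exact Or.inl (Or.inr h.1)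
      · exact Or.inr ⟨0, Or.inl h.1⟩
      · exact Or.inr ⟨0, Or.inr h.1⟩
      · exact Or.inr ⟨1, Or.inl h.1⟩
      · exact Or.inr ⟨1, Or.inr h.1⟩
  have m5 : ∀ i < nv φ, X (3, α, i) (5, α, i) ∨ Y (3, α, i) (5, α, i) := by
    intro i hi
    refine logic_link (L := locs F φ α) (u := (6, α, i)) (v := (7, α, i))
      (y := fun a b => (9 + 2 * (b : ℕ), α, φ.length + ((a : ℕ) * nv φ + i)))
      (capX _ (logic_m hi 3 (by omega))) (capY _ (logic_m hi 3 (by omega)))
      (logic_m hi 6 (by omega)) (logic_m hi 7 (by omega)) (xu i hi) (yv i hi) ?_ ?_ ?_ ?_ ?_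
    · intro a b
      exact logic_e (hlt i hi a) _ (by omega)
    · intro a b h
      simp only [Prod.mk.injEq] at h
      omega
    · intro a b h
      simp only [Prod.mk.injEq] at h
      omega
    · intro a b a' b' haa h
      simp only [Prod.mk.injEq] at h
      exact hne i hi a a' haa h.2.2
    · intro a
      have h := logic_split xs ys (hL _ (hlt i hi a) 1 (by omega))
      rw [logic_clj φ i a hi a.2] at h
      simp only [lt3, part, Bool.false_eq_true, if_false] at h
      rcases h with h | h | h | h | h | h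
      · exact Or.inl (Or.inl h.1)
      · exact Or.inl (Or.inr h.1)
      · exact Or.inr ⟨0, Or.inl h.1⟩
      · exact Or.inr ⟨0, Or.inr h.1⟩
      · exact Or.inr ⟨1, Or.inl h.1⟩
      · exact Or.inr ⟨1, Or.inr h.1⟩
  -- all further neighbours of m are excluded
  have x3 : ∀ i < nv φ, ∀ a b : Hub, a ∈ locs F φ α → b ∈ locs F φ α → a ≠ (6, α, i) →
      b ≠ (6, α, i) → a ≠ b → X (3, α, i) a → X (3, α, i) b → False := by
    intro i hi a b ha hb' h1 h2 h3 h4 h5
    exact logic_cap3 (capX _ (logic_m hi 3 (by omega))) (logic_m hi 6 (by omega)) ha hb'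
      (xu i hi) h4 h5 h1.symm h2.symm h3
  have y3 : ∀ i < nv φ, ∀ a b : Hub, a ∈ locs F φ α → b ∈ locs F φ α → a ≠ (7, α, i) →
      b ≠ (7, α, i) → a ≠ b → Y (3, α, i) a → Y (3, α, i) b → False := by
    intro i hi a b ha hb' h1 h2 h3 h4 h5
    exact logic_cap3 (capY _ (logic_m hi 3 (by omega))) (logic_m hi 7 (by omega)) ha hb'
      (yv i hi) h4 h5 h1.symm h2.symm h3
  -- the colour of the partner
  have hXY : ∀ i < nv φ, (X (3, α, i) (4, α, i) ∧ Y (3, α, i) (5, α, i) ∧ ¬ Y (3, α, i) (4, α, i) ∧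
      ¬ X (3, α, i) (5, α, i)) ∨ (Y (3, α, i) (4, α, i) ∧ X (3, α, i) (5, α, i) ∧
      ¬ X (3, α, i) (4, α, i) ∧ ¬ Y (3, α, i) (5, α, i)) := by
    intro i hi
    have hx := x3 i hi (4, α, i) (5, α, i) (logic_m hi 4 (by omega)) (logic_m hi 5 (by omega))
      (by simp) (by simp) (by simp)
    have hy := y3 i hi (4, α, i) (5, α, i) (logic_m hi 4 (by omega)) (logic_m hi 5 (by omega))
      (by simp) (by simp) (by simp)
    have h4 := m4 i hi
    have h5 := m5 i hi
    tauto
  -- clauses of φ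
  have main : ∀ j (hj : j < φ.length) (k i : ℕ), k < 3 → i < nv φ → lt3 (clj φ j) k = (true, i) →
      (X (3, α, i) (4, α, i) → Y (9, α, j) (10 + k, α, j)) ∧
      (¬ X (3, α, i) (4, α, i) → X (9, α, j) (10 + k, α, j)) := by
    intro j hj k i hk hi hlit
    have hj' : j < (cl φ).length := by rw [logic_len]; omega
    have h := logic_split xs ys (hL j hj' k hk)
    rw [hlit] at h
    simp only [part, if_true] at h
    have m9 : ((9, α, j) : Hub) ∈ locs F φ α := logic_e hj' 9 (by omega)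
    have m10 : ((10 + k, α, j) : Hub) ∈ locs F φ α := logic_e hj' (10 + k) (by omega)
    have ml4 : ((4, α, i) : Hub) ∈ locs F φ α := logic_m hi 4 (by omega)
    have ml5 : ((5, α, i) : Hub) ∈ locs F φ α := logic_m hi 5 (by omega)
    have nX : ∀ z : Hub, z ∈ locs F φ α → z.1 ≠ 6 → z.1 ≠ 4 → z.1 ≠ 5 → ¬ X (3, α, i) z := by
      intro z hz h6 h4 h5 hX
      rcases hXY i hi with hh | hh
      · exact x3 i hi (4, α, i) z ml4 hz (by simp) (by rintro rfl; exact h6 rfl)
          (by rintro rfl; exact h4 rfl) hh.1 hX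
      · exact x3 i hi (5, α, i) z ml5 hz (by simp) (by rintro rfl; exact h6 rfl)
          (by rintro rfl; exact h5 rfl) hh.2.1 hX
    have nY : ∀ z : Hub, z ∈ locs F φ α → z.1 ≠ 7 → z.1 ≠ 4 → z.1 ≠ 5 → ¬ Y (3, α, i) z := by
      intro z hz h6 h4 h5 hX
      rcases hXY i hi with hh | hh
      · exact y3 i hi (5, α, i) z ml5 hz (by simp) (by rintro rfl; exact h6 rfl)
          (by rintro rfl; exact h5 rfl) hh.2.1 hX
      · exact y3 i hi (4, α, i) z ml4 hz (by simp) (by rintro rfl; exact h6 rfl)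
          (by rintro rfl; exact h4 rfl) hh.1 hX
    have n1 := nX _ m9 (by simp) (by simp) (by simp)
    have n2 := nY _ m9 (by simp) (by simp) (by simp)
    have n3 := nX _ m10 (by show 10 + k ≠ 6; omega) (by show 10 + k ≠ 4; omega)
      (by show 10 + k ≠ 5; omega)
    have n4 := nY _ m10 (by show 10 + k ≠ 7; omega) (by show 10 + k ≠ 4; omega)
      (by show 10 + k ≠ 5; omega)
    have hh := hXY i hi
    tauto
  refine ⟨fun i => decide (X (3, α, i) (4, α, i)), ?_⟩
  intro t ht hcon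
  obtain ⟨j, hj, rfl⟩ := List.getElem_of_mem ht
  obtain ⟨b1, b2, b3⟩ := hb _ ht
  have hc := logic_clj' φ j hj
  have hj' : j < (cl φ).length := by rw [logic_len]; omega
  have k0 := main j hj 0 (φ[j].1) (by omega) b1 (by rw [hc]; rfl)
  have k1 := main j hj 1 (φ[j].2.1) (by omega) b2 (by rw [hc]; rfl)
  have k2 := main j hj 2 (φ[j].2.2) (by omega) b3 (by rw [hc]; rfl)
  simp only [decide_eq_decide] at hcon
  obtain ⟨e1, e2⟩ := hcon
  by_cases h0 : X (3, α, φ[j].1) (4, α, φ[j].1)
  · have h1 := e1.1 h0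
    have h2 := e2.1 h1
    exact logic_cap3 (capY _ (logic_e hj' 9 (by omega))) (logic_e hj' (10 + 0) (by omega))
      (logic_e hj' (10 + 1) (by omega)) (logic_e hj' (10 + 2) (by omega)) (k0.1 h0) (k1.1 h1) (k2.1 h2)
      (by simp) (by simp) (by simp)
  · have h1 : ¬ X (3, α, φ[j].2.1) (4, α, φ[j].2.1) := fun h => h0 (e1.2 h)
    have h2 : ¬ X (3, α, φ[j].2.2) (4, α, φ[j].2.2) := fun h => h1 (e2.2 h)
    exact logic_cap3 (capX _ (logic_e hj' 9 (by omega))) (logic_e hj' (10 + 0) (by omega))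
      (logic_e hj' (10 + 1) (by omega)) (logic_e hj' (10 + 2) (by omega)) (k0.2 h0) (k1.2 h1) (k2.2 h2)
      (by simp) (by simp) (by simp)

end Pool.Agent.RAC963
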