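import Pool.Agent.RAC963.GoodCopy
import Pool.Agent.RAC963.Logic

set_option autoImplicit false

namespace Pool.Agent.RAC963

/-- The local conclusions in a good copy. -/
def LocOK (F : ℕ) (φ : N3) (α : ℕ) (X Y : Hub → Hub → Prop) : Prop :=
  (∀ i < nv φ, ∀ h < 5, PairIn X [(8, α, h), (3, α, i), (6, α, i)]) ∧
  (∀ i < nv φ, ∀ h < 5, PairIn Y [(8, α, h), (3, α, i), (7, α, i)]) ∧
  (∀ j < (cl φ).length, ∀ k < 3, Split X Y [(3, α, (lt3 (clj φ j) k).2),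
      part α (lt3 (clj φ j) k), (9, α, j), (10 + k, α, j)])

/-- What is known in a good copy. -/
structure GoodCp (F : ℕ) (φ : N3) (α : ℕ) (X Y : Hub → Hub → Prop) : Prop where
  c : ∀ v ∈ locs F φ α, ¬ Y (0, 0, 2) v
  d : ∀ v ∈ locs F φ α, ¬ X (0, 0, 3) v
  capX : ∀ v ∈ locs F φ α, ∀ A : Finset Hub, (∀ y ∈ A, y ∈ locs F φ α ∧ X v y) → A.card ≤ 2
  capY : ∀ v ∈ locs F φ α, ∀ A : Finset Hub, (∀ y ∈ A, y ∈ locs F φ α ∧ Y v y) → A.card ≤ 2

/-- The kind and the copy of a local hub. -/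
theorem coreC_mem {F : ℕ} {φ : N3} {α : ℕ} {h : Hub} (hh : h ∈ locs F φ α) :
    3 ≤ h.1 ∧ h.2.1 = α := by
  unfold locs at hh
  simp only [List.mem_append, List.mem_flatMap, List.mem_map, List.mem_range, List.mem_cons,
    List.not_mem_nil, or_false] at hh
  rcases hh with ((⟨i, _, h1⟩ | ⟨i, _, h1⟩) | ⟨i, _, h1⟩) | ⟨i, _, h1⟩
  · rcases h1 with rfl | rfl | rfl | rfl | rfl <;> simp
  · subst h1; simp
  · rcases h1 with rfl | rfl | rfl | rfl <;> simp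
  · rcases h1 with rfl | rfl | rfl | rfl | rfl <;> simp

/-- The hubs of kind `3`, …, `7` are local. -/
theorem coreC_loc3 {F : ℕ} {φ : N3} {α i κ : ℕ} (hi : i < nv φ) (h3 : 3 ≤ κ) (h7 : κ ≤ 7) :
    (κ, α, i) ∈ locs F φ α := by
  unfold locs
  simp only [List.mem_append, List.mem_flatMap, List.mem_map, List.mem_range, List.mem_cons,
    List.not_mem_nil, or_false, Prod.mk.injEq, true_and]
  left; left; left
  refine ⟨i, hi, ?_⟩
  simp only [and_true]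
  omega

/-- The hubs of kind `8` are local. -/
theorem coreC_loc8 {F : ℕ} {φ : N3} {α h : ℕ} (hh : h < 5) : (8, α, h) ∈ locs F φ α := by
  unfold locs
  simp only [List.mem_append, List.mem_flatMap, List.mem_map, List.mem_range, List.mem_cons,
    List.not_mem_nil, or_false, Prod.mk.injEq, true_and]
  left; left; right
  exact ⟨h, hh, rfl⟩

/-- The items of the pairs of hubs in two copies. -/
theorem coreC_itD {N M F : ℕ} {φ : N3} {α β : ℕ} (hab : α < β) (hb : β < N) {p q : Hub}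
    (hp : p ∈ locs F φ α) (hq : q ∈ locs F φ β) :
    (([p, q, (0, 0, 2), (0, 0, 3)], grA M (α + 1), grB M (α + 1), grA M 0, grA M N) : Item) ∈
      itD N M F φ ∧
    (([p, q, (0, 0, 0), (0, 0, 1)], grA M (α + 1), grB M (α + 1), grA M 0, grA M N) : Item) ∈
      itD N M F φ := by
  unfold itD
  constructor
  · rw [List.mem_flatMap]
    refine ⟨β, List.mem_range.2 hb, ?_⟩
    rw [List.mem_flatMap]
    refine ⟨α, List.mem_range.2 hab, ?_⟩
    rw [List.mem_flatMap]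
    refine ⟨p, hp, ?_⟩
    rw [List.mem_flatMap]
    exact ⟨q, hq, List.mem_cons_self⟩
  · rw [List.mem_flatMap]
    refine ⟨β, List.mem_range.2 hb, ?_⟩
    rw [List.mem_flatMap]
    refine ⟨α, List.mem_range.2 hab, ?_⟩
    rw [List.mem_flatMap]
    refine ⟨p, hp, ?_⟩
    rw [List.mem_flatMap]
    exact ⟨q, hq, List.mem_cons_of_mem _ List.mem_cons_self⟩

/-- The common part of the two soundness proofs. -/
theorem coreC (N M F : ℕ) (hN : 11521 ≤ N) (φ : N3) (hb : BN φ) (R B : Hub → Hub → Prop)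
    (hn : Nice R B) (hD : ∀ it ∈ itD N M F φ, Split R B it.1)
    (hloc : ∀ α < N, ∀ X Y : Hub → Hub → Prop, (X = R ∧ Y = B ∨ X = B ∧ Y = R) →
      GoodCp F φ α X Y → LocOK F φ α X Y) : NAE3 φ := by
  have hout : ∀ (α k : ℕ), ((0, 0, k) : Hub) ∉ (locs F φ α).toFinset := by
    intro α k hk
    rw [List.mem_toFinset] at hk
    have := (coreC_mem hk).1
    simp at this
  obtain ⟨α, hα, X, Y, hXY, g, g', hgg, hall⟩ := good_copy hn N hN
    (fun α => (locs F φ α).toFinset) (0, 0, 0) (0, 0, 1) (0, 0, 2) (0, 0, 3)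
    (by decide)
    (fun α _ => ⟨hout α 0, hout α 1, hout α 2, hout α 3⟩)
    (by
      intro α β _ _ hab
      rw [Finset.disjoint_left]
      intro x hx hx'
      rw [List.mem_toFinset] at hx hx'
      exact hab ((coreC_mem hx).2.symm.trans (coreC_mem hx').2))
    (by
      intro α β hab hβ p hp q hq
      rw [List.mem_toFinset] at hp hq
      have := coreC_itD (M := M) hab hβ hp hq
      exact ⟨hD _ this.1, hD _ this.2⟩)
  have hall' : ∀ v ∈ locs F φ α, X (0, 0, 2) v ∧ ¬ Y (0, 0, 2) v ∧ Y (0, 0, 3) v ∧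
      ¬ X (0, 0, 3) v ∧ X g v ∧ Y g' v := fun v hv => hall v (List.mem_toFinset.2 hv)
  -- the two colours are nice
  have hX : K33Free X ∧ (∀ x y, X x y → X y x) ∧ (∀ x, ¬ X x x) := by
    rcases hXY with ⟨rfl, rfl⟩ | ⟨rfl, rfl⟩
    · exact ⟨hn.rk, hn.rs, hn.ri⟩
    · exact ⟨hn.bk, hn.bs, hn.bi⟩
  have hY : K33Free Y ∧ (∀ x y, Y x y → Y y x) ∧ (∀ x, ¬ Y x x) := by
    rcases hXY with ⟨rfl, rfl⟩ | ⟨rfl, rfl⟩
    · exact ⟨hn.bk, hn.bs, hn.bi⟩
    · exact ⟨hn.rk, hn.rs, hn.ri⟩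
  have hg2 : ((0, 0, 2) : Hub) ≠ g := by
    rcases hgg with ⟨rfl, rfl⟩ | ⟨rfl, rfl⟩ <;> decide
  have hg3 : ((0, 0, 3) : Hub) ≠ g' := by
    rcases hgg with ⟨rfl, rfl⟩ | ⟨rfl, rfl⟩ <;> decide
  have hgn : g ∉ (locs F φ α).toFinset := by
    rcases hgg with ⟨rfl, rfl⟩ | ⟨rfl, rfl⟩ <;> exact hout α _
  have hgn' : g' ∉ (locs F φ α).toFinset := by
    rcases hgg with ⟨rfl, rfl⟩ | ⟨rfl, rfl⟩ <;> exact hout α _
  have cX : ∀ v ∈ locs F φ α, ∀ A : Finset Hub, (∀ y ∈ A, y ∈ locs F φ α ∧ X v y) →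
      A.card ≤ 2 := by
    intro v hv A hA
    exact cap hX.1 hX.2.1 hX.2.2 (locs F φ α).toFinset (0, 0, 2) g hg2 (hout α 2) hgn
      (fun v hv => ⟨(hall' v (List.mem_toFinset.1 hv)).1,
        (hall' v (List.mem_toFinset.1 hv)).2.2.2.2.1⟩) v (List.mem_toFinset.2 hv) A
      (fun y hy => ⟨List.mem_toFinset.2 (hA y hy).1, (hA y hy).2⟩)
  have cY : ∀ v ∈ locs F φ α, ∀ A : Finset Hub, (∀ y ∈ A, y ∈ locs F φ α ∧ Y v y) →
      A.card ≤ 2 := by
    intro v hv A hA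
    exact cap hY.1 hY.2.1 hY.2.2 (locs F φ α).toFinset (0, 0, 3) g' hg3 (hout α 3) hgn'
      (fun v hv => ⟨(hall' v (List.mem_toFinset.1 hv)).2.2.1,
        (hall' v (List.mem_toFinset.1 hv)).2.2.2.2.2⟩) v (List.mem_toFinset.2 hv) A
      (fun y hy => ⟨List.mem_toFinset.2 (hA y hy).1, (hA y hy).2⟩)
  obtain ⟨h1, h2, h3⟩ := hloc α hα X Y hXY
    ⟨fun v hv => (hall' v hv).2.1, fun v hv => (hall' v hv).2.2.2.1, cX, cY⟩
  exact logic F φ hb α X Y hX.2.1 hY.2.1 cX cY h1 h2 h3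

end Pool.Agent.RAC963
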