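import Mathlib

/-!
# Right-angle-crossing drawings with bends
-/

set_option autoImplicit false

namespace Pool.Agent.RAC963

/-- Points of the Euclidean plane. -/
abbrev Pt : Type := ℝ × ℝ

/-- The straight segments (given by their two ends) of the polygonal chain with the list of
corners `c`. -/
def segs (c : List Pt) : List (Pt × Pt) := c.zip c.tail

/-- The two straight segments are perpendicular. -/
def Perp (s t : Pt × Pt) : Prop :=
  (s.2.1 - s.1.1) * (t.2.1 - t.1.1) + (s.2.2 - s.1.2) * (t.2.2 - t.1.2) = 0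

/-- The point `z` lies on the polygonal chain with corners `c`. -/
def On (c : List Pt) (z : Pt) : Prop := ∃ s ∈ segs c, z ∈ segment ℝ s.1 s.2

/-- `c` is the list of corners of a polygonal chain from `p` to `q` with at most `k` bends (so with
at most `k + 1` segments, none of which is degenerate). -/
def IsChain (k : ℕ) (p q : Pt) (c : List Pt) : Prop :=
  c.head? = some p ∧ c.getLast? = some q ∧ c.length ≤ k + 2 ∧ ∀ s ∈ segs c, s.1 ≠ s.2

/-- The polygonal chain does not meet itself: each segment meets the later part of the chain only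
in the corner where it ends. -/
def SimpleChain : List Pt → Prop
  | [] => True
  | [_] => True
  | a :: b :: l => (∀ s ∈ segs (b :: l), ∀ z ∈ segment ℝ a b, z ∈ segment ℝ s.1 s.2 → z = b) ∧
      SimpleChain (b :: l)

/-- `pos` (the points of the vertices) and `c` (the chains of the edges `uv`, `u < v`) form a
`k`-bend RAC drawing of the graph `G`. -/
structure IsRAC (k : ℕ) {V : Type} [LinearOrder V] (G : SimpleGraph V) (pos : V → Pt)
    (c : V → V → List Pt) : Prop where
  inj : Function.Injective pos
  chain : ∀ u v, G.Adj u v → u < v → IsChain k (pos u) (pos v) (c u v)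
  avoid : ∀ u v, G.Adj u v → u < v → ∀ x, x ≠ u → x ≠ v → ¬ On (c u v) (pos x)
  finite : ∀ u v, G.Adj u v → u < v → ∀ u' v', G.Adj u' v' → u' < v' → (u, v) ≠ (u', v') →
    {z | On (c u v) z ∧ On (c u' v') z}.Finite
  cross : ∀ u v, G.Adj u v → u < v → ∀ u' v', G.Adj u' v' → u' < v' → (u, v) ≠ (u', v') →
    ∀ s ∈ segs (c u v), ∀ t ∈ segs (c u' v'), ∀ z ∈ segment ℝ s.1 s.2, z ∈ segment ℝ t.1 t.2 →
      (∃ x, (x = u ∨ x = v) ∧ (x = u' ∨ x = v') ∧ z = pos x) ∨
      (z ∈ openSegment ℝ s.1 s.2 ∧ z ∈ openSegment ℝ t.1 t.2 ∧ Perp s t)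

/-- The graph has a `k`-bend RAC drawing (if `si`, one in which every edge is drawn as a chain that
does not meet itself). -/
def Drawable (k : ℕ) (si : Prop) {V : Type} [LinearOrder V] (G : SimpleGraph V) : Prop :=
  ∃ (pos : V → Pt) (c : V → V → List Pt), IsRAC k G pos c ∧
    (si → ∀ u v, G.Adj u v → u < v → SimpleChain (c u v))

/-- A code of a finite graph: the number of vertices and a list of edges. -/
abbrev GCode : Type := ℕ × List (ℕ × ℕ)

/-- The finite simple graph coded by `(n, E)`: its vertices are `0, …, n - 1`, and two distinct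
vertices are adjacent if and only if they form (in one of the two orders) a member of `E`. -/
def graphOf (G : GCode) : SimpleGraph (Fin G.1) where
  Adj u v := u ≠ v ∧ (((u : ℕ), (v : ℕ)) ∈ G.2 ∨ ((v : ℕ), (u : ℕ)) ∈ G.2)
  symm := ⟨fun _ _ h => ⟨h.1.symm, h.2.symm⟩⟩
  loopless := ⟨fun _ h => h.1 rfl⟩

/-- The decision problem `RAC_k`: is the given graph `k`-bend RAC drawable? -/
def RAC (k : ℕ) (si : Prop) (G : GCode) : Prop := Drawable k si (graphOf G)

end Pool.Agent.RAC963
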