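import Pool.Agent.RAC963.Parts

set_option autoImplicit false

namespace Pool.Agent.RAC963

theorem dis_list {A : Type} (l : List A) (hl : l.length ≤ 3) {s : A} (hs : s ∈ l) :
    l.getLast? = some s ∨ l.dropLast.getLast? = some s ∨
      l.dropLast.dropLast.getLast? = some s := by
  match l, hl, hs with
  | [], _, hs => exact absurd hs (by simp)
  | [a], _, hs =>
    have : s = a := by simpa using hs
    subst this
    exact Or.inl rfl
  | [a, b], _, hs =>
    have : s = a ∨ s = b := by simpa using hs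
    rcases this with rfl | rfl
    · exact Or.inr (Or.inl rfl)
    · exact Or.inl rfl
  | [a, b, c], _, hs =>
    have : s = a ∨ s = b ∨ s = c := by simpa using hs
    rcases this with rfl | rfl | rfl
    · exact Or.inr (Or.inr rfl)
    · exact Or.inr (Or.inl rfl)
    · exact Or.inl rfl
  | _ :: _ :: _ :: _ :: _, hl, _ => simp only [List.length_cons] at hl; omega

theorem dis_cases {k : ℕ} (hk : k ≤ 2) {p q : Pt} {c : List Pt} (hc : IsChain k p q c)
    {s : Pt × Pt} (hs : s ∈ segs c) : IsTail c s ∨ IsMid c s ∨ IsArm c s := by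
  refine dis_list (segs c) ?_ hs
  unfold segs
  rw [List.length_zip, List.length_tail]
  have := hc.2.2.1
  omega

theorem dis_red {c : List Pt} {s : Pt × Pt} (hs : IsMid c s) : Red c ↔ RedDir s := by
  constructor
  · intro h; exact h s hs
  · intro h t ht
    unfold IsMid at hs ht
    rw [hs] at ht
    cases ht
    exact h

theorem dis_perp {s t : Pt × Pt} (hs : s.1 ≠ s.2) (ht : t.1 ≠ t.2) (hp : Perp s t) :
    ¬ (RedDir s ↔ RedDir t) := by
  unfold Perp at hp
  unfold RedDir
  have hs' : s.2.1 - s.1.1 ≠ 0 ∨ s.2.2 - s.1.2 ≠ 0 := by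
    by_contra h
    push Not at h
    exact hs (Prod.ext (by linarith [h.1]) (by linarith [h.2]))
  have ht' : t.2.1 - t.1.1 ≠ 0 ∨ t.2.2 - t.1.2 ≠ 0 := by
    by_contra h
    push Not at h
    exact ht (Prod.ext (by linarith [h.1]) (by linarith [h.2]))
  generalize s.2.1 - s.1.1 = a at *
  generalize s.2.2 - s.1.2 = b at *
  generalize t.2.1 - t.1.1 = c at *
  generalize t.2.2 - t.1.2 = d at *
  have hprod : (a * b) * (c * d) = -(b * d) ^ 2 := by
    have : a * c = -(b * d) := by linarith
    calc (a * b) * (c * d) = (a * c) * (b * d) := by ring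
      _ = -(b * d) ^ 2 := by rw [this]; ring
  intro h
  by_cases h1 : 0 < a * b ∨ b = 0
  · have h2 := h.1 h1
    rcases h1 with h1 | h1
    · rcases h2 with h2 | h2
      · have := mul_pos h1 h2
        nlinarith [sq_nonneg (b * d)]
      · subst h2
        have h3 : a * c = 0 := by linarith
        rcases mul_eq_zero.1 h3 with h4 | h4
        · rw [h4] at h1; simp at h1
        · rcases ht' with h5 | h5 <;> contradiction
    · subst h1
      have h3 : a * c = 0 := by linarith
      have ha : a ≠ 0 := by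
        rcases hs' with h5 | h5
        · exact h5
        · exact absurd rfl h5
      have hc : c = 0 := (mul_eq_zero.1 h3).resolve_left ha
      subst hc
      rcases h2 with h2 | h2
      · simp at h2
      · subst h2
        rcases ht' with h5 | h5 <;> exact absurd rfl h5
  · have h2 : ¬ (0 < c * d ∨ d = 0) := fun h2 => h1 (h.2 h2)
    push Not at h1 h2
    obtain ⟨h1, hb⟩ := h1
    obtain ⟨h2, hd⟩ := h2
    have h3 : 0 ≤ (a * b) * (c * d) := mul_nonneg_of_nonpos_of_nonpos h1 h2
    have h4 : 0 < (b * d) ^ 2 := by positivity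
    linarith

/-- Edges of good reps with the same colour and uncrossed arms are disjoint. -/
theorem good_disjoint {H : Type} {k q c : ℕ} {𝓔 : List (List H)} {T : ℕ} {hp : H → Pt}
    {wp : ℕ → ℕ → Pt} {ch : ℕ → ℕ → H → List Pt} (hk : k ≤ 2) (hd : IsHD k 𝓔 T hp wp ch)
    {f : ℕ → ℕ → ℕ} (hf : Good q c 𝓔 T ch f) {j i j' i' : ℕ} {h h' : H}
    (hs : Slot 𝓔 q j i) (hs' : Slot 𝓔 q j' i') (hne : ¬ (j' = j ∧ i' = i))
    (hh : In 𝓔 j h) (hh' : In 𝓔 j' h') (hhh : h' ≠ h)
    (hc : ¬ Crossed 𝓔 q ch f j i h) (hc' : ¬ Crossed 𝓔 q ch f j' i' h')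
    (hr : Red (ch j (f j i) h) ↔ Red (ch j' (f j' i') h')) :
    Disjoint {z | On (ch j (f j i) h) z} {z | On (ch j' (f j' i') h') z} := by
  rw [Set.disjoint_left]
  rintro z ⟨s, hss, hz⟩ ⟨s', hss', hz'⟩
  have hne' : ¬ (j = j' ∧ i = i') := fun e => hne ⟨e.1.symm, e.2.symm⟩
  have c1 := hd.chain j (f j i) h (hf.lt j i hs) hh
  have c2 := hd.chain j' (f j' i') h' (hf.lt j' i' hs') hh'
  rcases dis_cases hk c1 hss with h1 | h1 | h1
  · exact hf.tail j i j' i' hs hs' hne h h' hh hh' hhh s s' h1 hss' z hz hz'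
  · rcases dis_cases hk c2 hss' with h2 | h2 | h2
    · exact hf.tail j' i' j i hs' hs hne' h' h hh' hh hhh.symm s' s h2 hss z hz' hz
    · rcases hd.cross j (f j i) h j' (f j' i') h' (hf.lt j i hs) (hf.lt j' i' hs') hh hh'
        (fun e => hhh e.2.2.symm) s hss s' hss' z hz hz' with h3 | h3 | h3
      · obtain ⟨e1, e2, -⟩ := h3
        subst e1
        exact hne ⟨rfl, (hf.inj j i i' hs hs' e2).symm⟩
      · exact hhh h3.1.symm
      · rw [dis_red h1, dis_red h2] at hr
        exact dis_perp (c1.2.2.2 s hss) (c2.2.2.2 s' hss') h3.2.2 hr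
    · exact hc' ⟨j, i, h, s', s, hs, hne', hh, hhh.symm, h2, hss, z, hz', hz⟩
  · exact hc ⟨j', i', h', s, s', hs', hne, hh', hhh, h1, hss', z, hz, hz'⟩

end Pool.Agent.RAC963
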