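import Pool.Agent.RAC963.Main2

/-!
# Hardness for graphs whose number of vertices is at most the length of the edge list
-/

set_option autoImplicit false

namespace Pool.Agent.RAC963

open Pool.Agent

theorem length_flatMap_le {β γ : Type} (c : ℕ) (g : β → List γ) :
    ∀ l : List β, (∀ b ∈ l, (g b).length = c) → (l.flatMap g).length = c * l.length
  | [], _ => by simp
  | b :: l, h => by
    rw [List.flatMap_cons, List.length_append,
      length_flatMap_le c g l fun b hb => h b (List.mem_cons_of_mem _ hb),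
      h b List.mem_cons_self, List.length_cons]
    ring

theorem length_flatten_eq {γ : Type} (c : ℕ) :
    ∀ l : List (List γ), (∀ b ∈ l, b.length = c) → l.flatten.length = c * l.length
  | [], _ => by simp
  | b :: l, h => by
    rw [List.flatten_cons, List.length_append,
      length_flatten_eq c l fun b hb => h b (List.mem_cons_of_mem _ hb),
      h b List.mem_cons_self, List.length_cons]
    ring

/-- The hub graph has at most as many vertices as listed edges. -/
theorem gr_le {H : Type} {q : ℕ} (hq : 2 ≤ q) {𝓔 : List (List H)} (hE : ∀ E ∈ 𝓔, E.length = q)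
    {T : ℕ} (hT : 2 ≤ T) : (gr T 𝓔).1 ≤ (gr T 𝓔).2.length := by
  have h1 : (gr T 𝓔).2.length = (T * q) * 𝓔.length := by
    unfold gr
    dsimp only
    rw [length_flatMap_le (T * q), List.length_zipIdx]
    rintro ⟨E, j⟩ hEj
    rw [List.mem_zipIdx_iff_getElem?] at hEj
    have hEm : E ∈ 𝓔 := List.mem_of_getElem? hEj
    rw [length_flatMap_le q, List.length_range]
    · ring
    · intro t _
      rw [List.length_map]
      exact hE E hEm
  have h2 : (gr T 𝓔).1 = T * 𝓔.length + q * 𝓔.length := by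
    unfold gr
    dsimp only
    rw [length_flatten_eq q 𝓔 hE]
  rw [h1, h2, ← add_mul]
  refine Nat.mul_le_mul_right _ ?_
  nlinarith

theorem bT_ge {k q e : ℕ} (he : 1 ≤ e) : 2 ≤ bT k q e := by
  unfold bT
  have h1 : 1 ≤ e * nr q := by
    have : 1 ≤ nr q := by
      unfold nr
      omega
    exact Nat.mul_pos he this
  have h2 : 1 ≤ (e * nr q) * (e * nr q) * (q * q * (k + 1) + 1) :=
    Nat.mul_pos (Nat.mul_pos h1 h1) (Nat.succ_pos _)
  have h3 : 0 ≤ (e * nr q) * (q * (e * nr q) * q * 3 * 2) ^ 5 := Nat.zero_le _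
  omega

theorem gr_le' {H : Type} {k q : ℕ} (hq : 2 ≤ q) {𝓔 : List (List H)}
    (hE : ∀ E ∈ 𝓔, E.length = q) :
    (gr (bT k q 𝓔.length) 𝓔).1 ≤ (gr (bT k q 𝓔.length) 𝓔).2.length := by
  rcases Nat.eq_zero_or_pos 𝓔.length with h | h
  · rw [List.length_eq_zero_iff] at h
    subst h
    simp [gr]
  · exact gr_le hq hE (bT_ge h)

/-- `RAC_1` is NP-hard, also for graphs with at most as many vertices as listed edges. -/
theorem rac1_hard' (si : Prop) :
    NPC.NPHardP (fun G : GCode => G.1 ≤ G.2.length ∧ RAC 1 si G) := by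
  have h := R544.hardPr_NAE3.trans (Pr' := fun _ : GCode => True)
    (Q := fun G : GCode => G.1 ≤ G.2.length ∧ RAC 1 si G) (f := red1)
    (poly_red1 11521) (fun _ _ => trivial)
    (fun φ hb => (red1_correct hb si).trans
      ⟨fun h => ⟨gr_le' (by norm_num) fun E hE => (fam1_card hE).2, h⟩, fun h => h.2⟩)
  exact h.toHardI.toNPHardP

/-- `RAC_2` is NP-hard, also for graphs with at most as many vertices as listed edges. -/
theorem rac2_hard' (si : Prop) :
    NPC.NPHardP (fun G : GCode => G.1 ≤ G.2.length ∧ RAC 2 si G) := by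
  obtain ⟨M, hM⟩ : ∃ M : ℕ, 10 ^ 7 ≤ M := ⟨_, le_rfl⟩
  obtain ⟨N, hN⟩ : ∃ N : ℕ, 11521 ≤ N := ⟨_, le_rfl⟩
  have h := R544.hardPr_NAE3.trans (Pr' := fun _ : GCode => True)
    (Q := fun G : GCode => G.1 ≤ G.2.length ∧ RAC 2 si G)
    (f := red2 N M 40) (poly_red2 N M 40) (fun _ _ => trivial)
    (fun φ hb => (red2_correct hN hM le_rfl hb si).trans
      ⟨fun h => ⟨gr_le' (by norm_num) fun E hE => (fam2_card hE).2, h⟩, fun h => h.2⟩)
  exact h.toHardI.toNPHardP

end Pool.Agent.RAC963
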