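import Mathlib

set_option autoImplicit false

namespace Pool.Agent.RAC963

open Classical in
/-- double counting over one slot -/
theorem sel_count {I : Type} [Fintype I] [DecidableEq I] (T : ℕ) (i : I)
    (P : (I → Fin T) → Prop) :
    ∑ f : I → Fin T, ∑ t : Fin T, (if P (Function.update f i t) then 1 else 0) =
      T * ∑ f : I → Fin T, (if P f then 1 else 0 : ℕ) := by
  let e : ((I → Fin T) × Fin T) ≃ ((I → Fin T) × Fin T) :=
    { toFun := fun p => (Function.update p.1 i p.2, p.1 i)
      invFun := fun p => (Function.update p.1 i p.2, p.1 i)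
      left_inv := by
        rintro ⟨f, t⟩
        simp
      right_inv := by
        rintro ⟨f, t⟩
        simp }
  rw [← Fintype.sum_prod_type' (f := fun (f : I → Fin T) (t : Fin T) =>
    (if P (Function.update f i t) then 1 else 0 : ℕ))]
  have h1 : ∑ p : (I → Fin T) × Fin T, (if P (Function.update p.1 i p.2) then 1 else 0 : ℕ) =
      ∑ p : (I → Fin T) × Fin T, (if P p.1 then 1 else 0 : ℕ) :=
    Fintype.sum_equiv e _ _ (fun p => rfl)
  rw [h1, Fintype.sum_prod_type' (f := fun (f : I → Fin T) (_ : Fin T) =>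
    (if P f then 1 else 0 : ℕ)), Finset.mul_sum]
  apply Finset.sum_congr rfl
  intro f _
  rw [Finset.sum_const, Finset.card_univ, Fintype.card_fin, smul_eq_mul]

/-- Selection lemma. -/
theorem selection {I C : Type} [Fintype I] [DecidableEq I] [Fintype C] (T : ℕ) (D : C → ℕ)
    (slot : C → I) (bad : C → (I → Fin T) → Prop)
    (h : ∀ c f, ({t : Fin T | bad c (Function.update f (slot c) t)}).ncard ≤ D c)
    (hT : ∑ c, D c < T) : ∃ f : I → Fin T, ∀ c, ¬ bad c f := by
  classical
  by_contra hcon
  push Not at hcon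
  have hT0 : 0 < T := lt_of_le_of_lt (Nat.zero_le _) hT
  have h1 : ∀ c, T * ∑ f : I → Fin T, (if bad c f then 1 else 0 : ℕ) ≤
      D c * Fintype.card (I → Fin T) := by
    intro c
    rw [← sel_count T (slot c) (bad c)]
    calc ∑ f : I → Fin T, ∑ t : Fin T, (if bad c (Function.update f (slot c) t) then 1 else 0 : ℕ)
        ≤ ∑ _f : I → Fin T, D c := by
          apply Finset.sum_le_sum
          intro f _
          have h2 := h c f
          rw [Set.ncard_eq_toFinset_card'] at h2
          rw [← Finset.card_filter]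
          refine le_trans (le_of_eq ?_) h2
          congr 1
          ext t
          simp
      _ = D c * Fintype.card (I → Fin T) := by
          rw [Finset.sum_const, Finset.card_univ, smul_eq_mul, mul_comm]
  have h2 : Fintype.card (I → Fin T) ≤
      ∑ f : I → Fin T, ∑ c, (if bad c f then 1 else 0 : ℕ) := by
    rw [← Finset.card_univ, Finset.card_eq_sum_ones]
    apply Finset.sum_le_sum
    intro f _
    obtain ⟨c, hc⟩ := hcon f
    calc 1 = (if bad c f then 1 else 0 : ℕ) := by rw [if_pos hc]
      _ ≤ ∑ c, (if bad c f then 1 else 0 : ℕ) :=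
          Finset.single_le_sum (f := fun c => (if bad c f then 1 else 0 : ℕ))
            (fun _ _ => Nat.zero_le _) (Finset.mem_univ c)
  rw [Finset.sum_comm] at h2
  have h3 : 0 < Fintype.card (I → Fin T) := by
    have : Nonempty (I → Fin T) := ⟨fun _ => ⟨0, hT0⟩⟩
    exact Fintype.card_pos
  have h4 : T * Fintype.card (I → Fin T) ≤ (∑ c, D c) * Fintype.card (I → Fin T) := by
    calc T * Fintype.card (I → Fin T)
        ≤ T * ∑ c, ∑ f : I → Fin T, (if bad c f then 1 else 0 : ℕ) := Nat.mul_le_mul_left _ h2
      _ = ∑ c, T * ∑ f : I → Fin T, (if bad c f then 1 else 0 : ℕ) := Finset.mul_sum _ _ _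
      _ ≤ ∑ c, D c * Fintype.card (I → Fin T) := Finset.sum_le_sum (fun c _ => h1 c)
      _ = (∑ c, D c) * Fintype.card (I → Fin T) := (Finset.sum_mul _ _ _).symm
  have h5 := Nat.le_of_mul_le_mul_right h4 h3
  omega

end Pool.Agent.RAC963
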