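import Pool.Agent.RAC963.Attack
import Pool.Agent.RAC963.Sel

set_option autoImplicit false

namespace Pool.Agent.RAC963

theorem geo1_segs_length (c : List Pt) : (segs c).length = c.length - 1 := by
  unfold segs
  rw [List.length_zip, List.length_tail]
  omega

/-- The values of one rep whose tail at the hub number `p.1` meets the segment number `p.2.2` of
the edge from the other rep to its hub number `p.2.1`. -/
def geo1_B {H : Type} (𝓔 : List (List H)) (T : ℕ) (ch : ℕ → ℕ → H → List Pt) (j j' t' : ℕ)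
    (p : Fin 4 × Fin 4 × Fin 2) : Set (Fin T) :=
  {t | ¬ (j = j' ∧ (t : ℕ) = t') ∧ ∃ (h h' : H) (s s' : Pt × Pt) (z : Pt),
    (𝓔.getD j [])[(p.1 : ℕ)]? = some h ∧ (𝓔.getD j' [])[(p.2.1 : ℕ)]? = some h' ∧ h' ≠ h ∧
    IsTail (ch j t h) s ∧ (segs (ch j' t' h'))[(p.2.2 : ℕ)]? = some s' ∧
    z ∈ segment ℝ s.1 s.2 ∧ z ∈ segment ℝ s'.1 s'.2}

theorem geo1_B_card {H : Type} {𝓔 : List (List H)} {T : ℕ} {hp : H → Pt} {wp : ℕ → ℕ → Pt}
    {ch : ℕ → ℕ → H → List Pt} (hd : IsHD 1 𝓔 T hp wp ch) (j j' t' : ℕ) (ht' : t' < T)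
    (p : Fin 4 × Fin 4 × Fin 2) : (geo1_B 𝓔 T ch j j' t' p).ncard ≤ 1 := by
  rw [Set.ncard_le_one_iff (Set.toFinite _)]
  rintro t₁ t₂ ⟨n₁, h, h', s₁, s', z₁, a₁, b₁, c₁, d₁, e₁, f₁, g₁⟩
    ⟨n₂, k, k', s₂, r', z₂, a₂, b₂, c₂, d₂, e₂, f₂, g₂⟩
  rw [a₁] at a₂
  rw [b₁] at b₂
  obtain rfl := Option.some.inj a₂
  obtain rfl := Option.some.inj b₂
  rw [e₁] at e₂
  obtain rfl := Option.some.inj e₂
  have m₁ : In 𝓔 j h := List.mem_of_getElem? a₁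
  have m₂ : In 𝓔 j' h' := List.mem_of_getElem? b₁
  have m₃ : s' ∈ segs (ch j' t' h') := List.mem_of_getElem? e₁
  exact Fin.ext (attack_unique hd ht' m₂ m₃ m₁ c₁.symm t₁.2 t₂.2 n₁ n₂ d₁ d₂ f₁ g₁ f₂ g₂)

/-- The bad events. -/
def geo1_bad {H : Type} (𝓔 : List (List H)) (T n : ℕ) (ch : ℕ → ℕ → H → List Pt)
    (c : (Fin 𝓔.length × Fin n) × (Fin 𝓔.length × Fin n))
    (f : Fin 𝓔.length × Fin n → Fin T) : Prop :=
  c.1 ≠ c.2 ∧ ((c.1.1 = c.2.1 ∧ f c.1 = f c.2) ∨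
    ∃ (h h' : H) (s s' : Pt × Pt) (z : Pt), In 𝓔 c.1.1 h ∧ In 𝓔 c.2.1 h' ∧ h' ≠ h ∧
      IsTail (ch c.1.1 (f c.1) h) s ∧ s' ∈ segs (ch c.2.1 (f c.2) h') ∧
      z ∈ segment ℝ s.1 s.2 ∧ z ∈ segment ℝ s'.1 s'.2)

theorem geo1_bad_card {H : Type} {𝓔 : List (List H)} (hE : ∀ E ∈ 𝓔, E.Nodup ∧ E.length = 4)
    {T n : ℕ} {hp : H → Pt} {wp : ℕ → ℕ → Pt} {ch : ℕ → ℕ → H → List Pt}
    (hd : IsHD 1 𝓔 T hp wp ch) (c : (Fin 𝓔.length × Fin n) × (Fin 𝓔.length × Fin n))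
    (f : Fin 𝓔.length × Fin n → Fin T) :
    ({t : Fin T | geo1_bad 𝓔 T n ch c (Function.update f c.1 t)}).ncard ≤ 4 * 4 * (1 + 1) + 1 := by
  have hlen : ∀ j : Fin 𝓔.length, (𝓔.getD j []).length = 4 := by
    intro j
    rw [List.getD_eq_getElem _ _ j.2]
    exact (hE _ (List.getElem_mem j.2)).2
  have hsub : {t : Fin T | geo1_bad 𝓔 T n ch c (Function.update f c.1 t)} ⊆
      {f c.2} ∪ ⋃ p : Fin 4 × Fin 4 × Fin 2, geo1_B 𝓔 T ch c.1.1 c.2.1 (f c.2) p := by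
    rintro t ⟨hne, ht⟩
    have h2 : Function.update f c.1 t c.2 = f c.2 := Function.update_of_ne hne.symm _ _
    rw [Function.update_self, h2] at ht
    by_cases hft : c.1.1 = c.2.1 ∧ t = f c.2
    · left
      exact hft.2
    right
    rcases ht with ht | ⟨h, h', s, s', z, a, b, c', d, e, f', g⟩
    · exact absurd ht hft
    obtain ⟨i₁, hi₁, hi₁'⟩ := List.getElem_of_mem a
    obtain ⟨i₂, hi₂, hi₂'⟩ := List.getElem_of_mem b
    obtain ⟨i₃, hi₃, hi₃'⟩ := List.getElem_of_mem e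
    have hl₁ := hlen c.1.1
    have hl₂ := hlen c.2.1
    have hch := hd.chain _ _ _ (f c.2).2 b
    have hl₃ := hch.2.2.1
    have hl₄ := geo1_segs_length (ch c.2.1 (f c.2) h')
    refine Set.mem_iUnion.2 ⟨(⟨i₁, by omega⟩, ⟨i₂, by omega⟩, ⟨i₃, by omega⟩), ?_, h, h', s, s', z,
      ?_, ?_, c', d, ?_, f', g⟩
    · rintro ⟨h1, h2⟩
      exact hft ⟨Fin.ext h1, Fin.ext h2⟩
    · rw [List.getElem?_eq_getElem hi₁, hi₁']
    · rw [List.getElem?_eq_getElem hi₂, hi₂']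
    · rw [List.getElem?_eq_getElem hi₃, hi₃']
  refine (Set.ncard_le_ncard hsub (Set.toFinite _)).trans ?_
  refine (Set.ncard_union_le _ _).trans ?_
  rw [Set.ncard_singleton]
  have h1 : (⋃ p : Fin 4 × Fin 4 × Fin 2, geo1_B 𝓔 T ch c.1.1 c.2.1 (f c.2) p).ncard ≤
      ∑ p : Fin 4 × Fin 4 × Fin 2, (geo1_B 𝓔 T ch c.1.1 c.2.1 (f c.2) p).ncard :=
    Set.ncard_iUnion_le_of_fintype _
  have h2 : ∑ p : Fin 4 × Fin 4 × Fin 2, (geo1_B 𝓔 T ch c.1.1 c.2.1 (f c.2) p).ncard ≤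
      ∑ _p : Fin 4 × Fin 4 × Fin 2, 1 :=
    Finset.sum_le_sum fun p _ => geo1_B_card hd _ _ _ (f c.2).2 p
  have h3 : ∑ _p : Fin 4 × Fin 4 × Fin 2, 1 = 32 := by simp
  omega

/-- Good reps for one bend. -/
theorem geo1_good {H : Type} {𝓔 : List (List H)} (hE : ∀ E ∈ 𝓔, E.Nodup ∧ E.length = 4)
    {T : ℕ} (hT : bT 1 4 𝓔.length ≤ T) {hp : H → Pt} {wp : ℕ → ℕ → Pt}
    {ch : ℕ → ℕ → H → List Pt} (hd : IsHD 1 𝓔 T hp wp ch) :
    ∃ f : ℕ → ℕ → ℕ, Good 4 0 𝓔 T ch f := by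
  classical
  obtain ⟨f, hf⟩ := selection (I := Fin 𝓔.length × Fin (nr 4))
    (C := (Fin 𝓔.length × Fin (nr 4)) × (Fin 𝓔.length × Fin (nr 4))) T
    (fun _ => 4 * 4 * (1 + 1) + 1) Prod.fst (geo1_bad 𝓔 T (nr 4) ch)
    (fun c f => geo1_bad_card hE hd c f) (by
      rw [Finset.sum_const, Finset.card_univ, smul_eq_mul]
      simp only [Fintype.card_prod, Fintype.card_fin]
      unfold bT at hT
      omega)
  have key : ∀ (x y : Fin 𝓔.length × Fin (nr 4)), x ≠ y → x.1 = y.1 → f x ≠ f y := by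
    intro x y hxy h1 h2
    exact hf (x, y) ⟨hxy, Or.inl ⟨h1, h2⟩⟩
  refine ⟨fun j i => if h : j < 𝓔.length ∧ i < nr 4 then f (⟨j, h.1⟩, ⟨i, h.2⟩) else 0, ?_⟩
  constructor
  · intro j i hs
    have hs' : j < 𝓔.length ∧ i < nr 4 := hs
    rw [dif_pos hs']
    exact (f _).2
  · intro j i i' hs ht hff
    have hs' : j < 𝓔.length ∧ i < nr 4 := hs
    have ht' : j < 𝓔.length ∧ i' < nr 4 := ht
    simp only [dif_pos hs', dif_pos ht'] at hff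
    by_contra hne
    refine key (⟨j, hs'.1⟩, ⟨i, hs'.2⟩) (⟨j, ht'.1⟩, ⟨i', ht'.2⟩) ?_ rfl (Fin.ext hff)
    intro h
    have := congrArg (fun x => (x.2 : ℕ)) h
    exact hne this
  · intro j i j' i' hs ht hne h h' hh hh' hhh s s' hts hs' z hz hz'
    have ps : j < 𝓔.length ∧ i < nr 4 := hs
    have pt : j' < 𝓔.length ∧ i' < nr 4 := ht
    simp only [dif_pos ps] at hts
    simp only [dif_pos pt] at hs'
    refine hf ((⟨j, ps.1⟩, ⟨i, ps.2⟩), (⟨j', pt.1⟩, ⟨i', pt.2⟩)) ⟨?_, Or.inr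
      ⟨h, h', s, s', z, hh, hh', hhh, hts, hs', hz, hz'⟩⟩
    intro he
    have h1 := congrArg (fun x => (x.1 : ℕ)) he
    have h2 := congrArg (fun x => (x.2 : ℕ)) he
    exact hne ⟨h1.symm, h2.symm⟩
  · intro j i hs A hA
    have ps : j < 𝓔.length ∧ i < nr 4 := hs
    rcases Finset.eq_empty_or_nonempty A with rfl | ⟨h, hh⟩
    · simp
    exfalso
    obtain ⟨hin, j', i', h', s, s', _, _, _, _, harm, _⟩ := hA h hh
    simp only [dif_pos ps] at harm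
    have hch := (hd.chain j _ h (f (⟨j, ps.1⟩, ⟨i, ps.2⟩)).2 hin).2.2.1
    have hl := geo1_segs_length (ch j (f (⟨j, ps.1⟩, ⟨i, ps.2⟩)) h)
    unfold IsArm at harm
    have hnil : (segs (ch j (f (⟨j, ps.1⟩, ⟨i, ps.2⟩)) h)).dropLast.dropLast = [] := by
      apply List.eq_nil_of_length_eq_zero
      rw [List.length_dropLast, List.length_dropLast]
      omega
    rw [hnil] at harm
    simp at harm

end Pool.Agent.RAC963
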