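import Pool.Agent.RAC963.Key

set_option autoImplicit false

namespace Pool.Agent.RAC963

theorem key2_segs_cons (a b : Pt) (l : List Pt) :
    segs (a :: b :: l) = (a, b) :: segs (b :: l) := by
  simp [segs]

theorem key2_segs_single (a : Pt) : segs [a] = [] := by
  simp [segs]

/-- The form of a chain with an arm, for two bends. -/
theorem key2_arm {w q : Pt} {c : List Pt} (hc : IsChain 2 w q c) {s : Pt × Pt}
    (hs : IsArm c s) : ∃ b b₂ : Pt, c = [w, b, b₂, q] ∧ s = (w, b) ∧ w ≠ b ∧ b ≠ b₂ ∧ b₂ ≠ q := by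
  obtain ⟨h1, h2, h3, h4⟩ := hc
  unfold IsArm at hs
  match c, h1, h2, h3, h4, hs with
  | [], h1, _, _, _, _ => simp at h1
  | [a], _, _, _, _, hs => simp [segs] at hs
  | [a, b], _, _, _, _, hs => simp [segs] at hs
  | [a, b, d], _, _, _, _, hs => simp [segs] at hs
  | [a, b, d, e], h1, h2, _, h4, hs =>
    simp [segs] at h1 h2 h4 hs
    subst h1 h2
    refine ⟨b, d, rfl, hs.symm, ?_, ?_, ?_⟩
    · exact h4.1
    · exact h4.2.1
    · exact h4.2.2
  | a :: b :: d :: e :: f :: l, _, _, h3, _, _ =>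
    exfalso
    simp only [List.length_cons] at h3
    omega

/-- Different segments of a simple chain have no common interior point. -/
theorem key2_simple : ∀ (c : List Pt), SimpleChain c → (∀ s ∈ segs c, s.1 ≠ s.2) →
    ∀ s ∈ segs c, ∀ s' ∈ segs c, ∀ x, x ∈ openSegment ℝ s.1 s.2 → x ∈ openSegment ℝ s'.1 s'.2 →
      s = s'
  | [], _, _ => by simp [segs]
  | [a], _, _ => by simp [segs]
  | a :: b :: l, hc, hd => by
    intro s hs s' hs' x hx hx'
    rw [key2_segs_cons] at hs hs' hd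
    obtain ⟨h1, h2⟩ := hc
    have hab : a ≠ b := hd (a, b) (by simp)
    rcases List.mem_cons.1 hs with rfl | hs
    · rcases List.mem_cons.1 hs' with rfl | hs'
      · rfl
      · exfalso
        have := h1 s' hs' x (openSegment_subset_segment _ _ _ hx)
          (openSegment_subset_segment _ _ _ hx')
        subst this
        exact hab (right_mem_openSegment_iff.1 hx)
    · rcases List.mem_cons.1 hs' with rfl | hs'
      · exfalso
        have := h1 s hs x (openSegment_subset_segment _ _ _ hx')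
          (openSegment_subset_segment _ _ _ hx)
        subst this
        exact hab (right_mem_openSegment_iff.1 hx')
      · exact key2_simple (b :: l) h2 (fun s hs => hd s (List.mem_cons_of_mem _ hs)) s hs s' hs'
          x hx hx'

/-- The start of a simple chain is not an interior point of a segment of it. -/
theorem key2_start (c : List Pt) (hc : SimpleChain c) (hd : ∀ s ∈ segs c, s.1 ≠ s.2) (w : Pt)
    (hw : c.head? = some w) (s : Pt × Pt) (hs : s ∈ segs c) : w ∉ openSegment ℝ s.1 s.2 := by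
  match c, hc, hd, hw, hs with
  | [], _, _, _, hs => simp [segs] at hs
  | [a], _, _, _, hs => simp [segs] at hs
  | a :: b :: l, hc, hd, hw, hs =>
    intro hx
    simp at hw
    subst hw
    rw [key2_segs_cons] at hs hd
    obtain ⟨h1, h2⟩ := hc
    have hab : a ≠ b := hd (a, b) (by simp)
    rcases List.mem_cons.1 hs with rfl | hs
    · exact hab (left_mem_openSegment_iff.1 hx)
    · exact hab (h1 s hs a (left_mem_segment _ _ _) (openSegment_subset_segment _ _ _ hx))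

theorem key2_last_mem : ∀ (c : List Pt) (q : Pt), c.getLast? = some q →
    c = [q] ∨ ∃ s ∈ segs c, q ∈ segment ℝ s.1 s.2
  | [], q, h => by simp at h
  | [a], q, h => by
    simp at h
    left
    rw [h]
  | a :: b :: l, q, h => by
    right
    rw [List.getLast?_cons_cons] at h
    rw [key2_segs_cons]
    rcases key2_last_mem (b :: l) q h with h | ⟨s, hs, hq⟩
    · refine ⟨(a, b), by simp, ?_⟩
      have : b = q := by
        simp at h
        exact h.1
      subst this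
      exact right_mem_segment _ _ _
    · exact ⟨s, List.mem_cons_of_mem _ hs, hq⟩

/-- The end of a simple chain is not an interior point of a segment of it. -/
theorem key2_end : ∀ (c : List Pt), SimpleChain c → (∀ s ∈ segs c, s.1 ≠ s.2) → ∀ (q : Pt),
    c.getLast? = some q → ∀ s ∈ segs c, q ∉ openSegment ℝ s.1 s.2
  | [], _, _ => by simp [segs]
  | [a], _, _ => by simp [segs]
  | a :: b :: l, hc, hd => by
    intro q hq s hs hx
    rw [key2_segs_cons] at hs hd
    rw [List.getLast?_cons_cons] at hq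
    obtain ⟨h1, h2⟩ := hc
    have hab : a ≠ b := hd (a, b) (by simp)
    rcases List.mem_cons.1 hs with rfl | hs
    · have hqb : q = b := by
        rcases key2_last_mem (b :: l) q hq with h | ⟨s, hs, hqs⟩
        · simp at h
          exact h.1.symm
        · exact h1 s hs q (openSegment_subset_segment _ _ _ hx) hqs
      subst hqb
      exact hab (right_mem_openSegment_iff.1 hx)
    · exact key2_end (b :: l) h2 (fun s hs => hd s (List.mem_cons_of_mem _ hs)) q hq s hs hx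

/-- The end of a simple chain with an arm is not on the arm. -/
theorem key2_end_arm {w q : Pt} {c : List Pt} (hc : IsChain 2 w q c) (hsi : SimpleChain c)
    {s : Pt × Pt} (hs : IsArm c s) : q ∉ segment ℝ s.1 s.2 := by
  obtain ⟨b, b₂, rfl, rfl, h1, h2, h3⟩ := key2_arm hc hs
  intro hx
  have e1 : q = b := hsi.1 (b₂, q) (by simp [segs]) q hx (right_mem_segment _ _ _)
  subst e1
  have e2 : q = b₂ := hsi.2.1 (b₂, q) (by simp [segs]) q (left_mem_segment _ _ _)
    (right_mem_segment _ _ _)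
  exact h2 e2

/-- Two different twins have no five arms crossed by the same segments from the same sides. -/
theorem key_unique {H : Type} {𝓔 : List (List H)} {T : ℕ} {hp : H → Pt}
    {wp : ℕ → ℕ → Pt} {ch : ℕ → ℕ → H → List Pt} (hd : IsHD 2 𝓔 T hp wp ch)
    {j : ℕ} (p : Fin 5 → H) (hp5 : Function.Injective p) (hpj : ∀ k, In 𝓔 j (p k))
    (j' t' : Fin 5 → ℕ) (h' : Fin 5 → H) (ht' : ∀ k, t' k < T)
    (hin : ∀ k, In 𝓔 (j' k) (h' k)) (hne : ∀ k, h' k ≠ p k) (s' : Fin 5 → Pt × Pt)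
    (hs' : ∀ k, s' k ∈ segs (ch (j' k) (t' k) (h' k))) {t₁ t₂ : ℕ} (h₁ : t₁ < T) (h₂ : t₂ < T)
    (n₁ : ∀ k, ¬ (j' k = j ∧ t' k = t₁)) (n₂ : ∀ k, ¬ (j' k = j ∧ t' k = t₂))
    (a₁ a₂ : Fin 5 → Pt × Pt) (ha₁ : ∀ k, IsArm (ch j t₁ (p k)) (a₁ k))
    (ha₂ : ∀ k, IsArm (ch j t₂ (p k)) (a₂ k))
    (hz₁ : ∀ k, ∃ z, z ∈ segment ℝ (a₁ k).1 (a₁ k).2 ∧ z ∈ segment ℝ (s' k).1 (s' k).2)
    (hz₂ : ∀ k, ∃ z, z ∈ segment ℝ (a₂ k).1 (a₂ k).2 ∧ z ∈ segment ℝ (s' k).1 (s' k).2)
    (hside : ∀ k, 0 < side (s' k) (wp j t₁) ↔ 0 < side (s' k) (wp j t₂)) : t₁ = t₂ := by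
  by_contra hn
  have hj : j < 𝓔.length := (hpj 0).lt
  have hw : wp j t₁ ≠ wp j t₂ := fun h => hn (hd.winj j t₁ j t₂ ⟨hj, h₁⟩ ⟨hj, h₂⟩ h).2
  choose b c₁ hc₁ hab₁ hb₁ _ _ using fun k => key2_arm (hd.chain j t₁ (p k) h₁ (hpj k)) (ha₁ k)
  choose b' c₂ hc₂ hab₂ hb₂ _ _ using fun k => key2_arm (hd.chain j t₂ (p k) h₂ (hpj k)) (ha₂ k)
  have m₁ : ∀ k, (wp j t₁, b k) ∈ segs (ch j t₁ (p k)) := fun k => by
    rw [hc₁ k]; simp [segs]
  have m₂ : ∀ k, (wp j t₂, b' k) ∈ segs (ch j t₂ (p k)) := fun k => by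
    rw [hc₂ k]; simp [segs]
  choose z hz hzs using hz₁
  choose z' hz' hzs' using hz₂
  simp only [hab₁] at hz
  simp only [hab₂] at hz'
  have hs : ∀ k, (s' k).1 ≠ (s' k).2 := fun k =>
    (hd.chain (j' k) (t' k) (h' k) (ht' k) (hin k)).2.2.2 (s' k) (hs' k)
  have H₁ : ∀ k, z k ∈ openSegment ℝ (wp j t₁) (b k) ∧ z k ∈ openSegment ℝ (s' k).1 (s' k).2 ∧
      Perp (wp j t₁, b k) (s' k) := by
    intro k
    rcases hd.cross j t₁ (p k) (j' k) (t' k) (h' k) h₁ (ht' k) (hpj k) (hin k)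
      (fun h => hne k h.2.2.symm) (wp j t₁, b k) (m₁ k) (s' k) (hs' k) (z k) (hz k) (hzs k)
      with h | h | h
    · exact absurd ⟨h.1.symm, h.2.1.symm⟩ (n₁ k)
    · exact absurd h.1.symm (hne k)
    · exact h
  have H₂ : ∀ k, z' k ∈ openSegment ℝ (wp j t₂) (b' k) ∧
      z' k ∈ openSegment ℝ (s' k).1 (s' k).2 ∧ Perp (wp j t₂, b' k) (s' k) := by
    intro k
    rcases hd.cross j t₂ (p k) (j' k) (t' k) (h' k) h₂ (ht' k) (hpj k) (hin k)
      (fun h => hne k h.2.2.symm) (wp j t₂, b' k) (m₂ k) (s' k) (hs' k) (z' k) (hz' k) (hzs' k)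
      with h | h | h
    · exact absurd ⟨h.1.symm, h.2.1.symm⟩ (n₂ k)
    · exact absurd h.1.symm (hne k)
    · exact h
  refine key_lemma (wp j t₁) (wp j t₂) hw b b' s' hb₁ hb₂ hs z z' (fun k => ⟨(H₁ k).1, (H₁ k).2.1⟩)
    (fun k => ⟨(H₂ k).1, (H₂ k).2.1⟩) (fun k => (H₁ k).2.2) (fun k => (H₂ k).2.2) hside
    ?_ ?_ ?_ ?_ ?_ ?_ ?_ ?_
  · intro i k hik x hx hx'
    rcases hd.cross j t₁ (p i) j t₂ (p k) h₁ h₂ (hpj i) (hpj k) (fun h => hn h.2.1)
      (wp j t₁, b i) (m₁ i) (wp j t₂, b' k) (m₂ k) x hx hx' with h | h | h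
    · exact absurd h.2.1 hn
    · exact absurd (hp5 h.1) hik
    · exact h.2.2
  · intro i k hik x hx hx'
    rcases hd.cross j t₁ (p i) j t₁ (p k) h₁ h₁ (hpj i) (hpj k) (fun h => hik (hp5 h.2.2))
      (wp j t₁, b i) (m₁ i) (wp j t₁, b k) (m₁ k) x hx hx' with h | h | h
    · exact Or.inl h.2.2
    · exact absurd (hp5 h.1) hik
    · exact Or.inr h.2.2
  · intro i k hik x hx hx'
    rcases hd.cross j t₂ (p i) j t₂ (p k) h₂ h₂ (hpj i) (hpj k) (fun h => hik (hp5 h.2.2))
      (wp j t₂, b' i) (m₂ i) (wp j t₂, b' k) (m₂ k) x hx hx' with h | h | h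
    · exact Or.inl h.2.2
    · exact absurd (hp5 h.1) hik
    · exact Or.inr h.2.2
  · intro i k hik x hx hx'
    rcases hd.cross j t₁ (p k) (j' i) (t' i) (h' i) h₁ (ht' i) (hpj k) (hin i)
      (fun h => n₁ i ⟨h.1.symm, h.2.1.symm⟩) (wp j t₁, b k) (m₁ k) (s' i) (hs' i) x hx hx'
      with h | h | h
    · exact absurd ⟨h.1.symm, h.2.1.symm⟩ (n₁ i)
    · exfalso
      have := key2_end_arm (hd.chain j t₁ (p k) h₁ (hpj k)) (hd.simple j t₁ (p k) h₁ (hpj k))
        (ha₁ k)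
      rw [hab₁ k] at this
      rw [h.2] at hx
      exact this hx
    · exact h.2.2
  · intro i k hik x hx hx'
    rcases hd.cross j t₂ (p k) (j' i) (t' i) (h' i) h₂ (ht' i) (hpj k) (hin i)
      (fun h => n₂ i ⟨h.1.symm, h.2.1.symm⟩) (wp j t₂, b' k) (m₂ k) (s' i) (hs' i) x hx hx'
      with h | h | h
    · exact absurd ⟨h.1.symm, h.2.1.symm⟩ (n₂ i)
    · exfalso
      have := key2_end_arm (hd.chain j t₂ (p k) h₂ (hpj k)) (hd.simple j t₂ (p k) h₂ (hpj k))
        (ha₂ k)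
      rw [hab₂ k] at this
      rw [h.2] at hx
      exact this hx
    · exact h.2.2
  · intro i k hik x hx hx'
    by_cases he : j' i = j' k ∧ t' i = t' k ∧ h' i = h' k
    · left
      have hk := hs' k
      rw [← he.1, ← he.2.1, ← he.2.2] at hk
      exact key2_simple _ (hd.simple (j' i) (t' i) (h' i) (ht' i) (hin i))
        (hd.chain (j' i) (t' i) (h' i) (ht' i) (hin i)).2.2.2 (s' i) (hs' i) (s' k) hk x hx hx'
    · rcases hd.cross (j' i) (t' i) (h' i) (j' k) (t' k) (h' k) (ht' i) (ht' k) (hin i) (hin k) he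
        (s' i) (hs' i) (s' k) (hs' k) x (openSegment_subset_segment _ _ _ hx)
        (openSegment_subset_segment _ _ _ hx') with h | h | h
      · exfalso
        have hch := hd.chain (j' i) (t' i) (h' i) (ht' i) (hin i)
        exact key2_start _ (hd.simple (j' i) (t' i) (h' i) (ht' i) (hin i)) hch.2.2.2 _ hch.1
          (s' i) (hs' i) (h.2.2 ▸ hx)
      · exfalso
        have hch := hd.chain (j' i) (t' i) (h' i) (ht' i) (hin i)
        exact key2_end _ (hd.simple (j' i) (t' i) (h' i) (ht' i) (hin i)) hch.2.2.2 _ hch.2.1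
          (s' i) (hs' i) (h.2 ▸ hx)
      · exact Or.inr h.2.2
  · intro k hx
    exact hd.avw j t₁ (p k) j t₂ h₁ (hpj k) ⟨hj, h₂⟩ (fun h => hn h.2.symm)
      ⟨(wp j t₁, b k), m₁ k, hx⟩
  · intro k hx
    exact hd.avw j t₂ (p k) j t₁ h₂ (hpj k) ⟨hj, h₁⟩ (fun h => hn h.2)
      ⟨(wp j t₂, b' k), m₂ k, hx⟩

end Pool.Agent.RAC963
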