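import Pool.Agent.RAC963.Attack
import Pool.Agent.RAC963.Sel
import Pool.Agent.RAC963.Key2

set_option autoImplicit false

namespace Pool.Agent.RAC963

/-- Constraints of the first kind. -/
def geo2_b1 {H : Type} (𝓔 : List (List H)) (T : ℕ) (ch : ℕ → ℕ → H → List Pt)
    (x y : Fin 𝓔.length × Fin (nr 8)) (f : Fin 𝓔.length × Fin (nr 8) → Fin T) : Prop :=
  x ≠ y ∧ ((x.1 = y.1 ∧ f x = f y) ∨
    (¬ ((x.1 : ℕ) = y.1 ∧ (f x : ℕ) = f y) ∧ ∃ (h h' : H) (s s' : Pt × Pt) (z : Pt),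
      In 𝓔 x.1 h ∧ In 𝓔 y.1 h' ∧ h' ≠ h ∧ IsTail (ch x.1 (f x) h) s ∧
      s' ∈ segs (ch y.1 (f y) h') ∧ z ∈ segment ℝ s.1 s.2 ∧ z ∈ segment ℝ s'.1 s'.2))

/-- Labels of the constraints of the second kind. -/
abbrev geo2_L (e : ℕ) : Type := Fin 8 × (Fin e × Fin (nr 8)) × Fin 8 × Fin 3 × Bool

/-- Constraints of the second kind. -/
def geo2_b2 {H : Type} (𝓔 : List (List H)) (T : ℕ) (wp : ℕ → ℕ → Pt) (ch : ℕ → ℕ → H → List Pt)
    (x : Fin 𝓔.length × Fin (nr 8)) (lab : Fin 5 → geo2_L 𝓔.length)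
    (f : Fin 𝓔.length × Fin (nr 8) → Fin T) : Prop :=
  ∃ (p h' : Fin 5 → H) (s' a : Fin 5 → Pt × Pt), Function.Injective p ∧ ∀ k,
    (𝓔.getD x.1 [])[((lab k).1 : ℕ)]? = some (p k) ∧
    (𝓔.getD (lab k).2.1.1 [])[((lab k).2.2.1 : ℕ)]? = some (h' k) ∧
    (lab k).2.1 ≠ x ∧
    ¬ (((lab k).2.1.1 : ℕ) = x.1 ∧ (f (lab k).2.1 : ℕ) = f x) ∧
    h' k ≠ p k ∧
    (segs (ch (lab k).2.1.1 (f (lab k).2.1) (h' k)))[((lab k).2.2.2.1 : ℕ)]? = some (s' k) ∧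
    IsArm (ch x.1 (f x) (p k)) (a k) ∧
    (∃ z, z ∈ segment ℝ (a k).1 (a k).2 ∧ z ∈ segment ℝ (s' k).1 (s' k).2) ∧
    ((lab k).2.2.2.2 = true ↔ 0 < side (s' k) (wp x.1 (f x)))

theorem geo2_ix {α : Type} {n : ℕ} {L : List α} (hL : L.length ≤ n) {a : α} (ha : a ∈ L) :
    ∃ i : Fin n, L[(i : ℕ)]? = some a := by
  obtain ⟨i, hi, rfl⟩ := List.getElem_of_mem ha
  exact ⟨⟨i, by omega⟩, List.getElem?_eq_getElem hi⟩

theorem geo2_len {H : Type} {𝓔 : List (List H)} (hE : ∀ E ∈ 𝓔, E.Nodup ∧ E.length = 8) (j : ℕ) :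
    (𝓔.getD j []).length ≤ 8 := by
  by_cases hj : j < 𝓔.length
  · rw [List.getD_eq_getElem _ _ hj, (hE _ (List.getElem_mem hj)).2]
  · rw [List.getD_eq_default _ _ (by omega)]
    simp

theorem geo2_segs {k : ℕ} {p q : Pt} {c : List Pt} (h : IsChain k p q c) :
    (segs c).length ≤ k + 1 := by
  have := h.2.2.1
  unfold segs
  rw [List.length_zip, List.length_tail]
  omega

theorem geo2_c1 {H : Type} {𝓔 : List (List H)} (hE : ∀ E ∈ 𝓔, E.Nodup ∧ E.length = 8)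
    {T : ℕ} {hp : H → Pt} {wp : ℕ → ℕ → Pt}
    {ch : ℕ → ℕ → H → List Pt} (hd : IsHD 2 𝓔 T hp wp ch)
    (x y : Fin 𝓔.length × Fin (nr 8)) (f : Fin 𝓔.length × Fin (nr 8) → Fin T) :
    ({t : Fin T | geo2_b1 𝓔 T ch x y (Function.update f x t)}).ncard ≤ 8 * 8 * 3 + 1 := by
  classical
  by_cases hxy : x = y
  · have : {t : Fin T | geo2_b1 𝓔 T ch x y (Function.update f x t)} = ∅ := by
      ext t
      simp only [Set.mem_setOf_eq, Set.mem_empty_iff_false, iff_false]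
      exact fun h => h.1 hxy
    rw [this]
    simp
  · have hyx : y ≠ x := fun h => hxy h.symm
    set S : Set (Fin T) := {t : Fin T | ¬ ((x.1 : ℕ) = y.1 ∧ (t : ℕ) = f y) ∧
      ∃ (h h' : H) (s s' : Pt × Pt) (z : Pt),
      In 𝓔 x.1 h ∧ In 𝓔 y.1 h' ∧ h' ≠ h ∧ IsTail (ch x.1 t h) s ∧
      s' ∈ segs (ch y.1 (f y) h') ∧ z ∈ segment ℝ s.1 s.2 ∧ z ∈ segment ℝ s'.1 s'.2} with hS
    have hsub : {t : Fin T | geo2_b1 𝓔 T ch x y (Function.update f x t)} ⊆ S ∪ {f y} := by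
      intro t ht
      obtain ⟨_, ht⟩ := ht
      rw [Function.update_self, Function.update_of_ne hyx] at ht
      rcases ht with ht | ht
      · right
        exact ht.2
      · left
        exact ht
    have hScard : S.ncard ≤ 8 * 8 * 3 := by
      -- choose the indices
      have key : ∀ t : Fin T, t ∈ S → ∃ l : Fin 8 × Fin 8 × Fin 3,
          ∃ (h h' : H) (s s' : Pt × Pt) (z : Pt),
          (𝓔.getD x.1 [])[(l.1 : ℕ)]? = some h ∧ (𝓔.getD y.1 [])[(l.2.1 : ℕ)]? = some h' ∧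
          (segs (ch y.1 (f y) h'))[(l.2.2 : ℕ)]? = some s' ∧
          In 𝓔 x.1 h ∧ In 𝓔 y.1 h' ∧ h' ≠ h ∧ IsTail (ch x.1 t h) s ∧
          s' ∈ segs (ch y.1 (f y) h') ∧ z ∈ segment ℝ s.1 s.2 ∧ z ∈ segment ℝ s'.1 s'.2 := by
        rintro t ⟨_, h, h', s, s', z, e1, e2, e3, e4, e5, e6, e7⟩
        obtain ⟨i1, hi1⟩ := geo2_ix (geo2_len hE x.1) e1
        obtain ⟨i2, hi2⟩ := geo2_ix (geo2_len hE y.1) e2
        obtain ⟨i3, hi3⟩ := geo2_ix (geo2_segs (hd.chain y.1 (f y) h' (f y).2 e2)) e5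
        exact ⟨(i1, i2, i3), h, h', s, s', z, hi1, hi2, hi3, e1, e2, e3, e4, e5, e6, e7⟩
      choose! g hg using key
      have hinj : Set.InjOn g S := by
        intro t₁ h₁ t₂ h₂ h12
        obtain ⟨h, h', s₁, s', z₁, a1, a2, a3, a4, a5, a6, a7, a8, a9, a10⟩ := hg t₁ h₁
        obtain ⟨k, k', s₂, u', z₂, b1, b2, b3, b4, b5, b6, b7, b8, b9, b10⟩ := hg t₂ h₂
        rw [← h12] at b1 b2 b3
        obtain rfl : h = k := Option.some_injective _ (a1.symm.trans b1)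
        obtain rfl : h' = k' := Option.some_injective _ (a2.symm.trans b2)
        obtain rfl : s' = u' := Option.some_injective _ (a3.symm.trans b3)
        exact Fin.ext (attack_unique hd (f y).2 a5 a8 a4 a6.symm t₁.2 t₂.2 h₁.1 h₂.1 a7 b7 a9 a10
          b9 b10)
      have h1 := Set.ncard_le_ncard_of_injOn (t := (Set.univ : Set (Fin 8 × Fin 8 × Fin 3))) g
        (fun _ _ => Set.mem_univ _) hinj (Set.toFinite _)
      rw [Set.ncard_univ, Nat.card_eq_fintype_card, Fintype.card_prod, Fintype.card_prod,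
        Fintype.card_fin, Fintype.card_fin] at h1
      omega
    calc _ ≤ (S ∪ {f y}).ncard := Set.ncard_le_ncard hsub (Set.toFinite _)
      _ ≤ S.ncard + ({f y} : Set (Fin T)).ncard := Set.ncard_union_le _ _
      _ ≤ 8 * 8 * 3 + 1 := by
        rw [Set.ncard_singleton]
        omega

theorem geo2_c2 {H : Type} {𝓔 : List (List H)}
    {T : ℕ} {hp : H → Pt} {wp : ℕ → ℕ → Pt}
    {ch : ℕ → ℕ → H → List Pt} (hd : IsHD 2 𝓔 T hp wp ch)
    (x : Fin 𝓔.length × Fin (nr 8)) (lab : Fin 5 → geo2_L 𝓔.length)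
    (f : Fin 𝓔.length × Fin (nr 8) → Fin T) :
    ({t : Fin T | geo2_b2 𝓔 T wp ch x lab (Function.update f x t)}).ncard ≤ 1 := by
  classical
  rw [Set.ncard_le_one_iff]
  rintro t₁ t₂ ⟨p, h', s', a, hp1, h1⟩ ⟨p2, h2', s2', a2, hp2, h2⟩
  have hne : ∀ k, (lab k).2.1 ≠ x := fun k => (h1 k).2.2.1
  simp only [Function.update_self, Function.update_of_ne (hne _)] at h1 h2
  have e1 : ∀ k, p2 k = p k := fun k =>
    Option.some_injective _ ((h2 k).1.symm.trans (h1 k).1)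
  have e2 : ∀ k, h2' k = h' k := fun k =>
    Option.some_injective _ ((h2 k).2.1.symm.trans (h1 k).2.1)
  have e1' : p2 = p := funext e1
  have e2' : h2' = h' := funext e2
  subst e1' e2'
  have e3 : ∀ k, s2' k = s' k := fun k =>
    Option.some_injective _ ((h2 k).2.2.2.2.2.1.symm.trans (h1 k).2.2.2.2.2.1)
  have e3' : s2' = s' := funext e3
  subst e3'
  apply Fin.ext
  refine key_unique hd p2 hp1 (j := x.1) (fun k => ?_) (fun k => (lab k).2.1.1)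
    (fun k => f (lab k).2.1) h2' (fun k => (f (lab k).2.1).2) (fun k => ?_)
    (fun k => (h1 k).2.2.2.2.1) s2' (fun k => ?_) t₁.2 t₂.2
    (fun k => (h1 k).2.2.2.1) (fun k => (h2 k).2.2.2.1) a a2
    (fun k => (h1 k).2.2.2.2.2.2.1) (fun k => (h2 k).2.2.2.2.2.2.1)
    (fun k => (h1 k).2.2.2.2.2.2.2.1) (fun k => (h2 k).2.2.2.2.2.2.2.1) (fun k => ?_)
  · exact List.mem_of_getElem? (h1 k).1
  · exact List.mem_of_getElem? (h1 k).2.1
  · exact List.mem_of_getElem? (h1 k).2.2.2.2.2.1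
  · exact (h1 k).2.2.2.2.2.2.2.2.symm.trans (h2 k).2.2.2.2.2.2.2.2

/-- Good reps for two bends. -/
theorem geo2_good {H : Type} {𝓔 : List (List H)} (hE : ∀ E ∈ 𝓔, E.Nodup ∧ E.length = 8)
    {T : ℕ} (hT : bT 2 8 𝓔.length ≤ T) {hp : H → Pt} {wp : ℕ → ℕ → Pt}
    {ch : ℕ → ℕ → H → List Pt} (hd : IsHD 2 𝓔 T hp wp ch) :
    ∃ f : ℕ → ℕ → ℕ, Good 8 4 𝓔 T ch f := by
  classical
  set e := 𝓔.length with he
  have hT' : ∑ c : ((Fin e × Fin (nr 8)) × (Fin e × Fin (nr 8))) ⊕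
      ((Fin e × Fin (nr 8)) × (Fin 5 → geo2_L e)),
      Sum.elim (fun _ => 8 * 8 * 3 + 1) (fun _ => 1) c < T := by
    rw [Fintype.sum_sum_type]
    simp only [Sum.elim_inl, Sum.elim_inr, Finset.sum_const, Finset.card_univ, Fintype.card_prod,
      Fintype.card_fin, Fintype.card_fun, Fintype.card_bool, smul_eq_mul, mul_one]
    refine lt_of_lt_of_le ?_ hT
    unfold bT
    have h1 : 8 * (e * nr 8 * (8 * (3 * 2))) = 8 * (e * nr 8) * 8 * 3 * 2 := by ring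
    rw [h1]
    exact Nat.lt_succ_self _
  obtain ⟨f, hf⟩ := selection T
    (Sum.elim (fun _ => 8 * 8 * 3 + 1) (fun _ => 1) :
      ((Fin e × Fin (nr 8)) × (Fin e × Fin (nr 8))) ⊕
      ((Fin e × Fin (nr 8)) × (Fin 5 → geo2_L e)) → ℕ)
    (Sum.elim (fun c => c.1) (fun c => c.1))
    (Sum.elim (fun c => geo2_b1 𝓔 T ch c.1 c.2) (fun c => geo2_b2 𝓔 T wp ch c.1 c.2))
    (by
      rintro (⟨x, y⟩ | ⟨x, lab⟩) f
      · exact geo2_c1 hE hd x y f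
      · exact geo2_c2 hd x lab f) hT'
  have hf1 : ∀ x y, ¬ geo2_b1 𝓔 T ch x y f := fun x y => hf (Sum.inl (x, y))
  have hf2 : ∀ x lab, ¬ geo2_b2 𝓔 T wp ch x lab f := fun x lab => hf (Sum.inr (x, lab))
  set F : ℕ → ℕ → ℕ := fun j i => if h : j < e ∧ i < nr 8 then (f (⟨j, h.1⟩, ⟨i, h.2⟩) : ℕ) else 0
    with hF
  have hFv : ∀ j i (h : j < e ∧ i < nr 8), F j i = f (⟨j, h.1⟩, ⟨i, h.2⟩) := by
    intro j i h
    simp only [hF]
    rw [dif_pos h]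
  refine ⟨F, ?_, ?_, ?_, ?_⟩
  · intro j i hs
    rw [hFv j i hs]
    exact Fin.is_lt _
  · intro j i i' hs hs' hff
    by_contra hne
    rw [hFv j i hs, hFv j i' hs'] at hff
    refine hf1 (⟨j, hs.1⟩, ⟨i, hs.2⟩) (⟨j, hs'.1⟩, ⟨i', hs'.2⟩) ⟨?_, Or.inl ⟨rfl, Fin.ext hff⟩⟩
    intro h
    apply hne
    have := congrArg (fun z => (z.2 : ℕ)) h
    exact this
  · intro j i j' i' hs hs' hne h h' hh hh' hhh s s' htail hseg z hz hz'
    rw [hFv j i hs] at htail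
    rw [hFv j' i' hs'] at hseg
    have hxy : ((⟨j, hs.1⟩, ⟨i, hs.2⟩) : Fin e × Fin (nr 8)) ≠ (⟨j', hs'.1⟩, ⟨i', hs'.2⟩) := by
      intro h
      apply hne
      have h1 := congrArg (fun z => (z.1 : ℕ)) h
      have h2 := congrArg (fun z => (z.2 : ℕ)) h
      exact ⟨h1.symm, h2.symm⟩
    refine hf1 (⟨j, hs.1⟩, ⟨i, hs.2⟩) (⟨j', hs'.1⟩, ⟨i', hs'.2⟩) ⟨hxy, ?_⟩
    by_cases hsame : (j = j' ∧ (f (⟨j, hs.1⟩, ⟨i, hs.2⟩) : ℕ) = f (⟨j', hs'.1⟩, ⟨i', hs'.2⟩))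
    · exact Or.inl ⟨Fin.ext hsame.1, Fin.ext hsame.2⟩
    · exact Or.inr ⟨hsame, h, h', s, s', z, hh, hh', hhh, htail, hseg, hz, hz'⟩
  · intro j i hs A hA
    by_contra hcard
    push Not at hcard
    obtain ⟨A', hA', hA'c⟩ := Finset.exists_subset_card_eq (show 5 ≤ A.card by omega)
    -- enumerate
    let p : Fin 5 → H := fun k => ((A'.equivFinOfCardEq hA'c).symm k : H)
    have hpinj : Function.Injective p := by
      intro a b hab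
      exact (A'.equivFinOfCardEq hA'c).symm.injective (Subtype.ext hab)
    have hpA : ∀ k, p k ∈ A := fun k => hA' ((A'.equivFinOfCardEq hA'c).symm k).2
    have hw : ∀ k : Fin 5, ∃ (l : geo2_L e) (h' : H) (s' a : Pt × Pt),
        (𝓔.getD j [])[(l.1 : ℕ)]? = some (p k) ∧
        (𝓔.getD l.2.1.1 [])[(l.2.2.1 : ℕ)]? = some h' ∧
        l.2.1 ≠ (⟨j, hs.1⟩, ⟨i, hs.2⟩) ∧
        ¬ ((l.2.1.1 : ℕ) = j ∧ (f l.2.1 : ℕ) = f (⟨j, hs.1⟩, ⟨i, hs.2⟩)) ∧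
        h' ≠ p k ∧
        (segs (ch l.2.1.1 (f l.2.1) h'))[(l.2.2.2.1 : ℕ)]? = some s' ∧
        IsArm (ch j (f (⟨j, hs.1⟩, ⟨i, hs.2⟩)) (p k)) a ∧
        (∃ z, z ∈ segment ℝ a.1 a.2 ∧ z ∈ segment ℝ s'.1 s'.2) ∧
        (l.2.2.2.2 = true ↔ 0 < side s' (wp j (f (⟨j, hs.1⟩, ⟨i, hs.2⟩)))) := by
      intro k
      obtain ⟨hin, j', i', h', s, s', hs', hne, hin', hhh, harm, hseg, hz⟩ := hA (p k) (hpA k)
      rw [hFv j i hs] at harm
      rw [hFv j' i' hs'] at hseg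
      obtain ⟨i1, hi1⟩ := geo2_ix (geo2_len hE j) hin
      obtain ⟨i2, hi2⟩ := geo2_ix (geo2_len hE j') hin'
      obtain ⟨i3, hi3⟩ := geo2_ix (geo2_segs (hd.chain j' _ h' (Fin.is_lt _) hin')) hseg
      refine ⟨(i1, (⟨j', hs'.1⟩, ⟨i', hs'.2⟩), i2, i3,
        decide (0 < side s' (wp j (f (⟨j, hs.1⟩, ⟨i, hs.2⟩))))), h', s', s, hi1, hi2, ?_, ?_,
        hhh, hi3, harm, hz, by simp⟩
      · intro h
        apply hne
        have h1 := congrArg (fun z => (z.1 : ℕ)) h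
        have h2 := congrArg (fun z => (z.2 : ℕ)) h
        exact ⟨h1, h2⟩
      · rintro ⟨h1, h2⟩
        refine hf1 (⟨j', hs'.1⟩, ⟨i', hs'.2⟩) (⟨j, hs.1⟩, ⟨i, hs.2⟩) ⟨?_,
          Or.inl ⟨Fin.ext h1, Fin.ext h2⟩⟩
        intro h
        apply hne
        have h1 := congrArg (fun z => (z.1 : ℕ)) h
        have h2 := congrArg (fun z => (z.2 : ℕ)) h
        exact ⟨h1, h2⟩
    choose l h' s' a hl using hw
    exact hf2 (⟨j, hs.1⟩, ⟨i, hs.2⟩) l ⟨p, h', s', a, hpinj, hl⟩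

end Pool.Agent.RAC963
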