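import Pool.Agent.RAC963.Defs
import Pool.Agent.H650R3.Task571D

set_option autoImplicit false

namespace Pool.Agent.RAC963

/-- Residues. -/
def k33_r (a : Fin 6) : Fin 3 := ⟨a.val % 3, Nat.mod_lt _ (by norm_num)⟩

theorem k33_r1 : ∀ a c : Fin 6, a < 3 → c < 3 → a ≠ c → k33_r a ≠ k33_r c := by decide

theorem k33_r2 : ∀ a c : Fin 6, 3 ≤ a → 3 ≤ c → a ≠ c → k33_r a ≠ k33_r c := by decide

/-- `K₃,₃` has no drawing by arcs such that independent arcs are disjoint. -/
theorem k33_arcs (x y : Fin 3 → Pt) (S : Fin 3 → Fin 3 → Set Pt)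
    (hS : ∀ i j, JoinedIn (S i j) (x i) (y j))
    (hd : ∀ i j i' j', i ≠ i' → j ≠ j' → Disjoint (S i j) (S i' j')) : False := by
  have hφc : Continuous (Complex.equivRealProdCLM.symm : Pt → ℂ) :=
    Complex.equivRealProdCLM.symm.continuous
  have hφi : Function.Injective (Complex.equivRealProdCLM.symm : Pt → ℂ) :=
    Complex.equivRealProdCLM.symm.injective
  refine Pool.Agent.H650R3.T571D.k33_joined
    (fun a => if a < 3 then Complex.equivRealProdCLM.symm (x (k33_r a))
      else Complex.equivRealProdCLM.symm (y (k33_r a)))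
    (fun a b => (Complex.equivRealProdCLM.symm : Pt → ℂ) '' S (k33_r a) (k33_r b)) ?_ ?_
  · rintro a b ⟨ha, hb⟩
    simp only [if_pos ha, if_neg (not_lt.2 hb)]
    obtain ⟨γ, hγ⟩ := hS (k33_r a) (k33_r b)
    exact ⟨γ.map hφc, fun t => ⟨γ t, hγ t, rfl⟩⟩
  · rintro a b c d ⟨ha, hb⟩ ⟨hc, hd'⟩ hac hbd
    exact (Set.disjoint_image_iff hφi).2
      (hd _ _ _ _ (k33_r1 a c ha hc hac) (k33_r2 b d hb hd' hbd))

theorem k33_seg {a b : Pt} {l : List Pt} : JoinedIn {z | On (a :: b :: l) z} a b := by
  have h1 : JoinedIn (segment ℝ a b) a b :=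
    ((convex_segment a b).isPathConnected ⟨a, left_mem_segment ℝ a b⟩).joinedIn a
      (left_mem_segment ℝ a b) b (right_mem_segment ℝ a b)
  refine h1.mono fun z hz => ?_
  exact ⟨(a, b), by simp [segs], hz⟩

theorem k33_tail {a b : Pt} {l : List Pt} : {z | On (b :: l) z} ⊆ {z | On (a :: b :: l) z} := by
  rintro z ⟨s, hs, hz⟩
  exact ⟨s, List.mem_cons_of_mem _ hs, hz⟩

theorem k33_chain (l : List Pt) : ∀ a b q : Pt, (a :: b :: l).getLast? = some q →
    JoinedIn {z | On (a :: b :: l) z} a q := by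
  induction l with
  | nil =>
    intro a b q hq
    have : b = q := by simpa using hq
    subst this
    exact k33_seg
  | cons c l ih =>
    intro a b q hq
    have h1 : (b :: c :: l).getLast? = some q := by
      rw [← hq]
      simp [List.getLast?_cons_cons]
    exact k33_seg.trans ((ih b c q h1).mono k33_tail)

/-- The two ends of a chain are joined in the chain. -/
theorem chain_joined {k : ℕ} {p q : Pt} {c : List Pt} (h : IsChain k p q c) (hpq : p ≠ q) :
    JoinedIn {z | On c z} p q := by
  obtain ⟨h1, h2, -, -⟩ := h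
  match c, h1, h2 with
  | [], h1, _ => simp at h1
  | [a], h1, h2 =>
    simp only [List.head?_cons, Option.some.injEq] at h1
    simp only [List.getLast?_singleton, Option.some.injEq] at h2
    exact absurd (h1.symm.trans h2) hpq
  | a :: b :: l, h1, h2 =>
    simp only [List.head?_cons, Option.some.injEq] at h1
    subst h1
    exact k33_chain l a b q h2

end Pool.Agent.RAC963
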