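import Pool.Agent.RAC963.Dis
import Pool.Agent.RAC963.K33

set_option autoImplicit false

namespace Pool.Agent.RAC963

/-- The relation of the chosen pairs has no `K₃,₃`. -/
theorem geoA_free {H : Type} {k q c : ℕ} {𝓔 : List (List H)} {T : ℕ} {hp : H → Pt}
    {wp : ℕ → ℕ → Pt} {ch : ℕ → ℕ → H → List Pt} (hk : k ≤ 2) (hd : IsHD k 𝓔 T hp wp ch)
    {f : ℕ → ℕ → ℕ} (hf : Good q c 𝓔 T ch f) (σ : Prop) (I : Fin 𝓔.length → ℕ)
    (X Y : Fin 𝓔.length → H)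
    (h : ∀ j : Fin 𝓔.length, I j < nr q ∧ In 𝓔 j (X j) ∧ In 𝓔 j (Y j) ∧
      ¬ Crossed 𝓔 q ch f j (I j) (X j) ∧ ¬ Crossed 𝓔 q ch f j (I j) (Y j) ∧
      (Red (ch j (f j (I j)) (X j)) ↔ σ) ∧ (Red (ch j (f j (I j)) (Y j)) ↔ σ)) :
    K33Free (fun a b => ∃ j, (a = X j ∧ b = Y j) ∨ (a = Y j ∧ b = X j)) := by
  rintro ⟨x, y, hx, hy, hxy, hR⟩
  choose J hJ using hR
  have hsl : ∀ j : Fin 𝓔.length, Slot 𝓔 q j (I j) := fun j => ⟨j.2, (h j).1⟩
  -- the data of the two chains of `(i, l)`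
  have hA : ∀ i l, In 𝓔 (J i l) (x i) ∧ ¬ Crossed 𝓔 q ch f (J i l) (I (J i l)) (x i) ∧
      (Red (ch (J i l) (f (J i l) (I (J i l))) (x i)) ↔ σ) := by
    intro i l
    obtain ⟨h0, h1, h2, h3, h4, h5, h6⟩ := h (J i l)
    rcases hJ i l with ⟨e1, e2⟩ | ⟨e1, e2⟩
    · rw [e1]; exact ⟨h1, h3, h5⟩
    · rw [e1]; exact ⟨h2, h4, h6⟩
  have hB : ∀ i l, In 𝓔 (J i l) (y l) ∧ ¬ Crossed 𝓔 q ch f (J i l) (I (J i l)) (y l) ∧
      (Red (ch (J i l) (f (J i l) (I (J i l))) (y l)) ↔ σ) := by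
    intro i l
    obtain ⟨h0, h1, h2, h3, h4, h5, h6⟩ := h (J i l)
    rcases hJ i l with ⟨e1, e2⟩ | ⟨e1, e2⟩
    · rw [e2]; exact ⟨h2, h4, h6⟩
    · rw [e2]; exact ⟨h1, h3, h5⟩
  have hne : ∀ i l i' l', i ≠ i' → l ≠ l' → J i' l' ≠ J i l := by
    intro i l i' l' hi hl he
    have e1 := hJ i l
    have e2 := hJ i' l'
    rw [he] at e2
    rcases e1 with ⟨e1, e1'⟩ | ⟨e1, e1'⟩ <;> rcases e2 with ⟨e2, e2'⟩ | ⟨e2, e2'⟩
    · exact hi (hx (e1.trans e2.symm))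
    · exact hxy i l' (e1.trans e2'.symm)
    · exact hxy i l' (e1.trans e2'.symm)
    · exact hi (hx (e1.trans e2.symm))
  refine k33_arcs (fun i => hp (x i)) (fun l => hp (y l))
    (fun i l => {z | On (ch (J i l) (f (J i l) (I (J i l))) (x i)) z} ∪
      {z | On (ch (J i l) (f (J i l) (I (J i l))) (y l)) z}) ?_ ?_
  · intro i l
    have hT : f (J i l) (I (J i l)) < T := hf.lt _ _ (hsl _)
    have j1 := chain_joined (hd.chain _ _ _ hT (hA i l).1)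
      (hd.wh _ _ _ ⟨(J i l).2, hT⟩ (hA i l).1.used)
    have j2 := chain_joined (hd.chain _ _ _ hT (hB i l).1)
      (hd.wh _ _ _ ⟨(J i l).2, hT⟩ (hB i l).1.used)
    exact (j1.symm.mono Set.subset_union_left).trans (j2.mono Set.subset_union_right)
  · intro i l i' l' hi hl
    have hn : ¬ (((J i' l' : Fin _) : ℕ) = (J i l : Fin _) ∧ I (J i' l') = I (J i l)) := by
      rintro ⟨e, -⟩
      exact hne i l i' l' hi hl (Fin.ext e)
    obtain ⟨a1, a2, a3⟩ := hA i l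
    obtain ⟨b1, b2, b3⟩ := hB i l
    obtain ⟨a1', a2', a3'⟩ := hA i' l'
    obtain ⟨b1', b2', b3'⟩ := hB i' l'
    rw [Set.disjoint_union_left, Set.disjoint_union_right, Set.disjoint_union_right]
    refine ⟨⟨?_, ?_⟩, ?_, ?_⟩
    · exact good_disjoint hk hd hf (hsl _) (hsl _) hn a1 a1' (fun e => hi (hx e.symm)) a2 a2'
        (a3.trans a3'.symm)
    · exact good_disjoint hk hd hf (hsl _) (hsl _) hn a1 b1' (fun e => hxy _ _ e.symm) a2 b2'
        (a3.trans b3'.symm)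
    · exact good_disjoint hk hd hf (hsl _) (hsl _) hn b1 a1' (fun e => hxy _ _ e) b2 a2'
        (b3.trans a3'.symm)
    · exact good_disjoint hk hd hf (hsl _) (hsl _) hn b1 b1' (fun e => hl (hy e.symm)) b2 b2'
        (b3.trans b3'.symm)

/-- Three hubs and three reps of the same hyperedge, with uncrossed arms of the same colour, are
impossible. -/
theorem geoA_three {H : Type} {k q c : ℕ} {𝓔 : List (List H)} {T : ℕ} {hp : H → Pt}
    {wp : ℕ → ℕ → Pt} {ch : ℕ → ℕ → H → List Pt} (hk : k ≤ 2) (hd : IsHD k 𝓔 T hp wp ch)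
    {f : ℕ → ℕ → ℕ} (hf : Good q c 𝓔 T ch f) (σ : Prop) (j : ℕ) (hj : j < 𝓔.length)
    (i : Fin 3 → ℕ) (hi : Function.Injective i) (hi' : ∀ a, i a < nr q)
    (U : Finset H) (hU : ∀ a, ∀ h ∈ U, In 𝓔 j h ∧ ¬ Crossed 𝓔 q ch f j (i a) h ∧
      (Red (ch j (f j (i a)) h) ↔ σ)) : U.card ≤ 2 := by
  by_contra hcard
  push Not at hcard
  obtain ⟨V, hVU, hV⟩ := Finset.exists_subset_card_eq (show 3 ≤ U.card from hcard)
  let e := V.equivFinOfCardEq hV
  refine k33_arcs (fun a => wp j (f j (i a))) (fun b => hp (e.symm b).1)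
    (fun a b => {z | On (ch j (f j (i a)) (e.symm b).1) z}) ?_ ?_
  · intro a b
    have hb := hU a _ (hVU (e.symm b).2)
    have hT : f j (i a) < T := hf.lt _ _ ⟨hj, hi' a⟩
    exact chain_joined (hd.chain _ _ _ hT hb.1) (hd.wh _ _ _ ⟨hj, hT⟩ hb.1.used)
  · intro a b a' b' ha hb
    have h1 := hU a _ (hVU (e.symm b).2)
    have h2 := hU a' _ (hVU (e.symm b').2)
    refine good_disjoint hk hd hf ⟨hj, hi' a⟩ ⟨hj, hi' a'⟩ ?_ h1.1 h2.1 ?_ h1.2.1 h2.2.1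
      (h1.2.2.trans h2.2.2.symm)
    · rintro ⟨-, h⟩
      exact ha (hi h.symm)
    · intro h
      exact hb (e.symm.injective (Subtype.ext h.symm))

/-- The choice of the two pairs in every hyperedge. -/
theorem geoA_pick {H : Type} {k q c : ℕ} {𝓔 : List (List H)} {T : ℕ} {hp : H → Pt}
    {wp : ℕ → ℕ → Pt} {ch : ℕ → ℕ → H → List Pt} (hk : k ≤ 2)
    (hE : ∀ E ∈ 𝓔, E.Nodup ∧ E.length = q) (hq : c + 4 ≤ q) (hd : IsHD k 𝓔 T hp wp ch)
    {f : ℕ → ℕ → ℕ} (hf : Good q c 𝓔 T ch f) (j : ℕ) (hj : j < 𝓔.length) :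
    ∃ (i : ℕ) (x y z w : H), i < nr q ∧ [x, y, z, w].Nodup ∧
      (∀ h ∈ [x, y, z, w], In 𝓔 j h ∧ ¬ Crossed 𝓔 q ch f j i h) ∧
      Red (ch j (f j i) x) ∧ Red (ch j (f j i) y) ∧ ¬ Red (ch j (f j i) z) ∧
      ¬ Red (ch j (f j i) w) := by
  classical
  set E := (𝓔.getD j []) with hEdef
  have hEm : E ∈ 𝓔 := by
    rw [hEdef, List.getD_eq_getElem _ _ hj]; exact List.getElem_mem hj
  obtain ⟨hnd, hlen⟩ := hE E hEm
  have hcardE : E.toFinset.card = q := by rw [List.toFinset_card_of_nodup hnd, hlen]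
  let P : ℕ → Finset H × Finset H := fun i =>
    (E.toFinset.filter (fun h => ¬ Crossed 𝓔 q ch f j i h ∧ Red (ch j (f j i) h)),
     E.toFinset.filter (fun h => ¬ Crossed 𝓔 q ch f j i h ∧ ¬ Red (ch j (f j i) h)))
  have hmaps : ∀ i ∈ Finset.range (nr q), P i ∈ E.toFinset.powerset ×ˢ E.toFinset.powerset := by
    intro i _
    rw [Finset.mem_product, Finset.mem_powerset, Finset.mem_powerset]
    exact ⟨Finset.filter_subset _ _, Finset.filter_subset _ _⟩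
  have hcount : (E.toFinset.powerset ×ˢ E.toFinset.powerset).card * 2 <
      (Finset.range (nr q)).card := by
    rw [Finset.card_product, Finset.card_powerset, hcardE, Finset.card_range]
    have : (2 : ℕ) ^ q * 2 ^ q = 4 ^ q := by rw [← mul_pow]; norm_num
    rw [this]
    unfold nr
    omega
  obtain ⟨pat, -, hpat⟩ :=
    Finset.exists_lt_card_fiber_of_mul_lt_card_of_maps_to hmaps hcount
  obtain ⟨i0, h0, i1, h1, i2, h2, h01, h02, h12⟩ := Finset.two_lt_card.1 hpat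
  simp only [Finset.mem_filter, Finset.mem_range] at h0 h1 h2
  let i : Fin 3 → ℕ := ![i0, i1, i2]
  have hi : Function.Injective i := by
    intro a b
    fin_cases a <;> fin_cases b <;> simp [i, h01, h02, h12, Ne.symm h01, Ne.symm h02, Ne.symm h12]
  have hi' : ∀ a, i a < nr q := by
    intro a
    fin_cases a <;> simp [i, h0.1, h1.1, h2.1]
  have hP : ∀ a, P (i a) = pat := by
    intro a
    fin_cases a
    · exact h0.2
    · exact h1.2
    · exact h2.2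
  have hU1 : ∀ a, ∀ h ∈ pat.1, In 𝓔 j h ∧ ¬ Crossed 𝓔 q ch f j (i a) h ∧
      (Red (ch j (f j (i a)) h) ↔ True) := by
    intro a h hh
    rw [← hP a] at hh
    simp only [P, Finset.mem_filter, List.mem_toFinset] at hh
    exact ⟨hh.1, hh.2.1, by simp [hh.2.2]⟩
  have hU2 : ∀ a, ∀ h ∈ pat.2, In 𝓔 j h ∧ ¬ Crossed 𝓔 q ch f j (i a) h ∧
      (Red (ch j (f j (i a)) h) ↔ False) := by
    intro a h hh
    rw [← hP a] at hh
    simp only [P, Finset.mem_filter, List.mem_toFinset] at hh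
    exact ⟨hh.1, hh.2.1, by simp [hh.2.2]⟩
  have c1 := geoA_three hk hd hf True j hj i hi hi' pat.1 hU1
  have c2 := geoA_three hk hd hf False j hj i hi hi' pat.2 hU2
  -- at least four uncrossed arms
  have hcr : (E.toFinset.filter (fun h => Crossed 𝓔 q ch f j i0 h)).card ≤ c := by
    refine hf.arm j i0 ⟨hj, h0.1⟩ _ ?_
    intro h hh
    rw [Finset.mem_filter, List.mem_toFinset] at hh
    exact hh
  have hsplit := Finset.card_filter_add_card_filter_not (s := E.toFinset)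
    (fun h => Crossed 𝓔 q ch f j i0 h)
  have hsplit2 := Finset.card_filter_add_card_filter_not
    (s := E.toFinset.filter (fun h => ¬ Crossed 𝓔 q ch f j i0 h))
    (fun h => Red (ch j (f j i0) h))
  rw [Finset.filter_filter, Finset.filter_filter] at hsplit2
  have e1 : pat.1 = E.toFinset.filter (fun h => ¬ Crossed 𝓔 q ch f j i0 h ∧
      Red (ch j (f j i0) h)) := by rw [← h0.2]
  have e2 : pat.2 = E.toFinset.filter (fun h => ¬ Crossed 𝓔 q ch f j i0 h ∧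
      ¬ Red (ch j (f j i0) h)) := by rw [← h0.2]
  rw [← e1, ← e2] at hsplit2
  have k1 : pat.1.card = 2 := by omega
  have k2 : pat.2.card = 2 := by omega
  obtain ⟨x, y, hxy, hp1⟩ := Finset.card_eq_two.1 k1
  obtain ⟨z, w, hzw, hp2⟩ := Finset.card_eq_two.1 k2
  have hx := hU1 0 x (by rw [hp1]; simp)
  have hy := hU1 0 y (by rw [hp1]; simp)
  have hz := hU2 0 z (by rw [hp2]; simp)
  have hw := hU2 0 w (by rw [hp2]; simp)
  have hi0 : i 0 = i0 := rfl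
  rw [hi0] at hx hy hz hw
  have rx : Red (ch j (f j i0) x) := hx.2.2.2 trivial
  have ry : Red (ch j (f j i0) y) := hy.2.2.2 trivial
  have rz : ¬ Red (ch j (f j i0) z) := fun h => hz.2.2.1 h
  have rw' : ¬ Red (ch j (f j i0) w) := fun h => hw.2.2.1 h
  refine ⟨i0, x, y, z, w, h0.1, ?_, ?_, rx, ry, rz, rw'⟩
  · have n1 : x ≠ z := by rintro rfl; exact rz rx
    have n2 : x ≠ w := by rintro rfl; exact rw' rx
    have n3 : y ≠ z := by rintro rfl; exact rz ry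
    have n4 : y ≠ w := by rintro rfl; exact rw' ry
    simp [hxy, hzw, n1, n2, n3, n4]
  · intro h hh
    simp only [List.mem_cons, List.not_mem_nil, or_false] at hh
    rcases hh with rfl | rfl | rfl | rfl
    · exact ⟨hx.1, hx.2.1⟩
    · exact ⟨hy.1, hy.2.1⟩
    · exact ⟨hz.1, hz.2.1⟩
    · exact ⟨hw.1, hw.2.1⟩

/-- Good reps give the two relations. -/
theorem geoA {H : Type} {k q c : ℕ} {𝓔 : List (List H)} {T : ℕ} {hp : H → Pt}
    {wp : ℕ → ℕ → Pt} {ch : ℕ → ℕ → H → List Pt} (hk : k ≤ 2)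
    (hE : ∀ E ∈ 𝓔, E.Nodup ∧ E.length = q) (hq : c + 4 ≤ q) (hd : IsHD k 𝓔 T hp wp ch)
    {f : ℕ → ℕ → ℕ} (hf : Good q c 𝓔 T ch f) :
    ∃ R B : H → H → Prop, Nice R B ∧ ∀ E ∈ 𝓔, Split R B E := by
  classical
  have hpick := fun j : Fin 𝓔.length => geoA_pick hk hE hq hd hf j.1 j.2
  choose I X Y Z W hI hnd hin hX hY hZ hW using hpick
  have nXY : ∀ j, X j ≠ Y j := by
    intro j h
    have := hnd j
    simp [h] at this
  have nZW : ∀ j, Z j ≠ W j := by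
    intro j h
    have := hnd j
    simp [h] at this
  refine ⟨fun a b => ∃ j, (a = X j ∧ b = Y j) ∨ (a = Y j ∧ b = X j),
    fun a b => ∃ j, (a = Z j ∧ b = W j) ∨ (a = W j ∧ b = Z j), ⟨?_, ?_, ?_, ?_, ?_, ?_⟩, ?_⟩
  · rintro x y ⟨j, h | h⟩
    · exact ⟨j, Or.inr ⟨h.2, h.1⟩⟩
    · exact ⟨j, Or.inl ⟨h.2, h.1⟩⟩
  · rintro x y ⟨j, h | h⟩
    · exact ⟨j, Or.inr ⟨h.2, h.1⟩⟩
    · exact ⟨j, Or.inl ⟨h.2, h.1⟩⟩
  · rintro x ⟨j, h | h⟩
    · exact nXY j (h.1.symm.trans h.2)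
    · exact nXY j (h.2.symm.trans h.1)
  · rintro x ⟨j, h | h⟩
    · exact nZW j (h.1.symm.trans h.2)
    · exact nZW j (h.2.symm.trans h.1)
  · refine geoA_free hk hd hf True I X Y ?_
    intro j
    have h1 := hin j (X j) (by simp)
    have h2 := hin j (Y j) (by simp)
    exact ⟨hI j, h1.1, h2.1, h1.2, h2.2, by simp [hX j], by simp [hY j]⟩
  · refine geoA_free hk hd hf False I Z W ?_
    intro j
    have h1 := hin j (Z j) (by simp)
    have h2 := hin j (W j) (by simp)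
    exact ⟨hI j, h1.1, h2.1, h1.2, h2.2, by simp [hZ j], by simp [hW j]⟩
  · intro E hEm
    obtain ⟨j, hj, rfl⟩ := List.getElem_of_mem hEm
    have hmem : ∀ h, In 𝓔 j h → h ∈ 𝓔[j] := by
      intro h hh
      unfold In at hh
      rwa [List.getD_eq_getElem _ _ hj] at hh
    refine ⟨X ⟨j, hj⟩, hmem _ (hin ⟨j, hj⟩ _ (by simp)).1, Y ⟨j, hj⟩,
      hmem _ (hin ⟨j, hj⟩ _ (by simp)).1, Z ⟨j, hj⟩, hmem _ (hin ⟨j, hj⟩ _ (by simp)).1,
      W ⟨j, hj⟩, hmem _ (hin ⟨j, hj⟩ _ (by simp)).1, hnd ⟨j, hj⟩, ?_, ?_⟩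
    · exact ⟨⟨j, hj⟩, Or.inl ⟨rfl, rfl⟩⟩
    · exact ⟨⟨j, hj⟩, Or.inl ⟨rfl, rfl⟩⟩

end Pool.Agent.RAC963
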