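import Pool.Agent.RAC963.NoK

set_option autoImplicit false

namespace Pool.Agent.RAC963

theorem goodCopy_k33 {H : Type} {X : H → H → Prop} (hk : K33Free X) (x1 x2 x3 : H)
    (h12 : x1 ≠ x2) (h13 : x1 ≠ x3) (h23 : x2 ≠ x3) (S : Finset H) (hS : 3 ≤ S.card)
    (h : ∀ v ∈ S, (x1 ≠ v ∧ x2 ≠ v ∧ x3 ≠ v) ∧ X x1 v ∧ X x2 v ∧ X x3 v) : False := by
  classical
  obtain ⟨y1, hy1, y2, hy2, y3, hy3, e12, e13, e23⟩ := Finset.two_lt_card.1 hS
  apply hk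
  refine ⟨![x1, x2, x3], ![y1, y2, y3], ?_, ?_, ?_, ?_⟩
  · intro i j hij
    fin_cases i <;> fin_cases j <;> simp_all
  · intro i j hij
    fin_cases i <;> fin_cases j <;> simp_all
  · intro i j
    have a1 := (h y1 hy1).1
    have a2 := (h y2 hy2).1
    have a3 := (h y3 hy3).1
    fin_cases i <;> fin_cases j <;> simp_all
  · intro i j
    have a1 := (h y1 hy1).2
    have a2 := (h y2 hy2).2
    have a3 := (h y3 hy3).2
    fin_cases i <;> fin_cases j <;> simp_all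

theorem goodCopy_split {H : Type} {R B : H → H → Prop} (hn : Nice R B) (p q c d : H)
    (hr : ¬ R p q) (hb : ¬ B p q) (h : Split R B [p, q, c, d]) :
    (R c p ∧ B d q) ∨ (R d p ∧ B c q) ∨ (R c q ∧ B d p) ∨ (R d q ∧ B c p) := by
  have hr' : ¬ R q p := fun h => hr (hn.rs _ _ h)
  have hb' : ¬ B q p := fun h => hb (hn.bs _ _ h)
  have hrs := hn.rs
  have hbs := hn.bs
  obtain ⟨x, hx, y, hy, z, hz, w, hw, hnd, hR, hB⟩ := h
  simp only [List.mem_cons, List.not_mem_nil, or_false] at hx hy hz hw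
  simp only [List.nodup_cons, List.mem_cons, List.not_mem_nil, or_false, not_or,
    not_false_eq_true, List.nodup_nil, and_true] at hnd
  obtain ⟨⟨n1, n2, n3⟩, ⟨n4, n5⟩, n6⟩ := hnd
  rcases hx with rfl | rfl | rfl | rfl <;> rcases hy with rfl | rfl | rfl | rfl <;>
    first
    | exact absurd rfl n1
    | exact absurd hR hr
    | exact absurd hR hr'
    | (rcases hz with rfl | rfl | rfl | rfl <;>
        first
        | exact absurd rfl n2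
        | exact absurd rfl n4
        | (rcases hw with rfl | rfl | rfl | rfl <;>
            first
            | exact absurd rfl n3
            | exact absurd rfl n5
            | exact absurd rfl n6
            | exact absurd hB hb
            | exact absurd hB hb'
            | exact Or.inl ⟨hR, hB⟩
            | exact Or.inl ⟨hrs _ _ hR, hB⟩
            | exact Or.inl ⟨hR, hbs _ _ hB⟩
            | exact Or.inl ⟨hrs _ _ hR, hbs _ _ hB⟩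
            | exact Or.inr (Or.inl ⟨hR, hB⟩)
            | exact Or.inr (Or.inl ⟨hrs _ _ hR, hB⟩)
            | exact Or.inr (Or.inl ⟨hR, hbs _ _ hB⟩)
            | exact Or.inr (Or.inl ⟨hrs _ _ hR, hbs _ _ hB⟩)
            | exact Or.inr (Or.inr (Or.inl ⟨hR, hB⟩))
            | exact Or.inr (Or.inr (Or.inl ⟨hrs _ _ hR, hB⟩))
            | exact Or.inr (Or.inr (Or.inl ⟨hR, hbs _ _ hB⟩))
            | exact Or.inr (Or.inr (Or.inl ⟨hrs _ _ hR, hbs _ _ hB⟩))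
            | exact Or.inr (Or.inr (Or.inr ⟨hR, hB⟩))
            | exact Or.inr (Or.inr (Or.inr ⟨hrs _ _ hR, hB⟩))
            | exact Or.inr (Or.inr (Or.inr ⟨hR, hbs _ _ hB⟩))
            | exact Or.inr (Or.inr (Or.inr ⟨hrs _ _ hR, hbs _ _ hB⟩))))

theorem goodCopy_swap {H : Type} {R B : H → H → Prop} (p q c d : H)
    (h : Split R B [p, q, c, d]) : Split R B [q, p, c, d] := by
  obtain ⟨x, hx, y, hy, z, hz, w, hw, hnd, hR, hB⟩ := h
  have hm : ∀ x, x ∈ [p, q, c, d] → x ∈ [q, p, c, d] := by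
    intro x hx
    simp only [List.mem_cons, List.not_mem_nil, or_false] at hx ⊢
    tauto
  exact ⟨x, hm x hx, y, hm y hy, z, hm z hz, w, hm w hw, hnd, hR, hB⟩

open Classical in
/-- The type of a hub. -/
noncomputable def goodCopy_ty {H : Type} (R B : H → H → Prop) (a b c d v : H) :
    (Bool × Bool × Bool × Bool) × (Bool × Bool × Bool × Bool) :=
  ((decide (R a v), decide (R b v), decide (R c v), decide (R d v)),
    (decide (B a v), decide (B b v), decide (B c v), decide (B d v)))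

theorem goodCopy_ty_eq {H : Type} {R B : H → H → Prop} {a b c d v w : H}
    (h : goodCopy_ty R B a b c d v = goodCopy_ty R B a b c d w) :
    ((R a v ↔ R a w) ∧ (R b v ↔ R b w) ∧ (R c v ↔ R c w) ∧ (R d v ↔ R d w)) ∧
      (B a v ↔ B a w) ∧ (B b v ↔ B b w) ∧ (B c v ↔ B c w) ∧ (B d v ↔ B d w) := by
  simp only [goodCopy_ty, Prod.mk.injEq, decide_eq_decide] at h
  exact h

/-- The type occurs in 46 copies. -/
def goodCopy_Com {H : Type} (R B : H → H → Prop) (a b c d : H) (N : ℕ) (V : ℕ → Finset H)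
    (τ : (Bool × Bool × Bool × Bool) × (Bool × Bool × Bool × Bool)) : Prop :=
  ∃ (A : Finset ℕ) (r : ℕ → H), 46 ≤ A.card ∧
    ∀ α ∈ A, α < N ∧ r α ∈ V α ∧ goodCopy_ty R B a b c d (r α) = τ

theorem goodCopy_pig {H : Type} {R B : H → H → Prop} (N : ℕ) (hN : 11521 ≤ N)
    (V : ℕ → Finset H) (a b c d : H) :
    ∃ α < N, ∀ v ∈ V α, goodCopy_Com R B a b c d N V (goodCopy_ty R B a b c d v) := by
  classical
  by_contra hc
  push Not at hc
  have h1 : ∀ α, ∃ v, α < N → v ∈ V α ∧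
      ¬ goodCopy_Com R B a b c d N V (goodCopy_ty R B a b c d v) := by
    intro α
    by_cases hα : α < N
    · obtain ⟨v, hv, hv'⟩ := hc α hα
      exact ⟨v, fun _ => ⟨hv, hv'⟩⟩
    · exact ⟨a, fun h => absurd h hα⟩
  choose r hr using h1
  obtain ⟨τ, -, hτ⟩ := Finset.exists_lt_card_fiber_of_mul_lt_card_of_maps_to
    (s := Finset.range N) (t := Finset.univ) (f := fun α => goodCopy_ty R B a b c d (r α))
    (n := 45) (fun _ _ => Finset.mem_univ _) (by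
      rw [Finset.card_range, Finset.card_univ]
      simp only [Fintype.card_prod, Fintype.card_bool]
      omega)
  have hne : (Finset.filter (fun α => goodCopy_ty R B a b c d (r α) = τ)
      (Finset.range N)).Nonempty := Finset.card_pos.1 (by omega)
  obtain ⟨α, hα⟩ := hne
  rw [Finset.mem_filter, Finset.mem_range] at hα
  apply (hr α hα.1).2
  rw [hα.2]
  refine ⟨Finset.filter (fun α => goodCopy_ty R B a b c d (r α) = τ) (Finset.range N), r,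
    hτ, ?_⟩
  intro β hβ
  rw [Finset.mem_filter, Finset.mem_range] at hβ
  exact ⟨hβ.1, (hr β hβ.1).1, hβ.2⟩

section

variable {H : Type} {R B : H → H → Prop} {N : ℕ} {V : ℕ → Finset H} {a b c d : H}

theorem goodCopy_inj {A : Finset ℕ} {r : ℕ → H}
    (hV : ∀ α β, α < N → β < N → α ≠ β → Disjoint (V α) (V β))
    (hA : ∀ α ∈ A, α < N ∧ r α ∈ V α) : Set.InjOn r (A : Set ℕ) := by
  intro α hα β hβ hαβ
  by_contra hne
  have h1 := hA α hα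
  have h2 := hA β hβ
  refine Finset.disjoint_left.1 (hV α β h1.1 h2.1 hne) h1.2 ?_
  rw [hαβ]
  exact h2.2

theorem goodCopy_type (hn : Nice R B) (hne : [a, b, c, d].Nodup)
    (hG : ∀ α < N, a ∉ V α ∧ b ∉ V α ∧ c ∉ V α ∧ d ∉ V α)
    (hV : ∀ α β, α < N → β < N → α ≠ β → Disjoint (V α) (V β))
    (h1 : ∀ α β, α ≠ β → α < N → β < N → ∀ p ∈ V α, ∀ q ∈ V β,
      Split R B [p, q, c, d] ∧ Split R B [p, q, a, b]) (v : H)
    (hv : goodCopy_Com R B a b c d N V (goodCopy_ty R B a b c d v)) :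
    ((R c v ∧ ¬ B c v ∧ B d v ∧ ¬ R d v) ∨ (B c v ∧ ¬ R c v ∧ R d v ∧ ¬ B d v)) ∧
      ((R a v ∧ ¬ B a v ∧ B b v ∧ ¬ R b v) ∨ (B a v ∧ ¬ R a v ∧ R b v ∧ ¬ B b v)) := by
  classical
  obtain ⟨A, r, hA, hr⟩ := hv
  have hinj := goodCopy_inj (r := r) hV fun α hα => ⟨(hr α hα).1, (hr α hα).2.1⟩
  have hcard : (A.image r).card = A.card := Finset.card_image_of_injOn hinj
  have hS : ∀ w ∈ A.image r, (a ≠ w ∧ b ≠ w ∧ c ≠ w ∧ d ≠ w) ∧
      goodCopy_ty R B a b c d w = goodCopy_ty R B a b c d v := by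
    intro w hw
    rw [Finset.mem_image] at hw
    obtain ⟨α, hα, rfl⟩ := hw
    obtain ⟨e1, e2, e3⟩ := hr α hα
    obtain ⟨g1, g2, g3, g4⟩ := hG α e1
    refine ⟨⟨?_, ?_, ?_, ?_⟩, e3⟩
    · rintro rfl
      exact g1 e2
    · rintro rfl
      exact g2 e2
    · rintro rfl
      exact g3 e2
    · rintro rfl
      exact g4 e2
  simp only [List.nodup_cons, List.mem_cons, List.not_mem_nil, or_false, not_or,
    not_false_eq_true, List.nodup_nil, and_true] at hne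
  obtain ⟨⟨nab, nac, nad⟩, ⟨nbc, nbd⟩, ncd⟩ := hne
  -- two unrelated hubs of this type
  obtain ⟨p, hp, q, hq, hpq, hr1, hb1⟩ := exists_nonadj hn (A.image r) (by omega)
  have htp := goodCopy_ty_eq (hS p hp).2
  have htq := goodCopy_ty_eq (hS q hq).2
  rw [Finset.mem_image] at hp hq
  obtain ⟨α, hα, rfl⟩ := hp
  obtain ⟨β, hβ, rfl⟩ := hq
  have hαβ : α ≠ β := by
    rintro rfl
    exact hpq rfl
  obtain ⟨s1, s2⟩ := h1 α β hαβ (hr α hα).1 (hr β hβ).1 _ (hr α hα).2.1 _ (hr β hβ).2.1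
  have t1 := goodCopy_split hn _ _ _ _ hr1 hb1 s1
  have t2 := goodCopy_split hn _ _ _ _ hr1 hb1 s2
  -- no three
  have key : ∀ (X : H → H → Prop), K33Free X → ∀ x1 x2 x3 : H, x1 ≠ x2 → x1 ≠ x3 → x2 ≠ x3 →
      (∀ w ∈ A.image r, (x1 ≠ w ∧ x2 ≠ w ∧ x3 ≠ w) ∧ X x1 w ∧ X x2 w ∧ X x3 w) → False := by
    intro X hX x1 x2 x3 e1 e2 e3 h
    exact goodCopy_k33 hX x1 x2 x3 e1 e2 e3 _ (by omega) h
  have k1 : ¬ (R a v ∧ R b v ∧ R c v) := by
    rintro ⟨u1, u2, u3⟩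
    refine key R hn.rk a b c nab nac nbc fun w hw => ?_
    obtain ⟨⟨w1, w2, w3, w4⟩, w5⟩ := hS w hw
    have w6 := goodCopy_ty_eq w5
    exact ⟨⟨w1, w2, w3⟩, w6.1.1.2 u1, w6.1.2.1.2 u2, w6.1.2.2.1.2 u3⟩
  have k2 : ¬ (R a v ∧ R b v ∧ R d v) := by
    rintro ⟨u1, u2, u3⟩
    refine key R hn.rk a b d nab nad nbd fun w hw => ?_
    obtain ⟨⟨w1, w2, w3, w4⟩, w5⟩ := hS w hw
    have w6 := goodCopy_ty_eq w5
    exact ⟨⟨w1, w2, w4⟩, w6.1.1.2 u1, w6.1.2.1.2 u2, w6.1.2.2.2.2 u3⟩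
  have k3 : ¬ (R a v ∧ R c v ∧ R d v) := by
    rintro ⟨u1, u2, u3⟩
    refine key R hn.rk a c d nac nad ncd fun w hw => ?_
    obtain ⟨⟨w1, w2, w3, w4⟩, w5⟩ := hS w hw
    have w6 := goodCopy_ty_eq w5
    exact ⟨⟨w1, w3, w4⟩, w6.1.1.2 u1, w6.1.2.2.1.2 u2, w6.1.2.2.2.2 u3⟩
  have k4 : ¬ (R b v ∧ R c v ∧ R d v) := by
    rintro ⟨u1, u2, u3⟩
    refine key R hn.rk b c d nbc nbd ncd fun w hw => ?_
    obtain ⟨⟨w1, w2, w3, w4⟩, w5⟩ := hS w hw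
    have w6 := goodCopy_ty_eq w5
    exact ⟨⟨w2, w3, w4⟩, w6.1.2.1.2 u1, w6.1.2.2.1.2 u2, w6.1.2.2.2.2 u3⟩
  have k5 : ¬ (B a v ∧ B b v ∧ B c v) := by
    rintro ⟨u1, u2, u3⟩
    refine key B hn.bk a b c nab nac nbc fun w hw => ?_
    obtain ⟨⟨w1, w2, w3, w4⟩, w5⟩ := hS w hw
    have w6 := goodCopy_ty_eq w5
    exact ⟨⟨w1, w2, w3⟩, w6.2.1.2 u1, w6.2.2.1.2 u2, w6.2.2.2.1.2 u3⟩
  have k6 : ¬ (B a v ∧ B b v ∧ B d v) := by
    rintro ⟨u1, u2, u3⟩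
    refine key B hn.bk a b d nab nad nbd fun w hw => ?_
    obtain ⟨⟨w1, w2, w3, w4⟩, w5⟩ := hS w hw
    have w6 := goodCopy_ty_eq w5
    exact ⟨⟨w1, w2, w4⟩, w6.2.1.2 u1, w6.2.2.1.2 u2, w6.2.2.2.2.2 u3⟩
  have k7 : ¬ (B a v ∧ B c v ∧ B d v) := by
    rintro ⟨u1, u2, u3⟩
    refine key B hn.bk a c d nac nad ncd fun w hw => ?_
    obtain ⟨⟨w1, w2, w3, w4⟩, w5⟩ := hS w hw
    have w6 := goodCopy_ty_eq w5
    exact ⟨⟨w1, w3, w4⟩, w6.2.1.2 u1, w6.2.2.2.1.2 u2, w6.2.2.2.2.2 u3⟩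
  have k8 : ¬ (B b v ∧ B c v ∧ B d v) := by
    rintro ⟨u1, u2, u3⟩
    refine key B hn.bk b c d nbc nbd ncd fun w hw => ?_
    obtain ⟨⟨w1, w2, w3, w4⟩, w5⟩ := hS w hw
    have w6 := goodCopy_ty_eq w5
    exact ⟨⟨w2, w3, w4⟩, w6.2.2.1.2 u1, w6.2.2.2.1.2 u2, w6.2.2.2.2.2 u3⟩
  -- the type
  obtain ⟨⟨p1, p2, p3, p4⟩, p5, p6, p7, p8⟩ := htp
  obtain ⟨⟨q1, q2, q3, q4⟩, q5, q6, q7, q8⟩ := htq
  rw [p3, p4, p7, p8, q3, q4, q7, q8] at t1
  rw [p1, p2, p5, p6, q1, q2, q5, q6] at t2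
  have t1' : (R c v ∧ B d v) ∨ (R d v ∧ B c v) := by
    rcases t1 with h | h | h | h
    · exact Or.inl h
    · exact Or.inr h
    · exact Or.inl h
    · exact Or.inr h
  have t2' : (R a v ∧ B b v) ∨ (R b v ∧ B a v) := by
    rcases t2 with h | h | h | h
    · exact Or.inl h
    · exact Or.inr h
    · exact Or.inl h
    · exact Or.inr h
  rcases t1' with ⟨u1, u2⟩ | ⟨u1, u2⟩ <;> rcases t2' with ⟨u3, u4⟩ | ⟨u3, u4⟩
  · exact ⟨Or.inl ⟨u1, fun h => k8 ⟨u4, h, u2⟩, u2, fun h => k3 ⟨u3, u1, h⟩⟩,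
      Or.inl ⟨u3, fun h => k6 ⟨h, u4, u2⟩, u4, fun h => k1 ⟨u3, h, u1⟩⟩⟩
  · exact ⟨Or.inl ⟨u1, fun h => k7 ⟨u4, h, u2⟩, u2, fun h => k4 ⟨u3, u1, h⟩⟩,
      Or.inr ⟨u4, fun h => k1 ⟨h, u3, u1⟩, u3, fun h => k6 ⟨u4, h, u2⟩⟩⟩
  · exact ⟨Or.inr ⟨u2, fun h => k3 ⟨u3, h, u1⟩, u1, fun h => k8 ⟨u4, u2, h⟩⟩,
      Or.inl ⟨u3, fun h => k5 ⟨h, u4, u2⟩, u4, fun h => k2 ⟨u3, h, u1⟩⟩⟩
  · exact ⟨Or.inr ⟨u2, fun h => k4 ⟨u3, h, u1⟩, u1, fun h => k7 ⟨u4, u2, h⟩⟩,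
      Or.inr ⟨u4, fun h => k2 ⟨h, u3, u1⟩, u3, fun h => k5 ⟨u4, h, u2⟩⟩⟩

theorem goodCopy_same (hn : Nice R B) (hne : [a, b, c, d].Nodup)
    (hG : ∀ α < N, a ∉ V α ∧ b ∉ V α ∧ c ∉ V α ∧ d ∉ V α)
    (hV : ∀ α β, α < N → β < N → α ≠ β → Disjoint (V α) (V β))
    (h1 : ∀ α β, α ≠ β → α < N → β < N → ∀ p ∈ V α, ∀ q ∈ V β,
      Split R B [p, q, c, d] ∧ Split R B [p, q, a, b]) (v w : H)
    (hv : goodCopy_Com R B a b c d N V (goodCopy_ty R B a b c d v))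
    (hw : goodCopy_Com R B a b c d N V (goodCopy_ty R B a b c d w)) :
    (R c v ↔ R c w) ∧ (R a v ↔ R a w) := by
  classical
  have tv := goodCopy_type hn hne hG hV h1 v hv
  have tw := goodCopy_type hn hne hG hV h1 w hw
  obtain ⟨A, r, hA, hr⟩ := hv
  obtain ⟨A', r', hA', hr'⟩ := hw
  obtain ⟨A1, hA1, hA1c⟩ := Finset.exists_subset_card_eq (s := A) (n := 5) (by omega)
  have hcard : 41 ≤ (A' \ A1).card := by
    have := Finset.le_card_sdiff A1 A'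
    omega
  obtain ⟨A2, hA2, hA2c⟩ := Finset.exists_subset_card_eq (s := A' \ A1) (n := 41) hcard
  have hinj1 : Set.InjOn r (A1 : Set ℕ) := goodCopy_inj (r := r) hV fun α hα =>
    ⟨(hr α (hA1 hα)).1, (hr α (hA1 hα)).2.1⟩
  have hA2' : ∀ α ∈ A2, α ∈ A' ∧ α ∉ A1 := fun α hα => Finset.mem_sdiff.1 (hA2 hα)
  have hinj2 : Set.InjOn r' (A2 : Set ℕ) := goodCopy_inj (r := r') hV fun α hα =>
    ⟨(hr' α (hA2' α hα).1).1, (hr' α (hA2' α hα).1).2.1⟩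
  have hex : ∃ α ∈ A1, ∃ β ∈ A2, ¬ R (r α) (r' β) ∧ ¬ B (r α) (r' β) := by
    by_contra hc
    push Not at hc
    refine noK hn (A1.image r) (A2.image r') ?_ ?_ ?_ ?_
    · rw [Finset.card_image_of_injOn hinj1, hA1c]
    · rw [Finset.card_image_of_injOn hinj2, hA2c]
    · rw [Finset.disjoint_left]
      intro x hx hx'
      rw [Finset.mem_image] at hx hx'
      obtain ⟨α, hα, rfl⟩ := hx
      obtain ⟨β, hβ, hαβ⟩ := hx'
      have e1 := hr α (hA1 hα)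
      have e2 := hr' β (hA2' β hβ).1
      have e3 : α ≠ β := by
        rintro rfl
        exact (hA2' α hβ).2 hα
      refine Finset.disjoint_left.1 (hV α β e1.1 e2.1 e3) e1.2.1 ?_
      rw [← hαβ]
      exact e2.2.1
    · intro x hx y hy
      rw [Finset.mem_image] at hx hy
      obtain ⟨α, hα, rfl⟩ := hx
      obtain ⟨β, hβ, rfl⟩ := hy
      by_cases hR : R (r α) (r' β)
      · exact Or.inl hR
      · exact Or.inr (hc α hα β hβ hR)
  obtain ⟨α, hα, β, hβ, n1, n2⟩ := hex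
  have e1 := hr α (hA1 hα)
  have e2 := hr' β (hA2' β hβ).1
  have e3 : α ≠ β := by
    rintro rfl
    exact (hA2' α hβ).2 hα
  obtain ⟨s1, s2⟩ := h1 α β e3 e1.1 e2.1 _ e1.2.1 _ e2.2.1
  have t1 := goodCopy_split hn _ _ _ _ n1 n2 s1
  have t2 := goodCopy_split hn _ _ _ _ n1 n2 s2
  obtain ⟨⟨p1, p2, p3, p4⟩, p5, p6, p7, p8⟩ := goodCopy_ty_eq e1.2.2
  obtain ⟨⟨q1, q2, q3, q4⟩, q5, q6, q7, q8⟩ := goodCopy_ty_eq e2.2.2
  rw [p3, p4, p7, p8, q3, q4, q7, q8] at t1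
  rw [p1, p2, p5, p6, q1, q2, q5, q6] at t2
  clear p1 p2 p3 p4 p5 p6 p7 p8 q1 q2 q3 q4 q5 q6 q7 q8
  obtain ⟨v1, v2⟩ := tv
  obtain ⟨w1, w2⟩ := tw
  constructor
  · rcases v1 with ⟨x1, x2, x3, x4⟩ | ⟨x1, x2, x3, x4⟩ <;>
      rcases w1 with ⟨y1, y2, y3, y4⟩ | ⟨y1, y2, y3, y4⟩
    · exact ⟨fun _ => y1, fun _ => x1⟩
    · rcases t1 with ⟨z1, z2⟩ | ⟨z1, z2⟩ | ⟨z1, z2⟩ | ⟨z1, z2⟩
      · exact absurd z2 y4
      · exact absurd z1 x4
      · exact absurd z1 y2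
      · exact absurd z2 x2
    · rcases t1 with ⟨z1, z2⟩ | ⟨z1, z2⟩ | ⟨z1, z2⟩ | ⟨z1, z2⟩
      · exact absurd z1 x2
      · exact absurd z2 y2
      · exact absurd z2 x4
      · exact absurd z1 y4
    · exact ⟨fun h => absurd h x2, fun h => absurd h y2⟩
  · rcases v2 with ⟨x1, x2, x3, x4⟩ | ⟨x1, x2, x3, x4⟩ <;>
      rcases w2 with ⟨y1, y2, y3, y4⟩ | ⟨y1, y2, y3, y4⟩
    · exact ⟨fun _ => y1, fun _ => x1⟩
    · rcases t2 with ⟨z1, z2⟩ | ⟨z1, z2⟩ | ⟨z1, z2⟩ | ⟨z1, z2⟩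
      · exact absurd z2 y4
      · exact absurd z1 x4
      · exact absurd z1 y2
      · exact absurd z2 x2
    · rcases t2 with ⟨z1, z2⟩ | ⟨z1, z2⟩ | ⟨z1, z2⟩ | ⟨z1, z2⟩
      · exact absurd z1 x2
      · exact absurd z2 y2
      · exact absurd z2 x4
      · exact absurd z1 y4
    · exact ⟨fun h => absurd h x2, fun h => absurd h y2⟩

end

/-- Some copy is good: all its hubs have the same relations to the outer hubs `a`, `b`, `c`, `d`. -/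
theorem good_copy {H : Type} {R B : H → H → Prop} (hn : Nice R B) (N : ℕ) (hN : 11521 ≤ N)
    (V : ℕ → Finset H) (a b c d : H) (hne : [a, b, c, d].Nodup)
    (hG : ∀ α < N, a ∉ V α ∧ b ∉ V α ∧ c ∉ V α ∧ d ∉ V α)
    (hV : ∀ α β, α < N → β < N → α ≠ β → Disjoint (V α) (V β))
    (h1 : ∀ α β, α < β → β < N → ∀ p ∈ V α, ∀ q ∈ V β,
      Split R B [p, q, c, d] ∧ Split R B [p, q, a, b]) :
    ∃ α < N, ∃ X Y : H → H → Prop, (X = R ∧ Y = B ∨ X = B ∧ Y = R) ∧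
      ∃ g g' : H, (g = a ∧ g' = b ∨ g = b ∧ g' = a) ∧
        ∀ v ∈ V α, X c v ∧ ¬ Y c v ∧ Y d v ∧ ¬ X d v ∧ X g v ∧ Y g' v := by
  have h2 : ∀ α β, α ≠ β → α < N → β < N → ∀ p ∈ V α, ∀ q ∈ V β,
      Split R B [p, q, c, d] ∧ Split R B [p, q, a, b] := by
    intro α β hαβ hα hβ p hp q hq
    rcases lt_or_gt_of_ne hαβ with h | h
    · exact h1 α β h hβ p hp q hq
    · obtain ⟨e1, e2⟩ := h1 β α h hα q hq p hp
      exact ⟨goodCopy_swap _ _ _ _ e1, goodCopy_swap _ _ _ _ e2⟩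
  obtain ⟨α, hα, hcom⟩ := goodCopy_pig (R := R) (B := B) N hN V a b c d
  refine ⟨α, hα, ?_⟩
  rcases (V α).eq_empty_or_nonempty with hemp | ⟨v0, hv0⟩
  · refine ⟨R, B, Or.inl ⟨rfl, rfl⟩, a, b, Or.inl ⟨rfl, rfl⟩, ?_⟩
    intro v hv
    rw [hemp] at hv
    exact absurd hv (Finset.notMem_empty v)
  · have hty := fun v (hv : v ∈ V α) => goodCopy_type hn hne hG hV h2 v (hcom v hv)
    have hsame := fun v (hv : v ∈ V α) =>
      goodCopy_same hn hne hG hV h2 v0 v (hcom v0 hv0) (hcom v hv)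
    by_cases hc0 : R c v0
    · refine ⟨R, B, Or.inl ⟨rfl, rfl⟩, ?_⟩
      by_cases ha0 : R a v0
      · refine ⟨a, b, Or.inl ⟨rfl, rfl⟩, ?_⟩
        intro v hv
        have e1 := (hsame v hv).1.1 hc0
        have e2 := (hsame v hv).2.1 ha0
        obtain ⟨t1, t2⟩ := hty v hv
        rcases t1 with ⟨x1, x2, x3, x4⟩ | ⟨x1, x2, x3, x4⟩
        · rcases t2 with ⟨y1, y2, y3, y4⟩ | ⟨y1, y2, y3, y4⟩
          · exact ⟨x1, x2, x3, x4, y1, y3⟩
          · exact absurd e2 y2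
        · exact absurd e1 x2
      · refine ⟨b, a, Or.inr ⟨rfl, rfl⟩, ?_⟩
        intro v hv
        have e1 := (hsame v hv).1.1 hc0
        have e2 : ¬ R a v := fun h => ha0 ((hsame v hv).2.2 h)
        obtain ⟨t1, t2⟩ := hty v hv
        rcases t1 with ⟨x1, x2, x3, x4⟩ | ⟨x1, x2, x3, x4⟩
        · rcases t2 with ⟨y1, y2, y3, y4⟩ | ⟨y1, y2, y3, y4⟩
          · exact absurd y1 e2
          · exact ⟨x1, x2, x3, x4, y3, y1⟩
        · exact absurd e1 x2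
    · refine ⟨B, R, Or.inr ⟨rfl, rfl⟩, ?_⟩
      by_cases ha0 : R a v0
      · refine ⟨b, a, Or.inr ⟨rfl, rfl⟩, ?_⟩
        intro v hv
        have e1 : ¬ R c v := fun h => hc0 ((hsame v hv).1.2 h)
        have e2 := (hsame v hv).2.1 ha0
        obtain ⟨t1, t2⟩ := hty v hv
        rcases t1 with ⟨x1, x2, x3, x4⟩ | ⟨x1, x2, x3, x4⟩
        · exact absurd x1 e1
        · rcases t2 with ⟨y1, y2, y3, y4⟩ | ⟨y1, y2, y3, y4⟩
          · exact ⟨x1, x2, x3, x4, y3, y1⟩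
          · exact absurd e2 y2
      · refine ⟨a, b, Or.inl ⟨rfl, rfl⟩, ?_⟩
        intro v hv
        have e1 : ¬ R c v := fun h => hc0 ((hsame v hv).1.2 h)
        have e2 : ¬ R a v := fun h => ha0 ((hsame v hv).2.2 h)
        obtain ⟨t1, t2⟩ := hty v hv
        rcases t1 with ⟨x1, x2, x3, x4⟩ | ⟨x1, x2, x3, x4⟩
        · exact absurd x1 e1
        · rcases t2 with ⟨y1, y2, y3, y4⟩ | ⟨y1, y2, y3, y4⟩
          · exact absurd y1 e2
          · exact ⟨x1, x2, x3, x4, y1, y3⟩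

/-- The capacity of the hubs of a good copy. -/
theorem cap {H : Type} {X : H → H → Prop} (hk : K33Free X) (hs : ∀ x y, X x y → X y x)
    (hi : ∀ x, ¬ X x x) (V : Finset H) (c g : H) (hcg : c ≠ g) (hc : c ∉ V) (hg : g ∉ V)
    (h1 : ∀ v ∈ V, X c v ∧ X g v) (v : H) (hv : v ∈ V) (A : Finset H)
    (hA : ∀ y ∈ A, y ∈ V ∧ X v y) : A.card ≤ 2 := by
  by_contra hcard
  refine goodCopy_k33 hk v c g ?_ ?_ hcg A (by omega) ?_
  · rintro rfl
    exact hc hv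
  · rintro rfl
    exact hg hv
  · intro y hy
    obtain ⟨hyV, hvy⟩ := hA y hy
    refine ⟨⟨?_, ?_, ?_⟩, hvy, (h1 y hyV).1, (h1 y hyV).2⟩
    · rintro rfl
      exact hi _ hvy
    · rintro rfl
      exact hc hyV
    · rintro rfl
      exact hg hyV

end Pool.Agent.RAC963
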