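import Pool.Agent.RAC963.Defs

/-!
# Hub graphs and their drawings

`𝓔` is a list of hyperedges (lists of hubs); the hub graph has for every hyperedge `T` twins, each
adjacent exactly to the hubs of the hyperedge.  The twin number `t < T` of the hyperedge number
`j < 𝓔.length` is called `(j, t)`.
-/

set_option autoImplicit false

namespace Pool.Agent.RAC963

/-- The hubs that occur in a hyperedge. -/
def Used {H : Type} (𝓔 : List (List H)) (h : H) : Prop := ∃ E ∈ 𝓔, h ∈ E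

/-- `(j, t)` is a twin. -/
def Tw {H : Type} (𝓔 : List (List H)) (T j t : ℕ) : Prop := j < 𝓔.length ∧ t < T

/-- The hub `h` belongs to the hyperedge number `j`. -/
def In {H : Type} (𝓔 : List (List H)) (j : ℕ) (h : H) : Prop := h ∈ 𝓔.getD j []

theorem In.lt {H : Type} {𝓔 : List (List H)} {j : ℕ} {h : H} (hh : In 𝓔 j h) :
    j < 𝓔.length := by
  by_contra hj
  unfold In at hh
  rw [List.getD_eq_default _ _ (by omega)] at hh
  exact absurd hh (by simp)

theorem In.used {H : Type} {𝓔 : List (List H)} {j : ℕ} {h : H} (hh : In 𝓔 j h) :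
    Used 𝓔 h := by
  have hj := hh.lt
  refine ⟨𝓔[j], List.getElem_mem hj, ?_⟩
  unfold In at hh
  rwa [List.getD_eq_getElem _ _ hj] at hh

theorem used_iff {H : Type} {𝓔 : List (List H)} {h : H} : Used 𝓔 h ↔ ∃ j, In 𝓔 j h := by
  constructor
  · rintro ⟨E, hE, hh⟩
    obtain ⟨j, hj, rfl⟩ := List.getElem_of_mem hE
    exact ⟨j, by unfold In; rwa [List.getD_eq_getElem _ _ hj]⟩
  · rintro ⟨j, h⟩
    exact h.used

/-- A `k`-bend RAC drawing of the hub graph: points `hp h` of the hubs, points `wp j t` of the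
twins and chains `ch j t h` from the twin `(j, t)` to the hub `h`. -/
structure IsHD (k : ℕ) {H : Type} (𝓔 : List (List H)) (T : ℕ) (hp : H → Pt) (wp : ℕ → ℕ → Pt)
    (ch : ℕ → ℕ → H → List Pt) : Prop where
  hinj : ∀ h h', Used 𝓔 h → Used 𝓔 h' → hp h = hp h' → h = h'
  winj : ∀ j t j' t', Tw 𝓔 T j t → Tw 𝓔 T j' t' → wp j t = wp j' t' → j = j' ∧ t = t'
  wh : ∀ j t h, Tw 𝓔 T j t → Used 𝓔 h → wp j t ≠ hp h
  chain : ∀ j t h, t < T → In 𝓔 j h → IsChain k (wp j t) (hp h) (ch j t h)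
  avh : ∀ j t h h', t < T → In 𝓔 j h → Used 𝓔 h' → h' ≠ h → ¬ On (ch j t h) (hp h')
  avw : ∀ j t h j' t', t < T → In 𝓔 j h → Tw 𝓔 T j' t' → ¬ (j' = j ∧ t' = t) →
    ¬ On (ch j t h) (wp j' t')
  cross : ∀ j t h j' t' h', t < T → t' < T → In 𝓔 j h → In 𝓔 j' h' →
    ¬ (j = j' ∧ t = t' ∧ h = h') →
    ∀ s ∈ segs (ch j t h), ∀ s' ∈ segs (ch j' t' h'), ∀ z,
      z ∈ segment ℝ s.1 s.2 → z ∈ segment ℝ s'.1 s'.2 →
      (j = j' ∧ t = t' ∧ z = wp j t) ∨ (h = h' ∧ z = hp h) ∨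
      (z ∈ openSegment ℝ s.1 s.2 ∧ z ∈ openSegment ℝ s'.1 s'.2 ∧ Perp s s')
  simple : ∀ j t h, t < T → In 𝓔 j h → SimpleChain (ch j t h)

/-- No `K₃,₃` (with six distinct vertices) in the relation. -/
def K33Free {H : Type} (R : H → H → Prop) : Prop :=
  ¬ ∃ x y : Fin 3 → H, Function.Injective x ∧ Function.Injective y ∧ (∀ i j, x i ≠ y j) ∧
    ∀ i j, R (x i) (y j)

/-- Some two disjoint pairs of members of `E` are related, one pair by `R`, the other by `B`. -/
def Split {H : Type} (R B : H → H → Prop) (E : List H) : Prop :=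
  ∃ x ∈ E, ∃ y ∈ E, ∃ z ∈ E, ∃ w ∈ E, [x, y, z, w].Nodup ∧ R x y ∧ B z w

/-- Two symmetric irreflexive relations without `K₃,₃`. -/
structure Nice {H : Type} (R B : H → H → Prop) : Prop where
  rs : ∀ x y, R x y → R y x
  bs : ∀ x y, B x y → B y x
  ri : ∀ x, ¬ R x x
  bi : ∀ x, ¬ B x x
  rk : K33Free R
  bk : K33Free B

/-- The number of reps chosen for every hyperedge. -/
def nr (q : ℕ) : ℕ := 2 * 4 ^ q + 1

/-- The number of twins, for hyperedges of size `q`, `k` bends and `e` hyperedges. -/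
def bT (k q e : ℕ) : ℕ :=
  (e * nr q) * (e * nr q) * (q * q * (k + 1) + 1) +
    (e * nr q) * (q * (e * nr q) * q * 3 * 2) ^ 5 + 1

end Pool.Agent.RAC963
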