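import Pool.Agent.RAC963.Parts

set_option autoImplicit false

namespace Pool.Agent.RAC963

/-- The cross product of two vectors. -/
def key_cr (a b : Pt) : ℝ := a.1 * b.2 - a.2 * b.1

/-- The scalar product of two vectors. -/
def key_dt (a b : Pt) : ℝ := a.1 * b.1 + a.2 * b.2

theorem key_segsub {u v p q x : Pt} {c : ℝ} (hp : p ∈ openSegment ℝ u v)
    (hq : q ∈ openSegment ℝ u v) (h0 : 0 ≤ c) (h1 : c ≤ 1)
    (hx : x = p + c • (q - p)) : x ∈ openSegment ℝ u v := by
  have hc : Convex ℝ (openSegment ℝ u v) := convex_openSegment u v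
  have := hc.segment_subset hp hq
  apply this
  rw [segment_eq_image']
  exact ⟨c, ⟨h0, h1⟩, hx.symm⟩

theorem key_claim {w w' a b : Pt} {sj sk : Pt × Pt} {t T r R μ x y g m h : ℝ}
    (ht : 0 < t) (ht1 : t < 1) (hT : 0 < T) (hr : 0 < r) (hR : 0 < R) (hRμ : R < μ)
    (h1 : w + t • a ∈ openSegment ℝ sj.1 sj.2) (h2 : w' + T • a ∈ openSegment ℝ sj.1 sj.2)
    (h3 : w + r • b ∈ openSegment ℝ sk.1 sk.2) (h4 : w' + R • b ∈ openSegment ℝ sk.1 sk.2)
    (hx : 0 < x) (hy : y < 0) (hd : w' = w + x • a + y • b) (hg : 0 < g) (hh : 0 < h)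
    (E1 : (x + T - t) * g + y * m = 0) (E2 : x * m + (y + R - r) * h = 0)
    (N1 : ∀ c c' : ℝ, 0 ≤ c → c ≤ 1 → 0 ≤ c' → c' ≤ μ → w + c • a ≠ w' + c' • b)
    (N2 : ∀ c : ℝ, 0 ≤ c → c ≤ μ → w' + c • b ∉ openSegment ℝ sj.1 sj.2)
    (N3 : ∀ c : ℝ, 0 ≤ c → c ≤ 1 → w + c • a ∉ openSegment ℝ sk.1 sk.2)
    (N4 : ∀ p, p ∈ openSegment ℝ sj.1 sj.2 → p ∉ openSegment ℝ sk.1 sk.2) : False := by
  -- the arm of `w'` stays below the segment `sj`
  have S1 : ∀ c : ℝ, 0 ≤ c → c ≤ R → c ≤ -y → x * g + (y + c) * m < t * g := by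
    intro c hc0 hcR hcy
    by_contra hcon
    push Not at hcon
    have hcm : T * g ≤ c * m := by nlinarith
    have hTg : 0 < T * g := mul_pos hT hg
    have hm : 0 < m := by
      by_contra hm
      push Not at hm
      nlinarith [mul_nonneg hc0 (neg_nonneg.mpr hm)]
    set c0 : ℝ := T * g / m with hc0def
    have hc0m : c0 * m = T * g := by rw [hc0def]; field_simp
    have hc0pos : 0 < c0 := div_pos hTg hm
    have hc0c : c0 ≤ c := by
      rw [hc0def, div_le_iff₀ hm]; exact hcm
    refine N2 c0 hc0pos.le (by linarith) ?_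
    have hny : 0 < -y := by linarith
    refine key_segsub (c := 1 + c0 / y) h1 h2 ?_ ?_ ?_
    · have : -1 ≤ c0 / y := by
        rw [le_div_iff_of_neg hy]; linarith
      linarith
    · have : c0 / y ≤ 0 := div_nonpos_of_nonneg_of_nonpos hc0pos.le hy.le
      linarith
    · have hyne : y ≠ 0 := hy.ne
      have key : x - t = (1 + c0 / y) * (x + T - t) := by
        have hgne : g ≠ 0 := hg.ne'
        have e1 : (x + T - t) = -(y * m) / g := by field_simp; linarith
        have e2 : (c0 / y) * (x + T - t) = -T := by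
          rw [e1]; field_simp; linarith
        have : (1 + c0 / y) * (x + T - t) = (x + T - t) + (c0 / y) * (x + T - t) := by ring
        rw [this, e2]; ring
      have key2 : y + c0 = (1 + c0 / y) * y := by field_simp
      have ev : w' + c0 • b - (w + t • a) = (x - t) • a + (y + c0) • b := by
        rw [hd]; module
      have ev2 : w' + T • a - (w + t • a) = (x + T - t) • a + y • b := by
        rw [hd]; module
      have : w' + c0 • b = (w + t • a) + ((x - t) • a + (y + c0) • b) := by
        rw [← ev]; abel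
      rw [this, ev2, key, key2]; module
  rcases le_or_gt (-y) R with hc | hc
  · have := S1 (-y) (by linarith) hc le_rfl
    have hxt : x < t := by
      have : x * g < t * g := by nlinarith
      exact lt_of_mul_lt_mul_right this hg.le
    refine N1 x (-y) hx.le (by linarith) (by linarith) (by linarith) ?_
    rw [hd]; module
  · have hS := S1 R hR.le le_rfl hc.le
    have hden : 0 < r - y - R := by linarith
    have hm : 0 < m := by
      by_contra hm
      push Not at hm
      nlinarith [mul_nonneg hx.le (neg_nonneg.mpr hm), mul_pos hden hh]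
    set q : ℝ := x * r / (r - y - R) with hq
    have hqpos : 0 < q := div_pos (mul_pos hx hr) hden
    have hqd : q * (r - y - R) = x * r := by rw [hq]; field_simp
    -- the point `w + q a` is on `sk`
    have hp : w + q • a ∈ openSegment ℝ sk.1 sk.2 := by
      refine key_segsub (c := -(y + R) / (r - y - R)) h4 h3 ?_ ?_ ?_
      · exact div_nonneg (by linarith) hden.le
      · rw [div_le_one hden]; linarith
      · have e1 : w + r • b - (w' + R • b) = (-x) • a + (r - y - R) • b := by
          rw [hd]; module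
        have e2 : w + q • a - (w' + R • b) = (q - x) • a + (-(y + R)) • b := by
          rw [hd]; module
        have e3 : w + q • a = (w' + R • b) + ((q - x) • a + (-(y + R)) • b) := by
          rw [← e2]; abel
        have k1 : q - x = -(y + R) / (r - y - R) * (-x) := by
          rw [hq]; field_simp; ring
        have k2 : -(y + R) = -(y + R) / (r - y - R) * (r - y - R) := by field_simp
        rw [e3, e1, smul_add, smul_smul, smul_smul, ← k1, ← k2]
    rcases le_or_gt q t with hqt | hqt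
    · exact N3 q hqpos.le (by linarith) hp
    · -- the segments meet
      have f1 : 0 < t * g - (x * g + (y + R) * m) := by linarith
      have f2 : 0 < (q - t) * g := mul_pos (by linarith) hg
      set D : ℝ := q * g - (x * g + (y + R) * m) with hD
      have hDpos : 0 < D := by rw [hD]; nlinarith
      set c : ℝ := (t * g - (x * g + (y + R) * m)) / D with hc'
      have hc0 : 0 < c := div_pos f1 hDpos
      have hc1 : c < 1 := by
        rw [hc', div_lt_one hDpos, hD]; nlinarith
      have hcD : c * D = t * g - (x * g + (y + R) * m) := by rw [hc']; field_simp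
      refine N4 ((w' + R • b) + c • ((w + q • a) - (w' + R • b))) ?_
        (key_segsub h4 hp hc0.le hc1.le rfl)
      have hyne : y ≠ 0 := hy.ne
      have hny : 0 < -y := by linarith
      refine key_segsub (c := (1 - c) * (y + R) / y) h1 h2 ?_ ?_ ?_
      · exact div_nonneg_of_nonpos (by nlinarith) hy.le
      · rw [div_le_one_of_neg hy]; nlinarith
      · have e2 : w + q • a - (w' + R • b) = (q - x) • a + (-(y + R)) • b := by
          rw [hd]; module
        have ev2 : w' + T • a - (w + t • a) = (x + T - t) • a + y • b := by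
          rw [hd]; module
        rw [e2, ev2]
        have hgne : g ≠ 0 := hg.ne'
        have e1 : (x + T - t) = -(y * m) / g := by field_simp; linarith
        have kk : x + c * (q - x) = t + (1 - c) * (y + R) / y * (x + T - t) := by
          rw [e1]
          have : (1 - c) * (y + R) / y * (-(y * m) / g) = -((1 - c) * (y + R) * m / g) := by
            field_simp
          rw [this]
          have h5 : (x + c * (q - x)) * g = t * g - (1 - c) * (y + R) * m := by
            have : c * D = c * (q * g - (x * g + (y + R) * m)) := by rw [hD]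
            nlinarith
          field_simp
          linarith
        have k2 : (1 - c) * (y + R) = (1 - c) * (y + R) / y * y := by field_simp
        have l1 : w' + R • b + c • ((q - x) • a + (-(y + R)) • b) =
            w + (x + c * (q - x)) • a + ((1 - c) * (y + R)) • b := by
          rw [hd]; module
        have l2 : w + t • a + ((1 - c) * (y + R) / y) • ((x + T - t) • a + y • b) =
            w + (t + (1 - c) * (y + R) / y * (x + T - t)) • a +
              ((1 - c) * (y + R) / y * y) • b := by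
          module
        rw [l1, l2, ← kk, ← k2]

theorem key_pair (w w' bj bk bj' bk' : Pt) (sj sk : Pt × Pt) (lj lk : ℝ) (hlj : 0 < lj)
    (hlk : 0 < lk) (ej : bj' - w' = lj • (bj - w)) (ek : bk' - w' = lk • (bk - w))
    (zj zj' zk zk' : Pt)
    (hzj : zj ∈ openSegment ℝ w bj ∧ zj ∈ openSegment ℝ sj.1 sj.2)
    (hzj' : zj' ∈ openSegment ℝ w' bj' ∧ zj' ∈ openSegment ℝ sj.1 sj.2)
    (hzk : zk ∈ openSegment ℝ w bk ∧ zk ∈ openSegment ℝ sk.1 sk.2)
    (hzk' : zk' ∈ openSegment ℝ w' bk' ∧ zk' ∈ openSegment ℝ sk.1 sk.2)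
    (pj : Perp (w, bj) sj) (pk : Perp (w, bk) sk)
    (c1 : 0 < key_cr (w' - w) (bj - w)) (c2 : 0 < key_cr (w' - w) (bk - w))
    (c3 : 0 < key_cr (bj - w) (bk - w))
    (N1 : ∀ x, x ∈ segment ℝ w bj → x ∉ segment ℝ w' bk')
    (N2 : ∀ x, x ∈ segment ℝ w' bk' → x ∉ segment ℝ sj.1 sj.2)
    (N3 : ∀ x, x ∈ segment ℝ w bj → x ∉ segment ℝ sk.1 sk.2)
    (N4 : ∀ x, x ∈ openSegment ℝ sj.1 sj.2 → x ∉ openSegment ℝ sk.1 sk.2) : False := by
  obtain ⟨hzj1, hzj2⟩ := hzj
  obtain ⟨hzj1', hzj2'⟩ := hzj'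
  obtain ⟨hzk1, hzk2⟩ := hzk
  obtain ⟨hzk1', hzk2'⟩ := hzk'
  rw [openSegment_eq_image'] at hzj1 hzj1' hzk1 hzk1'
  obtain ⟨t, ⟨ht0, ht1⟩, rfl⟩ := hzj1
  obtain ⟨t', ⟨ht0', ht1'⟩, rfl⟩ := hzj1'
  obtain ⟨r, ⟨hr0, hr1⟩, rfl⟩ := hzk1
  obtain ⟨r', ⟨hr0', hr1'⟩, rfl⟩ := hzk1'
  have mj := hzj2
  have mj' := hzj2'
  have mk := hzk2
  have mk' := hzk2'
  rw [openSegment_eq_image'] at mj mj' mk mk'
  obtain ⟨u1, -, hu1⟩ := mj
  obtain ⟨u2, -, hu2⟩ := mj'
  obtain ⟨v1, -, hv1⟩ := mk
  obtain ⟨v2, -, hv2⟩ := mk'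
  simp only at hu1 hu2 hv1 hv2 hzj2 hzj2' hzk2 hzk2'
  rw [ej] at hzj2' hu2
  rw [ek] at hzk2' hv2
  rw [smul_smul] at hzj2' hu2 hzk2' hv2
  set a : Pt := bj - w with ha
  set b : Pt := bk - w with hb
  set d : Pt := w' - w with hd
  set K : ℝ := key_cr a b with hK
  set x : ℝ := key_cr d b / K with hx
  set y : ℝ := -(key_cr d a / K) with hy
  have hxK : x * K = key_cr d b := by rw [hx]; field_simp
  have hyK : y * K = -key_cr d a := by rw [hy]; field_simp
  have hK0 : K ≠ 0 := c3.ne'
  have hdxy : w' = w + x • a + y • b := by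
    have e : d = x • a + y • b := by
      have h1 : K * d.1 = K * (x * a.1 + y * b.1) := by
        have : K * (x * a.1 + y * b.1) = (x * K) * a.1 + (y * K) * b.1 := by ring
        rw [this, hxK, hyK, hK]
        unfold key_cr
        ring
      have h2 : K * d.2 = K * (x * a.2 + y * b.2) := by
        have : K * (x * a.2 + y * b.2) = (x * K) * a.2 + (y * K) * b.2 := by ring
        rw [this, hxK, hyK, hK]
        unfold key_cr
        ring
      apply Prod.ext
      · simpa using mul_left_cancel₀ hK0 h1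
      · simpa using mul_left_cancel₀ hK0 h2
    have : w' = w + d := by rw [hd]; abel
    rw [this, e]
    abel
  have hane : a ≠ 0 := by
    rintro h0
    rw [hK, h0] at c3
    simp [key_cr] at c3
  have hbne : b ≠ 0 := by
    rintro h0
    rw [hK, h0] at c3
    simp [key_cr] at c3
  have hga : 0 < key_dt a a := by
    unfold key_dt
    rcases (Prod.ext_iff.not.mp hane) with h
    by_contra hcon
    push Not at hcon
    apply h
    constructor
    · simp only [Prod.fst_zero]; nlinarith [mul_self_nonneg a.1, mul_self_nonneg a.2]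
    · simp only [Prod.snd_zero]; nlinarith [mul_self_nonneg a.1, mul_self_nonneg a.2]
  have hgb : 0 < key_dt b b := by
    unfold key_dt
    rcases (Prod.ext_iff.not.mp hbne) with h
    by_contra hcon
    push Not at hcon
    apply h
    constructor
    · simp only [Prod.fst_zero]; nlinarith [mul_self_nonneg b.1, mul_self_nonneg b.2]
    · simp only [Prod.snd_zero]; nlinarith [mul_self_nonneg b.1, mul_self_nonneg b.2]
  have pj' : a.1 * (sj.2.1 - sj.1.1) + a.2 * (sj.2.2 - sj.1.2) = 0 := pj
  have pk' : b.1 * (sk.2.1 - sk.1.1) + b.2 * (sk.2.2 - sk.1.2) = 0 := pk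
  have E1 : (x + t' * lj - t) * key_dt a a + y * key_dt a b = 0 := by
    have e1 := congrArg Prod.fst hu1
    have e2 := congrArg Prod.snd hu1
    have e3 := congrArg Prod.fst hu2
    have e4 := congrArg Prod.snd hu2
    rw [hdxy] at e3 e4
    simp only [Prod.fst_add, Prod.snd_add, Prod.smul_fst, Prod.smul_snd, smul_eq_mul,
      Prod.fst_sub, Prod.snd_sub] at e1 e2 e3 e4
    unfold key_dt
    linear_combination a.1 * (e1 - e3) + a.2 * (e2 - e4) - (u1 - u2) * pj'
  have E2 : x * key_dt a b + (y + r' * lk - r) * key_dt b b = 0 := by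
    have e1 := congrArg Prod.fst hv1
    have e2 := congrArg Prod.snd hv1
    have e3 := congrArg Prod.fst hv2
    have e4 := congrArg Prod.snd hv2
    rw [hdxy] at e3 e4
    simp only [Prod.fst_add, Prod.snd_add, Prod.smul_fst, Prod.smul_snd, smul_eq_mul,
      Prod.fst_sub, Prod.snd_sub] at e1 e2 e3 e4
    unfold key_dt
    linear_combination b.1 * (e1 - e3) + b.2 * (e2 - e4) - (v1 - v2) * pk'
  refine key_claim (w := w) (w' := w') (a := a) (b := b) (sj := sj) (sk := sk) (t := t)
    (T := t' * lj) (r := r) (R := r' * lk) (μ := lk) (x := x) (y := y) ht0 ht1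
    (mul_pos ht0' hlj) hr0 (mul_pos hr0' hlk) (by nlinarith) hzj2 hzj2' hzk2 hzk2'
    (div_pos c2 c3) (neg_neg_of_pos (div_pos c1 c3)) hdxy hga hgb E1 E2 ?_ ?_ ?_ N4
  · intro c c' h0 h1 h0' h1' he
    refine N1 (w + c • a) ?_ ?_
    · rw [segment_eq_image']
      exact ⟨c, ⟨h0, h1⟩, rfl⟩
    · rw [he, segment_eq_image']
      refine ⟨c' / lk, ⟨div_nonneg h0' hlk.le, (div_le_one hlk).mpr h1'⟩, ?_⟩
      simp only
      rw [ek, smul_smul, div_mul_cancel₀ _ hlk.ne']
  · intro c' h0' h1' he
    refine N2 (w' + c' • b) ?_ (openSegment_subset_segment _ _ _ he)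
    rw [segment_eq_image']
    refine ⟨c' / lk, ⟨div_nonneg h0' hlk.le, (div_le_one hlk).mpr h1'⟩, ?_⟩
    simp only
    rw [ek, smul_smul, div_mul_cancel₀ _ hlk.ne']
  · intro c h0 h1 he
    refine N3 (w + c • a) ?_ (openSegment_subset_segment _ _ _ he)
    rw [segment_eq_image']
    exact ⟨c, ⟨h0, h1⟩, rfl⟩

theorem key_dir {w w' b b' : Pt} {s : Pt × Pt} (hb : w ≠ b) (hb' : w' ≠ b') (hs : s.1 ≠ s.2)
    {z z' : Pt} (hz : z ∈ openSegment ℝ w b ∧ z ∈ openSegment ℝ s.1 s.2)
    (hz' : z' ∈ openSegment ℝ w' b' ∧ z' ∈ openSegment ℝ s.1 s.2)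
    (hp : Perp (w, b) s) (hp' : Perp (w', b') s)
    (hside : 0 < side s w ↔ 0 < side s w') :
    ∃ l : ℝ, 0 < l ∧ b' - w' = l • (b - w) := by
  obtain ⟨hz1, hz2⟩ := hz
  obtain ⟨hz1', hz2'⟩ := hz'
  rw [openSegment_eq_image'] at hz1 hz1' hz2 hz2'
  obtain ⟨t, ⟨ht0, ht1⟩, hzt⟩ := hz1
  obtain ⟨t', ⟨ht0', ht1'⟩, hzt'⟩ := hz1'
  obtain ⟨r, -, hzr⟩ := hz2
  obtain ⟨r', -, hzr'⟩ := hz2'
  simp only at hzt hzt' hzr hzr'
  have pj : (b.1 - w.1) * (s.2.1 - s.1.1) + (b.2 - w.2) * (s.2.2 - s.1.2) = 0 := hp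
  have pj' : (b'.1 - w'.1) * (s.2.1 - s.1.1) + (b'.2 - w'.2) * (s.2.2 - s.1.2) = 0 := hp'
  set u1 : ℝ := s.2.1 - s.1.1 with hu1
  set u2 : ℝ := s.2.2 - s.1.2 with hu2
  have hu : 0 < u1 * u1 + u2 * u2 := by
    by_contra hcon
    push Not at hcon
    apply hs
    have h1 : u1 = 0 := by nlinarith [mul_self_nonneg u1, mul_self_nonneg u2]
    have h2 : u2 = 0 := by nlinarith [mul_self_nonneg u1, mul_self_nonneg u2]
    apply Prod.ext <;> linarith
  -- `b - w = p (-u2, u1)`, `b' - w' = p' (-u2, u1)`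
  obtain ⟨p, hp1, hp2⟩ : ∃ p : ℝ, b.1 - w.1 = p * (-u2) ∧ b.2 - w.2 = p * u1 := by
    refine ⟨((b.2 - w.2) * u1 - (b.1 - w.1) * u2) / (u1 * u1 + u2 * u2), ?_, ?_⟩
    · rw [div_mul_eq_mul_div, eq_div_iff hu.ne']
      linear_combination u1 * pj
    · rw [div_mul_eq_mul_div, eq_div_iff hu.ne']
      linear_combination u2 * pj
  obtain ⟨p', hp1', hp2'⟩ : ∃ p : ℝ, b'.1 - w'.1 = p * (-u2) ∧ b'.2 - w'.2 = p * u1 := by
    refine ⟨((b'.2 - w'.2) * u1 - (b'.1 - w'.1) * u2) / (u1 * u1 + u2 * u2), ?_, ?_⟩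
    · rw [div_mul_eq_mul_div, eq_div_iff hu.ne']
      linear_combination u1 * pj'
    · rw [div_mul_eq_mul_div, eq_div_iff hu.ne']
      linear_combination u2 * pj'
  have hpne : p ≠ 0 := by
    rintro rfl
    apply hb
    apply Prod.ext <;> linarith
  have hpne' : p' ≠ 0 := by
    rintro rfl
    apply hb'
    apply Prod.ext <;> linarith
  have e1 := congrArg Prod.fst hzt
  have e2 := congrArg Prod.snd hzt
  have e3 := congrArg Prod.fst hzr
  have e4 := congrArg Prod.snd hzr
  have e1' := congrArg Prod.fst hzt'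
  have e2' := congrArg Prod.snd hzt'
  have e3' := congrArg Prod.fst hzr'
  have e4' := congrArg Prod.snd hzr'
  simp only [Prod.fst_add, Prod.snd_add, Prod.smul_fst, Prod.smul_snd, smul_eq_mul,
      Prod.fst_sub, Prod.snd_sub] at e1 e2 e3 e4 e1' e2' e3' e4'
  rw [← hu1] at e3 e3'
  rw [← hu2] at e4 e4'
  have s1 : side s w = -(t * p * (u1 * u1 + u2 * u2)) := by
    unfold side
    rw [← hu1, ← hu2]
    have a1 : w.1 - s.1.1 = r * u1 - t * (b.1 - w.1) := by linarith
    have a2 : w.2 - s.1.2 = r * u2 - t * (b.2 - w.2) := by linarith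
    rw [a1, a2, hp1, hp2]; ring
  have s2 : side s w' = -(t' * p' * (u1 * u1 + u2 * u2)) := by
    unfold side
    rw [← hu1, ← hu2]
    have a1 : w'.1 - s.1.1 = r' * u1 - t' * (b'.1 - w'.1) := by linarith
    have a2 : w'.2 - s.1.2 = r' * u2 - t' * (b'.2 - w'.2) := by linarith
    rw [a1, a2, hp1', hp2']; ring
  have hpp : 0 < p' / p := by
    rcases lt_or_gt_of_ne hpne with h | h
    · have h1 : 0 < side s w := by
        rw [s1]
        have : t * p * (u1 * u1 + u2 * u2) < 0 :=
          mul_neg_of_neg_of_pos (mul_neg_of_pos_of_neg ht0 h) hu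
        linarith
      have h2 := hside.mp h1
      rw [s2] at h2
      have h3 : p' < 0 := by
        by_contra hcon
        push Not at hcon
        have : 0 ≤ t' * p' * (u1 * u1 + u2 * u2) :=
          mul_nonneg (mul_nonneg ht0'.le hcon) hu.le
        linarith
      exact div_pos_of_neg_of_neg h3 h
    · have h3 : 0 < p' := by
        by_contra hcon
        push Not at hcon
        have hneg : p' < 0 := lt_of_le_of_ne hcon hpne'
        have : 0 < side s w' := by
          rw [s2]
          have : t' * p' * (u1 * u1 + u2 * u2) < 0 :=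
            mul_neg_of_neg_of_pos (mul_neg_of_pos_of_neg ht0' hneg) hu
          linarith
        have h4 := hside.mpr this
        rw [s1] at h4
        have : 0 < t * p * (u1 * u1 + u2 * u2) := mul_pos (mul_pos ht0 h) hu
        linarith
      exact div_pos h3 h
  refine ⟨p' / p, hpp, ?_⟩
  apply Prod.ext
  · simp only [Prod.smul_fst, Prod.fst_sub, smul_eq_mul]
    rw [hp1, hp1']; field_simp
  · simp only [Prod.smul_snd, Prod.snd_sub, smul_eq_mul]
    rw [hp2, hp2']; field_simp

theorem key_pig : ∀ f : Fin 5 → Bool, ∃ i j k, i ≠ j ∧ i ≠ k ∧ j ≠ k ∧ f i = f j ∧ f i = f k := by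
  decide

theorem key_sq {a : Pt} (ha : a ≠ 0) : 0 < key_dt a a := by
  unfold key_dt
  by_contra hcon
  push Not at hcon
  apply ha
  apply Prod.ext
  · simp only [Prod.fst_zero]; nlinarith [mul_self_nonneg a.1, mul_self_nonneg a.2]
  · simp only [Prod.snd_zero]; nlinarith [mul_self_nonneg a.1, mul_self_nonneg a.2]

/-- No three pairwise perpendicular vectors in the plane. -/
theorem key_three {a b c : Pt} (ha : a ≠ 0) (hb : b ≠ 0) (hc : c ≠ 0) (h1 : key_dt a b = 0)
    (h2 : key_dt a c = 0) (h3 : key_dt b c = 0) : False := by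
  have ga := key_sq ha
  have gb := key_sq hb
  have gc := key_sq hc
  have e1 : key_dt b c * key_dt a a = key_dt a b * key_dt a c + key_cr a b * key_cr a c := by
    unfold key_dt key_cr; ring
  have e2 : key_dt a a * key_dt b b = key_dt a b * key_dt a b + key_cr a b * key_cr a b := by
    unfold key_dt key_cr; ring
  have e3 : key_dt a a * key_dt c c = key_dt a c * key_dt a c + key_cr a c * key_cr a c := by
    unfold key_dt key_cr; ring
  rw [h3, h1, h2] at e1
  rw [h1] at e2
  rw [h2] at e3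
  have h4 : key_cr a b * key_cr a c = 0 := by linarith
  have h5 := mul_pos ga gb
  have h6 := mul_pos ga gc
  rcases mul_eq_zero.mp h4 with h | h
  · rw [h] at e2; linarith
  · rw [h] at e3; linarith

/-- The claim, oriented version. -/
theorem key_half (w w' : Pt) (b b' : Fin 5 → Pt) (s : Fin 5 → Pt × Pt)
    (hs : ∀ k, (s k).1 ≠ (s k).2)
    (z z' : Fin 5 → Pt)
    (hz : ∀ k, z k ∈ openSegment ℝ w (b k) ∧ z k ∈ openSegment ℝ (s k).1 (s k).2)
    (hz' : ∀ k, z' k ∈ openSegment ℝ w' (b' k) ∧ z' k ∈ openSegment ℝ (s k).1 (s k).2)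
    (hp : ∀ k, Perp (w, b k) (s k))
    (l : Fin 5 → ℝ) (hl : ∀ k, 0 < l k) (hlb : ∀ k, b' k - w' = l k • (b k - w))
    (A1 : ∀ j k, j ≠ k → ∀ x, x ∈ segment ℝ w (b j) → x ∈ segment ℝ w' (b' k) →
      Perp (w, b j) (w', b' k))
    (A3 : ∀ j k, j ≠ k → ∀ x, x ∈ segment ℝ w (b k) → x ∈ segment ℝ (s j).1 (s j).2 →
      Perp (w, b k) (s j))
    (A3' : ∀ j k, j ≠ k → ∀ x, x ∈ segment ℝ w' (b' k) → x ∈ segment ℝ (s j).1 (s j).2 →
      Perp (w', b' k) (s j))
    (A4 : ∀ j k, j ≠ k → ∀ x, x ∈ openSegment ℝ (s j).1 (s j).2 →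
      x ∈ openSegment ℝ (s k).1 (s k).2 → s j = s k ∨ Perp (s j) (s k)) :
    ∀ j k, j ≠ k → key_dt (b j - w) (b k - w) ≠ 0 →
      0 < key_cr (b j - w) (b k - w) → 0 < key_cr (w' - w) (b j - w) →
      0 < key_cr (w' - w) (b k - w) → False := by
  have hpp : ∀ k, (b k - w).1 * ((s k).2.1 - (s k).1.1) +
      (b k - w).2 * ((s k).2.2 - (s k).1.2) = 0 := fun k => hp k
  have hsq : ∀ k, 0 < ((s k).2.1 - (s k).1.1) * ((s k).2.1 - (s k).1.1) +
      ((s k).2.2 - (s k).1.2) * ((s k).2.2 - (s k).1.2) := by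
    intro k
    have : (s k).2 - (s k).1 ≠ 0 := fun h => hs k (sub_eq_zero.mp h).symm
    exact key_sq this
  -- if `p` is perpendicular to `s k` then `p` is parallel to the arm
  have hpar : ∀ k (p : Pt), p.1 * ((s k).2.1 - (s k).1.1) + p.2 * ((s k).2.2 - (s k).1.2) = 0 →
      key_cr (b k - w) p = 0 := by
    intro k p hpk
    have h1 := hpp k
    have h2 := hsq k
    have : key_cr (b k - w) p * (((s k).2.1 - (s k).1.1) * ((s k).2.1 - (s k).1.1) +
      ((s k).2.2 - (s k).1.2) * ((s k).2.2 - (s k).1.2)) = 0 := by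
      unfold key_cr
      linear_combination (p.2 * ((s k).2.1 - (s k).1.1) - p.1 * ((s k).2.2 - (s k).1.2)) * h1 +
        ((b k - w).1 * ((s k).2.2 - (s k).1.2) - (b k - w).2 * ((s k).2.1 - (s k).1.1)) * hpk
    rcases mul_eq_zero.mp this with h | h
    · exact h
    · linarith
  intro j k hjk hdt h3 h1 h2
  refine key_pair w w' (b j) (b k) (b' j) (b' k) (s j) (s k) (l j) (l k) (hl j) (hl k)
    (hlb j) (hlb k) (z j) (z' j) (z k) (z' k) (hz j) (hz' j) (hz k) (hz' k) (hp j) (hp k)
    h1 h2 h3 ?_ ?_ ?_ ?_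
  · intro x hx hx'
    have h : key_dt (b j - w) (b' k - w') = 0 := A1 j k hjk x hx hx'
    rw [hlb k] at h
    have h4 : l k * key_dt (b j - w) (b k - w) = 0 := by
      rw [← h]; unfold key_dt
      simp only [Prod.smul_fst, Prod.smul_snd, smul_eq_mul]; ring
    rcases mul_eq_zero.mp h4 with h5 | h5
    · exact (hl k).ne' h5
    · exact hdt h5
  · intro x hx hx'
    have h := hpar j (b' k - w') (A3' j k hjk x hx hx')
    rw [hlb k] at h
    have h4 : l k * key_cr (b j - w) (b k - w) = 0 := by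
      rw [← h]; unfold key_cr
      simp only [Prod.smul_fst, Prod.smul_snd, smul_eq_mul]; ring
    have := mul_pos (hl k) h3
    linarith
  · intro x hx hx'
    have h := hpar k (b j - w) (A3 k j hjk.symm x hx hx')
    have h4 : key_cr (b k - w) (b j - w) = -key_cr (b j - w) (b k - w) := by
      unfold key_cr; ring
    linarith
  · intro x hx hx'
    rcases A4 j k hjk x hx hx' with h | h
    · have h5 := hpp k
      rw [← h] at h5
      have h6 := hpar j (b k - w) h5
      linarith
    · have h7 : ((s j).2.1 - (s j).1.1) * ((s k).2.1 - (s k).1.1) +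
        ((s j).2.2 - (s j).1.2) * ((s k).2.2 - (s k).1.2) = 0 := h
      -- then `s j` is parallel to `b k - w`, hence perpendicular to `b j - w`
      have h8 := hpar k ((s j).2 - (s j).1) h7
      unfold key_cr at h8
      simp only [Prod.fst_sub, Prod.snd_sub] at h8
      have h9 := hpp j
      have h10 := hsq j
      simp only [Prod.fst_sub, Prod.snd_sub] at h9
      apply hdt
      have : key_dt (b j - w) (b k - w) * (((s j).2.1 - (s j).1.1) * ((s j).2.1 - (s j).1.1) +
          ((s j).2.2 - (s j).1.2) * ((s j).2.2 - (s j).1.2)) = 0 := by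
        unfold key_dt
        simp only [Prod.fst_sub, Prod.snd_sub]
        linear_combination (((b k).1 - w.1) * ((s j).2.1 - (s j).1.1) +
          ((b k).2 - w.2) * ((s j).2.2 - (s j).1.2)) * h9 +
          (((b j).1 - w.1) * ((s j).2.2 - (s j).1.2) -
            ((b j).2 - w.2) * ((s j).2.1 - (s j).1.1)) * h8
      rcases mul_eq_zero.mp this with h11 | h11
      · exact h11
      · linarith

/-- Key lemma. -/
theorem key_lemma (w w' : Pt) (hw : w ≠ w') (b b' : Fin 5 → Pt) (s : Fin 5 → Pt × Pt)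
    (hb : ∀ k, w ≠ b k) (hb' : ∀ k, w' ≠ b' k) (hs : ∀ k, (s k).1 ≠ (s k).2)
    (z z' : Fin 5 → Pt)
    (hz : ∀ k, z k ∈ openSegment ℝ w (b k) ∧ z k ∈ openSegment ℝ (s k).1 (s k).2)
    (hz' : ∀ k, z' k ∈ openSegment ℝ w' (b' k) ∧ z' k ∈ openSegment ℝ (s k).1 (s k).2)
    (hp : ∀ k, Perp (w, b k) (s k)) (hp' : ∀ k, Perp (w', b' k) (s k))
    (hside : ∀ k, 0 < side (s k) w ↔ 0 < side (s k) w')
    (A1 : ∀ j k, j ≠ k → ∀ x, x ∈ segment ℝ w (b j) → x ∈ segment ℝ w' (b' k) →
      Perp (w, b j) (w', b' k))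
    (A2 : ∀ j k, j ≠ k → ∀ x, x ∈ segment ℝ w (b j) → x ∈ segment ℝ w (b k) →
      x = w ∨ Perp (w, b j) (w, b k))
    (A2' : ∀ j k, j ≠ k → ∀ x, x ∈ segment ℝ w' (b' j) → x ∈ segment ℝ w' (b' k) →
      x = w' ∨ Perp (w', b' j) (w', b' k))
    (A3 : ∀ j k, j ≠ k → ∀ x, x ∈ segment ℝ w (b k) → x ∈ segment ℝ (s j).1 (s j).2 →
      Perp (w, b k) (s j))
    (A3' : ∀ j k, j ≠ k → ∀ x, x ∈ segment ℝ w' (b' k) → x ∈ segment ℝ (s j).1 (s j).2 →
      Perp (w', b' k) (s j))
    (A4 : ∀ j k, j ≠ k → ∀ x, x ∈ openSegment ℝ (s j).1 (s j).2 →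
      x ∈ openSegment ℝ (s k).1 (s k).2 → s j = s k ∨ Perp (s j) (s k))
    (A5 : ∀ k, w' ∉ segment ℝ w (b k)) (A5' : ∀ k, w ∉ segment ℝ w' (b' k)) : False := by
  have hdir : ∀ k, ∃ l : ℝ, 0 < l ∧ b' k - w' = l • (b k - w) := fun k =>
    key_dir (hb k) (hb' k) (hs k) (hz k) (hz' k) (hp k) (hp' k) (hside k)
  choose l hl hlb using hdir
  have hα : ∀ k, b k - w ≠ 0 := fun k h => hb k (sub_eq_zero.mp h).symm
  have hα' : ∀ k, b' k - w' ≠ 0 := fun k h => hb' k (sub_eq_zero.mp h).symm
  have hpp : ∀ k, (b k - w).1 * ((s k).2.1 - (s k).1.1) +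
      (b k - w).2 * ((s k).2.2 - (s k).1.2) = 0 := fun k => hp k
  have hsq : ∀ k, 0 < ((s k).2.1 - (s k).1.1) * ((s k).2.1 - (s k).1.1) +
      ((s k).2.2 - (s k).1.2) * ((s k).2.2 - (s k).1.2) := by
    intro k
    have : (s k).2 - (s k).1 ≠ 0 := fun h => hs k (sub_eq_zero.mp h).symm
    exact key_sq this
  -- if `p` is perpendicular to `s k` then `p` is parallel to the arm
  have hpar : ∀ k (p : Pt), p.1 * ((s k).2.1 - (s k).1.1) + p.2 * ((s k).2.2 - (s k).1.2) = 0 →
      key_cr (b k - w) p = 0 := by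
    intro k p hpk
    have h1 := hpp k
    have h2 := hsq k
    have : key_cr (b k - w) p * (((s k).2.1 - (s k).1.1) * ((s k).2.1 - (s k).1.1) +
      ((s k).2.2 - (s k).1.2) * ((s k).2.2 - (s k).1.2)) = 0 := by
      unfold key_cr
      linear_combination (p.2 * ((s k).2.1 - (s k).1.1) - p.1 * ((s k).2.2 - (s k).1.2)) * h1 +
        ((b k - w).1 * ((s k).2.2 - (s k).1.2) - (b k - w).2 * ((s k).2.1 - (s k).1.1)) * hpk
    rcases mul_eq_zero.mp this with h | h
    · exact h
    · linarith
  -- not parallel to `w' - w`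
  have hnp : ∀ k, key_cr (w' - w) (b k - w) ≠ 0 := by
    intro k h0
    have hd : w' - w ≠ 0 := fun h => hw (sub_eq_zero.mp h).symm
    have hdd := key_sq hd
    -- `b k - w = μ (w' - w)`
    set μ : ℝ := key_dt (w' - w) (b k - w) / key_dt (w' - w) (w' - w) with hμ
    have hμ1 : (b k - w).1 = μ * (w' - w).1 := by
      rw [hμ, div_mul_eq_mul_div, eq_div_iff hdd.ne']
      unfold key_dt
      unfold key_cr at h0
      linear_combination (-(w' - w).2) * h0
    have hμ2 : (b k - w).2 = μ * (w' - w).2 := by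
      rw [hμ, div_mul_eq_mul_div, eq_div_iff hdd.ne']
      unfold key_dt
      unfold key_cr at h0
      linear_combination ((w' - w).1) * h0
    have hμv : b k - w = μ • (w' - w) := by
      apply Prod.ext
      · simpa using hμ1
      · simpa using hμ2
    have hμ0 : μ ≠ 0 := by
      intro h
      apply hα k
      rw [hμv, h, zero_smul]
    obtain ⟨hz1, hz2⟩ := hz k
    obtain ⟨hz1', hz2'⟩ := hz' k
    rw [openSegment_eq_image'] at hz1 hz1' hz2 hz2'
    obtain ⟨t, ⟨ht0, ht1⟩, hzt⟩ := hz1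
    obtain ⟨t', ⟨ht0', ht1'⟩, hzt'⟩ := hz1'
    obtain ⟨r, -, hzr⟩ := hz2
    obtain ⟨r', -, hzr'⟩ := hz2'
    simp only at hzt hzt' hzr hzr'
    rw [hlb k] at hzt'
    rw [hμv] at hzt hzt'
    have e1 := congrArg Prod.fst hzt
    have e2 := congrArg Prod.snd hzt
    have e3 := congrArg Prod.fst hzr
    have e4 := congrArg Prod.snd hzr
    have e1' := congrArg Prod.fst hzt'
    have e2' := congrArg Prod.snd hzt'
    have e3' := congrArg Prod.fst hzr'
    have e4' := congrArg Prod.snd hzr'
    have hpk := hpp k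
    rw [hμ1, hμ2] at hpk
    simp only [Prod.fst_add, Prod.snd_add, Prod.smul_fst, Prod.smul_snd, smul_eq_mul,
      Prod.fst_sub, Prod.snd_sub] at e1 e2 e3 e4 e1' e2' e3' e4' hpk
    have hdd' : 0 < (w'.1 - w.1) * (w'.1 - w.1) + (w'.2 - w.2) * (w'.2 - w.2) := hdd
    have hpk2 : (w'.1 - w.1) * ((s k).2.1 - (s k).1.1) +
        (w'.2 - w.2) * ((s k).2.2 - (s k).1.2) = 0 := by
      have : μ * ((w'.1 - w.1) * ((s k).2.1 - (s k).1.1) +
        (w'.2 - w.2) * ((s k).2.2 - (s k).1.2)) = 0 := by linarith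
      rcases mul_eq_zero.mp this with h | h
      · exact absurd h hμ0
      · exact h
    have hrel : t * μ = 1 + t' * (l k * μ) := by
      have : (t * μ - (1 + t' * (l k * μ))) *
          ((w'.1 - w.1) * (w'.1 - w.1) + (w'.2 - w.2) * (w'.2 - w.2)) = 0 := by
        linear_combination (w'.1 - w.1) * (e1 - e1' - e3 + e3') +
          (w'.2 - w.2) * (e2 - e2' - e4 + e4') + (r - r') * hpk2
      rcases mul_eq_zero.mp this with h | h
      · linarith
      · linarith
    rcases lt_or_gt_of_ne hμ0 with hneg | hpos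
    · -- `w` on the arm of `w'`
      apply A5' k
      rw [segment_eq_image']
      have hlμ : l k * μ < 0 := mul_neg_of_pos_of_neg (hl k) hneg
      refine ⟨-(1 / (l k * μ)), ⟨?_, ?_⟩, ?_⟩
      · have : 1 / (l k * μ) < 0 := div_neg_of_pos_of_neg one_pos hlμ
        linarith
      · rw [← neg_le_neg_iff, neg_neg, le_div_iff_of_neg hlμ]
        nlinarith [mul_pos ht0 (neg_pos.mpr hneg)]
      · simp only
        rw [hlb k, hμv, smul_smul, smul_smul]
        have : -(1 / (l k * μ)) * l k * μ = -1 := by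
          have := hlμ.ne
          have h1 : l k ≠ 0 := (hl k).ne'
          field_simp
        rw [this]
        module
    · apply A5 k
      rw [segment_eq_image']
      refine ⟨1 / μ, ⟨(div_pos one_pos hpos).le, ?_⟩, ?_⟩
      · rw [div_le_one hpos]
        nlinarith [mul_pos ht0' (mul_pos (hl k) hpos)]
      · simp only
        rw [hμv, smul_smul, one_div_mul_cancel hμ0]
        module
  -- not in the same direction
  have hns : ∀ j k, j ≠ k → ∀ c : ℝ, 0 < c → b k - w ≠ c • (b j - w) := by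
    intro j k hjk c hc he
    have hm : 0 < min 1 (1 / c) := lt_min one_pos (div_pos one_pos hc)
    -- the point `w + min c 1 • (b j - w)`
    rcases le_total c 1 with hc1 | hc1
    · have h1 : b k ∈ segment ℝ w (b j) := by
        rw [segment_eq_image']
        refine ⟨c, ⟨hc.le, hc1⟩, ?_⟩
        simp only
        rw [← he]; abel
      rcases A2 j k hjk (b k) h1 (right_mem_segment _ _ _) with h | h
      · exact hb k h.symm
      · have h2 : key_dt (b j - w) (b k - w) = 0 := h
        rw [he] at h2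
        have h3 := key_sq (hα j)
        have h4 : c * key_dt (b j - w) (b j - w) = 0 := by
          rw [← h2]; unfold key_dt
          simp only [Prod.smul_fst, Prod.smul_snd, smul_eq_mul]; ring
        have := mul_pos hc h3
        linarith
    · have h1 : b j ∈ segment ℝ w (b k) := by
        rw [segment_eq_image']
        refine ⟨1 / c, ⟨(div_pos one_pos hc).le, (div_le_one hc).mpr hc1⟩, ?_⟩
        simp only
        rw [he, smul_smul, one_div_mul_cancel hc.ne', one_smul]; abel
      rcases A2 j k hjk (b j) (right_mem_segment _ _ _) h1 with h | h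
      · exact hb j h.symm
      · have h2 : key_dt (b j - w) (b k - w) = 0 := h
        rw [he] at h2
        have h3 := key_sq (hα j)
        have h4 : c * key_dt (b j - w) (b j - w) = 0 := by
          rw [← h2]; unfold key_dt
          simp only [Prod.smul_fst, Prod.smul_snd, smul_eq_mul]; ring
        have := mul_pos hc h3
        linarith
  have claim0 := key_half w w' b b' s hs z z' hz hz' hp l hl hlb A1 A3 A3' A4
  have hlb' : ∀ k, b k - w = (l k)⁻¹ • (b' k - w') := by
    intro k
    rw [hlb k, smul_smul, inv_mul_cancel₀ (hl k).ne', one_smul]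
  have A1' : ∀ j k, j ≠ k → ∀ x, x ∈ segment ℝ w' (b' j) → x ∈ segment ℝ w (b k) →
      Perp (w', b' j) (w, b k) := by
    intro j k hjk x hx hx'
    have := A1 k j hjk.symm x hx' hx
    unfold Perp at this ⊢
    linarith
  have claim1 := key_half w' w b' b s hs z' z hz' hz hp' (fun k => (l k)⁻¹)
    (fun k => inv_pos.mpr (hl k)) hlb' A1' A3' A3 A4
  -- the sides
  have hdt' : ∀ j k, key_dt (b' j - w') (b' k - w') = l j * l k * key_dt (b j - w) (b k - w) := by
    intro j k
    rw [hlb j, hlb k]; unfold key_dt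
    simp only [Prod.smul_fst, Prod.smul_snd, smul_eq_mul]; ring
  have hcr' : ∀ j k, key_cr (b' j - w') (b' k - w') = l j * l k * key_cr (b j - w) (b k - w) := by
    intro j k
    rw [hlb j, hlb k]; unfold key_cr
    simp only [Prod.smul_fst, Prod.smul_snd, smul_eq_mul]; ring
  have hcrd : ∀ k, key_cr (w - w') (b' k - w') = l k * -key_cr (w' - w) (b k - w) := by
    intro k
    rw [hlb k]; unfold key_cr
    simp only [Prod.smul_fst, Prod.smul_snd, smul_eq_mul, Prod.fst_sub, Prod.snd_sub]; ring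
  have hanti : ∀ j k, key_cr (b k - w) (b j - w) = -key_cr (b j - w) (b k - w) := by
    intro j k; unfold key_cr; ring
  have hsymm : ∀ j k, key_dt (b k - w) (b j - w) = key_dt (b j - w) (b k - w) := by
    intro j k; unfold key_dt; ring
  -- parallel arms of different indices lie on different sides
  have hpar0 : ∀ j k, j ≠ k → 0 < key_cr (w' - w) (b j - w) * key_cr (w' - w) (b k - w) →
      key_cr (b j - w) (b k - w) ≠ 0 := by
    intro j k hjk hpos h0
    have hsqj := key_sq (hα j)
    set c : ℝ := key_dt (b j - w) (b k - w) / key_dt (b j - w) (b j - w) with hc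
    have hck : b k - w = c • (b j - w) := by
      have hc1 : (b k - w).1 = c * (b j - w).1 := by
        rw [hc, div_mul_eq_mul_div, eq_div_iff hsqj.ne']
        unfold key_dt
        unfold key_cr at h0
        linear_combination (-(b j - w).2) * h0
      have hc2 : (b k - w).2 = c * (b j - w).2 := by
        rw [hc, div_mul_eq_mul_div, eq_div_iff hsqj.ne']
        unfold key_dt
        unfold key_cr at h0
        linear_combination ((b j - w).1) * h0
      apply Prod.ext
      · simpa using hc1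
      · simpa using hc2
    have hcc : key_cr (w' - w) (b k - w) = c * key_cr (w' - w) (b j - w) := by
      rw [hck]; unfold key_cr
      simp only [Prod.smul_fst, Prod.smul_snd, smul_eq_mul]; ring
    have hcpos : 0 < c := by
      rw [hcc] at hpos
      by_contra hcon
      push Not at hcon
      nlinarith [mul_self_nonneg (key_cr (w' - w) (b j - w))]
    exact hns j k hjk c hcpos hck
  have claim : ∀ j k, j ≠ k → 0 < key_cr (w' - w) (b j - w) * key_cr (w' - w) (b k - w) →
      key_dt (b j - w) (b k - w) = 0 := by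
    intro j k hjk hpos
    by_contra hdt
    have hne := hpar0 j k hjk hpos
    have hdt2 : key_dt (b k - w) (b j - w) ≠ 0 := by rw [hsymm]; exact hdt
    rcases pos_and_pos_or_neg_and_neg_of_mul_pos hpos with ⟨h1, h2⟩ | ⟨h1, h2⟩
    · rcases lt_or_gt_of_ne hne with h3 | h3
      · exact claim0 k j hjk.symm hdt2 (by rw [hanti]; linarith) h2 h1
      · exact claim0 j k hjk hdt h3 h1 h2
    · have hll : ∀ j k, 0 < l j * l k := fun j k => mul_pos (hl j) (hl k)
      have g1 : ∀ i, key_cr (w' - w) (b i - w) < 0 → 0 < key_cr (w - w') (b' i - w') := by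
        intro i hi
        rw [hcrd]; exact mul_pos (hl i) (by linarith)
      rcases lt_or_gt_of_ne hne with h3 | h3
      · refine claim1 k j hjk.symm ?_ ?_ (g1 k h2) (g1 j h1)
        · rw [hdt']; exact mul_ne_zero (hll k j).ne' hdt2
        · rw [hcr']; exact mul_pos (hll k j) (by rw [hanti]; linarith)
      · refine claim1 j k hjk ?_ ?_ (g1 j h1) (g1 k h2)
        · rw [hdt']; exact mul_ne_zero (hll j k).ne' hdt
        · rw [hcr']; exact mul_pos (hll j k) h3
  obtain ⟨i, j, k, hij, hik, hjk, h1, h2⟩ :=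
    key_pig (fun k => decide (0 < key_cr (w' - w) (b k - w)))
  have hsame : ∀ i j, decide (0 < key_cr (w' - w) (b i - w)) =
      decide (0 < key_cr (w' - w) (b j - w)) →
      0 < key_cr (w' - w) (b i - w) * key_cr (w' - w) (b j - w) := by
    intro i j hh
    rw [decide_eq_decide] at hh
    rcases lt_or_gt_of_ne (hnp i) with hi | hi
    · have hj : key_cr (w' - w) (b j - w) < 0 := by
        refine lt_of_le_of_ne ?_ (hnp j)
        by_contra hcon
        push Not at hcon
        have := hh.mpr hcon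
        linarith
      exact mul_pos_of_neg_of_neg hi hj
    · exact mul_pos hi (hh.mp hi)
  exact key_three (hα i) (hα j) (hα k) (claim i j hij (hsame i j h1))
    (claim i k hik (hsame i k h2)) (claim j k hjk (hsame j k (h1.symm.trans h2)))

end Pool.Agent.RAC963
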