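import Pool.Agent.RAC963.Box
import Pool.Agent.RAC963.Fam

/-!
# The layout of a satisfied formula
-/

set_option autoImplicit false

namespace Pool.Agent.RAC963

/-- The stride. -/
def Qs (M F : ℕ) (φ : N3) : ℕ := 4 * (nv φ + (cl φ).length + 2 * M + F + 5) + 8

/-- The value of a literal. -/
def lv (τ : ℕ → Bool) (l : Bool × ℕ) : Bool := τ l.2 == l.1

/-- The number of earlier literals of the clause with the same value (at most one if the clause is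
not-all-equal satisfied). -/
def lc (τ : ℕ → Bool) (c : SCl) : ℕ → ℕ
  | 0 => 0
  | 1 => if lv τ c.1 = lv τ c.2.1 then 1 else 0
  | _ => if lv τ c.1 = lv τ c.2.2 ∨ lv τ c.2.1 = lv τ c.2.2 then 1 else 0

/-- Index column of the hub of the literal `k` of the clause `j` (inside the copy). -/
def litX (τ : ℕ → Bool) (φ : N3) (Q j k : ℕ) : ℕ :=
  if lv τ (lt3 (clj φ j) k) = true then 8 * Q + 4 * j + 1 + 2 * lc τ (clj φ j) k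
  else 4 * Q + 4 * j + 1 + 2 * lc τ (clj φ j) k

/-- Index row of the hub of the literal `k` of the clause `j` (inside the copy). -/
def litY (τ : ℕ → Bool) (φ : N3) (Q j k : ℕ) : ℕ :=
  if lv τ (lt3 (clj φ j) k) = true then Q + 4 * j + 1 + 2 * lc τ (clj φ j) k
  else 6 * Q + 4 * j + 1 + 2 * lc τ (clj φ j) k

/-- Index column inside the stage, of the small hub of kind `κ` and number `i`. -/
def locX (τ : ℕ → Bool) (φ : N3) (Q κ i : ℕ) : ℕ :=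
  match κ with
  | 2 => 4 * i + 1
  | 3 => 6 * Q + 4 * i + 2
  | 4 => if τ i = true then 10 * Q + 4 * i + 2 else 6 * Q + 4 * i + 3
  | 5 => if τ i = true then 6 * Q + 4 * i + 3 else 10 * Q + 4 * i + 2
  | 6 => Q + 4 * i + 2
  | 7 => 6 * Q + 4 * i + 1
  | 8 => 3 * Q + 4 * i + 2
  | 9 => 8 * Q + 4 * i + 2
  | 10 => litX τ φ Q i 0
  | 11 => litX τ φ Q i 1
  | 12 => litX τ φ Q i 2
  | 13 => 7 * Q + 4 * i + 2
  | 14 => 11 * Q + 4 * i + 2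
  | 15 => 9 * Q + 4 * i + 2
  | 16 => 5 * Q + 4 * i + 2
  | _ => 2 * Q + 4 * i + 2

/-- Index row inside the stage, of the small hub of kind `κ` and number `i`. -/
def locY (τ : ℕ → Bool) (φ : N3) (Q κ i : ℕ) : ℕ :=
  match κ with
  | 2 => 4 * i + 1
  | 3 => 4 * Q + 4 * i + 2
  | 4 => if τ i = true then 4 * Q + 4 * i + 3 else 9 * Q + 4 * i + 2
  | 5 => if τ i = true then 9 * Q + 4 * i + 2 else 4 * Q + 4 * i + 3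
  | 6 => 4 * Q + 4 * i + 1
  | 7 => 10 * Q + 4 * i + 2
  | 8 => 7 * Q + 4 * i + 2
  | 9 => 6 * Q + 4 * i + 2
  | 10 => litY τ φ Q i 0
  | 11 => litY τ φ Q i 1
  | 12 => litY τ φ Q i 2
  | 13 => 3 * Q + 4 * i + 2
  | 14 => 5 * Q + 4 * i + 2
  | 15 => 8 * Q + 4 * i + 2
  | 16 => 2 * Q + 4 * i + 2
  | _ => 11 * Q + 4 * i + 2

/-- Index column of a small hub. -/
def pX (τ : ℕ → Bool) (φ : N3) (Q : ℕ) (h : Hub) : ℕ := 12 * (Q * h.2.1) + locX τ φ Q h.1 h.2.2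

/-- Index row of a small hub. -/
def pY (τ : ℕ → Bool) (φ : N3) (Q : ℕ) (h : Hub) : ℕ := 12 * (Q * h.2.1) + locY τ φ Q h.1 h.2.2

/-- The number of columns (and rows). -/
def Wd (N Q : ℕ) : ℕ := 24 * (Q * (N + 1)) + 3

/-- The hubs. -/
def Vh (N M F : ℕ) (φ : N3) (h : Hub) : Prop :=
  (h.1 = 0 ∧ h.2.1 = 0 ∧ h.2.2 < 4) ∨ (h.1 = 1 ∧ h.2.1 ≤ N ∧ h.2.2 < 4) ∨
  (h.1 = 2 ∧ h.2.1 ≤ N ∧ h.2.2 < 2 * M) ∨
  (3 ≤ h.1 ∧ h.1 ≤ 7 ∧ h.2.1 < N ∧ h.2.2 < nv φ) ∨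
  (h.1 = 8 ∧ h.2.1 < N ∧ h.2.2 < 5) ∨
  (9 ≤ h.1 ∧ h.1 ≤ 12 ∧ h.2.1 < N ∧ h.2.2 < (cl φ).length) ∨
  (13 ≤ h.1 ∧ h.1 ≤ 17 ∧ h.2.1 < N ∧ h.2.2 < F)

/-- The boxes: left end. -/
def bx1 (N : ℕ) (τ : ℕ → Bool) (φ : N3) (Q : ℕ) : Hub → ℤ
  | (0, _, 0) => -4
  | (0, _, 1) => 0
  | (0, _, 2) => Wd N Q + 3
  | (0, _, _) => 0
  | (1, _, 0) => -2
  | (1, γ, 1) => 24 * (Q * γ : ℕ)
  | (1, _, 2) => Wd N Q + 1
  | (1, γ, _) => 24 * (Q * γ : ℕ)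
  | (κ + 2, α, i) => 2 * (pX τ φ Q (κ + 2, α, i) : ℕ)

/-- The boxes: right end. -/
def bx2 (N : ℕ) (τ : ℕ → Bool) (φ : N3) (Q : ℕ) : Hub → ℤ
  | (0, _, 0) => -3
  | (0, _, 1) => Wd N Q
  | (0, _, 2) => Wd N Q + 4
  | (0, _, _) => Wd N Q
  | (1, _, 0) => -1
  | (1, γ, 1) => 24 * (Q * γ : ℕ) + 2 * Q
  | (1, _, 2) => Wd N Q + 2
  | (1, γ, _) => 24 * (Q * γ : ℕ) + 2 * Q
  | (κ + 2, α, i) => 2 * (pX τ φ Q (κ + 2, α, i) : ℕ) + 3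

/-- The boxes: upper end. -/
def by1 (N : ℕ) (τ : ℕ → Bool) (φ : N3) (Q : ℕ) : Hub → ℤ
  | (0, _, 0) => 0
  | (0, _, 1) => Wd N Q + 3
  | (0, _, 2) => 0
  | (0, _, _) => -4
  | (1, γ, 0) => 24 * (Q * γ : ℕ)
  | (1, _, 1) => Wd N Q + 1
  | (1, γ, 2) => 24 * (Q * γ : ℕ)
  | (1, _, _) => -2
  | (κ + 2, α, i) => 2 * (pY τ φ Q (κ + 2, α, i) : ℕ)

/-- The boxes: lower end. -/
def by2 (N : ℕ) (τ : ℕ → Bool) (φ : N3) (Q : ℕ) : Hub → ℤ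
  | (0, _, 0) => Wd N Q
  | (0, _, 1) => Wd N Q + 4
  | (0, _, 2) => Wd N Q
  | (0, _, _) => -3
  | (1, γ, 0) => 24 * (Q * γ : ℕ) + 2 * Q
  | (1, _, 1) => Wd N Q + 2
  | (1, γ, 2) => 24 * (Q * γ : ℕ) + 2 * Q
  | (1, _, _) => -1
  | (κ + 2, α, i) => 2 * (pY τ φ Q (κ + 2, α, i) : ℕ) + 3

/-- The layout. -/
def lay (N : ℕ) (τ : ℕ → Bool) (φ : N3) (Q : ℕ) : Boxes Hub :=
  ⟨bx1 N τ φ Q, bx2 N τ φ Q, by1 N τ φ Q, by2 N τ φ Q⟩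

/-- All clauses are not-all-equal satisfied by `τ`. -/
def Nae (τ : ℕ → Bool) (φ : N3) : Prop :=
  ∀ c ∈ cl φ, ¬ (lv τ c.1 = lv τ c.2.1 ∧ lv τ c.2.1 = lv τ c.2.2)

end Pool.Agent.RAC963
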