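import Pool.Agent.RAC963.Lay

set_option autoImplicit false

namespace Pool.Agent.RAC963

/-- Column group and offset, as a function of the values. -/
def layInj_cX (κ : ℕ) (t a b c : Bool) : ℕ × ℕ :=
  match κ with
  | 2 => (0, 1)
  | 3 => (6, 2)
  | 4 => if t = true then (10, 2) else (6, 3)
  | 5 => if t = true then (6, 3) else (10, 2)
  | 6 => (1, 2)
  | 7 => (6, 1)
  | 8 => (3, 2)
  | 9 => (8, 2)
  | 10 => (if a = true then 8 else 4, 1)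
  | 11 => (if b = true then 8 else 4, 1 + 2 * if a = b then 1 else 0)
  | 12 => (if c = true then 8 else 4, 1 + 2 * if a = c ∨ b = c then 1 else 0)
  | 13 => (7, 2)
  | 14 => (11, 2)
  | 15 => (9, 2)
  | 16 => (5, 2)
  | _ => (2, 2)

/-- Row group and offset, as a function of the values. -/
def layInj_cY (κ : ℕ) (t a b c : Bool) : ℕ × ℕ :=
  match κ with
  | 2 => (0, 1)
  | 3 => (4, 2)
  | 4 => if t = true then (4, 3) else (9, 2)
  | 5 => if t = true then (9, 2) else (4, 3)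
  | 6 => (4, 1)
  | 7 => (10, 2)
  | 8 => (7, 2)
  | 9 => (6, 2)
  | 10 => (if a = true then 1 else 6, 1)
  | 11 => (if b = true then 1 else 6, 1 + 2 * if a = b then 1 else 0)
  | 12 => (if c = true then 1 else 6, 1 + 2 * if a = c ∨ b = c then 1 else 0)
  | 13 => (3, 2)
  | 14 => (5, 2)
  | 15 => (8, 2)
  | 16 => (2, 2)
  | _ => (11, 2)

theorem layInj_tabX : ∀ t a b c : Bool, ¬ (a = b ∧ b = c) → ∀ κ κ' : Fin 18, 2 ≤ (κ : ℕ) →
    2 ≤ (κ' : ℕ) → layInj_cX κ t a b c = layInj_cX κ' t a b c → κ = κ' := by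
  decide +kernel

theorem layInj_tabY : ∀ t a b c : Bool, ¬ (a = b ∧ b = c) → ∀ κ κ' : Fin 18, 2 ≤ (κ : ℕ) →
    2 ≤ (κ' : ℕ) → layInj_cY κ t a b c = layInj_cY κ' t a b c → κ = κ' := by
  decide +kernel

theorem layInj_tabD : ∀ t a b c : Bool, ¬ (a = b ∧ b = c) → ∀ κ κ' : Fin 18, 2 ≤ (κ : ℕ) →
    2 ≤ (κ' : ℕ) → (layInj_cX κ t a b c).1 = (layInj_cX κ' t a b c).1 →
    (layInj_cY κ t a b c).1 = (layInj_cY κ' t a b c).1 →
    (layInj_cX κ t a b c).2 ≤ (layInj_cX κ' t a b c).2 + 1 →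
    (layInj_cX κ' t a b c).2 ≤ (layInj_cX κ t a b c).2 + 1 → κ = κ' := by
  decide +kernel

theorem layInj_rngX : ∀ t a b c : Bool, ∀ κ : Fin 18, (layInj_cX κ t a b c).1 ≤ 11 ∧
    1 ≤ (layInj_cX κ t a b c).2 ∧ (layInj_cX κ t a b c).2 ≤ 3 := by
  decide +kernel

theorem layInj_rngY : ∀ t a b c : Bool, ∀ κ : Fin 18, (layInj_cY κ t a b c).1 ≤ 11 ∧
    1 ≤ (layInj_cY κ t a b c).2 ∧ (layInj_cY κ t a b c).2 ≤ 3 := by
  decide +kernel

/-- The values of the literals of a clause. -/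
def layInj_v (τ : ℕ → Bool) (φ : N3) (j : ℕ) : Bool × Bool × Bool :=
  if j < (cl φ).length then
    (lv τ (clj φ j).1, lv τ (clj φ j).2.1, lv τ (clj φ j).2.2) else (true, false, false)

theorem layInj_nae {τ : ℕ → Bool} {φ : N3} (hn : Nae τ φ) (j : ℕ) :
    ¬ ((layInj_v τ φ j).1 = (layInj_v τ φ j).2.1 ∧ (layInj_v τ φ j).2.1 = (layInj_v τ φ j).2.2) := by
  unfold layInj_v
  split_ifs with h
  · refine hn (clj φ j) ?_
    unfold clj
    rw [List.getD_eq_getElem _ _ h]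
    exact List.getElem_mem h
  · decide

/-- The code of a hub. -/
def layInj_X (τ : ℕ → Bool) (φ : N3) (κ i : ℕ) : ℕ × ℕ :=
  layInj_cX κ (τ i) (layInj_v τ φ i).1 (layInj_v τ φ i).2.1 (layInj_v τ φ i).2.2

/-- The code of a hub. -/
def layInj_Y (τ : ℕ → Bool) (φ : N3) (κ i : ℕ) : ℕ × ℕ :=
  layInj_cY κ (τ i) (layInj_v τ φ i).1 (layInj_v τ φ i).2.1 (layInj_v τ φ i).2.2

theorem layInj_all {N M F : ℕ} {φ : N3} (τ : ℕ → Bool) {κ α i : ℕ}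
    (hv : Vh N M F φ (κ, α, i)) (h2 : 2 ≤ κ) : κ < 18 ∧ 4 * i + 4 ≤ Qs M F φ ∧
      locX τ φ (Qs M F φ) κ i =
        (layInj_X τ φ κ i).1 * Qs M F φ + 4 * i + (layInj_X τ φ κ i).2 ∧
      locY τ φ (Qs M F φ) κ i =
        (layInj_Y τ φ κ i).1 * Qs M F φ + 4 * i + (layInj_Y τ φ κ i).2 := by
  have hQ : Qs M F φ = 4 * (nv φ + (cl φ).length + 2 * M + F + 5) + 8 := rfl
  generalize Qs M F φ = Q at hQ ⊢
  rcases hv with h | h | h | h | h | h | h <;> simp only at h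
  · omega
  · omega
  · obtain ⟨rfl, h3, h4⟩ := h
    refine ⟨by omega, by omega, ?_, ?_⟩
    · change 4 * i + 1 = 0 * Q + 4 * i + 1
      omega
    · change 4 * i + 1 = 0 * Q + 4 * i + 1
      omega
  · obtain ⟨h3, h4, h5, h6⟩ := h
    refine ⟨by omega, by omega, ?_, ?_⟩
    · unfold layInj_X
      interval_cases κ <;> simp only [locX, layInj_cX] <;> (try split_ifs) <;> omega
    · unfold layInj_Y
      interval_cases κ <;> simp only [locY, layInj_cY] <;> (try split_ifs) <;> omega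
  · obtain ⟨rfl, h5, h6⟩ := h
    refine ⟨by omega, by omega, ?_, ?_⟩
    · simp only [layInj_X, locX, layInj_cX]
    · simp only [layInj_Y, locY, layInj_cY]
  · obtain ⟨h3, h4, h5, h6⟩ := h
    refine ⟨by omega, by omega, ?_, ?_⟩
    · unfold layInj_X layInj_v
      rw [if_pos h6]
      interval_cases κ <;>
        simp only [locX, layInj_cX, litX, lt3, lc] <;> (try split_ifs) <;> omega
    · unfold layInj_Y layInj_v
      rw [if_pos h6]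
      interval_cases κ <;>
        simp only [locY, layInj_cY, litY, lt3, lc] <;> (try split_ifs) <;> omega
  · obtain ⟨h3, h4, h5, h6⟩ := h
    refine ⟨by omega, by omega, ?_, ?_⟩
    · unfold layInj_X
      interval_cases κ <;> simp only [locX, layInj_cX]
    · unfold layInj_Y
      interval_cases κ <;> simp only [locY, layInj_cY]

theorem layInj_sep {Q α α' a a' i i' o o' : ℕ} (ha : a ≤ 11) (ha' : a' ≤ 11) (ho : 1 ≤ o)
    (ho' : 1 ≤ o') (ho3 : o ≤ 3) (ho3' : o' ≤ 3) (hi : 4 * i + 4 ≤ Q) (hi' : 4 * i' + 4 ≤ Q)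
    (h1 : 12 * (Q * α) + (a * Q + 4 * i + o) ≤ 12 * (Q * α') + (a' * Q + 4 * i' + o') + 1)
    (h2 : 12 * (Q * α') + (a' * Q + 4 * i' + o') ≤ 12 * (Q * α) + (a * Q + 4 * i + o) + 1) :
    α = α' ∧ a = a' ∧ i = i' ∧ o ≤ o' + 1 ∧ o' ≤ o + 1 := by
  have e : 12 * (Q * α) + a * Q = Q * (12 * α + a) := by ring
  have e' : 12 * (Q * α') + a' * Q = Q * (12 * α' + a') := by ring
  have hK : 12 * α + a = 12 * α' + a' := by
    rcases lt_trichotomy (12 * α + a) (12 * α' + a') with h | h | h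
    · have := Nat.mul_le_mul_left Q (Nat.succ_le_of_lt h)
      rw [Nat.mul_succ] at this
      omega
    · exact h
    · have := Nat.mul_le_mul_left Q (Nat.succ_le_of_lt h)
      rw [Nat.mul_succ] at this
      omega
  rw [hK] at e
  refine ⟨by omega, by omega, by omega, by omega, by omega⟩

/-- Different small hubs have different index columns. -/
theorem pX_inj {N M F : ℕ} {φ : N3} {τ : ℕ → Bool} (hn : Nae τ φ) {g h : Hub}
    (hg : Vh N M F φ g) (hh : Vh N M F φ h) (hg2 : 2 ≤ g.1) (hh2 : 2 ≤ h.1)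
    (he : pX τ φ (Qs M F φ) g = pX τ φ (Qs M F φ) h) : g = h := by
  obtain ⟨κ, α, i⟩ := g
  obtain ⟨κ', α', i'⟩ := h
  simp only at hg2 hh2
  obtain ⟨a1, a2, a3, -⟩ := layInj_all τ hg hg2
  obtain ⟨b1, b2, b3, -⟩ := layInj_all τ hh hh2
  simp only [pX] at he
  rw [a3, b3] at he
  obtain ⟨r1, r2, r3⟩ := layInj_rngX (τ i) (layInj_v τ φ i).1 (layInj_v τ φ i).2.1
    (layInj_v τ φ i).2.2 ⟨κ, a1⟩
  obtain ⟨s1, s2, s3⟩ := layInj_rngX (τ i') (layInj_v τ φ i').1 (layInj_v τ φ i').2.1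
    (layInj_v τ φ i').2.2 ⟨κ', b1⟩
  obtain ⟨e1, e2, e3, -, -⟩ := layInj_sep (o := (layInj_X τ φ κ i).2)
    (o' := (layInj_X τ φ κ' i').2) r1 s1 r2 s2 r3 s3 a2 b2
    (he.le.trans (Nat.le_succ _)) (he.ge.trans (Nat.le_succ _))
  subst e1 e3
  have e4 := layInj_tabX (τ i) (layInj_v τ φ i).1 (layInj_v τ φ i).2.1 (layInj_v τ φ i).2.2
    (layInj_nae hn i) ⟨κ, a1⟩ ⟨κ', b1⟩ hg2 hh2 (Prod.ext e2 (by
      have e2' : (layInj_X τ φ κ i).1 = (layInj_X τ φ κ' i).1 := e2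
      show (layInj_X τ φ κ i).2 = (layInj_X τ φ κ' i).2
      rw [e2'] at he
      omega))
  have e5 : κ = κ' := congrArg Fin.val e4
  rw [e5]

/-- Different small hubs have different index rows. -/
theorem pY_inj {N M F : ℕ} {φ : N3} {τ : ℕ → Bool} (hn : Nae τ φ) {g h : Hub}
    (hg : Vh N M F φ g) (hh : Vh N M F φ h) (hg2 : 2 ≤ g.1) (hh2 : 2 ≤ h.1)
    (he : pY τ φ (Qs M F φ) g = pY τ φ (Qs M F φ) h) : g = h := by
  obtain ⟨κ, α, i⟩ := g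
  obtain ⟨κ', α', i'⟩ := h
  simp only at hg2 hh2
  obtain ⟨a1, a2, -, a3⟩ := layInj_all τ hg hg2
  obtain ⟨b1, b2, -, b3⟩ := layInj_all τ hh hh2
  simp only [pY] at he
  rw [a3, b3] at he
  obtain ⟨r1, r2, r3⟩ := layInj_rngY (τ i) (layInj_v τ φ i).1 (layInj_v τ φ i).2.1
    (layInj_v τ φ i).2.2 ⟨κ, a1⟩
  obtain ⟨s1, s2, s3⟩ := layInj_rngY (τ i') (layInj_v τ φ i').1 (layInj_v τ φ i').2.1
    (layInj_v τ φ i').2.2 ⟨κ', b1⟩
  obtain ⟨e1, e2, e3, -, -⟩ := layInj_sep (o := (layInj_Y τ φ κ i).2)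
    (o' := (layInj_Y τ φ κ' i').2) r1 s1 r2 s2 r3 s3 a2 b2
    (he.le.trans (Nat.le_succ _)) (he.ge.trans (Nat.le_succ _))
  subst e1 e3
  have e4 := layInj_tabY (τ i) (layInj_v τ φ i).1 (layInj_v τ φ i).2.1 (layInj_v τ φ i).2.2
    (layInj_nae hn i) ⟨κ, a1⟩ ⟨κ', b1⟩ hg2 hh2 (Prod.ext e2 (by
      have e2' : (layInj_Y τ φ κ i).1 = (layInj_Y τ φ κ' i).1 := e2
      show (layInj_Y τ φ κ i).2 = (layInj_Y τ φ κ' i).2
      rw [e2'] at he
      omega))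
  have e5 : κ = κ' := congrArg Fin.val e4
  rw [e5]

/-- No two small hubs are diagonal neighbours. -/
theorem nodiag {N M F : ℕ} {φ : N3} {τ : ℕ → Bool} (hn : Nae τ φ) {g h : Hub}
    (hg : Vh N M F φ g) (hh : Vh N M F φ h) (hg2 : 2 ≤ g.1) (hh2 : 2 ≤ h.1) (hne : g ≠ h)
    (h1 : pX τ φ (Qs M F φ) g ≤ pX τ φ (Qs M F φ) h + 1)
    (h2 : pX τ φ (Qs M F φ) h ≤ pX τ φ (Qs M F φ) g + 1)
    (h3 : pY τ φ (Qs M F φ) g ≤ pY τ φ (Qs M F φ) h + 1)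
    (h4 : pY τ φ (Qs M F φ) h ≤ pY τ φ (Qs M F φ) g + 1) : False := by
  obtain ⟨κ, α, i⟩ := g
  obtain ⟨κ', α', i'⟩ := h
  simp only at hg2 hh2
  obtain ⟨a1, a2, a3, a4⟩ := layInj_all τ hg hg2
  obtain ⟨b1, b2, b3, b4⟩ := layInj_all τ hh hh2
  simp only [pX, pY] at h1 h2 h3 h4
  rw [a3, b3] at h1 h2
  rw [a4, b4] at h3 h4
  obtain ⟨r1, r2, r3⟩ := layInj_rngX (τ i) (layInj_v τ φ i).1 (layInj_v τ φ i).2.1
    (layInj_v τ φ i).2.2 ⟨κ, a1⟩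
  obtain ⟨s1, s2, s3⟩ := layInj_rngX (τ i') (layInj_v τ φ i').1 (layInj_v τ φ i').2.1
    (layInj_v τ φ i').2.2 ⟨κ', b1⟩
  obtain ⟨t1, t2, t3⟩ := layInj_rngY (τ i) (layInj_v τ φ i).1 (layInj_v τ φ i).2.1
    (layInj_v τ φ i).2.2 ⟨κ, a1⟩
  obtain ⟨u1, u2, u3⟩ := layInj_rngY (τ i') (layInj_v τ φ i').1 (layInj_v τ φ i').2.1
    (layInj_v τ φ i').2.2 ⟨κ', b1⟩
  obtain ⟨e1, e2, e3, e4, e5⟩ := layInj_sep (o := (layInj_X τ φ κ i).2)
    (o' := (layInj_X τ φ κ' i').2) r1 s1 r2 s2 r3 s3 a2 b2 h1 h2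
  obtain ⟨-, f2, -, -, -⟩ := layInj_sep (o := (layInj_Y τ φ κ i).2)
    (o' := (layInj_Y τ φ κ' i').2) t1 u1 t2 u2 t3 u3 a2 b2 h3 h4
  subst e1 e3
  have e6 := layInj_tabD (τ i) (layInj_v τ φ i).1 (layInj_v τ φ i).2.1 (layInj_v τ φ i).2.2
    (layInj_nae hn i) ⟨κ, a1⟩ ⟨κ', b1⟩ hg2 hh2 e2 f2 e4 e5
  have e7 : κ = κ' := congrArg Fin.val e6
  exact hne (by rw [e7])

end Pool.Agent.RAC963
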