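import Pool.Agent.RAC963.LayInj

set_option autoImplicit false

namespace Pool.Agent.RAC963

theorem layOk_lc (τ : ℕ → Bool) (c : SCl) (k : ℕ) : lc τ c k ≤ 1 := by
  unfold lc
  split
  · omega
  · split_ifs <;> omega
  · split_ifs <;> omega

theorem layOk_litX (τ : ℕ → Bool) (φ : N3) (Q j k : ℕ) : litX τ φ Q j k ≤ 8 * Q + 4 * j + 3 := by
  unfold litX
  have := layOk_lc τ (clj φ j) k
  split_ifs <;> omega

theorem layOk_litY (τ : ℕ → Bool) (φ : N3) (Q j k : ℕ) : litY τ φ Q j k ≤ 6 * Q + 4 * j + 3 := by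
  unfold litY
  have := layOk_lc τ (clj φ j) k
  split_ifs <;> omega

theorem layOk_loc {N M F : ℕ} {φ : N3} (τ : ℕ → Bool) {κ α i : ℕ}
    (hv : Vh N M F φ (κ, α, i)) (h2 : 2 ≤ κ) :
    α ≤ N ∧ locX τ φ (Qs M F φ) κ i + 2 ≤ 12 * Qs M F φ ∧
      locY τ φ (Qs M F φ) κ i + 2 ≤ 12 * Qs M F φ := by
  have hQ : Qs M F φ = 4 * (nv φ + (cl φ).length + 2 * M + F + 5) + 8 := rfl
  generalize Qs M F φ = Q at hQ ⊢
  rcases hv with h | h | h | h | h | h | h <;> simp only at h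
  · omega
  · omega
  · obtain ⟨rfl, h3, h4⟩ := h
    refine ⟨h3, ?_, ?_⟩
    · change 4 * i + 1 + 2 ≤ _
      omega
    · change 4 * i + 1 + 2 ≤ _
      omega
  · obtain ⟨h3, h4, h5, h6⟩ := h
    refine ⟨h5.le, ?_, ?_⟩
    · interval_cases κ <;> simp only [locX] <;> (try split_ifs) <;> omega
    · interval_cases κ <;> simp only [locY] <;> (try split_ifs) <;> omega
  · obtain ⟨rfl, h5, h6⟩ := h
    refine ⟨h5.le, ?_, ?_⟩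
    · simp only [locX]
      omega
    · simp only [locY]
      omega
  · obtain ⟨h3, h4, h5, h6⟩ := h
    have a0 := layOk_litX τ φ Q i 0
    have a1 := layOk_litX τ φ Q i 1
    have a2 := layOk_litX τ φ Q i 2
    have b0 := layOk_litY τ φ Q i 0
    have b1 := layOk_litY τ φ Q i 1
    have b2 := layOk_litY τ φ Q i 2
    refine ⟨h5.le, ?_, ?_⟩
    · interval_cases κ <;> simp only [locX] <;> omega
    · interval_cases κ <;> simp only [locY] <;> omega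
  · obtain ⟨h3, h4, h5, h6⟩ := h
    refine ⟨h5.le, ?_, ?_⟩
    · interval_cases κ <;> simp only [locX] <;> omega
    · interval_cases κ <;> simp only [locY] <;> omega

/-- The possible boxes. -/
def layOk_P (N Q : ℕ) (τ : ℕ → Bool) (φ : N3) (h : Hub) (a b c d : ℤ) : Prop :=
  (h = (0, 0, 0) ∧ a = -4 ∧ b = -3 ∧ c = 0 ∧ d = 24 * (Q * N : ℕ) + 24 * Q + 3) ∨
  (h = (0, 0, 1) ∧ a = 0 ∧ b = 24 * (Q * N : ℕ) + 24 * Q + 3 ∧ c = 24 * (Q * N : ℕ) + 24 * Q + 6 ∧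
    d = 24 * (Q * N : ℕ) + 24 * Q + 7) ∨
  (h = (0, 0, 2) ∧ a = 24 * (Q * N : ℕ) + 24 * Q + 6 ∧ b = 24 * (Q * N : ℕ) + 24 * Q + 7 ∧
    c = 0 ∧ d = 24 * (Q * N : ℕ) + 24 * Q + 3) ∨
  (h = (0, 0, 3) ∧ a = 0 ∧ b = 24 * (Q * N : ℕ) + 24 * Q + 3 ∧ c = -4 ∧ d = -3) ∨
  (∃ γ : ℕ, γ ≤ N ∧ h = (1, γ, 0) ∧ a = -2 ∧ b = -1 ∧ c = 24 * (Q * γ : ℕ) ∧
    d = 24 * (Q * γ : ℕ) + 2 * Q) ∨
  (∃ γ : ℕ, γ ≤ N ∧ h = (1, γ, 1) ∧ a = 24 * (Q * γ : ℕ) ∧ b = 24 * (Q * γ : ℕ) + 2 * Q ∧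
    c = 24 * (Q * N : ℕ) + 24 * Q + 4 ∧ d = 24 * (Q * N : ℕ) + 24 * Q + 5) ∨
  (∃ γ : ℕ, γ ≤ N ∧ h = (1, γ, 2) ∧ a = 24 * (Q * N : ℕ) + 24 * Q + 4 ∧
    b = 24 * (Q * N : ℕ) + 24 * Q + 5 ∧ c = 24 * (Q * γ : ℕ) ∧ d = 24 * (Q * γ : ℕ) + 2 * Q) ∨
  (∃ γ : ℕ, γ ≤ N ∧ h = (1, γ, 3) ∧ a = 24 * (Q * γ : ℕ) ∧ b = 24 * (Q * γ : ℕ) + 2 * Q ∧
    c = -2 ∧ d = -1) ∨
  (2 ≤ h.1 ∧ ∃ X Y : ℕ, X = pX τ φ Q h ∧ Y = pY τ φ Q h ∧ 2 * X + 3 ≤ 24 * (Q * N) + 24 * Q + 3 ∧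
    2 * Y + 3 ≤ 24 * (Q * N) + 24 * Q + 3 ∧ a = 2 * X ∧ b = 2 * X + 3 ∧ c = 2 * Y ∧
    d = 2 * Y + 3)

theorem layOk_all {N M F : ℕ} {φ : N3} (τ : ℕ → Bool) {h : Hub} (hv : Vh N M F φ h) :
    layOk_P N (Qs M F φ) τ φ h (bx1 N τ φ (Qs M F φ) h) (bx2 N τ φ (Qs M F φ) h)
      (by1 N τ φ (Qs M F φ) h) (by2 N τ φ (Qs M F φ) h) := by
  have hloc := fun (h2 : 2 ≤ h.1) => layOk_loc τ (κ := h.1) (α := h.2.1) (i := h.2.2) hv h2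
  have hW : (Wd N (Qs M F φ) : ℤ) = 24 * (Qs M F φ * N : ℕ) + 24 * Qs M F φ + 3 := by
    unfold Wd
    push_cast
    ring
  generalize Qs M F φ = Q at hW hloc ⊢
  obtain ⟨κ, α, i⟩ := h
  by_cases h2 : 2 ≤ κ
  · obtain ⟨hα, hX, hY⟩ := hloc h2
    have hQα : Q * α ≤ Q * N := Nat.mul_le_mul_left _ hα
    obtain ⟨κ, rfl⟩ : ∃ κ', κ = κ' + 2 := ⟨κ - 2, by omega⟩
    simp only at hX hY
    unfold layOk_P
    iterate 8 right
    refine ⟨h2, _, _, rfl, rfl, ?_, ?_, rfl, rfl, rfl, rfl⟩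
    · simp only [pX]
      omega
    · simp only [pY]
      omega
  · rcases hv with h | h | h | h | h | h | h <;> simp only at h
    · obtain ⟨rfl, rfl, hi⟩ := h
      interval_cases i
      · exact Or.inl ⟨rfl, rfl, rfl, rfl, hW⟩
      · exact Or.inr (Or.inl ⟨rfl, rfl, hW, by simp only [by1, hW]; ring, by
          simp only [by2, hW]; ring⟩)
      · exact Or.inr (Or.inr (Or.inl ⟨rfl, by simp only [bx1, hW]; ring, by
          simp only [bx2, hW]; ring, rfl, hW⟩))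
      · exact Or.inr (Or.inr (Or.inr (Or.inl ⟨rfl, rfl, hW, rfl, rfl⟩)))
    · obtain ⟨rfl, hα, hi⟩ := h
      unfold layOk_P
      iterate 4 right
      interval_cases i
      · exact Or.inl ⟨α, hα, rfl, rfl, rfl, rfl, rfl⟩
      · exact Or.inr (Or.inl ⟨α, hα, rfl, rfl, rfl, by simp only [by1, hW]; ring, by
          simp only [by2, hW]; ring⟩)
      · exact Or.inr (Or.inr (Or.inl ⟨α, hα, rfl, by simp only [bx1, hW]; ring, by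
          simp only [bx2, hW]; ring, rfl, rfl⟩))
      · exact Or.inr (Or.inr (Or.inr (Or.inl ⟨α, hα, rfl, rfl, rfl, rfl, rfl⟩)))
    all_goals omega

/-- The boxes of the layout are disjoint. -/
theorem lay_ok {N M F : ℕ} {φ : N3} {τ : ℕ → Bool} (hn : Nae τ φ) :
    (lay N τ φ (Qs M F φ)).Ok (Vh N M F φ) := by
  have hQ : 0 < Qs M F φ := by
    unfold Qs
    omega
  have hmono : ∀ γ : ℕ, γ ≤ N → Qs M F φ * γ ≤ Qs M F φ * N := fun γ h => Nat.mul_le_mul_left _ h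
  have hsep : ∀ γ γ' : ℕ, γ < γ' → Qs M F φ * γ + Qs M F φ ≤ Qs M F φ * γ' := by
    intro γ γ' h
    have := Nat.mul_le_mul_left (Qs M F φ) (Nat.succ_le_of_lt h)
    rw [Nat.mul_succ] at this
    exact this
  refine ⟨fun h hv => ?_, fun g h hg hh hne => ?_⟩
  · have h1 := layOk_all τ hv
    change bx1 N τ φ (Qs M F φ) h < bx2 N τ φ (Qs M F φ) h ∧
      by1 N τ φ (Qs M F φ) h < by2 N τ φ (Qs M F φ) h
    generalize bx1 N τ φ (Qs M F φ) h = a at h1 ⊢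
    generalize bx2 N τ φ (Qs M F φ) h = b at h1 ⊢
    generalize by1 N τ φ (Qs M F φ) h = c at h1 ⊢
    generalize by2 N τ φ (Qs M F φ) h = d at h1 ⊢
    rcases h1 with ⟨_, rfl, rfl, rfl, rfl⟩ | ⟨_, rfl, rfl, rfl, rfl⟩ | ⟨_, rfl, rfl, rfl, rfl⟩ |
      ⟨_, rfl, rfl, rfl, rfl⟩ | ⟨γ, _, _, rfl, rfl, rfl, rfl⟩ | ⟨γ, _, _, rfl, rfl, rfl, rfl⟩ |
      ⟨γ, _, _, rfl, rfl, rfl, rfl⟩ | ⟨γ, _, _, rfl, rfl, rfl, rfl⟩ |
      ⟨_, X, Y, _, _, _, _, rfl, rfl, rfl, rfl⟩ <;> constructor <;> omega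
  · have h1 := layOk_all τ hg
    have h2 := layOk_all τ hh
    have hnd := nodiag (N := N) (M := M) (F := F) (τ := τ) hn hg hh
    change bx2 N τ φ (Qs M F φ) g < bx1 N τ φ (Qs M F φ) h ∨
      bx2 N τ φ (Qs M F φ) h < bx1 N τ φ (Qs M F φ) g ∨
      by2 N τ φ (Qs M F φ) g < by1 N τ φ (Qs M F φ) h ∨
      by2 N τ φ (Qs M F φ) h < by1 N τ φ (Qs M F φ) g
    generalize bx1 N τ φ (Qs M F φ) g = a at h1 ⊢
    generalize bx2 N τ φ (Qs M F φ) g = b at h1 ⊢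
    generalize by1 N τ φ (Qs M F φ) g = c at h1 ⊢
    generalize by2 N τ φ (Qs M F φ) g = d at h1 ⊢
    generalize bx1 N τ φ (Qs M F φ) h = a' at h2 ⊢
    generalize bx2 N τ φ (Qs M F φ) h = b' at h2 ⊢
    generalize by1 N τ φ (Qs M F φ) h = c' at h2 ⊢
    generalize by2 N τ φ (Qs M F φ) h = d' at h2 ⊢
    generalize Qs M F φ = Q at *
    rcases h1 with ⟨e, rfl, rfl, rfl, rfl⟩ | ⟨e, rfl, rfl, rfl, rfl⟩ | ⟨e, rfl, rfl, rfl, rfl⟩ |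
      ⟨e, rfl, rfl, rfl, rfl⟩ | ⟨γ, hγ, e, rfl, rfl, rfl, rfl⟩ | ⟨γ, hγ, e, rfl, rfl, rfl, rfl⟩ |
      ⟨γ, hγ, e, rfl, rfl, rfl, rfl⟩ | ⟨γ, hγ, e, rfl, rfl, rfl, rfl⟩ |
      ⟨e, X, Y, eX, eY, hX, hY, rfl, rfl, rfl, rfl⟩ <;>
    rcases h2 with ⟨e', rfl, rfl, rfl, rfl⟩ | ⟨e', rfl, rfl, rfl, rfl⟩ |
      ⟨e', rfl, rfl, rfl, rfl⟩ |
      ⟨e', rfl, rfl, rfl, rfl⟩ | ⟨γ', hγ', e', rfl, rfl, rfl, rfl⟩ |
      ⟨γ', hγ', e', rfl, rfl, rfl, rfl⟩ |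
      ⟨γ', hγ', e', rfl, rfl, rfl, rfl⟩ | ⟨γ', hγ', e', rfl, rfl, rfl, rfl⟩ |
      ⟨e', X', Y', eX', eY', hX', hY', rfl, rfl, rfl, rfl⟩ <;>
    first
    | (exfalso; exact hne (e.trans e'.symm))
    | (rcases lt_trichotomy γ γ' with hlt | hlt | hlt
       · have k1 := hsep γ γ' hlt
         omega
       · exfalso
         rw [hlt] at e
         exact hne (e.trans e'.symm)
       · have k1 := hsep γ' γ hlt
         omega)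
    | (have k1 := hmono γ hγ
       have k2 := hmono γ' hγ'
       omega)
    | (have k1 := hmono γ hγ
       omega)
    | (have k2 := hmono γ' hγ'
       omega)
    | (clear hnd; omega)
    | (by_contra hcon
       rw [← eX, ← eX', ← eY, ← eY'] at hnd
       exact hnd e e' hne (by omega) (by omega) (by omega) (by omega))

end Pool.Agent.RAC963
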