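import Pool.Agent.RAC963.Defs

set_option autoImplicit false

namespace Pool.Agent.RAC963

/-- The common points are exempt or proper crossings at a right angle. -/
def norm_Good (E : Set Pt) (s t : Pt × Pt) : Prop :=
  ∀ z, z ∈ segment ℝ s.1 s.2 → z ∈ segment ℝ t.1 t.2 →
    z ∈ E ∨ (z ∈ openSegment ℝ s.1 s.2 ∧ z ∈ openSegment ℝ t.1 t.2 ∧ Perp s t)

/-- Parallel segments. -/
def norm_Par (s t : Pt × Pt) : Prop :=
  (s.2.1 - s.1.1) * (t.2.2 - t.1.2) - (s.2.2 - s.1.2) * (t.2.1 - t.1.1) = 0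

/-- The chain `c'` may replace `c`. -/
def norm_Red (p q : Pt) (c c' : List Pt) : Prop :=
  (∀ z, On c' z → On c z) ∧
  ∀ (E : Set Pt) (t : Pt × Pt), t.1 ≠ t.2 → (p ∈ segment ℝ t.1 t.2 → p ∈ E) →
    (q ∈ segment ℝ t.1 t.2 → q ∈ E) → (∀ s ∈ segs c, norm_Good E s t) →
    ∀ s ∈ segs c', norm_Good E s t

lemma norm_Red_refl (p q : Pt) (c : List Pt) : norm_Red p q c c :=
  ⟨fun _ h => h, fun _ _ _ _ _ h => h⟩

lemma norm_Red_trans {p q : Pt} {c c' c'' : List Pt} (h1 : norm_Red p q c c')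
    (h2 : norm_Red p q c' c'') : norm_Red p q c c'' :=
  ⟨fun z h => h1.1 z (h2.1 z h), fun E t ht hp hq h => h2.2 E t ht hp hq (h1.2 E t ht hp hq h)⟩

lemma norm_mem_seg {a b z : Pt} : z ∈ segment ℝ a b ↔
    ∃ θ : ℝ, 0 ≤ θ ∧ θ ≤ 1 ∧ z.1 = a.1 + θ * (b.1 - a.1) ∧ z.2 = a.2 + θ * (b.2 - a.2) := by
  rw [segment_eq_image']
  constructor
  · rintro ⟨θ, ⟨h0, h1⟩, rfl⟩
    exact ⟨θ, h0, h1, by simp, by simp⟩
  · rintro ⟨θ, h0, h1, e1, e2⟩
    refine ⟨θ, ⟨h0, h1⟩, ?_⟩
    ext
    · simp [e1]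
    · simp [e2]

lemma norm_Good_symm {E : Set Pt} {s t : Pt × Pt} (h : norm_Good E s t) : norm_Good E t s := by
  intro z h1 h2
  rcases h z h2 h1 with h3 | ⟨h3, h4, h5⟩
  · exact Or.inl h3
  · refine Or.inr ⟨h4, h3, ?_⟩
    unfold Perp at h5 ⊢
    linarith

lemma norm_Perp_of_Par {s s' t : Pt × Pt} (hs : s.1 ≠ s.2) (hp : norm_Par s s') (h : Perp s t) :
    Perp s' t := by
  unfold Perp norm_Par at *
  have h0 : 0 < (s.2.1 - s.1.1) ^ 2 + (s.2.2 - s.1.2) ^ 2 := by
    by_contra hcon
    have h1 : s.2.1 - s.1.1 = 0 := by nlinarith [sq_nonneg (s.2.1 - s.1.1), sq_nonneg (s.2.2 - s.1.2)]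
    have h2 : s.2.2 - s.1.2 = 0 := by nlinarith [sq_nonneg (s.2.1 - s.1.1), sq_nonneg (s.2.2 - s.1.2)]
    apply hs
    ext
    · linarith
    · linarith
  have h1 : ((s.2.1 - s.1.1) ^ 2 + (s.2.2 - s.1.2) ^ 2) *
      ((s'.2.1 - s'.1.1) * (t.2.1 - t.1.1) + (s'.2.2 - s'.1.2) * (t.2.2 - t.1.2)) = 0 := by
    linear_combination ((s.2.1 - s.1.1) * (s'.2.1 - s'.1.1) + (s.2.2 - s.1.2) * (s'.2.2 - s'.1.2))
      * h + ((s.2.1 - s.1.1) * (t.2.2 - t.1.2) - (s.2.2 - s.1.2) * (t.2.1 - t.1.1)) * hp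
  rcases mul_eq_zero.1 h1 with h2 | h2
  · linarith
  · exact h2

/-- The endpoint of a proper segment of the chain is on `t` only if it is exempt. -/
lemma norm_corner {E : Set Pt} {s t : Pt × Pt} (hs : s.1 ≠ s.2) (h : norm_Good E s t) :
    (s.1 ∈ segment ℝ t.1 t.2 → s.1 ∈ E) ∧ (s.2 ∈ segment ℝ t.1 t.2 → s.2 ∈ E) := by
  constructor
  · intro h1
    rcases h _ (left_mem_segment ℝ _ _) h1 with h3 | ⟨h3, -, -⟩
    · exact h3
    · exact absurd (left_mem_openSegment_iff.1 h3) hs
  · intro h1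
    rcases h _ (right_mem_segment ℝ _ _) h1 with h3 | ⟨h3, -, -⟩
    · exact h3
    · exact absurd (right_mem_openSegment_iff.1 h3) hs

/-- A segment covered by parallel segments of the chain. -/
lemma norm_good_of {E : Set Pt} {t : Pt × Pt} {x y : Pt}
    (hcov : ∀ w ∈ segment ℝ x y, ∃ s : Pt × Pt, s.1 ≠ s.2 ∧ norm_Good E s t ∧
      w ∈ segment ℝ s.1 s.2 ∧ norm_Par s (x, y))
    (hx : x ∈ segment ℝ t.1 t.2 → x ∈ E) (hy : y ∈ segment ℝ t.1 t.2 → y ∈ E) :
    norm_Good E (x, y) t := by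
  intro w h1 h2
  simp only at h1
  by_cases hwx : x = w
  · left; rw [← hwx]; rw [← hwx] at h2; exact hx h2
  by_cases hwy : y = w
  · left; rw [← hwy]; rw [← hwy] at h2; exact hy h2
  obtain ⟨s, hs, hg, hw, hpar⟩ := hcov w h1
  rcases hg w hw h2 with h3 | ⟨_, h4, h5⟩
  · exact Or.inl h3
  · exact Or.inr ⟨mem_openSegment_of_ne_left_right hwx hwy h1, h4, norm_Perp_of_Par hs hpar h5⟩

lemma norm_Par_of_mem {a b x y : Pt} (hx : x ∈ segment ℝ a b) (hy : y ∈ segment ℝ a b) :
    norm_Par (a, b) (x, y) := by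
  obtain ⟨θ, -, -, e1, e2⟩ := norm_mem_seg.1 hx
  obtain ⟨φ, -, -, e3, e4⟩ := norm_mem_seg.1 hy
  unfold norm_Par
  simp only
  rw [e1, e2, e3, e4]; ring

lemma norm_sub {a b x y : Pt} (hx : x ∈ segment ℝ a b) (hy : y ∈ segment ℝ a b) :
    segment ℝ x y ⊆ segment ℝ a b := (convex_segment a b).segment_subset hx hy

/-- Folding back. -/
lemma norm_fold {p b q z : Pt} (h1 : z ∈ segment ℝ p b) (h2 : z ∈ segment ℝ b q)
    (hz : z ≠ b) : q ∈ segment ℝ p b ∨ p ∈ segment ℝ b q := by
  obtain ⟨α, a0, a1, e1, e2⟩ := norm_mem_seg.1 h1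
  obtain ⟨β, b0, b1, e3, e4⟩ := norm_mem_seg.1 h2
  have hα : 0 < 1 - α := by
    rcases eq_or_lt_of_le (sub_nonneg.2 a1) with h | h
    · exfalso
      apply hz
      have : α = 1 := by linarith
      rw [this] at e1 e2
      ext
      · linarith
      · linarith
    · exact h
  have hβ : 0 < β := by
    rcases eq_or_lt_of_le b0 with h | h
    · exfalso
      apply hz
      rw [← h] at e3 e4
      ext
      · linarith
      · linarith
    · exact h
  -- (1 - α) (p - b) = β (q - b)
  have f1 : (1 - α) * (p.1 - b.1) = β * (q.1 - b.1) := by linarith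
  have f2 : (1 - α) * (p.2 - b.2) = β * (q.2 - b.2) := by linarith
  rcases le_total (1 - α) β with h | h
  · left
    rw [norm_mem_seg]
    refine ⟨1 - (1 - α) / β, ?_, ?_, ?_, ?_⟩
    · have : (1 - α) / β ≤ 1 := (div_le_one hβ).2 h
      linarith
    · have : 0 < (1 - α) / β := by positivity
      linarith
    · have : q.1 - b.1 = (1 - α) / β * (p.1 - b.1) := by
        field_simp; linarith
      linear_combination this
    · have : q.2 - b.2 = (1 - α) / β * (p.2 - b.2) := by
        field_simp; linarith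
      linear_combination this
  · right
    rw [norm_mem_seg]
    refine ⟨β / (1 - α), by positivity, (div_le_one hα).2 h, ?_, ?_⟩
    · have : p.1 - b.1 = β / (1 - α) * (q.1 - b.1) := by
        field_simp; linarith
      linear_combination this
    · have : p.2 - b.2 = β / (1 - α) * (q.2 - b.2) := by
        field_simp; linarith
      linear_combination this

/-- Replacement by one segment contained in one segment of the chain. -/
lemma norm_one {p q : Pt} {c : List Pt} (hnd : ∀ s ∈ segs c, s.1 ≠ s.2)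
    {s : Pt × Pt} (hs : s ∈ segs c) (h1 : p ∈ segment ℝ s.1 s.2) (h2 : q ∈ segment ℝ s.1 s.2) :
    norm_Red p q c [p, q] := by
  constructor
  · rintro z ⟨s', hs', hz⟩
    simp only [segs, List.tail_cons, List.zip_cons_cons, List.zip_nil_right,
      List.mem_cons, List.not_mem_nil, or_false] at hs'
    subst hs'
    exact ⟨s, hs, norm_sub h1 h2 hz⟩
  · intro E t ht hp hq hg s' hs'
    simp only [segs, List.tail_cons, List.zip_cons_cons, List.zip_nil_right,
      List.mem_cons, List.not_mem_nil, or_false] at hs'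
    subst hs'
    exact norm_good_of (fun w hw => ⟨s, hnd s hs, hg s hs, norm_sub h1 h2 hw,
      norm_Par_of_mem h1 h2⟩) hp hq

/-- Three corners. -/
lemma norm_three {p b q : Pt} (hpq : p ≠ q) (h1 : p ≠ b) (h2 : b ≠ q) :
    ∃ c' : List Pt, c'.head? = some p ∧ c'.getLast? = some q ∧ c'.length ≤ 3 ∧
      (∀ s ∈ segs c', s.1 ≠ s.2) ∧ SimpleChain c' ∧ norm_Red p q [p, b, q] c' := by
  have hnd : ∀ s ∈ segs [p, b, q], s.1 ≠ s.2 := by
    intro s hs
    simp only [segs, List.tail_cons, List.zip_cons_cons, List.zip_nil_right,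
      List.mem_cons, List.not_mem_nil, or_false] at hs
    rcases hs with rfl | rfl
    · exact h1
    · exact h2
  by_cases hsimp : ∀ z, z ∈ segment ℝ p b → z ∈ segment ℝ b q → z = b
  · refine ⟨[p, b, q], rfl, rfl, le_rfl, hnd, ?_, norm_Red_refl _ _ _⟩
    refine ⟨?_, ?_, trivial⟩
    · intro s hs z hz1 hz2
      simp only [segs, List.tail_cons, List.zip_cons_cons, List.zip_nil_right,
        List.mem_cons, List.not_mem_nil, or_false] at hs
      subst hs
      exact hsimp z hz1 hz2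
    · intro s hs
      simp [segs] at hs
  · push Not at hsimp
    obtain ⟨z, hz1, hz2, hz⟩ := hsimp
    refine ⟨[p, q], rfl, rfl, by simp, ?_, ?_, ?_⟩
    · intro s hs
      simp only [segs, List.tail_cons, List.zip_cons_cons, List.zip_nil_right,
        List.mem_cons, List.not_mem_nil, or_false] at hs
      subst hs; exact hpq
    · exact ⟨fun s hs => by simp [segs] at hs, trivial⟩
    · rcases norm_fold hz1 hz2 hz with h | h
      · exact norm_one hnd (s := (p, b)) (by simp [segs]) (left_mem_segment ℝ _ _) h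
      · exact norm_one hnd (s := (b, q)) (by simp [segs]) h (right_mem_segment ℝ _ _)

lemma norm_two {p q : Pt} (hpq : p ≠ q) (k : ℕ) :
    [p, q].head? = some p ∧ [p, q].getLast? = some q ∧ [p, q].length ≤ k + 2 ∧
      (∀ s ∈ segs [p, q], s.1 ≠ s.2) ∧ SimpleChain [p, q] := by
  refine ⟨rfl, rfl, by simp, ?_, ?_⟩
  · intro s hs
    simp only [segs, List.tail_cons, List.zip_cons_cons, List.zip_nil_right,
      List.mem_cons, List.not_mem_nil, or_false] at hs
    subst hs; exact hpq
  · exact ⟨fun s hs => by simp [segs] at hs, trivial⟩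

/-- Points of a line between `z + a d` and `z + b d`. -/
lemma norm_cover {z d w : Pt} {a b : ℝ} (hw : w ∈ segment ℝ (z + a • d) (z + b • d)) :
    w ∈ segment ℝ (z + a • d) z ∨ w ∈ segment ℝ z (z + b • d) := by
  obtain ⟨θ, t0, t1, e1, e2⟩ := norm_mem_seg.1 hw
  simp only [Prod.fst_add, Prod.snd_add, Prod.smul_fst, Prod.smul_snd, smul_eq_mul] at e1 e2
  have hγ : a + θ * (b - a) ∈ Set.uIcc a b := by
    rw [← segment_eq_uIcc, segment_eq_image']
    exact ⟨θ, ⟨t0, t1⟩, by simp⟩
  rcases Set.uIcc_subset_uIcc_union_uIcc (b := 0) hγ with h | h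
  · left
    rw [← segment_eq_uIcc, segment_eq_image'] at h
    obtain ⟨φ, ⟨f0, f1⟩, f2⟩ := h
    simp only [smul_eq_mul, zero_sub] at f2
    rw [norm_mem_seg]
    refine ⟨φ, f0, f1, ?_, ?_⟩
    · simp only [Prod.fst_add, Prod.smul_fst, smul_eq_mul]
      linear_combination e1 - d.1 * f2
    · simp only [Prod.snd_add, Prod.smul_snd, smul_eq_mul]
      linear_combination e2 - d.2 * f2
  · right
    rw [← segment_eq_uIcc, segment_eq_image'] at h
    obtain ⟨φ, ⟨f0, f1⟩, f2⟩ := h
    simp only [smul_eq_mul, sub_zero, zero_add] at f2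
    rw [norm_mem_seg]
    refine ⟨φ, f0, f1, ?_, ?_⟩
    · simp only [Prod.fst_add, Prod.smul_fst, smul_eq_mul]
      linear_combination e1 - d.1 * f2
    · simp only [Prod.snd_add, Prod.smul_snd, smul_eq_mul]
      linear_combination e2 - d.2 * f2

/-- Four corners, the first and the third segment meet. -/
lemma norm_cross {p b b' q z : Pt} (hpq : p ≠ q) (h1 : p ≠ b) (h2 : b ≠ b') (h3 : b' ≠ q)
    (hz1 : z ∈ segment ℝ p b) (hz3 : z ∈ segment ℝ b' q) :
    ∃ c' : List Pt, c'.head? = some p ∧ c'.getLast? = some q ∧ c'.length ≤ 4 ∧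
      (∀ s ∈ segs c', s.1 ≠ s.2) ∧ SimpleChain c' ∧ norm_Red p q [p, b, b', q] c' := by
  have hnd : ∀ s ∈ segs [p, b, b', q], s.1 ≠ s.2 := by
    intro s hs
    simp only [segs, List.tail_cons, List.zip_cons_cons, List.zip_nil_right,
      List.mem_cons, List.not_mem_nil, or_false] at hs
    rcases hs with rfl | rfl | rfl
    · exact h1
    · exact h2
    · exact h3
  have m1 : ((p, b) : Pt × Pt) ∈ segs [p, b, b', q] := by simp [segs]
  have m3 : ((b', q) : Pt × Pt) ∈ segs [p, b, b', q] := by simp [segs]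
  obtain ⟨w1, w2, w3, w4, w5⟩ := norm_two hpq 2
  by_cases hzp : z = p
  · exact ⟨[p, q], w1, w2, w3, w4, w5, norm_one hnd m3 (hzp ▸ hz3) (right_mem_segment ℝ _ _)⟩
  by_cases hzq : z = q
  · exact ⟨[p, q], w1, w2, w3, w4, w5, norm_one hnd m1 (left_mem_segment ℝ _ _) (hzq ▸ hz1)⟩
  by_cases hpar : norm_Par (p, b) (b', q)
  · -- everything on one line
    refine ⟨[p, q], w1, w2, w3, w4, w5, ?_⟩
    obtain ⟨α, a0, a1, e1, e2⟩ := norm_mem_seg.1 hz1
    obtain ⟨β, c0, c1, e3, e4⟩ := norm_mem_seg.1 hz3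
    have hpar' := hpar
    unfold norm_Par at hpar'
    simp only at hpar'
    have hd : 0 < (b.1 - p.1) ^ 2 + (b.2 - p.2) ^ 2 := by
      by_contra hcon
      have g1 : b.1 - p.1 = 0 := by nlinarith [sq_nonneg (b.1 - p.1), sq_nonneg (b.2 - p.2)]
      have g2 : b.2 - p.2 = 0 := by nlinarith [sq_nonneg (b.1 - p.1), sq_nonneg (b.2 - p.2)]
      apply h1
      ext
      · linarith
      · linarith
    obtain ⟨μ, hμ⟩ : ∃ μ : ℝ, μ = ((b.1 - p.1) * (q.1 - b'.1) + (b.2 - p.2) * (q.2 - b'.2)) /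
      ((b.1 - p.1) ^ 2 + (b.2 - p.2) ^ 2) := ⟨_, rfl⟩
    have g1 : q.1 - b'.1 = μ * (b.1 - p.1) := by
      rw [hμ, div_mul_eq_mul_div, eq_div_iff hd.ne']
      linear_combination (-(b.2 - p.2)) * hpar'
    have g2 : q.2 - b'.2 = μ * (b.2 - p.2) := by
      rw [hμ, div_mul_eq_mul_div, eq_div_iff hd.ne']
      linear_combination (b.1 - p.1) * hpar'
    have hp : p = z + (-α) • (b - p) := by
      ext
      · simp only [Prod.fst_add, Prod.smul_fst, Prod.fst_sub, smul_eq_mul]; linarith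
      · simp only [Prod.snd_add, Prod.smul_snd, Prod.snd_sub, smul_eq_mul]; linarith
    have hq : q = z + ((1 - β) * μ) • (b - p) := by
      ext
      · simp only [Prod.fst_add, Prod.smul_fst, Prod.fst_sub, smul_eq_mul]
        linear_combination (1 - β) * g1 - e3
      · simp only [Prod.snd_add, Prod.smul_snd, Prod.snd_sub, smul_eq_mul]
        linear_combination (1 - β) * g2 - e4
    have hcov : ∀ w ∈ segment ℝ p q, w ∈ segment ℝ p b ∨ w ∈ segment ℝ b' q := by
      intro w hw
      have hw' : w ∈ segment ℝ (z + (-α) • (b - p)) (z + ((1 - β) * μ) • (b - p)) := by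
        rw [← hp, ← hq]; exact hw
      rcases norm_cover hw' with h | h
      · left
        rw [← hp] at h
        exact norm_sub (left_mem_segment ℝ _ _) hz1 h
      · right
        rw [← hq] at h
        exact norm_sub hz3 (right_mem_segment ℝ _ _) h
    have P1 : norm_Par (p, b) (p, q) := by
      unfold norm_Par
      simp only
      have k1 : q.1 - p.1 = (α + (1 - β) * μ) * (b.1 - p.1) := by
        linear_combination (1 - β) * g1 - e3 + e1
      have k2 : q.2 - p.2 = (α + (1 - β) * μ) * (b.2 - p.2) := by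
        linear_combination (1 - β) * g2 - e4 + e2
      rw [k1, k2]; ring
    have P3 : norm_Par (b', q) (p, q) := by
      unfold norm_Par
      simp only
      have k1 : q.1 - p.1 = (α + (1 - β) * μ) * (b.1 - p.1) := by
        linear_combination (1 - β) * g1 - e3 + e1
      have k2 : q.2 - p.2 = (α + (1 - β) * μ) * (b.2 - p.2) := by
        linear_combination (1 - β) * g2 - e4 + e2
      rw [k1, k2, g1, g2]; ring
    constructor
    · rintro w ⟨s, hs, hw⟩
      simp only [segs, List.tail_cons, List.zip_cons_cons, List.zip_nil_right,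
        List.mem_cons, List.not_mem_nil, or_false] at hs
      subst hs
      rcases hcov w hw with h | h
      · exact ⟨_, m1, h⟩
      · exact ⟨_, m3, h⟩
    · intro E t ht hpE hqE hg s hs
      simp only [segs, List.tail_cons, List.zip_cons_cons, List.zip_nil_right,
        List.mem_cons, List.not_mem_nil, or_false] at hs
      subst hs
      refine norm_good_of (fun w hw => ?_) hpE hqE
      rcases hcov w hw with h | h
      · exact ⟨_, hnd _ m1, hg _ m1, h, P1⟩
      · exact ⟨_, hnd _ m3, hg _ m3, h, P3⟩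
  · -- a proper crossing
    have hzu : ∀ w, w ∈ segment ℝ p b → w ∈ segment ℝ b' q → w = z := by
      intro w hw1 hw3
      have k1 := norm_Par_of_mem hz1 hw1
      have k3 := norm_Par_of_mem hz3 hw3
      unfold norm_Par at k1 k3 hpar
      simp only at k1 k3 hpar
      have r1 : (w.1 - z.1) * ((b.1 - p.1) * (q.2 - b'.2) - (b.2 - p.2) * (q.1 - b'.1)) = 0 := by
        linear_combination (-(b.1 - p.1)) * k3 + (q.1 - b'.1) * k1
      have r2 : (w.2 - z.2) * ((b.1 - p.1) * (q.2 - b'.2) - (b.2 - p.2) * (q.1 - b'.1)) = 0 := by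
        linear_combination (-(b.2 - p.2)) * k3 + (q.2 - b'.2) * k1
      ext
      · have := (mul_eq_zero.1 r1).resolve_right hpar
        linarith
      · have := (mul_eq_zero.1 r2).resolve_right hpar
        linarith
    have S1 := norm_sub (left_mem_segment ℝ p b) hz1
    have S3 := norm_sub hz3 (right_mem_segment ℝ b' q)
    refine ⟨[p, z, q], rfl, rfl, by simp, ?_, ?_, ?_, ?_⟩
    · intro s hs
      simp only [segs, List.tail_cons, List.zip_cons_cons, List.zip_nil_right,
        List.mem_cons, List.not_mem_nil, or_false] at hs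
      rcases hs with rfl | rfl
      · exact fun h => hzp h.symm
      · exact hzq
    · refine ⟨?_, ?_, trivial⟩
      · intro s hs w hw1 hw2
        simp only [segs, List.tail_cons, List.zip_cons_cons, List.zip_nil_right,
          List.mem_cons, List.not_mem_nil, or_false] at hs
        subst hs
        exact hzu w (S1 hw1) (S3 hw2)
      · intro s hs
        simp [segs] at hs
    · rintro w ⟨s, hs, hw⟩
      simp only [segs, List.tail_cons, List.zip_cons_cons, List.zip_nil_right,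
        List.mem_cons, List.not_mem_nil, or_false] at hs
      rcases hs with rfl | rfl
      · exact ⟨_, m1, S1 hw⟩
      · exact ⟨_, m3, S3 hw⟩
    · intro E t ht hpE hqE hg s hs
      have hzE : z ∈ segment ℝ t.1 t.2 → z ∈ E := by
        intro hzt
        rcases hg _ m1 z hz1 hzt with h | ⟨-, -, g1⟩
        · exact h
        rcases hg _ m3 z hz3 hzt with h | ⟨-, -, g3⟩
        · exact h
        exfalso
        unfold Perp at g1 g3
        unfold norm_Par at hpar
        simp only at g1 g3 hpar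
        have r1 : (t.2.1 - t.1.1) * ((b.1 - p.1) * (q.2 - b'.2) - (b.2 - p.2) * (q.1 - b'.1))
            = 0 := by
          linear_combination (q.2 - b'.2) * g1 - (b.2 - p.2) * g3
        have r2 : (t.2.2 - t.1.2) * ((b.1 - p.1) * (q.2 - b'.2) - (b.2 - p.2) * (q.1 - b'.1))
            = 0 := by
          linear_combination (b.1 - p.1) * g3 - (q.1 - b'.1) * g1
        apply ht
        ext
        · have := (mul_eq_zero.1 r1).resolve_right hpar
          linarith
        · have := (mul_eq_zero.1 r2).resolve_right hpar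
          linarith
      simp only [segs, List.tail_cons, List.zip_cons_cons, List.zip_nil_right,
        List.mem_cons, List.not_mem_nil, or_false] at hs
      rcases hs with rfl | rfl
      · exact norm_good_of (fun w hw => ⟨_, hnd _ m1, hg _ m1, S1 hw,
          norm_Par_of_mem (left_mem_segment ℝ _ _) hz1⟩) hpE hzE
      · exact norm_good_of (fun w hw => ⟨_, hnd _ m3, hg _ m3, S3 hw,
          norm_Par_of_mem hz3 (right_mem_segment ℝ _ _)⟩) hzE hqE

/-- Four corners. -/
lemma norm_four {p b b' q : Pt} (hpq : p ≠ q) (h1 : p ≠ b) (h2 : b ≠ b') (h3 : b' ≠ q) :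
    ∃ c' : List Pt, c'.head? = some p ∧ c'.getLast? = some q ∧ c'.length ≤ 4 ∧
      (∀ s ∈ segs c', s.1 ≠ s.2) ∧ SimpleChain c' ∧ norm_Red p q [p, b, b', q] c' := by
  have hnd : ∀ s ∈ segs [p, b, b', q], s.1 ≠ s.2 := by
    intro s hs
    simp only [segs, List.tail_cons, List.zip_cons_cons, List.zip_nil_right,
      List.mem_cons, List.not_mem_nil, or_false] at hs
    rcases hs with rfl | rfl | rfl
    · exact h1
    · exact h2
    · exact h3
  have m1 : ((p, b) : Pt × Pt) ∈ segs [p, b, b', q] := by simp [segs]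
  have m2 : ((b, b') : Pt × Pt) ∈ segs [p, b, b', q] := by simp [segs]
  have m3 : ((b', q) : Pt × Pt) ∈ segs [p, b, b', q] := by simp [segs]
  obtain ⟨w1, w2, w3, w4, w5⟩ := norm_two hpq 2
  by_cases f1 : ∀ z, z ∈ segment ℝ p b → z ∈ segment ℝ b b' → z = b
  swap
  · -- fold back at b
    push Not at f1
    obtain ⟨z, hz1, hz2, hz⟩ := f1
    by_cases hpb : p = b'
    · refine ⟨[p, q], w1, w2, w3, w4, w5, norm_one hnd m3 ?_ (right_mem_segment ℝ _ _)⟩
      rw [hpb]; exact left_mem_segment ℝ _ _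
    obtain ⟨c', v1, v2, v3, v4, v5, v6⟩ := norm_three hpq hpb h3
    refine ⟨c', v1, v2, by omega, v4, v5, norm_Red_trans ?_ v6⟩
    obtain ⟨s, hs, hsp, hsb⟩ : ∃ s ∈ segs [p, b, b', q], p ∈ segment ℝ s.1 s.2 ∧
        b' ∈ segment ℝ s.1 s.2 := by
      rcases norm_fold hz1 hz2 hz with h | h
      · exact ⟨_, m1, left_mem_segment ℝ _ _, h⟩
      · exact ⟨_, m2, h, right_mem_segment ℝ _ _⟩
    constructor
    · rintro w ⟨s', hs', hw⟩
      simp only [segs, List.tail_cons, List.zip_cons_cons, List.zip_nil_right,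
        List.mem_cons, List.not_mem_nil, or_false] at hs'
      rcases hs' with rfl | rfl
      · exact ⟨s, hs, norm_sub hsp hsb hw⟩
      · exact ⟨_, m3, hw⟩
    · intro E t ht hpE hqE hg s' hs'
      simp only [segs, List.tail_cons, List.zip_cons_cons, List.zip_nil_right,
        List.mem_cons, List.not_mem_nil, or_false] at hs'
      rcases hs' with rfl | rfl
      · exact norm_good_of (fun w hw => ⟨s, hnd _ hs, hg _ hs, norm_sub hsp hsb hw,
          norm_Par_of_mem hsp hsb⟩) hpE (norm_corner (hnd _ m3) (hg _ m3)).1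
      · exact hg _ m3
  by_cases f2 : ∀ z, z ∈ segment ℝ b b' → z ∈ segment ℝ b' q → z = b'
  swap
  · -- fold back at b'
    push Not at f2
    obtain ⟨z, hz1, hz2, hz⟩ := f2
    by_cases hbq : b = q
    · refine ⟨[p, q], w1, w2, w3, w4, w5, norm_one hnd m1 (left_mem_segment ℝ _ _) ?_⟩
      rw [← hbq]; exact right_mem_segment ℝ _ _
    obtain ⟨c', v1, v2, v3, v4, v5, v6⟩ := norm_three hpq h1 hbq
    refine ⟨c', v1, v2, by omega, v4, v5, norm_Red_trans ?_ v6⟩
    obtain ⟨s, hs, hsb, hsq⟩ : ∃ s ∈ segs [p, b, b', q], b ∈ segment ℝ s.1 s.2 ∧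
        q ∈ segment ℝ s.1 s.2 := by
      rcases norm_fold hz1 hz2 hz with h | h
      · exact ⟨_, m2, left_mem_segment ℝ _ _, h⟩
      · exact ⟨_, m3, h, right_mem_segment ℝ _ _⟩
    constructor
    · rintro w ⟨s', hs', hw⟩
      simp only [segs, List.tail_cons, List.zip_cons_cons, List.zip_nil_right,
        List.mem_cons, List.not_mem_nil, or_false] at hs'
      rcases hs' with rfl | rfl
      · exact ⟨_, m1, hw⟩
      · exact ⟨s, hs, norm_sub hsb hsq hw⟩
    · intro E t ht hpE hqE hg s' hs'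
      simp only [segs, List.tail_cons, List.zip_cons_cons, List.zip_nil_right,
        List.mem_cons, List.not_mem_nil, or_false] at hs'
      rcases hs' with rfl | rfl
      · exact hg _ m1
      · exact norm_good_of (fun w hw => ⟨s, hnd _ hs, hg _ hs, norm_sub hsb hsq hw,
          norm_Par_of_mem hsb hsq⟩) (norm_corner (hnd _ m1) (hg _ m1)).2 hqE
  by_cases f3 : ∃ z, z ∈ segment ℝ p b ∧ z ∈ segment ℝ b' q
  · obtain ⟨z, hz1, hz3⟩ := f3
    exact norm_cross hpq h1 h2 h3 hz1 hz3
  · refine ⟨[p, b, b', q], rfl, rfl, le_rfl, hnd, ?_, norm_Red_refl _ _ _⟩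
    refine ⟨?_, ?_, ?_, trivial⟩
    · intro s hs z hz1 hz2
      simp only [segs, List.tail_cons, List.zip_cons_cons, List.zip_nil_right,
        List.mem_cons, List.not_mem_nil, or_false] at hs
      rcases hs with rfl | rfl
      · exact f1 z hz1 hz2
      · exact absurd ⟨z, hz1, hz2⟩ f3
    · intro s hs z hz1 hz2
      simp only [segs, List.tail_cons, List.zip_cons_cons, List.zip_nil_right,
        List.mem_cons, List.not_mem_nil, or_false] at hs
      subst hs
      exact f2 z hz1 hz2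
    · intro s hs
      simp [segs] at hs

/-- One chain. -/
lemma norm_chain {k : ℕ} (hk : k ≤ 2) {p q : Pt} {c : List Pt} (hpq : p ≠ q)
    (h : IsChain k p q c) : ∃ c' : List Pt, IsChain k p q c' ∧ SimpleChain c' ∧
      norm_Red p q c c' := by
  obtain ⟨a1, a2, a3, a4⟩ := h
  match c, a1, a2, a3, a4 with
  | [], a1, _, _, _ => simp at a1
  | [x], a1, a2, _, _ =>
    simp only [List.head?_cons, Option.some.injEq, List.getLast?_singleton] at a1 a2
    exact absurd (a1.symm.trans a2) hpq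
  | [x, y], a1, a2, a3, a4 =>
    simp only [List.head?_cons, Option.some.injEq, List.getLast?_cons_cons,
      List.getLast?_singleton] at a1 a2
    subst a1; subst a2
    exact ⟨[x, y], ⟨rfl, rfl, a3, a4⟩, (norm_two hpq 0).2.2.2.2, norm_Red_refl _ _ _⟩
  | [x, b, y], a1, a2, a3, a4 =>
    simp only [List.head?_cons, Option.some.injEq, List.getLast?_cons_cons,
      List.getLast?_singleton] at a1 a2
    subst a1; subst a2
    obtain ⟨c', v1, v2, v3, v4, v5, v6⟩ := norm_three hpq (a4 (x, b) (by simp [segs]))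
      (a4 (b, y) (by simp [segs]))
    refine ⟨c', ⟨v1, v2, ?_, v4⟩, v5, v6⟩
    simp only [List.length_cons, List.length_nil] at a3
    omega
  | [x, b, b', y], a1, a2, a3, a4 =>
    simp only [List.head?_cons, Option.some.injEq, List.getLast?_cons_cons,
      List.getLast?_singleton] at a1 a2
    subst a1; subst a2
    obtain ⟨c', v1, v2, v3, v4, v5, v6⟩ := norm_four hpq (a4 (x, b) (by simp [segs]))
      (a4 (b, b') (by simp [segs])) (a4 (b', y) (by simp [segs]))
    refine ⟨c', ⟨v1, v2, ?_, v4⟩, v5, v6⟩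
    simp only [List.length_cons, List.length_nil] at a3
    omega
  | _ :: _ :: _ :: _ :: _ :: _, _, _, a3, _ =>
    simp only [List.length_cons] at a3
    omega

/-- For at most two bends the chains can be made simple. -/
theorem normalize {k : ℕ} (hk : k ≤ 2) {V : Type} [Fintype V] [LinearOrder V]
    {G : SimpleGraph V} {pos : V → Pt} {c : V → V → List Pt} (h : IsRAC k G pos c) :
    ∃ c' : V → V → List Pt, IsRAC k G pos c' ∧
      ∀ u v, G.Adj u v → u < v → SimpleChain (c' u v) := by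
  have hex : ∀ u v, ∃ c' : List Pt, G.Adj u v → u < v →
      IsChain k (pos u) (pos v) c' ∧ SimpleChain c' ∧ norm_Red (pos u) (pos v) (c u v) c' := by
    intro u v
    by_cases hA : G.Adj u v ∧ u < v
    · obtain ⟨c', hc'⟩ := norm_chain hk (fun he => hA.2.ne (h.inj he)) (h.chain u v hA.1 hA.2)
      exact ⟨c', fun _ _ => hc'⟩
    · exact ⟨[], fun h1 h2 => absurd ⟨h1, h2⟩ hA⟩
  choose c' hc' using hex
  refine ⟨c', ⟨h.inj, ?_, ?_, ?_, ?_⟩, fun u v h1 h2 => (hc' u v h1 h2).2.1⟩
  · exact fun u v h1 h2 => (hc' u v h1 h2).1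
  · intro u v h1 h2 x hxu hxv hon
    exact h.avoid u v h1 h2 x hxu hxv ((hc' u v h1 h2).2.2.1 _ hon)
  · intro u v h1 h2 u' v' h1' h2' hne
    refine (h.finite u v h1 h2 u' v' h1' h2' hne).subset ?_
    rintro z ⟨z1, z2⟩
    exact ⟨(hc' u v h1 h2).2.2.1 _ z1, (hc' u' v' h1' h2').2.2.1 _ z2⟩
  · intro u v h1 h2 u' v' h1' h2' hne
    set E : Set Pt := {z | ∃ x, (x = u ∨ x = v) ∧ (x = u' ∨ x = v') ∧ z = pos x} with hE
    have g0 : ∀ s ∈ segs (c u v), ∀ t ∈ segs (c u' v'), norm_Good E s t :=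
      fun s hs t ht z hz1 hz2 => h.cross u v h1 h2 u' v' h1' h2' hne s hs t ht z hz1 hz2
    have g1 : ∀ s ∈ segs (c' u v), ∀ t ∈ segs (c u' v'), norm_Good E s t := by
      intro s hs t ht
      refine (hc' u v h1 h2).2.2.2 E t ((h.chain u' v' h1' h2').2.2.2 t ht) ?_ ?_
        (fun s hs => g0 s hs t ht) s hs
      · intro hmem
        by_contra hcon
        refine h.avoid u' v' h1' h2' u ?_ ?_ ⟨t, ht, hmem⟩
        · intro he; exact hcon ⟨u, Or.inl rfl, Or.inl he, rfl⟩
        · intro he; exact hcon ⟨u, Or.inl rfl, Or.inr he, rfl⟩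
      · intro hmem
        by_contra hcon
        refine h.avoid u' v' h1' h2' v ?_ ?_ ⟨t, ht, hmem⟩
        · intro he; exact hcon ⟨v, Or.inr rfl, Or.inl he, rfl⟩
        · intro he; exact hcon ⟨v, Or.inr rfl, Or.inr he, rfl⟩
    have g2 : ∀ s ∈ segs (c' u v), ∀ t ∈ segs (c' u' v'), norm_Good E s t := by
      intro s hs t ht
      apply norm_Good_symm
      refine (hc' u' v' h1' h2').2.2.2 E s ((hc' u v h1 h2).1.2.2.2 s hs) ?_ ?_
        (fun t ht => norm_Good_symm (g1 s hs t ht)) t ht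
      · intro hmem
        by_contra hcon
        refine h.avoid u v h1 h2 u' ?_ ?_ ((hc' u v h1 h2).2.2.1 _ ⟨s, hs, hmem⟩)
        · intro he; exact hcon ⟨u', Or.inl he, Or.inl rfl, rfl⟩
        · intro he; exact hcon ⟨u', Or.inr he, Or.inl rfl, rfl⟩
      · intro hmem
        by_contra hcon
        refine h.avoid u v h1 h2 v' ?_ ?_ ((hc' u v h1 h2).2.2.1 _ ⟨s, hs, hmem⟩)
        · intro he; exact hcon ⟨v', Or.inl he, Or.inr rfl, rfl⟩
        · intro he; exact hcon ⟨v', Or.inr he, Or.inr rfl, rfl⟩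
    exact fun s hs t ht z hz1 hz2 => g2 s hs t ht z hz1 hz2

end Pool.Agent.RAC963
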