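import Pool.Agent.RAC963.Code
import Pool.Agent.RAC963.Fam
import Pool.Agent.H671R2.PolyAuto

set_option autoImplicit false

namespace Pool.Agent.RAC963

open Pool.Agent

section

variable {A : Type} [NPC.TEnc A]

theorem uPoly_pow {n : A → ℕ} (hn : NPC.UPoly n) (k : ℕ) : NPC.UPoly (fun a => n a ^ k) := by
  induction k with
  | zero => exact NPC.UPoly.const 1
  | succ k ih =>
    have : (fun a => n a ^ (k + 1)) = fun a => n a ^ k * n a := by
      funext a
      exact pow_succ _ _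
    rw [this]
    exact NPC.UPoly.mul ih hn

theorem uPoly_bT (k q : ℕ) {e : A → ℕ} (he : NPC.UPoly e) : NPC.UPoly (fun a => bT k q (e a)) := by
  unfold bT
  have hs : NPC.UPoly (fun a => e a * nr q) := NPC.UPoly.mul he (NPC.UPoly.const _)
  refine NPC.UPoly.add (NPC.UPoly.add (NPC.UPoly.mul (NPC.UPoly.mul hs hs) (NPC.UPoly.const _))
    (NPC.UPoly.mul hs (uPoly_pow ?_ 5))) (NPC.UPoly.const _)
  exact NPC.UPoly.mul (NPC.UPoly.mul (NPC.UPoly.mul (NPC.UPoly.mul (NPC.UPoly.const _) hs)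
    (NPC.UPoly.const _)) (NPC.UPoly.const _)) (NPC.UPoly.const _)

theorem poly_hc {E : A → List (List Hub)} {h : A → Hub} (hE : NPC.Poly E) (hh : NPC.Poly h) :
    NPC.Poly (fun a => hc (E a) (h a)) := by
  unfold hc
  exact NPC.Poly.index (NPC.Poly.flatten hE) hh

theorem poly_gr {E : A → List (List Hub)} {T : A → ℕ} (hE : NPC.Poly E) (hT : NPC.UPoly T) :
    NPC.Poly (fun a => gr (T a) (E a)) := by
  have hTp : NPC.Poly T := hT.toPoly
  unfold gr
  refine NPC.Poly.pair (by fun_prop) ?_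
  refine NPC.Poly.flatMap (F := fun a (e : List Hub × ℕ) => (List.range (T a)).flatMap fun t =>
    e.1.map fun h => (T a * e.2 + t, T a * (E a).length + hc (E a) h)) (NPC.Poly.zipIdx hE) ?_
  refine NPC.Poly.flatMap (F := fun (x : A × (List Hub × ℕ)) (t : ℕ) =>
    x.2.1.map fun h => (T x.1 * x.2.2 + t, T x.1 * (E x.1).length + hc (E x.1) h))
    (NPC.UPoly.range (hT.comp (NPC.Poly.fst NPC.Poly.id))) ?_
  refine NPC.Poly.map (F := fun (x : (A × (List Hub × ℕ)) × ℕ) (h : Hub) =>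
    (T x.1.1 * x.1.2.2 + x.2, T x.1.1 * (E x.1.1).length + hc (E x.1.1) h))
    (by fun_prop) ?_
  refine NPC.Poly.pair (by fun_prop) (NPC.Poly.add (by fun_prop) ?_)
  exact poly_hc (by fun_prop) (by fun_prop)

theorem uPoly_nv {f : A → N3} (hf : NPC.Poly f) : NPC.UPoly (fun a => nv (f a)) := by
  unfold nv
  exact NPC.UPoly.mul (NPC.UPoly.const 3) (NPC.UPoly.length hf)

theorem poly_rangenv {f : A → N3} (hf : NPC.Poly f) :
    NPC.Poly (fun a => List.range (nv (f a))) := (uPoly_nv hf).range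

theorem poly_cl {f : A → N3} (hf : NPC.Poly f) : NPC.Poly (fun a => cl (f a)) := by
  unfold cl
  have h := poly_rangenv hf
  refine NPC.Poly.append (by fun_prop) ?_
  refine NPC.Poly.map (F := fun _ (i : ℕ) => (((true, i), (false, i), (true, i)) : SCl))
    (NPC.Poly.append h (NPC.Poly.append h h)) ?_
  fun_prop

theorem poly_part {α : A → ℕ} {l : A → Bool × ℕ} (hα : NPC.Poly α) (hl : NPC.Poly l) :
    NPC.Poly (fun a => part (α a) (l a)) := by
  unfold part
  exact (NPC.Poly.cond (b := fun a => (l a).1) (by fun_prop)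
    (f := fun a => (4, α a, (l a).2)) (by fun_prop) (g := fun a => (5, α a, (l a).2))
    (by fun_prop)).congr fun a => by cases (l a).1 <;> rfl

theorem poly_pool (F : ℕ) {α : A → ℕ} (hα : NPC.Poly α) (κ : ℕ) :
    NPC.Poly (fun a => pool F (α a) κ) := by
  unfold pool
  exact NPC.Poly.map (F := fun a (i : ℕ) => (12 + κ, α a, i)) (NPC.Poly.const _) (by fun_prop)

theorem poly_grA (M : ℕ) {α : A → ℕ} (hα : NPC.Poly α) : NPC.Poly (fun a => grA M (α a)) := by
  unfold grA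
  exact NPC.Poly.map (F := fun a (i : ℕ) => (2, α a, i)) (NPC.Poly.const _) (by fun_prop)

theorem poly_grB (M : ℕ) {α : A → ℕ} (hα : NPC.Poly α) : NPC.Poly (fun a => grB M (α a)) := by
  unfold grB
  exact NPC.Poly.map (F := fun a (i : ℕ) => (2, α a, M + i)) (NPC.Poly.const _) (by fun_prop)

theorem poly_locs (F : ℕ) {f : A → N3} {α : A → ℕ} (hf : NPC.Poly f) (hα : NPC.Poly α) :
    NPC.Poly (fun a => locs F (f a) (α a)) := by
  unfold locs
  refine NPC.Poly.append (NPC.Poly.append (NPC.Poly.append ?_ ?_) ?_) ?_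
  · exact NPC.Poly.flatMap (F := fun a (i : ℕ) => [(3, α a, i), (4, α a, i), (5, α a, i),
      (6, α a, i), (7, α a, i)]) (poly_rangenv hf) (by fun_prop)
  · exact NPC.Poly.map (F := fun a (i : ℕ) => (8, α a, i)) (NPC.Poly.const _) (by fun_prop)
  · exact NPC.Poly.flatMap (F := fun a (i : ℕ) => [(9, α a, i), (10, α a, i), (11, α a, i),
      (12, α a, i)]) (NPC.UPoly.range (NPC.UPoly.length (poly_cl hf))) (by fun_prop)
  · exact NPC.Poly.flatMap (F := fun a (i : ℕ) => [(13, α a, i), (14, α a, i), (15, α a, i),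
      (16, α a, i), (17, α a, i)]) (NPC.Poly.const _) (by fun_prop)

theorem itD_eq (N M F : ℕ) (φ : N3) : itD N M F φ =
    (List.range N).flatMap fun β => (List.range (min β N)).flatMap fun α =>
    (locs F φ α).flatMap fun p => (locs F φ β).flatMap fun q =>
      [([p, q, (0, 0, 2), (0, 0, 3)], grA M (α + 1), grB M (α + 1), grA M 0, grA M N),
       ([p, q, (0, 0, 0), (0, 0, 1)], grA M (α + 1), grB M (α + 1), grA M 0, grA M N)] := by
  unfold itD
  rw [List.flatMap_def, List.flatMap_def]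
  congr 1
  refine List.map_congr_left fun β hβ => ?_
  rw [List.mem_range] at hβ
  rw [min_eq_left hβ.le]

theorem poly_itD (N M F : ℕ) : NPC.Poly (fun φ : N3 => itD N M F φ) := by
  have h : (fun φ : N3 => itD N M F φ) = fun φ : N3 =>
    (List.range N).flatMap fun β => (List.range (min β N)).flatMap fun α =>
    (locs F φ α).flatMap fun p => (locs F φ β).flatMap fun q =>
      [([p, q, (0, 0, 2), (0, 0, 3)], grA M (α + 1), grB M (α + 1), grA M 0, grA M N),
       ([p, q, (0, 0, 0), (0, 0, 1)], grA M (α + 1), grB M (α + 1), grA M 0, grA M N)] := by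
    funext φ
    exact itD_eq N M F φ
  rw [h]
  refine NPC.Poly.flatMap (F := fun (φ : N3) (β : ℕ) => (List.range (min β N)).flatMap fun α =>
    (locs F φ α).flatMap fun p => (locs F φ β).flatMap fun q =>
      [([p, q, (0, 0, 2), (0, 0, 3)], grA M (α + 1), grB M (α + 1), grA M 0, grA M N),
       ([p, q, (0, 0, 0), (0, 0, 1)], grA M (α + 1), grB M (α + 1), grA M 0, grA M N)])
    (NPC.Poly.const _) ?_
  refine NPC.Poly.flatMap (F := fun (x : N3 × ℕ) (α : ℕ) =>
    (locs F x.1 α).flatMap fun p => (locs F x.1 x.2).flatMap fun q =>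
      [([p, q, (0, 0, 2), (0, 0, 3)], grA M (α + 1), grB M (α + 1), grA M 0, grA M N),
       ([p, q, (0, 0, 0), (0, 0, 1)], grA M (α + 1), grB M (α + 1), grA M 0, grA M N)])
    (NPC.UPoly.range (NPC.UPoly.of_le (by fun_prop) (NPC.UPoly.const N)
      fun x => Nat.min_le_right _ _)) ?_
  refine NPC.Poly.flatMap (F := fun (x : (N3 × ℕ) × ℕ) (p : Hub) =>
    (locs F x.1.1 x.1.2).flatMap fun q =>
      [([p, q, (0, 0, 2), (0, 0, 3)], grA M (x.2 + 1), grB M (x.2 + 1), grA M 0, grA M N),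
       ([p, q, (0, 0, 0), (0, 0, 1)], grA M (x.2 + 1), grB M (x.2 + 1), grA M 0, grA M N)])
    (poly_locs F (by fun_prop) (by fun_prop)) ?_
  refine NPC.Poly.flatMap (F := fun (x : ((N3 × ℕ) × ℕ) × Hub) (q : Hub) =>
      [([x.2, q, (0, 0, 2), (0, 0, 3)], grA M (x.1.2 + 1), grB M (x.1.2 + 1), grA M 0, grA M N),
       ([x.2, q, (0, 0, 0), (0, 0, 1)], grA M (x.1.2 + 1), grB M (x.1.2 + 1), grA M 0, grA M N)])
    (poly_locs F (by fun_prop) (by fun_prop)) ?_
  have g1 : NPC.Poly (fun x : (((N3 × ℕ) × ℕ) × Hub) × Hub => grA M (x.1.1.2 + 1)) :=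
    poly_grA M (by fun_prop)
  have g2 : NPC.Poly (fun x : (((N3 × ℕ) × ℕ) × Hub) × Hub => grB M (x.1.1.2 + 1)) :=
    poly_grB M (by fun_prop)
  have g3 : NPC.Poly (fun x : (((N3 × ℕ) × ℕ) × Hub) × Hub => (grA M 0, grA M N)) :=
    NPC.Poly.const _
  refine NPC.Poly.cons ?_ (NPC.Poly.cons ?_ (NPC.Poly.const _))
  · exact NPC.Poly.pair (by fun_prop) (NPC.Poly.pair g1 (NPC.Poly.pair g2 g3))
  · exact NPC.Poly.pair (by fun_prop) (NPC.Poly.pair g1 (NPC.Poly.pair g2 g3))

theorem poly_itO (N F : ℕ) : NPC.Poly (fun φ : N3 => itO N F φ) := by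
  unfold itO
  refine NPC.Poly.flatMap (F := fun (φ : N3) (α : ℕ) => (List.range (nv φ)).flatMap fun i =>
    (List.range 5).flatMap fun h =>
      [([(8, α, h), (0, 0, 3), (3, α, i), (6, α, i)],
          pool F α 5, pool F α 4, pool F α 1, pool F α 2),
       ([(8, α, h), (0, 0, 2), (3, α, i), (7, α, i)],
          pool F α 4, pool F α 1, pool F α 2, pool F α 3)]) (NPC.Poly.const _) ?_
  refine NPC.Poly.flatMap (F := fun (x : N3 × ℕ) (i : ℕ) =>
    (List.range 5).flatMap fun h =>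
      [([(8, x.2, h), (0, 0, 3), (3, x.2, i), (6, x.2, i)],
          pool F x.2 5, pool F x.2 4, pool F x.2 1, pool F x.2 2),
       ([(8, x.2, h), (0, 0, 2), (3, x.2, i), (7, x.2, i)],
          pool F x.2 4, pool F x.2 1, pool F x.2 2, pool F x.2 3)])
    (poly_rangenv (by fun_prop)) ?_
  refine NPC.Poly.flatMap (F := fun (x : (N3 × ℕ) × ℕ) (h : ℕ) =>
      [([(8, x.1.2, h), (0, 0, 3), (3, x.1.2, x.2), (6, x.1.2, x.2)],
          pool F x.1.2 5, pool F x.1.2 4, pool F x.1.2 1, pool F x.1.2 2),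
       ([(8, x.1.2, h), (0, 0, 2), (3, x.1.2, x.2), (7, x.1.2, x.2)],
          pool F x.1.2 4, pool F x.1.2 1, pool F x.1.2 2, pool F x.1.2 3)])
    (NPC.Poly.const _) ?_
  have g : ∀ κ, NPC.Poly (fun x : ((N3 × ℕ) × ℕ) × ℕ => pool F x.1.1.2 κ) := fun κ =>
    poly_pool F (by fun_prop) κ
  refine NPC.Poly.cons ?_ (NPC.Poly.cons ?_ (NPC.Poly.const _))
  · exact NPC.Poly.pair (by fun_prop) (NPC.Poly.pair (g 5) (NPC.Poly.pair (g 4)
      (NPC.Poly.pair (g 1) (g 2))))
  · exact NPC.Poly.pair (by fun_prop) (NPC.Poly.pair (g 4) (NPC.Poly.pair (g 1)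
      (NPC.Poly.pair (g 2) (g 3))))

theorem poly_itL (N F : ℕ) : NPC.Poly (fun φ : N3 => itL N F φ) := by
  unfold itL
  refine NPC.Poly.flatMap (F := fun (φ : N3) (α : ℕ) => (cl φ).zipIdx.flatMap fun c =>
    [([(3, α, c.1.1.2), part α c.1.1, (9, α, c.2), (10, α, c.2)],
        pool F α 1, pool F α 2, pool F α 3, pool F α 4),
     ([(3, α, c.1.2.1.2), part α c.1.2.1, (9, α, c.2), (11, α, c.2)],
        pool F α 1, pool F α 2, pool F α 3, pool F α 4),
     ([(3, α, c.1.2.2.2), part α c.1.2.2, (9, α, c.2), (12, α, c.2)],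
        pool F α 1, pool F α 2, pool F α 3, pool F α 4)]) (NPC.Poly.const _) ?_
  refine NPC.Poly.flatMap (F := fun (x : N3 × ℕ) (c : SCl × ℕ) =>
    [([(3, x.2, c.1.1.2), part x.2 c.1.1, (9, x.2, c.2), (10, x.2, c.2)],
        pool F x.2 1, pool F x.2 2, pool F x.2 3, pool F x.2 4),
     ([(3, x.2, c.1.2.1.2), part x.2 c.1.2.1, (9, x.2, c.2), (11, x.2, c.2)],
        pool F x.2 1, pool F x.2 2, pool F x.2 3, pool F x.2 4),
     ([(3, x.2, c.1.2.2.2), part x.2 c.1.2.2, (9, x.2, c.2), (12, x.2, c.2)],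
        pool F x.2 1, pool F x.2 2, pool F x.2 3, pool F x.2 4)])
    (NPC.Poly.zipIdx (poly_cl (by fun_prop))) ?_
  have g : ∀ κ, NPC.Poly (fun x : (N3 × ℕ) × SCl × ℕ => pool F x.1.2 κ) := fun κ =>
    poly_pool F (by fun_prop) κ
  have gg : NPC.Poly (fun x : (N3 × ℕ) × SCl × ℕ => (pool F x.1.2 1, pool F x.1.2 2,
      pool F x.1.2 3, pool F x.1.2 4)) :=
    NPC.Poly.pair (g 1) (NPC.Poly.pair (g 2) (NPC.Poly.pair (g 3) (g 4)))
  have p1 : NPC.Poly (fun x : (N3 × ℕ) × SCl × ℕ => part x.1.2 x.2.1.1) :=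
    poly_part (by fun_prop) (by fun_prop)
  have p2 : NPC.Poly (fun x : (N3 × ℕ) × SCl × ℕ => part x.1.2 x.2.1.2.1) :=
    poly_part (by fun_prop) (by fun_prop)
  have p3 : NPC.Poly (fun x : (N3 × ℕ) × SCl × ℕ => part x.1.2 x.2.1.2.2) :=
    poly_part (by fun_prop) (by fun_prop)
  refine NPC.Poly.cons ?_ (NPC.Poly.cons ?_ (NPC.Poly.cons ?_ (NPC.Poly.const _)))
  · exact NPC.Poly.pair (NPC.Poly.cons (by fun_prop) (NPC.Poly.cons p1 (by fun_prop))) gg
  · exact NPC.Poly.pair (NPC.Poly.cons (by fun_prop) (NPC.Poly.cons p2 (by fun_prop))) gg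
  · exact NPC.Poly.pair (NPC.Poly.cons (by fun_prop) (NPC.Poly.cons p3 (by fun_prop))) gg

theorem poly_items (N M F : ℕ) : NPC.Poly (fun φ : N3 => items N M F φ) := by
  unfold items
  exact NPC.Poly.append (NPC.Poly.append (poly_itD N M F) (poly_itO N F)) (poly_itL N F)

theorem poly_ext : NPC.Poly ext := by
  unfold ext
  fun_prop

theorem poly_fam1 (N : ℕ) : NPC.Poly (fun φ : N3 => fam1 N φ) := by
  unfold fam1
  exact NPC.Poly.map (F := fun _ (it : Item) => it.1) (poly_items N 0 0) (by fun_prop)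

theorem poly_fam2 (N M F : ℕ) : NPC.Poly (fun φ : N3 => fam2 N M F φ) := by
  unfold fam2
  refine NPC.Poly.append ?_ (NPC.Poly.const _)
  exact NPC.Poly.flatMap (F := fun _ (it : Item) => ext it) (poly_items N M F)
    (poly_ext.comp (NPC.Poly.snd NPC.Poly.id))

end

/-- The reduction for one bend is computable in polynomial time. -/
theorem poly_red1 (N : ℕ) :
    NPC.Poly (fun φ : N3 => gr (bT 1 4 (fam1 N φ).length) (fam1 N φ)) :=
  poly_gr (poly_fam1 N) (uPoly_bT 1 4 (NPC.UPoly.length (poly_fam1 N)))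

/-- The reduction for two bends is computable in polynomial time. -/
theorem poly_red2 (N M F : ℕ) :
    NPC.Poly (fun φ : N3 => gr (bT 2 8 (fam2 N M F φ).length) (fam2 N M F φ)) :=
  poly_gr (poly_fam2 N M F) (uPoly_bT 2 8 (NPC.UPoly.length (poly_fam2 N M F)))

end Pool.Agent.RAC963
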