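import Pool.Agent.RAC963.Asm
import Pool.Agent.RAC963.GeoA
import Pool.Agent.RAC963.Geo1
import Pool.Agent.RAC963.Core1
import Pool.Agent.RAC963.Code1
import Pool.Agent.RAC963.Code2
import Pool.Agent.RAC963.PolyR
import Pool.Agent.RAC963.Norm
import Pool.Agent.R544.Nae3

/-!
# `RAC_1` is NP-hard
-/

set_option autoImplicit false

namespace Pool.Agent.RAC963

open Pool.Agent

theorem rac_simple {k : ℕ} (hk : k ≤ 2) {si : Prop} {G : GCode} (h : RAC k si G) :
    RAC k True G := by
  obtain ⟨pos, c, h1, _⟩ := h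
  obtain ⟨c', h2, h3⟩ := normalize hk h1
  exact ⟨pos, c', h2, fun _ => h3⟩

theorem rac_weaken {k : ℕ} {si : Prop} {G : GCode} (h : RAC k True G) : RAC k si G := by
  obtain ⟨pos, c, h1, h2⟩ := h
  exact ⟨pos, c, h1, fun _ => h2 trivial⟩

theorem fam1_card {N : ℕ} {φ : N3} {E : List Hub} (hE : E ∈ fam1 N φ) :
    E.Nodup ∧ E.length = 4 := by
  unfold fam1 items at hE
  simp only [List.mem_map, List.mem_append] at hE
  obtain ⟨it, (hit | hit) | hit, rfl⟩ := hE
  · unfold itD at hit
    simp only [List.mem_flatMap, List.mem_range, List.mem_cons, List.not_mem_nil, or_false] at hit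
    obtain ⟨β, hβ, α, hα, p, hp, q, hq, h1⟩ := hit
    have l1 : ∀ {α : ℕ} {p : Hub}, p ∈ locs 0 φ α → 3 ≤ p.1 ∧ p.2.1 = α := by
      intro α p hp
      unfold locs at hp
      simp only [List.mem_append, List.mem_flatMap, List.mem_map, List.mem_range, List.mem_cons,
        List.not_mem_nil, or_false] at hp
      rcases hp with ((⟨i, hi, h1⟩ | ⟨i, hi, h1⟩) | ⟨i, hi, h1⟩) | ⟨i, hi, h1⟩
      · rcases h1 with rfl | rfl | rfl | rfl | rfl <;> dsimp only <;> omega
      · subst h1; dsimp only; omega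
      · rcases h1 with rfl | rfl | rfl | rfl <;> dsimp only <;> omega
      · omega
    obtain ⟨a1, a2⟩ := l1 hp
    obtain ⟨b1, b2⟩ := l1 hq
    have hpq : p ≠ q := by
      rintro rfl
      omega
    have hp0 : ∀ k, p ≠ (0, 0, k) := by
      rintro k rfl
      exact absurd a1 (by simp)
    have hq0 : ∀ k, q ≠ (0, 0, k) := by
      rintro k rfl
      exact absurd b1 (by simp)
    rcases h1 with rfl | rfl
    all_goals
      refine ⟨?_, rfl⟩
      simp only [List.nodup_cons, List.mem_cons, List.not_mem_nil, or_false, not_or,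
        List.nodup_nil, and_true, not_false_eq_true]
      exact ⟨⟨hpq, hp0 _, hp0 _⟩, ⟨hq0 _, hq0 _⟩, by simp⟩
  · unfold itO at hit
    simp only [List.mem_flatMap, List.mem_range, List.mem_cons, List.not_mem_nil, or_false] at hit
    obtain ⟨α, hα, i, hi, k, hk, h1⟩ := hit
    rcases h1 with rfl | rfl <;> exact ⟨by simp, rfl⟩
  · unfold itL at hit
    simp only [List.mem_flatMap, List.mem_range, List.mem_cons, List.not_mem_nil, or_false] at hit
    obtain ⟨α, hα, ⟨c, j⟩, hc, h1⟩ := hit
    have hpt : ∀ l : Bool × ℕ, (part α l).1 = 4 ∨ (part α l).1 = 5 := by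
      intro l
      unfold part
      split_ifs <;> simp
    have hne : ∀ (l : Bool × ℕ) (h : Hub), h.1 ≠ 4 → h.1 ≠ 5 → part α l ≠ h := by
      rintro l h h4 h5 rfl
      rcases hpt l with h | h
      exacts [h4 h, h5 h]
    rcases h1 with rfl | rfl | rfl
    all_goals
      refine ⟨?_, rfl⟩
      simp only [List.nodup_cons, List.mem_cons, List.not_mem_nil, or_false, not_or,
        List.nodup_nil, and_true, not_false_eq_true]
      refine ⟨⟨(hne _ _ (by simp) (by simp)).symm, by simp, by simp⟩,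
        ⟨hne _ _ (by simp) (by simp), hne _ _ (by simp) (by simp)⟩, by simp⟩

/-- The reduction for one bend. -/
noncomputable def red1 (φ : N3) : GCode :=
  gr (bT 1 4 (fam1 11521 φ).length) (fam1 11521 φ)

theorem red1_correct {φ : N3} (hb : BN φ) (si : Prop) : NAE3 φ ↔ RAC 1 si (red1 φ) := by
  constructor
  · intro h
    obtain ⟨hp, wp, ch, hd⟩ := complete1 11521 hb h (bT 1 4 (fam1 11521 φ).length)
    exact rac_weaken (rac_of_hd hd)
  · intro h
    obtain ⟨hp, wp, ch, hd⟩ := hd_of_rac (rac_simple (by norm_num) h)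
    obtain ⟨f, hf⟩ := geo1_good (fun E hE => fam1_card hE) le_rfl hd
    obtain ⟨R, B, hn, hs⟩ := geoA (by norm_num) (fun E hE => fam1_card hE) (by norm_num) hd hf
    exact core1 11521 le_rfl φ hb R B hn hs

/-- `RAC_1` is NP-hard. -/
theorem rac1_hard (si : Prop) : NPC.NPHardP (RAC 1 si) := by
  have h := R544.hardPr_NAE3.trans (Pr' := fun _ : GCode => True) (Q := RAC 1 si) (f := red1)
    (poly_red1 11521) (fun _ _ => trivial) (fun φ hb => red1_correct hb si)
  exact h.toHardI.toNPHardP

end Pool.Agent.RAC963
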