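import Pool.Agent.RAC963.Main1
import Pool.Agent.RAC963.Geo2
import Pool.Agent.RAC963.Core2

/-!
# `RAC_2` is NP-hard
-/

set_option autoImplicit false

namespace Pool.Agent.RAC963

open Pool.Agent

theorem locs_kind {F : ℕ} {φ : N3} {α : ℕ} {p : Hub} (hp : p ∈ locs F φ α) :
    3 ≤ p.1 ∧ p.2.1 = α := by
  unfold locs at hp
  simp only [List.mem_append, List.mem_flatMap, List.mem_map, List.mem_range, List.mem_cons,
    List.not_mem_nil, or_false] at hp
  rcases hp with ((⟨i, hi, h1⟩ | ⟨i, hi, h1⟩) | ⟨i, hi, h1⟩) | ⟨i, hi, h1⟩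
  · rcases h1 with rfl | rfl | rfl | rfl | rfl <;> dsimp only <;> omega
  · subst h1; dsimp only; omega
  · rcases h1 with rfl | rfl | rfl | rfl <;> dsimp only <;> omega
  · rcases h1 with rfl | rfl | rfl | rfl | rfl <;> dsimp only <;> omega

/-- The hyperedges of the item are duplicate-free. -/
def ItN (it : Item) : Prop := ∀ z1 ∈ it.2.1, ∀ z2 ∈ it.2.2.1, ∀ z3 ∈ it.2.2.2.1,
  ∀ z4 ∈ it.2.2.2.2, (it.1 ++ [z1, z2, z3, z4]).Nodup ∧ it.1.length = 4

theorem nodup8 {H : Type} {a b c d e f g h : H} (h1 : [a, b, c, d].Nodup)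
    (h2 : [e, f, g, h].Nodup) (h3 : ∀ x ∈ [a, b, c, d], ∀ y ∈ [e, f, g, h], x ≠ y) :
    ([a, b, c, d] ++ [e, f, g, h]).Nodup :=
  List.nodup_append.2 ⟨h1, h2, h3⟩

theorem mem_grA {M γ : ℕ} {z : Hub} (h : z ∈ grA M γ) : z.1 = 2 ∧ z.2.1 = γ ∧ z.2.2 < M := by
  unfold grA at h
  rw [List.mem_map] at h
  obtain ⟨i, hi, rfl⟩ := h
  exact ⟨rfl, rfl, List.mem_range.1 hi⟩

theorem mem_grB {M γ : ℕ} {z : Hub} (h : z ∈ grB M γ) : z.1 = 2 ∧ z.2.1 = γ ∧ M ≤ z.2.2 := by
  unfold grB at h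
  rw [List.mem_map] at h
  obtain ⟨i, hi, rfl⟩ := h
  exact ⟨rfl, rfl, Nat.le_add_right _ _⟩

theorem mem_pool {F α κ : ℕ} {z : Hub} (h : z ∈ pool F α κ) : z.1 = 12 + κ := by
  unfold pool at h
  rw [List.mem_map] at h
  obtain ⟨i, hi, rfl⟩ := h
  rfl

theorem itN_D {N M F : ℕ} {φ : N3} {it : Item} (h : it ∈ itD N M F φ) : ItN it := by
  unfold itD at h
  simp only [List.mem_flatMap, List.mem_range, List.mem_cons, List.not_mem_nil, or_false] at h
  obtain ⟨β, hβ, α, hα, p, hp, q, hq, h1⟩ := h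
  obtain ⟨a1, a2⟩ := locs_kind hp
  obtain ⟨b1, b2⟩ := locs_kind hq
  have hpq : p ≠ q := by
    rintro rfl
    omega
  have hp0 : ∀ k, p ≠ (0, 0, k) := by
    rintro k rfl
    exact absurd a1 (by simp)
  have hq0 : ∀ k, q ≠ (0, 0, k) := by
    rintro k rfl
    exact absurd b1 (by simp)
  have key : ∀ z1 ∈ grA M (α + 1), ∀ z2 ∈ grB M (α + 1), ∀ z3 ∈ grA M 0, ∀ z4 ∈ grA M N,
      [z1, z2, z3, z4].Nodup ∧ ∀ y ∈ [z1, z2, z3, z4], y.1 = 2 := by
    intro z1 h1 z2 h2 z3 h3 z4 h4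
    have e1 := mem_grA h1
    have e2 := mem_grB h2
    have e3 := mem_grA h3
    have e4 := mem_grA h4
    refine ⟨?_, ?_⟩
    · simp only [List.nodup_cons, List.mem_cons, List.not_mem_nil, or_false, not_or,
        List.nodup_nil, and_true, not_false_eq_true]
      refine ⟨⟨?_, ?_, ?_⟩, ⟨?_, ?_⟩, ?_⟩ <;> rintro rfl <;> omega
    · intro y hy
      simp only [List.mem_cons, List.not_mem_nil, or_false] at hy
      rcases hy with rfl | rfl | rfl | rfl
      exacts [e1.1, e2.1, e3.1, e4.1]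
  rcases h1 with rfl | rfl
  all_goals
    intro z1 h1 z2 h2 z3 h3 z4 h4
    obtain ⟨k1, k2⟩ := key z1 h1 z2 h2 z3 h3 z4 h4
    refine ⟨nodup8 ?_ k1 ?_, rfl⟩
    · simp only [List.nodup_cons, List.mem_cons, List.not_mem_nil, or_false, not_or,
        List.nodup_nil, and_true, not_false_eq_true]
      exact ⟨⟨hpq, hp0 _, hp0 _⟩, ⟨hq0 _, hq0 _⟩, by simp⟩
    · intro x hx y hy
      have hy2 := k2 y hy
      simp only [List.mem_cons, List.not_mem_nil, or_false] at hx
      rintro rfl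
      rcases hx with rfl | rfl | rfl | rfl
      · omega
      · omega
      · simp at hy2
      · simp at hy2

theorem pools_ok {F α : ℕ} {κ1 κ2 κ3 κ4 : ℕ} (hd : [κ1, κ2, κ3, κ4].Nodup) (h1 : 1 ≤ κ1)
    (h2 : 1 ≤ κ2) (h3 : 1 ≤ κ3) (h4 : 1 ≤ κ4) :
    ∀ z1 ∈ pool F α κ1, ∀ z2 ∈ pool F α κ2, ∀ z3 ∈ pool F α κ3, ∀ z4 ∈ pool F α κ4,
      [z1, z2, z3, z4].Nodup ∧ ∀ y ∈ [z1, z2, z3, z4], 13 ≤ y.1 := by
  intro z1 g1 z2 g2 z3 g3 z4 g4
  have e1 := mem_pool g1
  have e2 := mem_pool g2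
  have e3 := mem_pool g3
  have e4 := mem_pool g4
  simp only [List.nodup_cons, List.mem_cons, List.not_mem_nil, or_false, not_or,
    List.nodup_nil, and_true, not_false_eq_true] at hd
  refine ⟨?_, ?_⟩
  · simp only [List.nodup_cons, List.mem_cons, List.not_mem_nil, or_false, not_or,
      List.nodup_nil, and_true, not_false_eq_true]
    refine ⟨⟨?_, ?_, ?_⟩, ⟨?_, ?_⟩, ?_⟩ <;> rintro rfl <;> omega
  · intro y hy
    simp only [List.mem_cons, List.not_mem_nil, or_false] at hy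
    rcases hy with rfl | rfl | rfl | rfl <;> omega

theorem itN_O {N F : ℕ} {φ : N3} {it : Item} (h : it ∈ itO N F φ) : ItN it := by
  unfold itO at h
  simp only [List.mem_flatMap, List.mem_range, List.mem_cons, List.not_mem_nil, or_false] at h
  obtain ⟨α, hα, i, hi, k, hk, h1⟩ := h
  rcases h1 with rfl | rfl
  · intro z1 h1 z2 h2 z3 h3 z4 h4
    obtain ⟨k1, k2⟩ := pools_ok (F := F) (α := α) (κ1 := 5) (κ2 := 4) (κ3 := 1) (κ4 := 2)
      (by decide) (by norm_num) (by norm_num) (by norm_num) (by norm_num) z1 h1 z2 h2 z3 h3 z4 h4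
    refine ⟨nodup8 (by simp) k1 ?_, rfl⟩
    intro x hx y hy
    have hy2 := k2 y hy
    simp only [List.mem_cons, List.not_mem_nil, or_false] at hx
    rintro rfl
    rcases hx with rfl | rfl | rfl | rfl <;> simp at hy2
  · intro z1 h1 z2 h2 z3 h3 z4 h4
    obtain ⟨k1, k2⟩ := pools_ok (F := F) (α := α) (κ1 := 4) (κ2 := 1) (κ3 := 2) (κ4 := 3)
      (by decide) (by norm_num) (by norm_num) (by norm_num) (by norm_num) z1 h1 z2 h2 z3 h3 z4 h4
    refine ⟨nodup8 (by simp) k1 ?_, rfl⟩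
    intro x hx y hy
    have hy2 := k2 y hy
    simp only [List.mem_cons, List.not_mem_nil, or_false] at hx
    rintro rfl
    rcases hx with rfl | rfl | rfl | rfl <;> simp at hy2

theorem itN_L {N F : ℕ} {φ : N3} {it : Item} (h : it ∈ itL N F φ) : ItN it := by
  unfold itL at h
  simp only [List.mem_flatMap, List.mem_range, List.mem_cons, List.not_mem_nil, or_false] at h
  obtain ⟨α, hα, ⟨c, j⟩, hc, h1⟩ := h
  have hpt : ∀ l : Bool × ℕ, (part α l).1 = 4 ∨ (part α l).1 = 5 := by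
    intro l
    unfold part
    split_ifs <;> simp
  have hne : ∀ (l : Bool × ℕ) (h : Hub), h.1 ≠ 4 → h.1 ≠ 5 → part α l ≠ h := by
    rintro l h h4 h5 rfl
    rcases hpt l with h | h
    exacts [h4 h, h5 h]
  have key : ∀ (l : Bool × ℕ) (i κ : ℕ), 10 ≤ κ → κ ≤ 12 →
      ItN ([(3, α, i), part α l, (9, α, j), (κ, α, j)],
        pool F α 1, pool F α 2, pool F α 3, pool F α 4) := by
    intro l i κ hκ1 hκ2 z1 h1 z2 h2 z3 h3 z4 h4
    obtain ⟨k1, k2⟩ := pools_ok (F := F) (α := α) (κ1 := 1) (κ2 := 2) (κ3 := 3) (κ4 := 4)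
      (by decide) (by norm_num) (by norm_num) (by norm_num) (by norm_num) z1 h1 z2 h2 z3 h3 z4 h4
    refine ⟨nodup8 ?_ k1 ?_, rfl⟩
    · simp only [List.nodup_cons, List.mem_cons, List.not_mem_nil, or_false, not_or,
        List.nodup_nil, and_true, not_false_eq_true]
      refine ⟨⟨(hne _ _ (by simp) (by simp)).symm, by simp, ?_⟩,
        ⟨hne _ _ (by simp) (by simp), hne _ _ ?_ ?_⟩, ?_⟩
      · intro h
        have := congrArg Prod.fst h
        dsimp only at this
        omega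
      · dsimp only
        omega
      · dsimp only
        omega
      · intro h
        have := congrArg Prod.fst h
        dsimp only at this
        omega
    · intro x hx y hy
      have hy2 := k2 y hy
      simp only [List.mem_cons, List.not_mem_nil, or_false] at hx
      rintro rfl
      rcases hx with rfl | rfl | rfl | rfl
      · simp at hy2
      · rcases hpt l with h | h <;> omega
      · simp at hy2
      · dsimp only at hy2
        omega
  rcases h1 with rfl | rfl | rfl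
  exacts [key _ _ 10 (by norm_num) (by norm_num), key _ _ 11 (by norm_num) (by norm_num),
    key _ _ 12 (by norm_num) (by norm_num)]

theorem inert_card {M γ : ℕ} {E : List Hub} (h : E ∈ inert M γ) : E.Nodup ∧ E.length = 8 := by
  unfold inert at h
  simp only [List.mem_flatMap, List.mem_cons, List.not_mem_nil, or_false,
    List.mem_sublistsLen] at h
  obtain ⟨s, ⟨hs, hl⟩, hE⟩ := h
  have hn : s.Nodup := hs.nodup List.nodup_range
  have hm : (s.map (fun i => ((2, γ, i) : Hub))).Nodup := by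
    refine hn.map ?_
    intro a b hab
    simpa using hab
  rcases hE with rfl | rfl
  all_goals
    refine ⟨List.nodup_append.2 ⟨hm, by simp, ?_⟩, by simp [hl]⟩
    intro x hx y hy
    rw [List.mem_map] at hx
    obtain ⟨i, hi, rfl⟩ := hx
    simp only [List.mem_cons, List.not_mem_nil, or_false] at hy
    rcases hy with rfl | rfl <;> simp

theorem fam2_card {N M F : ℕ} {φ : N3} {E : List Hub} (hE : E ∈ fam2 N M F φ) :
    E.Nodup ∧ E.length = 8 := by
  unfold fam2 at hE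
  rw [List.mem_append, List.mem_flatMap, List.mem_flatMap] at hE
  rcases hE with ⟨it, hit, hE⟩ | ⟨γ, hγ, hE⟩
  · have hN : ItN it := by
      unfold items at hit
      simp only [List.mem_append] at hit
      rcases hit with (hit | hit) | hit
      exacts [itN_D hit, itN_O hit, itN_L hit]
    obtain ⟨z1, h1, z2, h2, z3, h3, z4, h4, rfl⟩ := mem_ext hE
    obtain ⟨k1, k2⟩ := hN z1 h1 z2 h2 z3 h3 z4 h4
    refine ⟨k1, ?_⟩
    rw [List.length_append, k2]
    rfl
  · exact inert_card hE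

/-- The reduction for two bends (with the three constants). -/
noncomputable def red2 (N M F : ℕ) (φ : N3) : GCode :=
  gr (bT 2 8 (fam2 N M F φ).length) (fam2 N M F φ)

theorem red2_correct {N M F : ℕ} (hN : 11521 ≤ N) (hM : 10 ^ 7 ≤ M) (hF : 40 ≤ F) {φ : N3}
    (hb : BN φ) (si : Prop) : NAE3 φ ↔ RAC 2 si (red2 N M F φ) := by
  constructor
  · intro h
    obtain ⟨hp, wp, ch, hd⟩ := complete2 N M F hb h (bT 2 8 (fam2 N M F φ).length)
    exact rac_weaken (rac_of_hd hd)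
  · intro h
    obtain ⟨hp, wp, ch, hd⟩ := hd_of_rac (rac_simple le_rfl h)
    obtain ⟨f, hf⟩ := geo2_good (fun E hE => fam2_card hE) le_rfl hd
    obtain ⟨R, B, hn, hs⟩ := geoA le_rfl (fun E hE => fam2_card hE) (by norm_num) hd hf
    exact core2 N M F hN hM hF φ hb R B hn hs

/-- `RAC_2` is NP-hard. -/
theorem rac2_hard (si : Prop) : NPC.NPHardP (RAC 2 si) := by
  obtain ⟨M, hM⟩ : ∃ M : ℕ, 10 ^ 7 ≤ M := ⟨_, le_rfl⟩
  obtain ⟨N, hN⟩ : ∃ N : ℕ, 11521 ≤ N := ⟨_, le_rfl⟩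
  have h := R544.hardPr_NAE3.trans (Pr' := fun _ : GCode => True) (Q := RAC 2 si)
    (f := red2 N M 40) (poly_red2 N M 40) (fun _ _ => trivial)
    (fun φ hb => red2_correct hN hM le_rfl hb si)
  exact h.toHardI.toNPHardP

end Pool.Agent.RAC963
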