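import Pool.Agent.RAC963.HD

set_option autoImplicit false

namespace Pool.Agent.RAC963

variable {H : Type} {R B : H → H → Prop}

theorem noK_inj {H : Type} (s : Finset H) (h : 3 ≤ s.card) :
    ∃ x : Fin 3 → H, Function.Injective x ∧ ∀ i, x i ∈ s := by
  obtain ⟨t, hts, ht⟩ := Finset.exists_subset_card_eq h
  refine ⟨fun i => ((t.equivFinOfCardEq ht).symm i : H), ?_, ?_⟩
  · intro i j hij
    exact (t.equivFinOfCardEq ht).symm.injective (Subtype.ext hij)
  · intro i
    exact hts ((t.equivFinOfCardEq ht).symm i).2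

/-- No `K₅,₄₁` in the union of the two relations. -/
theorem noK (hn : Nice R B) (A C : Finset H) (hA : A.card = 5) (hC : C.card = 41)
    (hd : Disjoint A C) (h : ∀ a ∈ A, ∀ c ∈ C, R a c ∨ B a c) : False := by
  classical
  have h1 : ∀ c : H, ∃ p : Bool × Finset H, c ∈ C → (p.2 ⊆ A ∧ p.2.card = 3 ∧
      ((p.1 = true → ∀ a ∈ p.2, R a c) ∧ (p.1 = false → ∀ a ∈ p.2, B a c))) := by
    intro c
    by_cases hc : c ∈ C
    · have h2 : A ⊆ (A.filter (fun a => R a c)) ∪ (A.filter (fun a => B a c)) := by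
        intro a ha
        rw [Finset.mem_union, Finset.mem_filter, Finset.mem_filter]
        rcases h a ha c hc with h3 | h3
        · exact Or.inl ⟨ha, h3⟩
        · exact Or.inr ⟨ha, h3⟩
      have h3 := (Finset.card_le_card h2).trans (Finset.card_union_le _ _)
      rw [hA] at h3
      by_cases h4 : 3 ≤ (A.filter (fun a => R a c)).card
      · obtain ⟨t, ht, ht3⟩ := Finset.exists_subset_card_eq h4
        refine ⟨(true, t), fun _ => ⟨ht.trans (Finset.filter_subset _ _), ht3, ?_, ?_⟩⟩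
        · intro _ a ha
          exact (Finset.mem_filter.1 (ht ha)).2
        · intro h5
          exact absurd h5 (by simp)
      · have h5 : 3 ≤ (A.filter (fun a => B a c)).card := by omega
        obtain ⟨t, ht, ht3⟩ := Finset.exists_subset_card_eq h5
        refine ⟨(false, t), fun _ => ⟨ht.trans (Finset.filter_subset _ _), ht3, ?_, ?_⟩⟩
        · intro h5
          exact absurd h5 (by simp)
        · intro _ a ha
          exact (Finset.mem_filter.1 (ht ha)).2
    · exact ⟨(true, ∅), fun h2 => absurd h2 hc⟩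
  choose cls hcls using h1
  have hmaps : ∀ c ∈ C, cls c ∈ (Finset.univ : Finset Bool) ×ˢ A.powersetCard 3 := by
    intro c hc
    rw [Finset.mem_product, Finset.mem_powersetCard]
    exact ⟨Finset.mem_univ _, (hcls c hc).1, (hcls c hc).2.1⟩
  have hcard : ((Finset.univ : Finset Bool) ×ˢ A.powersetCard 3).card * 2 < C.card := by
    rw [Finset.card_product, Finset.card_powersetCard, hA, hC]
    decide
  obtain ⟨p, hp, hp2⟩ := Finset.exists_lt_card_fiber_of_mul_lt_card_of_maps_to hmaps hcard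
  obtain ⟨y, hy, hy'⟩ := noK_inj _ (Nat.succ_le_of_lt hp2)
  have hyC : ∀ i, y i ∈ C := fun i => (Finset.mem_filter.1 (hy' i)).1
  have hyp : ∀ i, cls (y i) = p := fun i => (Finset.mem_filter.1 (hy' i)).2
  have hp3 : p.2.card = 3 := by
    rw [← hyp 0]; exact (hcls _ (hyC 0)).2.1
  have hpA : p.2 ⊆ A := by
    rw [← hyp 0]; exact (hcls _ (hyC 0)).1
  obtain ⟨x, hx, hx'⟩ := noK_inj p.2 (le_of_eq hp3.symm)
  have hxy : ∀ i j, x i ≠ y j := by
    intro i j hij
    exact (Finset.disjoint_left.1 hd) (hpA (hx' i)) (hij ▸ hyC j)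
  cases hb : p.1
  · refine hn.bk ⟨x, y, hx, hy, hxy, fun i j => ?_⟩
    have h5 := (hcls _ (hyC j)).2.2.2
    rw [hyp j] at h5
    exact h5 hb (x i) (hx' i)
  · refine hn.rk ⟨x, y, hx, hy, hxy, fun i j => ?_⟩
    have h5 := (hcls _ (hyC j)).2.2.1
    rw [hyp j] at h5
    exact h5 hb (x i) (hx' i)

/-- Among 46 vertices two are not related. -/
theorem exists_nonadj (hn : Nice R B) (S : Finset H) (hS : 46 ≤ S.card) :
    ∃ a ∈ S, ∃ b ∈ S, a ≠ b ∧ ¬ R a b ∧ ¬ B a b := by
  classical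
  by_contra hcon
  push Not at hcon
  obtain ⟨A, hA, hA5⟩ := Finset.exists_subset_card_eq (show 5 ≤ S.card by omega)
  have h1 : 41 ≤ (S \ A).card := by
    rw [Finset.card_sdiff_of_subset hA]; omega
  obtain ⟨C, hC, hC41⟩ := Finset.exists_subset_card_eq h1
  refine noK hn A C hA5 hC41 ?_ ?_
  · rw [Finset.disjoint_left]
    intro a ha hc
    exact (Finset.mem_sdiff.1 (hC hc)).2 ha
  · intro a ha c hc
    have h2 := Finset.mem_sdiff.1 (hC hc)
    have h3 : a ≠ c := fun h => h2.2 (h ▸ ha)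
    by_cases h4 : R a c
    · exact Or.inl h4
    · exact Or.inr (hcon a (hA ha) c h2.1 h3 h4)

/-- One step of the greedy choice. -/
theorem noK_step (hn : Nice R B) (s : ℕ) (S : Finset H) (hS : 5 * s + 45 ≤ S.card) :
    ∃ a ∈ S, ∃ S' ⊆ S, s ≤ S'.card ∧ a ∉ S' ∧ ∀ b ∈ S', ¬ R a b ∧ ¬ B a b := by
  classical
  obtain ⟨A, hA, hA5⟩ := Finset.exists_subset_card_eq (show 5 ≤ S.card by omega)
  have hU : 5 * s + 40 ≤ (S \ A).card := by
    rw [Finset.card_sdiff_of_subset hA]; omega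
  have hD : ((S \ A).filter (fun c => ∀ a ∈ A, R a c ∨ B a c)).card ≤ 40 := by
    by_contra hcon
    push Not at hcon
    obtain ⟨C, hC, hC41⟩ := Finset.exists_subset_card_eq
      (show 41 ≤ ((S \ A).filter (fun c => ∀ a ∈ A, R a c ∨ B a c)).card by omega)
    refine noK hn A C hA5 hC41 ?_ ?_
    · rw [Finset.disjoint_left]
      intro a ha hc
      exact (Finset.mem_sdiff.1 (Finset.mem_filter.1 (hC hc)).1).2 ha
    · intro a ha c hc
      exact (Finset.mem_filter.1 (hC hc)).2 a ha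
  have hU' : 5 * s ≤ ((S \ A).filter (fun c => ¬ ∀ a ∈ A, R a c ∨ B a c)).card := by
    have h1 := Finset.card_filter_add_card_filter_not (s := S \ A)
      (fun c => ∀ a ∈ A, R a c ∨ B a c)
    omega
  have h2 : ∀ c : H, ∃ a : H, c ∈ (S \ A).filter (fun c => ¬ ∀ a ∈ A, R a c ∨ B a c) →
      a ∈ A ∧ ¬ R a c ∧ ¬ B a c := by
    intro c
    by_cases hc : c ∈ (S \ A).filter (fun c => ¬ ∀ a ∈ A, R a c ∨ B a c)
    · have h3 := (Finset.mem_filter.1 hc).2
      push Not at h3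
      obtain ⟨a, ha, ha'⟩ := h3
      exact ⟨a, fun _ => ⟨ha, ha'⟩⟩
    · exact ⟨c, fun h => absurd h hc⟩
  choose f hf using h2
  have hne : A.Nonempty := by
    rw [← Finset.card_pos]; omega
  obtain ⟨a, ha, hfib⟩ := Finset.exists_le_card_fiber_of_mul_le_card_of_maps_to
    (fun c hc => (hf c hc).1) hne (by rw [hA5]; exact hU')
  refine ⟨a, hA ha, _, ?_, hfib, ?_, ?_⟩
  · intro c hc
    exact (Finset.mem_sdiff.1 (Finset.mem_filter.1 (Finset.mem_filter.1 hc).1).1).1
  · intro hc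
    exact (Finset.mem_sdiff.1 (Finset.mem_filter.1 (Finset.mem_filter.1 hc).1).1).2 ha
  · intro b hb
    have h3 := Finset.mem_filter.1 hb
    have h4 := hf b h3.1
    rw [h3.2] at h4
    exact h4.2

/-- Adding one vertex to a set of pairwise not related vertices. -/
theorem noK_iter (hn : Nice R B) (k s : ℕ)
    (h : ∀ S : Finset H, s ≤ S.card →
      ∃ A : Finset H, A ⊆ S ∧ A.card = k ∧ ∀ a ∈ A, ∀ b ∈ A, ¬ R a b ∧ ¬ B a b)
    (S : Finset H) (hS : 5 * s + 45 ≤ S.card) :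
    ∃ A : Finset H, A ⊆ S ∧ A.card = k + 1 ∧ ∀ a ∈ A, ∀ b ∈ A, ¬ R a b ∧ ¬ B a b := by
  classical
  obtain ⟨a, ha, S', hS', hs, haS, hrel⟩ := noK_step hn s S hS
  obtain ⟨A, hA, hAk, hAr⟩ := h S' hs
  refine ⟨insert a A, ?_, ?_, ?_⟩
  · intro x hx
    rcases Finset.mem_insert.1 hx with rfl | hx
    · exact ha
    · exact hS' (hA hx)
  · rw [Finset.card_insert_of_notMem (fun h => haS (hA h)), hAk]
  · intro x hx y hy
    rcases Finset.mem_insert.1 hx with ex | hx1 <;> rcases Finset.mem_insert.1 hy with ey | hy1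
    · rw [ex, ey]; exact ⟨hn.ri _, hn.bi _⟩
    · rw [ex]; exact hrel y (hA hy1)
    · have := hrel x (hA hx1)
      rw [ey]
      exact ⟨fun h => this.1 (hn.rs _ _ h), fun h => this.2 (hn.bs _ _ h)⟩
    · exact hAr x hx1 y hy1

/-- Among 38270 vertices there are six pairwise not related ones. -/
theorem exists_indep6 (hn : Nice R B) (S : Finset H) (hS : 38270 ≤ S.card) :
    ∃ A : Finset H, A ⊆ S ∧ A.card = 6 ∧ ∀ a ∈ A, ∀ b ∈ A, ¬ R a b ∧ ¬ B a b := by
  have h1 : ∀ S : Finset H, 1 ≤ S.card →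
      ∃ A : Finset H, A ⊆ S ∧ A.card = 1 ∧ ∀ a ∈ A, ∀ b ∈ A, ¬ R a b ∧ ¬ B a b := by
    intro S hS
    obtain ⟨A, hA, hA1⟩ := Finset.exists_subset_card_eq hS
    refine ⟨A, hA, hA1, ?_⟩
    obtain ⟨z, rfl⟩ := Finset.card_eq_one.1 hA1
    intro a ha b hb
    rw [Finset.mem_singleton] at ha hb
    subst ha; subst hb
    exact ⟨hn.ri _, hn.bi _⟩
  have h2 := noK_iter hn 1 1 h1
  have h3 := noK_iter hn 2 50 h2
  have h4 := noK_iter hn 3 295 h3
  have h5 := noK_iter hn 4 1520 h4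
  exact noK_iter hn 5 7645 h5 S hS

end Pool.Agent.RAC963
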