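import Pool.Agent.RAC963.HD

/-!
# Arms, mids and tails; good reps
-/

set_option autoImplicit false

namespace Pool.Agent.RAC963

/-- The last segment of a chain. -/
def IsTail (c : List Pt) (s : Pt × Pt) : Prop := (segs c).getLast? = some s

/-- The last but one segment of a chain. -/
def IsMid (c : List Pt) (s : Pt × Pt) : Prop := (segs c).dropLast.getLast? = some s

/-- The last but two segment of a chain (the first one of three). -/
def IsArm (c : List Pt) (s : Pt × Pt) : Prop := (segs c).dropLast.dropLast.getLast? = some s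

/-- The direction of the segment is red: `dx dy > 0` or `dy = 0`. -/
def RedDir (s : Pt × Pt) : Prop :=
  0 < (s.2.1 - s.1.1) * (s.2.2 - s.1.2) ∨ s.2.2 - s.1.2 = 0

/-- The chain is red: its mid, if it has one, is red. -/
def Red (c : List Pt) : Prop := ∀ s, IsMid c s → RedDir s

/-- Twice the signed area of the triangle formed by the segment `s` and the point `w`. -/
def side (s : Pt × Pt) (w : Pt) : ℝ :=
  (s.2.1 - s.1.1) * (w.2 - s.1.2) - (s.2.2 - s.1.2) * (w.1 - s.1.1)

/-- `(j, i)` is a slot: one of the `nr q` places for reps of the hyperedge number `j`. -/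
def Slot {H : Type} (𝓔 : List (List H)) (q j i : ℕ) : Prop := j < 𝓔.length ∧ i < nr q

/-- Some segment of an edge between another rep and another hub meets the arm of the edge between
the rep `(j, f j i)` and the hub `h`. -/
def Crossed {H : Type} (𝓔 : List (List H)) (q : ℕ) (ch : ℕ → ℕ → H → List Pt) (f : ℕ → ℕ → ℕ)
    (j i : ℕ) (h : H) : Prop :=
  ∃ (j' i' : ℕ) (h' : H) (s s' : Pt × Pt), Slot 𝓔 q j' i' ∧ ¬ (j' = j ∧ i' = i) ∧ In 𝓔 j' h' ∧
    h' ≠ h ∧ IsArm (ch j (f j i) h) s ∧ s' ∈ segs (ch j' (f j' i') h') ∧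
    ∃ z, z ∈ segment ℝ s.1 s.2 ∧ z ∈ segment ℝ s'.1 s'.2

/-- Good reps: the rep of the slot `(j, i)` is the twin `(j, f j i)`; no edge of a rep meets the
tail of an edge between another rep and another hub, and every rep has at most `c` crossed arms. -/
structure Good {H : Type} (q c : ℕ) (𝓔 : List (List H)) (T : ℕ) (ch : ℕ → ℕ → H → List Pt)
    (f : ℕ → ℕ → ℕ) : Prop where
  lt : ∀ j i, Slot 𝓔 q j i → f j i < T
  inj : ∀ j i i', Slot 𝓔 q j i → Slot 𝓔 q j i' → f j i = f j i' → i = i'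
  tail : ∀ j i j' i', Slot 𝓔 q j i → Slot 𝓔 q j' i' → ¬ (j' = j ∧ i' = i) →
    ∀ h h', In 𝓔 j h → In 𝓔 j' h' → h' ≠ h → ∀ s s', IsTail (ch j (f j i) h) s →
      s' ∈ segs (ch j' (f j' i') h') → ∀ z, z ∈ segment ℝ s.1 s.2 → z ∉ segment ℝ s'.1 s'.2
  arm : ∀ j i, Slot 𝓔 q j i → ∀ A : Finset H,
    (∀ h ∈ A, In 𝓔 j h ∧ Crossed 𝓔 q ch f j i h) → A.card ≤ c

end Pool.Agent.RAC963
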